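import Mathlib

/-! Bundle of small proof modules (one section per former module). -/

section

/-!
# MP_d159ed_nt, part A: density Hales-Jewett and Szemeredi on ZMod M

Definitions and the exact statements (as Props) of the modules of part A.
Alphabet Fin k; words over a finite index type; combinatorial lines and subspaces are those of
Mathlib (Combinatorics.Line, Combinatorics.Subspace).
-/

set_option autoImplicit false

namespace D159

open Finset Combinatorics
open scoped BigOperators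

/-- The line of `ι → α` obtained from a line in the parameter space of a subspace. -/
def compLine {η α ι : Type} (V : Subspace η α ι) (l : Line α η) : Line α ι where
  idxFun i := Sum.elim (fun a => some a) (fun e => l.idxFun e) (V.idxFun i)
  proper := by
    obtain ⟨e, he⟩ := l.proper
    obtain ⟨i, hi⟩ := V.proper e
    exact ⟨i, by simp [hi, he]⟩

/-- Composition of subspaces. -/
def compSub {η θ α ι : Type} (V : Subspace η α ι) (W : Subspace θ α η) : Subspace θ α ι where
  idxFun i := Sum.elim (fun a => Sum.inl a) (fun e => W.idxFun e) (V.idxFun i)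
  proper := by
    intro t
    obtain ⟨e, he⟩ := W.proper t
    obtain ⟨i, hi⟩ := V.proper e
    exact ⟨i, by simp [hi, he]⟩

theorem compLine_apply {η α ι : Type} (V : Subspace η α ι) (l : Line α η) (x : α) :
    compLine V l x = V (l x) := by
  funext i
  simp only [Line.coe_apply, Subspace.coe_apply, compLine]
  cases h : V.idxFun i <;> simp

theorem compSub_apply {η θ α ι : Type} (V : Subspace η α ι) (W : Subspace θ α η) (x : θ → α) :
    compSub V W x = V (W x) := by
  funext i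
  simp only [Subspace.coe_apply, compSub]
  cases h : V.idxFun i <;> simp [Subspace.coe_apply]

theorem compLine_compSub {η θ α ι : Type} (V : Subspace η α ι) (W : Subspace θ α η)
    (l : Line α θ) : compLine (compSub V W) l = compLine V (compLine W l) := by
  have : ∀ i, (compLine (compSub V W) l).idxFun i = (compLine V (compLine W l)).idxFun i := by
    intro i
    simp only [compLine, compSub]
    cases h : V.idxFun i <;> simp
  cases h1 : compLine (compSub V W) l
  cases h2 : compLine V (compLine W l)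
  simp only [h1, h2] at this
  congr
  exact funext this

/-- Density Hales-Jewett for alphabets of size k. -/
def DHJ (k : ℕ) : Prop :=
  ∀ δ : ℝ, 0 < δ → ∃ N : ℕ, ∀ (ι : Type) [Fintype ι] [DecidableEq ι], N ≤ Fintype.card ι →
    ∀ A : Finset (ι → Fin k), δ * (k : ℝ) ^ Fintype.card ι ≤ (A.card : ℝ) →
      ∃ l : Line (Fin k) ι, ∀ x, l x ∈ A

/-- Multidimensional density Hales-Jewett. -/
def MDHJ (k : ℕ) : Prop :=
  ∀ (d : ℕ) (δ : ℝ), 0 < δ → ∃ N : ℕ, ∀ (ι : Type) [Fintype ι] [DecidableEq ι],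
    N ≤ Fintype.card ι → ∀ A : Finset (ι → Fin k),
      δ * (k : ℝ) ^ Fintype.card ι ≤ (A.card : ℝ) →
      ∃ V : Subspace (Fin d) (Fin k) ι, ∀ x, V x ∈ A

/-- A1. -/
def ClaimA1 : Prop := ∀ k : ℕ, 1 ≤ k → DHJ k → MDHJ k

/-- Two lines agree up to and including their first wildcard coordinate. -/
def SamePrefix {k M : ℕ} (l l' : Line (Fin k) (Fin M)) : Prop :=
  ∃ i : Fin M, l.idxFun i = none ∧ l'.idxFun i = none ∧
    ∀ j < i, l.idxFun j ≠ none ∧ l.idxFun j = l'.idxFun j

/-- A2a: pass to a subspace on which the colour of a line depends only on the prefix before its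
first wildcard. -/
def ClaimA2a : Prop :=
  ∀ k : ℕ, 1 ≤ k → ∀ M : ℕ, ∀ (κ : Type) [Finite κ], ∃ N : ℕ,
    ∀ (ι : Type) [Fintype ι] [DecidableEq ι], N ≤ Fintype.card ι →
      ∀ C : Line (Fin k) ι → κ, ∃ V : Subspace (Fin M) (Fin k) ι,
        ∀ l l' : Line (Fin k) (Fin M), SamePrefix l l' → C (compLine V l) = C (compLine V l')

/-- A2b: a prefix colouring of lines has a monochromatic subspace. -/
def ClaimA2b : Prop :=
  ∀ k : ℕ, 1 ≤ k → ∀ m : ℕ, ∀ (κ : Type) [Finite κ], ∃ M : ℕ,
    ∀ C : Line (Fin k) (Fin M) → κ, (∀ l l', SamePrefix l l' → C l = C l') →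
      ∃ V : Subspace (Fin m) (Fin k) (Fin M), ∀ l l' : Line (Fin k) (Fin m),
        C (compLine V l) = C (compLine V l')

/-- Graham-Rothschild for lines. -/
def GRLines : Prop :=
  ∀ k : ℕ, 1 ≤ k → ∀ m : ℕ, ∀ (κ : Type) [Finite κ], ∃ N : ℕ,
    ∀ (ι : Type) [Fintype ι] [DecidableEq ι], N ≤ Fintype.card ι →
      ∀ C : Line (Fin k) ι → κ, ∃ V : Subspace (Fin m) (Fin k) ι,
        ∀ l l' : Line (Fin k) (Fin m), C (compLine V l) = C (compLine V l')

/-- A2: assembly of Graham-Rothschild for lines. -/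
def ClaimA2 : Prop := ClaimA2a → ClaimA2b → GRLines

theorem claimA2 : ClaimA2 := by
  intro h1 h2 k hk m κ _
  obtain ⟨M, hM⟩ := h2 k hk m κ
  obtain ⟨N, hN⟩ := h1 k hk M κ
  refine ⟨N, ?_⟩
  intro ι _ _ hι C
  obtain ⟨V, hV⟩ := hN ι hι C
  obtain ⟨W, hW⟩ := hM (fun l => C (compLine V l)) hV
  refine ⟨compSub V W, ?_⟩
  intro l l'
  rw [compLine_compSub, compLine_compSub]
  exact hW l l'

/-- `E` is insensitive under exchanging the letter `a` and the last letter. -/
def Insens {k : ℕ} {ι : Type} (a : Fin k) (E : Finset (ι → Fin (k + 1))) : Prop :=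
  ∀ x y : ι → Fin (k + 1),
    (∀ i, x i = y i ∨ ((x i = a.castSucc ∨ x i = Fin.last k) ∧
      (y i = a.castSucc ∨ y i = Fin.last k))) → (x ∈ E ↔ y ∈ E)

/-- Dense insensitive sets contain subspaces. -/
def InsDense (k : ℕ) (a : Fin k) : Prop :=
  ∀ (d : ℕ) (γ : ℝ), 0 < γ → ∃ N : ℕ, ∀ (ι : Type) [Fintype ι] [DecidableEq ι],
    N ≤ Fintype.card ι → ∀ E : Finset (ι → Fin (k + 1)), Insens a E →
      γ * ((k : ℝ) + 1) ^ Fintype.card ι ≤ (E.card : ℝ) →
      ∃ V : Subspace (Fin d) (Fin (k + 1)) ι, ∀ x, V x ∈ E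

/-- A3a. -/
def ClaimA3a : Prop := ∀ k : ℕ, 1 ≤ k → MDHJ k → ∀ a : Fin k, InsDense k a

/-- Partition of one insensitive set into subspaces, up to a small error. -/
def InsPart (k : ℕ) (a : Fin k) : Prop :=
  ∀ (d : ℕ) (γ : ℝ), 0 < γ → ∃ N : ℕ, ∀ (ι : Type) [Fintype ι] [DecidableEq ι],
    N ≤ Fintype.card ι → ∀ E : Finset (ι → Fin (k + 1)), Insens a E →
      ∃ 𝒱 : Finset (Subspace (Fin d) (Fin (k + 1)) ι),
        (∀ V ∈ 𝒱, ∀ x, V x ∈ E) ∧
        (∀ V ∈ 𝒱, ∀ W ∈ 𝒱, V ≠ W → ∀ x y, V x ≠ W y) ∧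
        (E.card : ℝ) ≤ (𝒱.card : ℝ) * ((k : ℝ) + 1) ^ d + γ * ((k : ℝ) + 1) ^ Fintype.card ι

/-- A3b. -/
def ClaimA3b : Prop := ∀ k : ℕ, 1 ≤ k → ∀ a : Fin k, InsDense k a → InsPart k a

/-- Partition of an intersection of insensitive sets, one for each letter. -/
def InterPart (k : ℕ) : Prop :=
  ∀ (d : ℕ) (γ : ℝ), 0 < γ → ∃ N : ℕ, ∀ (ι : Type) [Fintype ι] [DecidableEq ι],
    N ≤ Fintype.card ι → ∀ E : Fin k → Finset (ι → Fin (k + 1)), (∀ a, Insens a (E a)) →
      ∃ 𝒱 : Finset (Subspace (Fin d) (Fin (k + 1)) ι),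
        (∀ V ∈ 𝒱, ∀ x a, V x ∈ E a) ∧
        (∀ V ∈ 𝒱, ∀ W ∈ 𝒱, V ≠ W → ∀ x y, V x ≠ W y) ∧
        ((univ.filter (fun x : ι → Fin (k + 1) => ∀ a, x ∈ E a)).card : ℝ) ≤
          (𝒱.card : ℝ) * ((k : ℝ) + 1) ^ d + γ * ((k : ℝ) + 1) ^ Fintype.card ι

/-- A3c. -/
def ClaimA3c : Prop := ∀ k : ℕ, 1 ≤ k → (∀ a : Fin k, InsPart k a) → InterPart k

/-- A4: a block of coordinates such that every slice has almost full density. -/
def ClaimA4 : Prop :=
  ∀ K : ℕ, 1 ≤ K → ∀ (m : ℕ) (ε : ℝ), 0 < ε → ∃ N : ℕ,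
    ∀ (ι : Type) [Fintype ι] [DecidableEq ι], N ≤ Fintype.card ι →
      ∀ A : Finset (ι → Fin K), ∃ B : Finset ι, B.card = m ∧
        ∀ x : ι → Fin K,
          ((A.card : ℝ) / (K : ℝ) ^ Fintype.card ι - ε) * (K : ℝ) ^ (Fintype.card ι - m) ≤
            ((A.filter (fun y => ∀ i ∈ B, y i = x i)).card : ℝ)

/-- The conclusion of A5a. -/
def LinesGood (k : ℕ) : Prop :=
  ∀ δ : ℝ, 0 < δ → ∃ θ : ℝ, 0 < θ ∧ ∃ m0 : ℕ, ∀ m1 ≥ m0, ∃ N : ℕ,
    ∀ (ι : Type) [Fintype ι] [DecidableEq ι], N ≤ Fintype.card ι →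
      ∀ (Y : Type) [Fintype Y] [Nonempty Y] [DecidableEq Y] (A : (ι → Fin (k + 1)) → Finset Y),
        (∀ x, δ * (Fintype.card Y : ℝ) ≤ ((A x).card : ℝ)) →
        ∃ W : Subspace (Fin m1) (Fin (k + 1)) ι, ∀ l : Line (Fin (k + 1)) (Fin m1),
          θ * (Fintype.card Y : ℝ) ≤
            ((univ.filter (fun y : Y => ∀ a : Fin k, y ∈ A (W (l a.castSucc)))).card : ℝ)

/-- A5a. -/
def ClaimA5a : Prop := ∀ k : ℕ, 1 ≤ k → DHJ k → GRLines → LinesGood k

/-- Density increment on an intersection of insensitive sets. -/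
def Increment (k : ℕ) : Prop :=
  ∀ δ0 : ℝ, 0 < δ0 → ∃ η : ℝ, 0 < η ∧ ∃ m0 : ℕ, ∀ m1 ≥ m0, ∃ N : ℕ,
    ∀ (ι : Type) [Fintype ι] [DecidableEq ι], N ≤ Fintype.card ι →
      ∀ δ : ℝ, δ0 ≤ δ → ∀ A : Finset (ι → Fin (k + 1)),
        δ * ((k : ℝ) + 1) ^ Fintype.card ι ≤ (A.card : ℝ) →
        (∃ l : Line (Fin (k + 1)) ι, ∀ x, l x ∈ A) ∨
        ∃ W : Subspace (Fin m1) (Fin (k + 1)) ι,
          ∃ E : Fin k → Finset (Fin m1 → Fin (k + 1)),
            (∀ a, Insens a (E a)) ∧
            η * ((k : ℝ) + 1) ^ m1 ≤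
              ((univ.filter (fun x : Fin m1 → Fin (k + 1) => ∀ a, x ∈ E a)).card : ℝ) ∧
            (δ + η) * ((univ.filter (fun x : Fin m1 → Fin (k + 1) => ∀ a, x ∈ E a)).card : ℝ) ≤
              ((univ.filter (fun x : Fin m1 → Fin (k + 1) =>
                (∀ a, x ∈ E a) ∧ W x ∈ A)).card : ℝ)

/-- A5b. -/
def ClaimA5b : Prop := ∀ k : ℕ, 1 ≤ k → LinesGood k → ClaimA4 → Increment k

/-- A6. -/
def ClaimA6 : Prop := ∀ k : ℕ, 1 ≤ k → Increment k → InterPart k → DHJ (k + 1)

/-- A7: the base case. -/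
def ClaimA7 : Prop := DHJ 1

/-- Szemeredi for 5 terms, functional form on cyclic groups of prime order. -/
def Szem5 : Prop :=
  ∀ δ : ℝ, 0 < δ → ∃ c : ℝ, 0 < c ∧ ∃ M0 : ℕ, ∀ (M : ℕ) [NeZero M], M.Prime → M0 ≤ M →
    ∀ g : ZMod M → ℝ, (∀ x, 0 ≤ g x) → (∀ x, g x ≤ 1) → δ ≤ 𝔼 x, g x →
      c ≤ 𝔼 x, 𝔼 d, ∏ i : Fin 5, g (x + (i : ℕ) * d)

/-- A8. -/
def ClaimA8 : Prop := DHJ 5 → Szem5

/-- Assembly of part A. -/
theorem szem5_of_claims (a1 : ClaimA1) (a2a : ClaimA2a) (a2b : ClaimA2b) (a3a : ClaimA3a)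
    (a3b : ClaimA3b) (a3c : ClaimA3c) (a4 : ClaimA4) (a5a : ClaimA5a) (a5b : ClaimA5b)
    (a6 : ClaimA6) (a7 : ClaimA7) (a8 : ClaimA8) : Szem5 := by
  have step : ∀ k : ℕ, 1 ≤ k → DHJ k → DHJ (k + 1) := by
    intro k hk h
    have hgr := claimA2 a2a a2b
    exact a6 k hk (a5b k hk (a5a k hk h hgr) a4)
      (a3c k hk (fun a => a3b k hk a (a3a k hk (a1 k hk h) a)))
  exact a8 (step 4 (by norm_num) (step 3 (by norm_num) (step 2 (by norm_num)
    (step 1 le_rfl a7))))

end D159

end

section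

/-!
# MP_d159ed_nt, part D: primes congruent to 1 in a progression, by high derivatives at a real point

`wt σ j n = (log n)^j / j! * n^(-σ)`. For a Dirichlet character χ mod q, `ell χ σ j` is the sum of
`χ n * wt σ j n` (so up to sign the normalised derivative of the L-function at σ), and `fL χ σ j`
the same with the von Mangoldt function.
-/

set_option autoImplicit false

namespace D159

open Finset
open scoped BigOperators ArithmeticFunction.vonMangoldt

/-- the weight (log n)^j / j! * n^(-σ) -/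
noncomputable def wt (σ : ℝ) (j n : ℕ) : ℝ :=
  (Real.log n) ^ j / (j.factorial : ℝ) * (n : ℝ) ^ (-σ)

/-- the normalised derivative of L at σ (up to sign) -/
noncomputable def ell {q : ℕ} (χ : DirichletCharacter ℂ q) (σ : ℝ) (j : ℕ) : ℂ :=
  ∑' n : ℕ, χ n * ((wt σ j n : ℝ) : ℂ)

/-- the normalised derivative of minus the logarithmic derivative of L at σ (up to sign) -/
noncomputable def fL {q : ℕ} (χ : DirichletCharacter ℂ q) (σ : ℝ) (j : ℕ) : ℂ :=
  ∑' n : ℕ, χ n * ((Λ n * wt σ j n : ℝ) : ℂ)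

/-- D1: bounds for the derivatives of L, χ nonprincipal. -/
def ClaimD1 : Prop :=
  ∀ (q : ℕ) [NeZero q] (χ : DirichletCharacter ℂ q), χ ≠ 1 → ∀ σ : ℝ, 1 < σ → σ ≤ 2 → ∀ j : ℕ,
    ‖ell χ σ j‖ ≤ (8 * (1 + Real.log q)) ^ (j + 1)

/-- D1': Lipschitz bound in σ, χ nonprincipal. -/
def ClaimD1' : Prop :=
  ∀ (q : ℕ) [NeZero q] (χ : DirichletCharacter ℂ q), χ ≠ 1 → ∀ σ σ' : ℝ, 1 < σ' → σ' ≤ σ → σ ≤ 2 →
    ‖ell χ σ 0 - ell χ σ' 0‖ ≤ (σ - σ') * (8 * (1 + Real.log q)) ^ 2

/-- D2: the recursion between the derivatives. -/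
def ClaimD2 : Prop :=
  ∀ (q : ℕ) [NeZero q] (χ : DirichletCharacter ℂ q) (σ : ℝ), 1 < σ → ∀ m : ℕ,
    ((m : ℂ) + 1) * ell χ σ (m + 1) = ∑ j ∈ range (m + 1), ell χ σ (m - j) * fL χ σ j

/-- D2b: the bound deduced from the recursion (pure lemma on sequences). -/
def ClaimD2b : Prop :=
  ∀ (l f : ℕ → ℂ) (a θ : ℝ), 1 ≤ a → 0 < θ → a * θ ≤ 1 / 4 → (∀ j, ‖l j‖ ≤ a ^ (j + 1)) →
    3 * a ^ 2 * θ ≤ ‖l 0‖ →
    (∀ m : ℕ, ((m : ℂ) + 1) * l (m + 1) = ∑ j ∈ range (m + 1), l (m - j) * f j) →
    ∀ m : ℕ, ‖f m‖ ≤ (1 / θ) ^ (m + 1)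

/-- D3: orthogonality of characters. -/
def ClaimD3 : Prop :=
  ∀ (q : ℕ) [NeZero q] (σ : ℝ), 1 < σ → ∀ m : ℕ,
    (((∑' n : ℕ, (if (n : ZMod q) = 1 then Λ n * wt σ m n else 0)) : ℝ) : ℂ) =
      (1 / (Nat.totient q : ℂ)) * ∑ χ : DirichletCharacter ℂ q, fL χ σ m

/-- D4: the principal character. -/
def ClaimD4 : Prop :=
  ∃ c : ℝ, 0 < c ∧ ∃ η0 : ℝ, 0 < η0 ∧ ∀ (q : ℕ) [NeZero q] (m : ℕ) (η : ℝ), 1 ≤ m →
    Real.log q ≤ m → 0 < η → η ≤ η0 →
    c * (1 / η) ^ (m + 1) ≤ ∑' n : ℕ, (if n.Coprime q then Λ n * wt (1 + η) m n else 0)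

/-- D5: proper prime powers are negligible. -/
def ClaimD5 : Prop :=
  ∃ C : ℝ, 0 < C ∧ ∀ (m : ℕ) (η : ℝ), 0 < η →
    Summable (fun n : ℕ => if n.Prime then 0 else Λ n * wt (1 + η) m n) ∧
    ∑' n : ℕ, (if n.Prime then 0 else Λ n * wt (1 + η) m n) ≤ C * 4 ^ m

/-- the abscissa distance η(z) = z^(-60) -/
noncomputable def eta (z : ℕ) : ℝ := 1 / (z : ℝ) ^ 60

/-- all nonprincipal characters mod q satisfy the lower bound for L at 1 + η(z) -/
def GoodMod (z q : ℕ) : Prop :=
  ∀ χ : DirichletCharacter ℂ q, χ ≠ 1 →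
    384 * (1 + (z : ℝ) ^ 6) ^ 2 * eta z ≤ ‖ell χ (1 + eta z) 0‖

/-- all moduli up to exp(z^6) are good -/
def GoodZ (z : ℕ) : Prop :=
  ∀ (q : ℕ) [NeZero q], (q : ℝ) ≤ Real.exp ((z : ℝ) ^ 6) → GoodMod z q

/-- Lower bound for primes congruent to 1 mod q, weighted. -/
def WeightedPrimes : Prop :=
  ∃ c : ℝ, 0 < c ∧ ∃ z1 : ℕ, ∀ z ≥ z1, ∀ (q : ℕ) [NeZero q],
    (q : ℝ) ≤ Real.exp ((z : ℝ) ^ 6) → GoodMod z q →
    c * ((z : ℝ) ^ 60) ^ (2 * z ^ 6 + 1) / (Nat.totient q : ℝ) ≤
      ∑' n : ℕ, (if n.Prime ∧ (n : ZMod q) = 1 then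
        Real.log n * wt (1 + eta z) (2 * z ^ 6) n else 0)

/-- D6. -/
def ClaimD6 : Prop :=
  ClaimD1 → ClaimD2 → ClaimD2b → ClaimD3 → ClaimD4 → ClaimD5 → WeightedPrimes

/-- D7a: characters with χ^2 nonprincipal are always fine. -/
def ClaimD7a : Prop :=
  ClaimD1 → ∃ z1 : ℕ, ∀ z ≥ z1, ∀ (q : ℕ) [NeZero q], (q : ℝ) ≤ Real.exp ((z : ℝ) ^ 6) →
    ∀ χ : DirichletCharacter ℂ q, χ ^ 2 ≠ 1 →
      384 * (1 + (z : ℝ) ^ 6) ^ 2 * eta z ≤ ‖ell χ (1 + eta z) 0‖

/-- product of two characters as a character modulo the product of the moduli -/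
noncomputable def mulCh {q1 q2 : ℕ} (χ1 : DirichletCharacter ℂ q1)
    (χ2 : DirichletCharacter ℂ q2) : DirichletCharacter ℂ (q1 * q2) :=
  DirichletCharacter.changeLevel (Dvd.intro q2 rfl) χ1 *
    DirichletCharacter.changeLevel (Dvd.intro_left q1 rfl) χ2

/-- D7b: repulsion of two inequivalent quadratic characters. -/
def ClaimD7b : Prop :=
  ClaimD1 → ∀ (q1 q2 : ℕ) [NeZero q1] [NeZero q2] (χ1 : DirichletCharacter ℂ q1)
    (χ2 : DirichletCharacter ℂ q2), χ1 ^ 2 = 1 → χ2 ^ 2 = 1 → mulCh χ1 χ2 ≠ 1 →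
    ∀ η : ℝ, 0 < η → η ≤ 1 →
      η / (16 * (1 + Real.log q1 + Real.log q2)) ≤ ‖ell χ1 (1 + η) 0‖ * ‖ell χ2 (1 + η) 0‖

/-- D7c: comparison of L-values of equivalent quadratic characters. -/
def ClaimD7c : Prop :=
  ∀ (q1 q2 : ℕ) [NeZero q1] [NeZero q2] (χ1 : DirichletCharacter ℂ q1)
    (χ2 : DirichletCharacter ℂ q2), χ1 ^ 2 = 1 → χ2 ^ 2 = 1 → mulCh χ1 χ2 = 1 →
    ∀ σ : ℝ, 1 < σ →
      ‖ell χ2 σ 0‖ ≤ 2 ^ q2 * (2 + 2 * Real.log q1) * ‖ell χ1 σ 0‖

/-- D7d: equivalence of quadratic characters is a Euclidean relation. -/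
def ClaimD7d : Prop :=
  ∀ (q1 q2 q3 : ℕ) [NeZero q1] [NeZero q2] [NeZero q3] (χ1 : DirichletCharacter ℂ q1)
    (χ2 : DirichletCharacter ℂ q2) (χ3 : DirichletCharacter ℂ q3),
    χ1 ^ 2 = 1 → χ2 ^ 2 = 1 → χ3 ^ 2 = 1 → mulCh χ2 χ1 = 1 → mulCh χ2 χ3 = 1 → mulCh χ1 χ3 = 1

/-- D7e: for a fixed nonprincipal character the values at 1 + η(z) do not tend to 0 fast. -/
def ClaimD7e : Prop :=
  ∀ (q : ℕ) [NeZero q] (χ : DirichletCharacter ℂ q), χ ≠ 1 → ∃ b : ℝ, 0 < b ∧ ∃ z1 : ℕ,
    ∀ z ≥ z1, b ≤ ‖ell χ (1 + eta z) 0‖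

/-- There are arbitrarily large good z. -/
def GoodZInfinite : Prop := ∀ z0 : ℕ, ∃ z ≥ z0, GoodZ z

/-- D7: the transition argument. -/
def ClaimD7 : Prop :=
  ClaimD1 → ClaimD1' → ClaimD7a → ClaimD7b → ClaimD7c → ClaimD7d → ClaimD7e → GoodZInfinite

/-- D8a: scale selection, a pure statement on a sequence with values in [0,1]. -/
def ClaimD8a : Prop :=
  ∀ c : ℝ, 0 < c → ∃ c' : ℝ, 0 < c' ∧ ∃ z1 : ℕ, ∀ z ≥ z1, ∀ B : ℝ, 1 ≤ B →
    ∀ a : ℕ → ℝ, (∀ k, 0 ≤ a k ∧ a k ≤ 1) →
    c * B * ((z : ℝ) ^ 60) ^ (2 * z ^ 6 + 1) ≤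
      ∑' k : ℕ, a k / k * (k : ℝ) ^ (-(eta z)) *
        (Real.log k + (z : ℝ) ^ 6 + 1) ^ (2 * z ^ 6 + 1) / ((2 * z ^ 6).factorial : ℝ) →
    ∃ K : ℕ, (z : ℝ) ^ 65 ≤ Real.log K ∧ Real.log K ≤ (z : ℝ) ^ 67 ∧
      c' * B * (K : ℝ) / Real.log K ≤ ∑ k ∈ Icc 1 K, a k

/-- Many primes 1 + k h w, w in S, k up to K. -/
def PrimesInS : Prop :=
  ∃ c : ℝ, 0 < c ∧ ∃ z1 : ℕ, ∀ z ≥ z1, GoodZ z → ∀ h : ℕ, 1 ≤ h → ∀ S : Finset ℕ, S.Nonempty →
    (∀ w ∈ S, 1 ≤ w ∧ ((h * w : ℕ) : ℝ) ≤ Real.exp ((z : ℝ) ^ 6) ∧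
      ∀ p : ℕ, p.Prime → p ∣ w → p ∣ h) →
    ∃ K : ℕ, (z : ℝ) ^ 65 ≤ Real.log K ∧ Real.log K ≤ (z : ℝ) ^ 67 ∧
      c * (S.card : ℝ) * ((h : ℝ) / (Nat.totient h : ℝ)) * (K : ℝ) / Real.log K ≤
        ∑ w ∈ S, (((Icc 1 K).filter (fun k => (1 + k * (h * w)).Prime)).card : ℝ)

/-- D8. -/
def ClaimD8 : Prop := WeightedPrimes → ClaimD8a → PrimesInS

theorem primes_of_claims (d1 : ClaimD1) (d1' : ClaimD1') (d2 : ClaimD2) (d2b : ClaimD2b)
    (d3 : ClaimD3) (d4 : ClaimD4) (d5 : ClaimD5) (d6 : ClaimD6) (d7a : ClaimD7a) (d7b : ClaimD7b)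
    (d7c : ClaimD7c) (d7d : ClaimD7d) (d7e : ClaimD7e) (d7 : ClaimD7) (d8a : ClaimD8a)
    (d8 : ClaimD8) : GoodZInfinite ∧ PrimesInS :=
  ⟨d7 d1 d1' d7a d7b d7c d7d d7e, d8 (d6 d1 d2 d2b d3 d4 d5) d8a⟩

end D159

end

section

/-!
# MP_d159ed_nt, part E: smooth numbers, the modulus h0, and pseudoprimes
-/

set_option autoImplicit false

namespace D159

open Finset
open scoped BigOperators

/-- the exponent b -/
def bz (u z : ℕ) : ℕ := Nat.log 2 z + u + 1

/-- the fixed multiplier h0 -/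
def h0 (u z : ℕ) : ℕ :=
  2 ^ (2 ^ bz u z * z ^ 2) * z.factorial ^ (bz u z + 1) *
    ∏ r ∈ (range (z + 1)).filter (fun r => r.Prime ∧ Odd r), (r ^ (2 ^ bz u z * r) - 1)

/-- the set of odd z-smooth numbers up to z^u with bounded exponents -/
def Sset (u z : ℕ) : Finset ℕ :=
  (Icc 1 (z ^ u)).filter
    (fun w => Odd w ∧ ∀ p ∈ w.primeFactors, p ≤ z ∧ w.factorization p ≤ bz u z)

/-- the number N = Phi_n(2) -/
noncomputable def Ncyc (n : ℕ) : ℕ := ((Polynomial.cyclotomic n ℤ).eval 2).toNat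

/-- E1: S has positive density. -/
def ClaimE1 : Prop :=
  ∀ u : ℕ, 2 ≤ u → ∃ ρ : ℝ, 0 < ρ ∧ ∃ z1 : ℕ, ∀ z ≥ z1,
    ρ * (z : ℝ) ^ u ≤ ((Sset u z).card : ℝ)

/-- E2: size of h0. -/
def ClaimE2 : Prop :=
  ∀ u : ℕ, ∃ z1 : ℕ, ∀ z ≥ z1,
    ((h0 u z * z ^ u : ℕ) : ℝ) ≤ Real.exp ((z : ℝ) ^ 6) ∧ 2 ^ z ^ 2 ≤ h0 u z ∧
    (∀ p : ℕ, p.Prime → p ≤ z → p ∣ h0 u z)

/-- E3a: N = 1 mod n when no intrinsic prime divides N. -/
def ClaimE3a : Prop :=
  ∀ n : ℕ, 2 ≤ n →
    (∀ q : ℕ, q.Prime → q ∣ n → q ≠ 2 → ¬ (n / q ^ n.factorization q) ∣ (q - 1)) →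
    Ncyc n ≡ 1 [MOD n]

/-- E3b: derivative of a cyclotomic polynomial at 1. -/
def ClaimE3b : Prop :=
  ∀ m : ℕ, 2 ≤ m →
    2 * (Polynomial.cyclotomic m ℤ).derivative.eval 1 =
      (Nat.totient m : ℤ) * (Polynomial.cyclotomic m ℤ).eval 1

/-- E3c: many primes congruent to 1 mod r dividing r^(2^b r) - 1. -/
def ClaimE3c : Prop :=
  ∀ r : ℕ, r.Prime → Odd r → ∀ b : ℕ, ∃ q : Fin b → ℕ, Function.Injective q ∧
    ∀ i, (q i).Prime ∧ r ∣ q i - 1 ∧ q i ∣ r ^ (2 ^ b * r) - 1

/-- E3d: the r-adic estimate. If r^b divides phi(rad n), b at most v_r(n), and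
r - 1 divides n / rad n, then r^(v_r(n) + b) divides N - 1. -/
def ClaimE3d : Prop :=
  ClaimE3b → ∀ n r b : ℕ, r.Prime → Odd r → 1 ≤ n → b ≤ n.factorization r → 2 ∣ n →
    r ∣ n → (r - 1) ∣ n / (∏ p ∈ n.primeFactors, p) →
    r ^ b ∣ Nat.totient (∏ p ∈ n.primeFactors, p) →
    ((r : ℤ) ^ (n.factorization r + b)) ∣ (Polynomial.cyclotomic n ℤ).eval 2 - 1

/-- N = 1 mod n w for all w in S. -/
def NCong : Prop :=
  ∀ u : ℕ, ∃ z1 : ℕ, ∀ z ≥ z1, ∀ k : ℕ, 1 ≤ k →
    (∀ q : ℕ, q.Prime → q ∣ k → ¬ h0 u z ∣ q - 1) →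
    ∀ w ∈ Sset u z, Ncyc (h0 u z * k) ≡ 1 [MOD (h0 u z * k * w)]

/-- E3. -/
def ClaimE3 : Prop := ClaimE3a → ClaimE3c → ClaimE3d → NCong

/-- E4: pseudoprimes from primes. -/
def ClaimE4 : Prop :=
  ∀ n w : ℕ, 8 ∣ n → 1 ≤ n → Odd w → (1 + n * w).Prime → Ncyc n ≡ 1 [MOD (n * w)] →
    1 < Ncyc n ∧ ¬ (Ncyc n * (1 + n * w)).Prime ∧
      (Ncyc n * (1 + n * w)) ∣ 2 ^ (Ncyc n * (1 + n * w)) - 2

end D159

end

section

/-!
# MP_d159ed_nt, module A1: multidimensional density Hales-Jewett from density Hales-Jewett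
-/

set_option autoImplicit false

namespace D159

open Finset Combinatorics
open scoped BigOperators

namespace A1

/-- Gluing two words along an equivalence. -/
def glue {ι ι1 ι2 α : Type} (e : ι ≃ ι1 ⊕ ι2) (x : ι1 → α) (y : ι2 → α) : ι → α :=
  fun i => Sum.elim x y (e i)

/-- Gluing as an equivalence. -/
def glueEquiv {ι ι1 ι2 α : Type} (e : ι ≃ ι1 ⊕ ι2) : (ι1 → α) × (ι2 → α) ≃ (ι → α) where
  toFun p := glue e p.1 p.2
  invFun z := (fun a => z (e.symm (Sum.inl a)), fun b => z (e.symm (Sum.inr b)))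
  left_inv p := by
    ext a <;> simp [glue]
  right_inv z := by
    funext i
    simp only [glue]
    cases h : e i with
    | inl a =>
      show z (e.symm (Sum.inl a)) = z i
      rw [← h, Equiv.symm_apply_apply]
    | inr b =>
      show z (e.symm (Sum.inr b)) = z i
      rw [← h, Equiv.symm_apply_apply]

/-- The product of a line and a subspace. -/
def prodSub {ι ι1 ι2 α : Type} {d : ℕ} (e : ι ≃ ι1 ⊕ ι2) (l : Line α ι1)
    (V : Subspace (Fin d) α ι2) : Subspace (Fin (d + 1)) α ι where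
  idxFun i := Sum.elim (fun a => (l.idxFun a).elim (Sum.inr 0) Sum.inl)
    (fun b => Sum.elim Sum.inl (fun t => Sum.inr t.succ) (V.idxFun b)) (e i)
  proper := by
    intro t
    refine Fin.cases ?_ (fun s => ?_) t
    · obtain ⟨a, ha⟩ := l.proper
      exact ⟨e.symm (Sum.inl a), by simp [ha]⟩
    · obtain ⟨b, hb⟩ := V.proper s
      exact ⟨e.symm (Sum.inr b), by simp [hb]⟩

theorem prodSub_apply {ι ι1 ι2 α : Type} {d : ℕ} (e : ι ≃ ι1 ⊕ ι2) (l : Line α ι1)
    (V : Subspace (Fin d) α ι2) (z : Fin (d + 1) → α) :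
    prodSub e l V z = glue e (l (z 0)) (V (fun t => z t.succ)) := by
  funext i
  simp only [Subspace.coe_apply, prodSub, glue]
  cases h : e i with
  | inl a =>
    simp only [Sum.elim_inl, Line.coe_apply]
    cases l.idxFun a <;> simp
  | inr b =>
    simp only [Sum.elim_inr, Subspace.coe_apply]
    cases V.idxFun b <;> simp

/-- The fibre of a set of words. -/
noncomputable def fib {ι ι1 ι2 : Type} {k : ℕ} [Fintype ι2] [DecidableEq ι2] [Fintype ι]
    (e : ι ≃ ι1 ⊕ ι2) (A : Finset (ι → Fin k)) (x : ι1 → Fin k) :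
    Finset (ι2 → Fin k) :=
  univ.filter (fun y => glue e x y ∈ A)

theorem sum_fib {ι ι1 ι2 : Type} {k : ℕ} [Fintype ι1] [DecidableEq ι1] [Fintype ι2]
    [DecidableEq ι2] [Fintype ι] [DecidableEq ι] (e : ι ≃ ι1 ⊕ ι2) (A : Finset (ι → Fin k)) :
    ∑ x : ι1 → Fin k, (fib e A x).card = A.card := by
  classical
  have h1 : A.card = (univ.filter (fun p : (ι1 → Fin k) × (ι2 → Fin k) =>
      glue e p.1 p.2 ∈ A)).card := by
    refine (Finset.card_bij (fun p _ => glueEquiv e p) ?_ ?_ ?_).symm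
    · intro p hp
      simpa [glueEquiv] using hp
    · intro p _ q _ hpq
      exact (glueEquiv e).injective hpq
    · intro z hz
      refine ⟨(glueEquiv e).symm z, ?_, ?_⟩
      · have : glueEquiv e ((glueEquiv e).symm z) = z := (glueEquiv e).apply_symm_apply z
        simp only [mem_filter, mem_univ, true_and]
        have h2 : glue e ((glueEquiv e).symm z).1 ((glueEquiv e).symm z).2 = z := this
        rw [h2]
        exact hz
      · exact (glueEquiv e).apply_symm_apply z
  rw [h1, Finset.card_eq_sum_ones, Finset.sum_filter, Fintype.sum_prod_type]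
  refine Finset.sum_congr rfl (fun x _ => ?_)
  rw [fib, Finset.card_eq_sum_ones, Finset.sum_filter]

end A1

open A1 in
/-- Module A1. -/
theorem claimA1 : ClaimA1 := by
  classical
  intro k hk hD d
  have hk0 : (0 : ℝ) < (k : ℝ) := by exact_mod_cast hk
  induction d with
  | zero =>
    intro δ hδ
    refine ⟨0, ?_⟩
    intro ι _ _ _ A hA
    have hpos : (0 : ℝ) < (A.card : ℝ) := lt_of_lt_of_le (by positivity) hA
    have hne : A.Nonempty := by
      rw [← Finset.card_pos]
      exact_mod_cast hpos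
    obtain ⟨x, hx⟩ := hne
    refine ⟨⟨fun i => Sum.inl (x i), fun e => e.elim0⟩, ?_⟩
    intro y
    have : (⟨fun i => Sum.inl (x i), fun e => e.elim0⟩ : Subspace (Fin 0) (Fin k) ι) y = x := by
      funext i
      simp [Subspace.coe_apply]
    rw [this]
    exact hx
  | succ d ih =>
    intro δ hδ
    obtain ⟨N2, hN2⟩ := ih (δ / 2) (by positivity)
    set q : ℕ := Fintype.card (Fin N2 → Fin k ⊕ Fin d) with hq
    obtain ⟨N1, hN1⟩ := hD (δ / (2 * ((q : ℝ) + 1))) (by positivity)
    refine ⟨N1 + N2, ?_⟩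
    intro ι _ _ hι A hA
    set n := Fintype.card ι with hn
    obtain ⟨n1, hn1⟩ : ∃ n1, n = n1 + N2 := ⟨n - N2, by omega⟩
    have hn1' : N1 ≤ n1 := by omega
    let e : ι ≃ Fin n1 ⊕ Fin N2 :=
      (Fintype.equivFinOfCardEq (hn.symm.trans hn1)).trans finSumFinEquiv.symm
    -- averaging
    have hsum : ((∑ x : Fin n1 → Fin k, (fib e A x).card : ℕ) : ℝ) = (A.card : ℝ) := by
      exact_mod_cast sum_fib e A
    set X : Finset (Fin n1 → Fin k) :=
      univ.filter (fun x => δ / 2 * (k : ℝ) ^ N2 ≤ ((fib e A x).card : ℝ)) with hX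
    have hfibcard : ∀ x : Fin n1 → Fin k, ((fib e A x).card : ℝ) ≤ (k : ℝ) ^ N2 := by
      intro x
      have h1 : (fib e A x).card ≤ Fintype.card (Fin N2 → Fin k) := Finset.card_le_univ _
      have h2 : Fintype.card (Fin N2 → Fin k) = k ^ N2 := by simp
      rw [h2] at h1
      exact_mod_cast h1
    have hcount : (A.card : ℝ) ≤ (X.card : ℝ) * (k : ℝ) ^ N2 +
        (k : ℝ) ^ n1 * (δ / 2 * (k : ℝ) ^ N2) := by
      rw [← hsum]
      push_cast
      rw [← Finset.sum_filter_add_sum_filter_not univ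
        (fun x => δ / 2 * (k : ℝ) ^ N2 ≤ ((fib e A x).card : ℝ))]
      refine add_le_add ?_ ?_
      · calc _ ≤ ∑ x ∈ X, (k : ℝ) ^ N2 := Finset.sum_le_sum (fun x _ => hfibcard x)
          _ = _ := by rw [Finset.sum_const, nsmul_eq_mul]
      · calc _ ≤ ∑ x ∈ univ.filter (fun x : Fin n1 → Fin k =>
                ¬ (δ / 2 * (k : ℝ) ^ N2 ≤ ((fib e A x).card : ℝ))), (δ / 2 * (k : ℝ) ^ N2) := by
              refine Finset.sum_le_sum (fun x hx => ?_)
              rw [Finset.mem_filter] at hx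
              exact le_of_lt (not_le.mp hx.2)
          _ = ((univ.filter (fun x : Fin n1 → Fin k =>
                ¬ (δ / 2 * (k : ℝ) ^ N2 ≤ ((fib e A x).card : ℝ)))).card : ℝ) *
                (δ / 2 * (k : ℝ) ^ N2) := by rw [Finset.sum_const, nsmul_eq_mul]
          _ ≤ _ := by
              refine mul_le_mul_of_nonneg_right ?_ (by positivity)
              have h1 : (univ.filter (fun x : Fin n1 → Fin k =>
                ¬ (δ / 2 * (k : ℝ) ^ N2 ≤ ((fib e A x).card : ℝ)))).card ≤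
                  Fintype.card (Fin n1 → Fin k) := Finset.card_le_univ _
              have h2 : Fintype.card (Fin n1 → Fin k) = k ^ n1 := by simp
              rw [h2] at h1
              exact_mod_cast h1
    have hXcard : δ / 2 * (k : ℝ) ^ n1 ≤ (X.card : ℝ) := by
      have h1 : δ * (k : ℝ) ^ n1 * (k : ℝ) ^ N2 ≤ (X.card : ℝ) * (k : ℝ) ^ N2 +
          (k : ℝ) ^ n1 * (δ / 2 * (k : ℝ) ^ N2) := by
        have h3 : δ * (k : ℝ) ^ n = δ * (k : ℝ) ^ n1 * (k : ℝ) ^ N2 := by
          rw [hn1, pow_add]; ring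
        rw [← h3]
        exact le_trans hA hcount
      have h2 : (0 : ℝ) < (k : ℝ) ^ N2 := by positivity
      have h4 : (δ / 2 * (k : ℝ) ^ n1) * (k : ℝ) ^ N2 ≤ (X.card : ℝ) * (k : ℝ) ^ N2 := by
        nlinarith
      exact le_of_mul_le_mul_right h4 h2
    -- choose the subspaces
    have hV : ∀ x ∈ X, ∃ V : Subspace (Fin d) (Fin k) (Fin N2), ∀ y, V y ∈ fib e A x := by
      intro x hx
      have hx' := (Finset.mem_filter.mp hx).2
      refine hN2 (Fin N2) (by simp) (fib e A x) ?_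
      simpa using hx'
    -- the colour classes
    let XX : (Fin N2 → Fin k ⊕ Fin d) → Finset (Fin n1 → Fin k) := fun c =>
      univ.filter (fun x => ∃ V : Subspace (Fin d) (Fin k) (Fin N2), V.idxFun = c ∧
        ∀ y, V y ∈ fib e A x)
    have hcover : X ⊆ univ.biUnion XX := by
      intro x hx
      obtain ⟨V, hV'⟩ := hV x hx
      rw [Finset.mem_biUnion]
      refine ⟨V.idxFun, Finset.mem_univ _, ?_⟩
      simp only [XX, mem_filter, mem_univ, true_and]
      exact ⟨V, rfl, hV'⟩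
    have hXle : (X.card : ℝ) ≤ ∑ c, ((XX c).card : ℝ) := by
      have := (Finset.card_le_card hcover).trans Finset.card_biUnion_le
      exact_mod_cast this
    obtain ⟨c, hc⟩ : ∃ c, δ / (2 * ((q : ℝ) + 1)) * (k : ℝ) ^ n1 ≤ ((XX c).card : ℝ) := by
      by_contra hcon
      push Not at hcon
      have h1 : ∑ c, ((XX c).card : ℝ) ≤ (q : ℝ) * (δ / (2 * ((q : ℝ) + 1)) * (k : ℝ) ^ n1) := by
        calc ∑ c, ((XX c).card : ℝ) ≤ ∑ c : Fin N2 → Fin k ⊕ Fin d,
              (δ / (2 * ((q : ℝ) + 1)) * (k : ℝ) ^ n1) :=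
              Finset.sum_le_sum (fun c _ => (hcon c).le)
          _ = _ := by rw [Finset.sum_const, nsmul_eq_mul, Finset.card_univ]
      have h2 : (q : ℝ) * (δ / (2 * ((q : ℝ) + 1)) * (k : ℝ) ^ n1) < δ / 2 * (k : ℝ) ^ n1 := by
        have h3 : (q : ℝ) * (δ / (2 * ((q : ℝ) + 1)) * (k : ℝ) ^ n1) =
            ((q : ℝ) / ((q : ℝ) + 1)) * (δ / 2 * (k : ℝ) ^ n1) := by
          have : ((q : ℝ) + 1) ≠ 0 := by positivity
          field_simp
        rw [h3]
        have h4 : (q : ℝ) / ((q : ℝ) + 1) < 1 := by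
          rw [div_lt_one (by positivity)]
          linarith
        have h5 : 0 < δ / 2 * (k : ℝ) ^ n1 := by positivity
        nlinarith
      linarith
    obtain ⟨l, hl⟩ := hN1 (Fin n1) (by simpa using hn1') (XX c) (by simpa using hc)
    -- the subspace belonging to c
    have hk' : 0 < k := hk
    have h0 := hl ⟨0, hk'⟩
    simp only [XX, mem_filter, mem_univ, true_and] at h0
    obtain ⟨V, hVc, _⟩ := h0
    refine ⟨prodSub e l V, ?_⟩
    intro z
    rw [prodSub_apply]
    have h1 := hl (z 0)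
    simp only [XX, mem_filter, mem_univ, true_and] at h1
    obtain ⟨V', hV'c, hV'⟩ := h1
    have h2 : V' = V := by
      cases V
      cases V'
      simp only at hVc hV'c
      subst hVc
      subst hV'c
      rfl
    rw [h2] at hV'
    have h3 := hV' (fun t => z t.succ)
    simp only [fib, mem_filter, mem_univ, true_and] at h3
    exact h3

end D159

end

section

/-!
# MP_d159ed_nt, A2a: the colour of a line depends only on the prefix before the first wildcard
-/

set_option autoImplicit false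

namespace D159

open Finset Combinatorics

/-- The line with first letter `a` and tail `l`. -/
def consLine {k n : ℕ} (a : Fin k) (l : Line (Fin k) (Fin n)) : Line (Fin k) (Fin (n + 1)) where
  idxFun := Fin.cons (some a) l.idxFun
  proper := by
    obtain ⟨i, hi⟩ := l.proper
    exact ⟨i.succ, by simpa using hi⟩

/-- The tail of a line with a wildcard after the first coordinate. -/
def tailLine {k n : ℕ} (l : Line (Fin k) (Fin (n + 1))) (h : ∃ i : Fin n, l.idxFun i.succ = none) :
    Line (Fin k) (Fin n) where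
  idxFun i := l.idxFun i.succ
  proper := h

/-- A new first variable. -/
def consSub {k n m : ℕ} (V : Subspace (Fin m) (Fin k) (Fin n)) :
    Subspace (Fin (m + 1)) (Fin k) (Fin (n + 1)) where
  idxFun := Fin.cons (Sum.inr 0) (fun i => (V.idxFun i).map id Fin.succ)
  proper := by
    intro e
    refine Fin.cases ⟨0, by simp⟩ (fun e => ?_) e
    obtain ⟨i, hi⟩ := V.proper e
    exact ⟨i.succ, by simp [hi]⟩

theorem line_ext {α ι : Type} {l l' : Line α ι} (h : ∀ i, l.idxFun i = l'.idxFun i) : l = l' :=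
  Line.ext (funext h)

theorem compLine_consSub {k n m : ℕ} (V : Subspace (Fin m) (Fin k) (Fin n))
    (l : Line (Fin k) (Fin (m + 1))) (h : ∃ i : Fin m, l.idxFun i.succ = none) (a : Fin k)
    (ha : l.idxFun 0 = some a) :
    compLine (consSub V) l = consLine a (compLine V (tailLine l h)) := by
  apply line_ext
  intro i
  refine Fin.cases ?_ (fun i => ?_) i
  · simp [compLine, consSub, consLine, ha]
  · simp only [compLine, consSub, consLine, tailLine, Fin.cons_succ]
    cases V.idxFun i <;> simp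

theorem claimA2a : ClaimA2a := by
  intro k hk M
  induction M with
  | zero =>
    intro κ _
    refine ⟨0, ?_⟩
    intro ι _ _ _ C
    refine ⟨⟨fun _ => Sum.inl ⟨0, hk⟩, fun e => e.elim0⟩, ?_⟩
    rintro l l' ⟨i, -⟩
    exact i.elim0
  | succ M ih =>
    intro κ _
    obtain ⟨N', hN'⟩ := ih (Fin k → κ)
    obtain ⟨n0, hn0⟩ := Subspace.exists_mono_in_high_dimension_fin (Option (Fin k)) κ (Fin N')
    refine ⟨n0 + 1, ?_⟩
    intro ι _ _ hι C
    obtain ⟨e⟩ : Nonempty (Option (Fin n0) ↪ ι) := by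
      apply Function.Embedding.nonempty_of_card_le
      simpa using hι
    let a0 : Fin k := ⟨0, hk⟩
    let g : (Fin n0 → Option (Fin k)) → Option (Fin n0) → Option (Fin k) := fun x o =>
      o.elim none x
    let L : (Fin n0 → Option (Fin k)) → Line (Fin k) ι := fun x =>
      { idxFun := Function.extend e (g x) (fun _ => some a0)
        proper := ⟨e none, by rw [e.injective.extend_apply]; rfl⟩ }
    obtain ⟨U, c, hU⟩ := hn0 (fun x => C (L x))
    let g0 : Option (Fin n0) → Fin k ⊕ Fin (N' + 1) := fun o =>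
      o.elim (Sum.inr 0) (fun j => Sum.elim (fun b => b.elim (Sum.inr 0) Sum.inl)
        (fun v => Sum.inr v.succ) (U.idxFun j))
    let V0 : Subspace (Fin (N' + 1)) (Fin k) ι :=
      { idxFun := Function.extend e g0 (fun _ => Sum.inl a0)
        proper := by
          intro v
          refine Fin.cases ⟨e none, by rw [e.injective.extend_apply]; rfl⟩ (fun v => ?_) v
          obtain ⟨j, hj⟩ := U.proper v
          refine ⟨e (some j), ?_⟩
          rw [e.injective.extend_apply]
          simp [g0, hj] }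
    have key : ∀ l : Line (Fin k) (Fin (N' + 1)), l.idxFun 0 = none →
        C (compLine V0 l) = c := by
      intro l hl
      rw [← hU (fun v => l.idxFun v.succ)]
      congr 1
      apply line_ext
      intro i
      show Sum.elim (fun a => some a) (fun e => l.idxFun e)
        (Function.extend e g0 (fun _ => Sum.inl a0) i) =
        Function.extend e (g (U fun v => l.idxFun v.succ)) (fun _ => some a0) i
      by_cases hi : ∃ o, e o = i
      · obtain ⟨o, rfl⟩ := hi
        rw [e.injective.extend_apply, e.injective.extend_apply]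
        cases o with
        | none => simp [g0, g, hl]
        | some j =>
          simp only [g0, g, Option.elim_some, Subspace.coe_apply]
          cases hj : U.idxFun j with
          | inl b => cases b <;> simp [hl]
          | inr v => simp
      · rw [Function.extend_apply' _ _ _ hi, Function.extend_apply' _ _ _ hi]
        rfl
    obtain ⟨V1, hV1⟩ := hN' (Fin N') (by simp) (fun l' a => C (compLine V0 (consLine a l')))
    refine ⟨compSub V0 (consSub V1), ?_⟩
    rintro l l' ⟨i, h1, h2, h3⟩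
    rw [compLine_compSub, compLine_compSub]
    revert h1 h2 h3
    refine Fin.cases ?_ (fun i => ?_) i
    · intro h1 h2 _
      rw [key _ (by simpa [compLine, consSub] using h1),
        key _ (by simpa [compLine, consSub] using h2)]
    · intro h1 h2 h3
      obtain ⟨h4, h5⟩ := h3 0 (Fin.succ_pos i)
      obtain ⟨a, ha⟩ := Option.ne_none_iff_exists'.1 h4
      rw [compLine_consSub V1 l ⟨i, h1⟩ a ha, compLine_consSub V1 l' ⟨i, h2⟩ a (h5 ▸ ha)]
      refine congrFun (hV1 (tailLine l ⟨i, h1⟩) (tailLine l' ⟨i, h2⟩) ⟨i, h1, h2, ?_⟩) a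
      intro j hj
      exact h3 j.succ (Fin.succ_lt_succ_iff.2 hj)

end D159

end

section

/-!
# A3a: dense insensitive sets contain subspaces
-/

set_option autoImplicit false

namespace D159

open Finset Combinatorics
open scoped BigOperators

namespace A3a

/-- extend a word on `J` by the last letter -/
def extW {k : ℕ} {ι : Type} [DecidableEq ι] (J : Finset ι) (y : {i // i ∈ J} → Fin k) :
    ι → Fin (k + 1) :=
  fun i => if h : i ∈ J then (y ⟨i, h⟩).castSucc else Fin.last k

/-- the support -/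
def supp {k : ℕ} {ι : Type} [Fintype ι] [DecidableEq ι] (x : ι → Fin (k + 1)) : Finset ι :=
  univ.filter (fun i => x i ≠ Fin.last k)

theorem card_fibre_le {k : ℕ} {ι : Type} [Fintype ι] [DecidableEq ι]
    (E : Finset (ι → Fin (k + 1))) (J : Finset ι) :
    (E.filter (fun x => supp x = J)).card ≤
      (univ.filter (fun y : {i // i ∈ J} → Fin k => extW J y ∈ E)).card := by
  classical
  refine le_trans (card_le_card ?_) (card_image_le (f := extW J))
  intro x hx
  rw [mem_filter] at hx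
  obtain ⟨hxE, hxJ⟩ := hx
  have h1 : ∀ i : {i // i ∈ J}, ∃ c : Fin k, c.castSucc = x i := by
    intro i
    have : (i : ι) ∈ supp x := by rw [hxJ]; exact i.2
    rw [supp, mem_filter] at this
    exact Fin.exists_castSucc_eq.2 this.2
  choose y hy using h1
  have h2 : extW J y = x := by
    funext i
    unfold extW
    by_cases h : i ∈ J
    · rw [dif_pos h, hy]
    · rw [dif_neg h]
      by_contra hne
      apply h
      rw [← hxJ, supp, mem_filter]
      exact ⟨mem_univ _, fun he => hne he.symm⟩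
  rw [mem_image]
  refine ⟨y, ?_, h2⟩
  rw [mem_filter, h2]
  exact ⟨mem_univ _, hxE⟩

theorem card_fibre_le_pow {k : ℕ} {ι : Type} [Fintype ι] [DecidableEq ι]
    (E : Finset (ι → Fin (k + 1))) (J : Finset ι) :
    (E.filter (fun x => supp x = J)).card ≤ k ^ J.card := by
  refine le_trans (card_fibre_le E J) (le_trans (card_le_univ _) ?_)
  rw [Fintype.card_fun, Fintype.card_fin, Fintype.card_coe]

/-- extend a subspace -/
def extSub {k : ℕ} {ι η : Type} [DecidableEq ι] (J : Finset ι)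
    (V : Subspace η (Fin k) {i // i ∈ J}) : Subspace η (Fin (k + 1)) ι where
  idxFun i := if h : i ∈ J then (V.idxFun ⟨i, h⟩).map Fin.castSucc id else Sum.inl (Fin.last k)
  proper := by
    intro e
    obtain ⟨i, hi⟩ := V.proper e
    refine ⟨i, ?_⟩
    rw [dif_pos i.2, hi]
    rfl

theorem exists_large {k : ℕ} (hk : 1 ≤ k) (N0 : ℕ) (γ : ℝ) (hγ : 0 < γ) :
    ∃ N : ℕ, ∀ n ≥ N, (2 : ℝ) ^ N0 * ((k : ℝ) / 2 + 1) ^ n < γ / 2 * ((k : ℝ) + 1) ^ n := by
  have hk' : (1 : ℝ) ≤ k := by exact_mod_cast hk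
  set r : ℝ := ((k : ℝ) / 2 + 1) / ((k : ℝ) + 1) with hr
  have hr0 : 0 ≤ r := by positivity
  have hr1 : r < 1 := by
    rw [hr, div_lt_one (by positivity)]
    linarith
  have h2 : (0 : ℝ) < γ / 2 / 2 ^ N0 := by positivity
  obtain ⟨N, hN⟩ := exists_pow_lt_of_lt_one h2 hr1
  refine ⟨N, fun n hn => ?_⟩
  have h3 : r ^ n ≤ r ^ N := pow_le_pow_of_le_one hr0 hr1.le hn
  have h4 : r ^ n < γ / 2 / 2 ^ N0 := lt_of_le_of_lt h3 hN
  have h5 : ((k : ℝ) / 2 + 1) ^ n = r ^ n * ((k : ℝ) + 1) ^ n := by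
    rw [hr, div_pow, div_mul_cancel₀]
    positivity
  rw [h5, ← mul_assoc]
  apply mul_lt_mul_of_pos_right _ (by positivity)
  rw [lt_div_iff₀ (by positivity)] at h4
  linarith

end A3a

open A3a in
theorem claimA3a : ClaimA3a := by
  classical
  intro k hk hM a d γ hγ
  obtain ⟨N0, hN0⟩ := hM d (γ / 2) (by positivity)
  obtain ⟨N, hN⟩ := exists_large hk N0 γ hγ
  refine ⟨N, ?_⟩
  intro ι _ _ hι E hE hcard
  -- a good support
  have hJ : ∃ J : Finset ι, N0 ≤ J.card ∧
      γ / 2 * (k : ℝ) ^ J.card ≤ ((E.filter (fun x => supp x = J)).card : ℝ) := by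
    by_contra hcon
    push Not at hcon
    have h1 : (E.card : ℝ) = ∑ J : Finset ι, ((E.filter (fun x => supp x = J)).card : ℝ) := by
      rw [← Nat.cast_sum]
      congr 1
      exact card_eq_sum_card_fiberwise (fun x _ => mem_univ _)
    have h2 : ∀ J : Finset ι, ((E.filter (fun x => supp x = J)).card : ℝ) ≤
        (2 : ℝ) ^ N0 * ((k : ℝ) / 2) ^ J.card + γ / 2 * (k : ℝ) ^ J.card := by
      intro J
      by_cases hJ : N0 ≤ J.card
      · have := (hcon J hJ).le
        have h3 : (0 : ℝ) ≤ (2 : ℝ) ^ N0 * ((k : ℝ) / 2) ^ J.card := by positivity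
        linarith
      · have h3 : ((E.filter (fun x => supp x = J)).card : ℝ) ≤ (k : ℝ) ^ J.card := by
          exact_mod_cast card_fibre_le_pow E J
        have h4 : (k : ℝ) ^ J.card = 2 ^ J.card * ((k : ℝ) / 2) ^ J.card := by
          rw [← mul_pow]
          congr 1
          ring
        have h5 : (2 : ℝ) ^ J.card ≤ 2 ^ N0 :=
          pow_le_pow_right₀ (by norm_num) (by omega)
        have h6 : (2 : ℝ) ^ J.card * ((k : ℝ) / 2) ^ J.card ≤
            2 ^ N0 * ((k : ℝ) / 2) ^ J.card :=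
          mul_le_mul_of_nonneg_right h5 (by positivity)
        have h7 : (0 : ℝ) ≤ γ / 2 * (k : ℝ) ^ J.card := by positivity
        linarith
    have h3 : (E.card : ℝ) ≤ (2 : ℝ) ^ N0 * ((k : ℝ) / 2 + 1) ^ Fintype.card ι +
        γ / 2 * ((k : ℝ) + 1) ^ Fintype.card ι := by
      rw [h1]
      refine le_trans (sum_le_sum fun J _ => h2 J) ?_
      rw [sum_add_distrib, ← mul_sum, ← mul_sum]
      have e1 := Fintype.sum_pow_mul_eq_add_pow ι ((k : ℝ) / 2) 1
      have e2 := Fintype.sum_pow_mul_eq_add_pow ι (k : ℝ) 1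
      simp only [one_pow, mul_one] at e1 e2
      rw [e1, e2]
    have h4 := hN (Fintype.card ι) hι
    linarith
  obtain ⟨J, hJ0, hJ1⟩ := hJ
  have hA := hN0 {i // i ∈ J} (by rw [Fintype.card_coe]; exact hJ0)
    (univ.filter (fun y : {i // i ∈ J} → Fin k => extW J y ∈ E)) (by
      rw [Fintype.card_coe]
      refine le_trans hJ1 ?_
      exact_mod_cast card_fibre_le E J)
  obtain ⟨V, hV⟩ := hA
  refine ⟨extSub J V, ?_⟩
  intro x
  set x' : Fin d → Fin k := fun e => if h : x e = Fin.last k then a else (x e).castPred h with hx'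
  have h1 := (mem_filter.1 (hV x')).2
  refine (hE _ _ ?_).2 h1
  intro i
  by_cases hi : i ∈ J
  · have e1 : extSub J V x i = Sum.elim Fin.castSucc x (V.idxFun ⟨i, hi⟩) := by
      rw [Subspace.coe_apply]
      simp only [extSub, dif_pos hi]
      cases V.idxFun ⟨i, hi⟩ <;> rfl
    have e2 : extW J (V x') i = (Sum.elim id x' (V.idxFun ⟨i, hi⟩)).castSucc := by
      simp only [extW, dif_pos hi]
      rfl
    rw [e1, e2]
    cases h : V.idxFun ⟨i, hi⟩ with
    | inl c =>
      left
      rfl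
    | inr e =>
      simp only [Sum.elim_inr]
      by_cases hl : x e = Fin.last k
      · right
        refine ⟨Or.inr hl, Or.inl ?_⟩
        rw [hx']
        simp only [dif_pos hl]
      · left
        rw [hx']
        simp only [dif_neg hl, Fin.castSucc_castPred]
  · left
    rw [Subspace.coe_apply]
    simp only [extSub, extW, dif_neg hi]
    rfl

end D159

end

section

/-!
# MP_d159ed_nt, A3c: partition of an intersection of insensitive sets
-/

set_option autoImplicit false

namespace D159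

open Finset Combinatorics
open scoped BigOperators

theorem sub_inj {η α ι : Type} (V : Subspace η α ι) :
    Function.Injective (fun x : η → α => V x) := by
  intro x y h
  funext e
  obtain ⟨i, hi⟩ := V.proper e
  have := congrFun h i
  simpa [Subspace.coe_apply, hi] using this

/-- The points of a subspace. -/
noncomputable def pts {d K : ℕ} {ι : Type} [Fintype ι] (V : Subspace (Fin d) (Fin K) ι) :
    Finset (ι → Fin K) := by
  classical exact univ.image (fun x : Fin d → Fin K => V x)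

theorem mem_pts {d K : ℕ} {ι : Type} [Fintype ι] (V : Subspace (Fin d) (Fin K) ι)
    (w : ι → Fin K) : w ∈ pts V ↔ ∃ x, V x = w := by
  classical
  unfold pts
  simp

theorem card_pts {d K : ℕ} {ι : Type} [Fintype ι] (V : Subspace (Fin d) (Fin K) ι) :
    (pts V).card = K ^ d := by
  classical
  unfold pts
  rw [Finset.card_image_of_injective _ (sub_inj V)]
  simp

/-- The union of the members of a family of subspaces. -/
noncomputable def cover {d K : ℕ} {ι : Type} [Fintype ι]
    (𝒱 : Finset (Subspace (Fin d) (Fin K) ι)) : Finset (ι → Fin K) := by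
  classical exact 𝒱.biUnion pts

theorem mem_cover {d K : ℕ} {ι : Type} [Fintype ι]
    (𝒱 : Finset (Subspace (Fin d) (Fin K) ι)) (w : ι → Fin K) :
    w ∈ cover 𝒱 ↔ ∃ V ∈ 𝒱, ∃ x, V x = w := by
  classical
  unfold cover
  simp [mem_pts]

/-- Pairwise disjoint families. -/
def DisjFam {d K : ℕ} {ι : Type} (𝒱 : Finset (Subspace (Fin d) (Fin K) ι)) : Prop :=
  ∀ V ∈ 𝒱, ∀ W ∈ 𝒱, V ≠ W → ∀ x y, V x ≠ W y

theorem card_cover {d K : ℕ} {ι : Type} [Fintype ι]
    (𝒱 : Finset (Subspace (Fin d) (Fin K) ι)) (h : DisjFam 𝒱) :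
    (cover 𝒱).card = 𝒱.card * K ^ d := by
  classical
  unfold cover
  rw [Finset.card_biUnion]
  · simp [card_pts]
  · intro V hV W hW hne
    change Disjoint (pts V) (pts W)
    rw [Finset.disjoint_left]
    intro w hw1 hw2
    rw [mem_pts] at hw1 hw2
    obtain ⟨x, hx⟩ := hw1
    obtain ⟨y, hy⟩ := hw2
    exact h V hV W hW hne x y (hx.trans hy.symm)

theorem card_words {K : ℕ} {ι : Type} [Fintype ι] [DecidableEq ι] :
    (Finset.univ : Finset (ι → Fin K)).card = K ^ Fintype.card ι := by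
  simp

/-- The partition property for a set of letters. -/
def InterPartOn (k : ℕ) (s : Finset (Fin k)) : Prop :=
  ∀ (d : ℕ) (γ : ℝ), 0 < γ → ∃ N : ℕ, ∀ (ι : Type) [Fintype ι] [DecidableEq ι],
    N ≤ Fintype.card ι → ∀ E : Fin k → Finset (ι → Fin (k + 1)), (∀ a ∈ s, Insens a (E a)) →
      ∃ 𝒱 : Finset (Subspace (Fin d) (Fin (k + 1)) ι),
        (∀ V ∈ 𝒱, ∀ x, ∀ a ∈ s, V x ∈ E a) ∧
        DisjFam 𝒱 ∧
        ((univ.filter (fun x : ι → Fin (k + 1) => ∀ a ∈ s, x ∈ E a)).card : ℝ) ≤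
          (𝒱.card : ℝ) * ((k : ℝ) + 1) ^ d + γ * ((k : ℝ) + 1) ^ Fintype.card ι

theorem interPartOn_insert (k : ℕ) (a : Fin k) (s : Finset (Fin k)) (ha : InsPart k a)
    (hs : InterPartOn k s) : InterPartOn k (insert a s) := by
  classical
  intro d γ hγ
  obtain ⟨d', hd'⟩ := ha d (γ / 2) (by positivity)
  obtain ⟨N, hN⟩ := hs d' (γ / 2) (by positivity)
  refine ⟨N, ?_⟩
  intro ι _ _ hι E hE
  obtain ⟨𝒱, h1, h2, h3⟩ := hN ι hι E (fun b hb => hE b (Finset.mem_insert_of_mem hb))
  have hEa : Insens a (E a) := hE a (Finset.mem_insert_self _ _)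
  -- the sets in the parameter spaces
  have hF : ∀ V : Subspace (Fin d') (Fin (k + 1)) ι,
      Insens a (univ.filter (fun x : Fin d' → Fin (k + 1) => V x ∈ E a)) := by
    intro V x y hxy
    simp only [mem_filter, mem_univ, true_and]
    refine hEa _ _ ?_
    intro i
    rw [Subspace.coe_apply, Subspace.coe_apply]
    rcases hh : V.idxFun i with b | e
    · left; simp
    · simpa using hxy e
  choose 𝒲 hW1 hW2 hW3 using fun V : Subspace (Fin d') (Fin (k + 1)) ι =>
    hd' (Fin d') (by simp) _ (hF V)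
  -- the new family
  set 𝒰 : Finset (Subspace (Fin d) (Fin (k + 1)) ι) :=
    𝒱.biUnion (fun V => (𝒲 V).image (fun W => compSub V W)) with h𝒰
  have hx0 : ∃ x0 : Fin d → Fin (k + 1), True := ⟨fun _ => 0, trivial⟩
  obtain ⟨x0, -⟩ := hx0
  have hinj : ∀ V ∈ 𝒱, Set.InjOn (fun W => compSub V W)
      (↑(𝒲 V) : Set (Subspace (Fin d) (Fin (k + 1)) (Fin d'))) := by
    intro V hV W hW W' hW' heq
    by_contra hne
    have h := hW2 V W hW W' hW' hne x0 x0
    apply h
    apply sub_inj V
    simp only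
    rw [← compSub_apply, ← compSub_apply]
    simp only at heq
    rw [heq]
  have hdisj : ∀ V ∈ 𝒱, ∀ V' ∈ 𝒱, V ≠ V' →
      Disjoint ((𝒲 V).image (fun W => compSub V W)) ((𝒲 V').image (fun W => compSub V' W)) := by
    intro V hV V' hV' hne
    rw [Finset.disjoint_left]
    intro U hU hU'
    rw [Finset.mem_image] at hU hU'
    obtain ⟨W, hW, rfl⟩ := hU
    obtain ⟨W', hW', heq⟩ := hU'
    have h := h2 V hV V' hV' hne (W x0) (W' x0)
    apply h
    rw [← compSub_apply, ← compSub_apply, heq]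
  have hcard : 𝒰.card = ∑ V ∈ 𝒱, (𝒲 V).card := by
    rw [h𝒰, Finset.card_biUnion hdisj]
    refine Finset.sum_congr rfl fun V hV => ?_
    exact Finset.card_image_of_injOn (hinj V hV)
  refine ⟨𝒰, ?_, ?_, ?_⟩
  · intro U hU x b hb
    rw [h𝒰, Finset.mem_biUnion] at hU
    obtain ⟨V, hV, hU⟩ := hU
    rw [Finset.mem_image] at hU
    obtain ⟨W, hW, rfl⟩ := hU
    rw [compSub_apply]
    rw [Finset.mem_insert] at hb
    rcases hb with rfl | hb
    · have := hW1 V W hW x
      simpa using this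
    · exact h1 V hV _ b hb
  · intro U hU U' hU' hne x y heq
    rw [h𝒰, Finset.mem_biUnion] at hU hU'
    obtain ⟨V, hV, hU⟩ := hU
    obtain ⟨V', hV', hU'⟩ := hU'
    rw [Finset.mem_image] at hU hU'
    obtain ⟨W, hW, rfl⟩ := hU
    obtain ⟨W', hW', rfl⟩ := hU'
    rw [compSub_apply, compSub_apply] at heq
    by_cases hVV : V = V'
    · subst hVV
      have h4 := sub_inj V heq
      by_cases hWW : W = W'
      · exact hne (by rw [hWW])
      · exact hW2 V W hW W' hW' hWW x y h4
    · exact h2 V hV V' hV' hVV _ _ heq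
  · -- counting
    set X : Finset (ι → Fin (k + 1)) := univ.filter (fun x => ∀ b ∈ s, x ∈ E b) with hX
    set Y : Finset (ι → Fin (k + 1)) := univ.filter (fun x => ∀ b ∈ insert a s, x ∈ E b) with hY
    have hYX : Y ⊆ X := by
      intro x hx
      simp only [hX, hY, mem_filter, mem_univ, true_and] at hx ⊢
      intro b hb
      exact hx b (Finset.mem_insert_of_mem hb)
    have hUX : cover 𝒱 ⊆ X := by
      intro w hw
      rw [mem_cover] at hw
      obtain ⟨V, hV, x, rfl⟩ := hw
      simp only [hX, mem_filter, mem_univ, true_and]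
      intro b hb
      exact h1 V hV x b hb
    have hc : (cover 𝒱).card = 𝒱.card * (k + 1) ^ d' := card_cover 𝒱 h2
    have hXc : X.card = (X \ cover 𝒱).card + (cover 𝒱).card := by
      rw [Finset.card_sdiff_add_card_eq_card hUX]
    have hYc : Y.card ≤ (X \ cover 𝒱).card +
        ∑ V ∈ 𝒱, (univ.filter (fun x : Fin d' → Fin (k + 1) => V x ∈ E a)).card := by
      have hsub : Y ⊆ (X \ cover 𝒱) ∪ 𝒱.biUnion (fun V =>
          (univ.filter (fun x : Fin d' → Fin (k + 1) => V x ∈ E a)).image (fun x => V x)) := by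
        intro w hw
        rw [Finset.mem_union]
        by_cases hwc : w ∈ cover 𝒱
        · right
          rw [mem_cover] at hwc
          obtain ⟨V, hV, x, rfl⟩ := hwc
          rw [Finset.mem_biUnion]
          refine ⟨V, hV, ?_⟩
          rw [Finset.mem_image]
          refine ⟨x, ?_, rfl⟩
          simp only [hY, mem_filter, mem_univ, true_and] at hw ⊢
          exact hw a (Finset.mem_insert_self _ _)
        · left
          rw [Finset.mem_sdiff]
          exact ⟨hYX hw, hwc⟩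
      refine (Finset.card_le_card hsub).trans ((Finset.card_union_le _ _).trans ?_)
      refine Nat.add_le_add_left ?_ _
      refine Finset.card_biUnion_le.trans ?_
      refine Finset.sum_le_sum fun V _ => ?_
      exact Finset.card_image_le
    have hsum : ((∑ V ∈ 𝒱,
        (univ.filter (fun x : Fin d' → Fin (k + 1) => V x ∈ E a)).card : ℕ) : ℝ) ≤
        (𝒰.card : ℝ) * ((k : ℝ) + 1) ^ d +
          (𝒱.card : ℝ) * (γ / 2 * ((k : ℝ) + 1) ^ d') := by
      rw [hcard]
      push_cast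
      rw [Finset.sum_mul, ← nsmul_eq_mul (𝒱.card), ← Finset.sum_const, ← Finset.sum_add_distrib]
      refine Finset.sum_le_sum fun V _ => ?_
      have := hW3 V
      simpa using this
    have hle : (𝒱.card : ℝ) * ((k : ℝ) + 1) ^ d' ≤ ((k : ℝ) + 1) ^ Fintype.card ι := by
      have h5 : (cover 𝒱).card ≤ (k + 1) ^ Fintype.card ι := by
        rw [← card_words (K := k + 1) (ι := ι)]
        exact Finset.card_le_card (Finset.subset_univ _)
      rw [hc] at h5
      exact_mod_cast h5
    have hXR : (X.card : ℝ) = ((X \ cover 𝒱).card : ℝ) + (𝒱.card : ℝ) * ((k : ℝ) + 1) ^ d' := by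
      rw [hXc, hc]
      push_cast
      ring
    have hYR : (Y.card : ℝ) ≤ ((X \ cover 𝒱).card : ℝ) + ((∑ V ∈ 𝒱,
        (univ.filter (fun x : Fin d' → Fin (k + 1) => V x ∈ E a)).card : ℕ) : ℝ) := by
      exact_mod_cast hYc
    have h6 := mul_le_mul_of_nonneg_left hle (by positivity : (0 : ℝ) ≤ γ / 2)
    linarith

theorem claimA3c : ClaimA3c := by
  classical
  intro k hk h
  have key : ∀ s : Finset (Fin k), InterPartOn k s := by
    intro s
    induction s using Finset.induction_on with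
    | empty =>
      intro d γ hγ
      obtain ⟨N, hN⟩ := h ⟨0, hk⟩ d γ hγ
      refine ⟨N, ?_⟩
      intro ι _ _ hι E _
      obtain ⟨𝒱, -, h2, h3⟩ := hN ι hι univ (by intro x y _; simp)
      refine ⟨𝒱, by simp, h2, ?_⟩
      simpa using h3
    | insert a s _ ih => exact interPartOn_insert k a s (h a) ih
  intro d γ hγ
  obtain ⟨N, hN⟩ := key univ d γ hγ
  refine ⟨N, ?_⟩
  intro ι _ _ hι E hE
  obtain ⟨𝒱, h1, h2, h3⟩ := hN ι hι E (fun a _ => hE a)
  refine ⟨𝒱, fun V hV x a => h1 V hV x a (mem_univ a), h2, ?_⟩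
  simpa using h3

end D159

end

section

/-!
# MP_d159ed_nt, A4: a block of coordinates with all slices of almost full density
-/

set_option autoImplicit false

namespace D159

open Finset Combinatorics

theorem card_cyl {ι : Type} [Fintype ι] [DecidableEq ι] {K : ℕ} (S : Finset ι) (x : ι → Fin K) :
    (univ.filter (fun y : ι → Fin K => ∀ i ∈ S, y i = x i)).card =
      K ^ (Fintype.card ι - S.card) := by
  have h : univ.filter (fun y : ι → Fin K => ∀ i ∈ S, y i = x i) =
      Fintype.piFinset (fun i => if i ∈ S then {x i} else univ) := by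
    ext y
    simp only [mem_filter, mem_univ, true_and, Fintype.mem_piFinset]
    refine forall_congr' fun i => ?_
    split_ifs with h <;> simp [h]
  rw [h, Fintype.card_piFinset]
  have h2 : ∀ i, (if i ∈ S then ({x i} : Finset (Fin K)) else univ).card =
      if i ∈ S then 1 else K := by
    intro i
    split_ifs <;> simp
  simp only [h2]
  rw [prod_ite, prod_const_one, one_mul, prod_const]
  congr 1
  rw [← card_compl]
  congr 1
  ext i
  simp

theorem claimA4 : ClaimA4 := by
  intro K hK m ε hε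
  have hK0 : (0 : ℝ) < K := by exact_mod_cast hK
  obtain ⟨t, ht⟩ := exists_nat_gt ((K : ℝ) ^ m / ε ^ 2)
  have ht0 : (0 : ℝ) < t := lt_of_le_of_lt (by positivity) ht
  refine ⟨t * m, ?_⟩
  intro ι _ _ hι A
  by_contra hcon
  push Not at hcon
  obtain ⟨e⟩ : Nonempty (Fin t × Fin m ↪ ι) := by
    apply Function.Embedding.nonempty_of_card_le
    simpa using hι
  let B : Fin t → Finset ι := fun j => univ.map ⟨fun i => e (j, i), fun a b h => by
    simpa using h⟩
  have hBcard : ∀ j, (B j).card = m := by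
    intro j
    simp [B]
  have hBdisj : ∀ j j', j ≠ j' → Disjoint (B j) (B j') := by
    intro j j' hj
    rw [disjoint_left]
    intro i hi hi'
    simp only [B, mem_map, mem_univ, true_and] at hi hi'
    obtain ⟨a, rfl⟩ := hi
    obtain ⟨b, hb⟩ := hi'
    exact hj (by simpa using (congrArg Prod.fst (e.injective hb)).symm)
  choose x hx using fun j => hcon (B j) (hBcard j)
  set n := Fintype.card ι with hn
  set Q : ℝ := (K : ℝ) ^ n with hQ
  have hQ0 : 0 < Q := by positivity
  set p : ℝ := ((K : ℝ) ^ m)⁻¹ with hp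
  have hp0 : 0 < p := by positivity
  have hKp : (K : ℝ) ^ m * p = 1 := mul_inv_cancel₀ (by positivity)
  let f : Fin t → (ι → Fin K) → ℝ := fun j y => if ∀ i ∈ B j, y i = x j i then 1 else 0
  have hmn : ∀ S : Finset ι, (K : ℝ) ^ (n - S.card) * (K : ℝ) ^ S.card = Q := by
    intro S
    rw [← pow_add, Nat.sub_add_cancel (card_le_univ S)]
  have hKnm : ∀ j : Fin t, (K : ℝ) ^ (n - m) = p * Q := by
    intro j
    have h := hmn (B j)
    rw [hBcard j] at h
    rw [← h]
    calc (K : ℝ) ^ (n - m) = (K : ℝ) ^ (n - m) * ((K : ℝ) ^ m * p) := by rw [hKp, mul_one]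
      _ = _ := by ring
  have hf1 : ∀ j, ∑ y, f j y = p * Q := by
    intro j
    simp only [f]
    rw [← hKnm j, sum_boole, card_cyl, hBcard j, ← hn]
    push_cast
    rfl
  have hf2 : ∀ j j', j ≠ j' → ∑ y, f j y * f j' y = p ^ 2 * Q := by
    intro j j' hj
    have h1 : ∀ y, f j y * f j' y = if ∀ i ∈ B j ∪ B j', y i = (if i ∈ B j then x j i else x j' i)
        then 1 else 0 := by
      intro y
      simp only [f]
      rw [ite_zero_mul_ite_zero]
      simp only [mul_one]
      congr 1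
      apply propext
      constructor
      · rintro ⟨h1, h2⟩ i hi
        by_cases hij : i ∈ B j
        · rw [if_pos hij]; exact h1 i hij
        · rw [if_neg hij]
          exact h2 i ((mem_union.1 hi).resolve_left hij)
      · intro h
        refine ⟨fun i hi => ?_, fun i hi => ?_⟩
        · have := h i (mem_union_left _ hi)
          rwa [if_pos hi] at this
        · have hij : i ∉ B j := fun hij => disjoint_left.1 (hBdisj j j' hj) hij hi
          have := h i (mem_union_right _ hi)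
          rwa [if_neg hij] at this
    simp only [h1]
    rw [sum_boole, card_cyl (B j ∪ B j') (fun i => if i ∈ B j then x j i else x j' i), ← hn]
    have h2 := hmn (B j ∪ B j')
    rw [card_union_of_disjoint (hBdisj j j' hj), hBcard, hBcard] at h2 ⊢
    rw [← h2, pow_add]
    push_cast
    calc (K : ℝ) ^ (n - (m + m)) = (K : ℝ) ^ (n - (m + m)) * ((K : ℝ) ^ m * p) *
        ((K : ℝ) ^ m * p) := by rw [hKp, mul_one, mul_one]
      _ = _ := by ring
  have hf3 : ∀ j y, f j y * f j y = f j y := by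
    intro j y
    simp only [f]
    split_ifs <;> simp
  have hfA : ∀ j, ∑ y ∈ A, f j y ≤ ((A.card : ℝ) / Q - ε) * (p * Q) := by
    intro j
    have h := hx j
    rw [hKnm j] at h
    simp only [f]
    rw [sum_boole]
    exact h.le
  set W : (ι → Fin K) → ℝ := fun y => ∑ j, f j y - t * p with hW
  have hW2 : ∑ y, W y ^ 2 ≤ t * p * Q := by
    have h1 : ∀ y, W y ^ 2 = ∑ j, ∑ j', f j y * f j' y - 2 * (t * p) * ∑ j, f j y +
        (t * p) ^ 2 := by
      intro y
      simp only [hW]
      rw [sub_sq, sq (∑ j, f j y), sum_mul_sum]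
      ring
    simp only [h1]
    rw [sum_add_distrib, sum_sub_distrib, ← mul_sum]
    have h2 : ∑ y, ∑ j, f j y = t * (p * Q) := by
      rw [sum_comm]
      simp only [hf1]
      simp
    have h3 : ∑ y, ∑ j, ∑ j', f j y * f j' y = t * (p * Q) + (t * t - t) * (p ^ 2 * Q) := by
      rw [sum_comm]
      have h4 : ∀ j : Fin t, ∑ y, ∑ j', f j y * f j' y = p * Q + (t - 1) * (p ^ 2 * Q) := by
        intro j
        rw [sum_comm, ← add_sum_erase _ _ (mem_univ j)]
        congr 1
        · simp only [hf3]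
          exact hf1 j
        · rw [sum_congr rfl (fun j' hj' => hf2 j j' (ne_of_mem_erase hj').symm), sum_const,
            card_erase_of_mem (mem_univ j), card_univ, Fintype.card_fin, nsmul_eq_mul,
            Nat.cast_sub (by have := j.isLt; omega)]
          simp
      simp only [h4]
      rw [sum_const, card_univ, Fintype.card_fin, nsmul_eq_mul]
      ring
    rw [h2, h3]
    have h5 : ∑ _y : ι → Fin K, ((t : ℝ) * p) ^ 2 = Q * (t * p) ^ 2 := by
      rw [sum_const, card_univ, nsmul_eq_mul]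
      congr 1
      simp [hQ, hn]
    rw [h5]
    have h6 : 0 ≤ (t : ℝ) * p ^ 2 * Q := by positivity
    nlinarith
  have hWA : ∑ y ∈ A, W y ≤ -(t * ε * p * Q) := by
    simp only [hW]
    rw [sum_sub_distrib, sum_comm]
    have h1 : ∑ j, ∑ y ∈ A, f j y ≤ ∑ _j : Fin t, ((A.card : ℝ) / Q - ε) * (p * Q) :=
      sum_le_sum (fun j _ => hfA j)
    rw [sum_const, card_univ, Fintype.card_fin, nsmul_eq_mul] at h1
    rw [sum_const, nsmul_eq_mul]
    have h2 : ((A.card : ℝ) / Q - ε) * (p * Q) = A.card * p - ε * p * Q := by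
      field_simp
    rw [h2] at h1
    linarith
  have hCS : (∑ y ∈ A, W y) ^ 2 ≤ Q * (t * p * Q) := by
    calc (∑ y ∈ A, W y) ^ 2 ≤ A.card * ∑ y ∈ A, W y ^ 2 := sq_sum_le_card_mul_sum_sq
      _ ≤ Q * ∑ y, W y ^ 2 := by
        apply mul_le_mul
        · have : (A.card : ℝ) ≤ (Fintype.card (ι → Fin K) : ℝ) := by
            exact_mod_cast card_le_univ A
          simpa [hQ, hn] using this
        · exact sum_le_sum_of_subset_of_nonneg (subset_univ _) (fun _ _ _ => sq_nonneg _)
        · exact sum_nonneg (fun _ _ => sq_nonneg _)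
        · exact hQ0.le
      _ ≤ Q * (t * p * Q) := mul_le_mul_of_nonneg_left hW2 hQ0.le
  have hsq : (t * ε * p * Q) ^ 2 ≤ (∑ y ∈ A, W y) ^ 2 := by
    have h1 : 0 ≤ (t : ℝ) * ε * p * Q := by positivity
    nlinarith
  have hfin : (t * ε * p * Q) ^ 2 ≤ Q * (t * p * Q) := hsq.trans hCS
  have h7 : (t : ℝ) * p * Q ^ 2 * (t * ε ^ 2 * p) ≤ (t : ℝ) * p * Q ^ 2 * 1 := by
    nlinarith
  have h8 : (t : ℝ) * ε ^ 2 * p ≤ 1 := le_of_mul_le_mul_left h7 (by positivity)
  have h9 : (t : ℝ) ≤ (K : ℝ) ^ m / ε ^ 2 := by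
    rw [le_div_iff₀ (by positivity)]
    calc (t : ℝ) * ε ^ 2 = (K : ℝ) ^ m * p * (t * ε ^ 2) := by rw [hKp, one_mul]
      _ = (K : ℝ) ^ m * (t * ε ^ 2 * p) := by ring
      _ ≤ (K : ℝ) ^ m * 1 := mul_le_mul_of_nonneg_left h8 (by positivity)
      _ = (K : ℝ) ^ m := mul_one _
  exact absurd ht (not_lt.2 h9)

end D159

end

section

/-!
# MP_d159ed_nt, A5a: a subspace all of whose lines are good
-/

set_option autoImplicit false

namespace D159

open Finset Combinatorics
open scoped BigOperators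

/-- The coordinate subspace on the first `m0` coordinates. -/
def firstSub {k m0 m1 : ℕ} (h : m0 ≤ m1) : Subspace (Fin m0) (Fin (k + 1)) (Fin m1) where
  idxFun i := if h : (i : ℕ) < m0 then Sum.inr ⟨i, h⟩ else Sum.inl 0
  proper := by
    intro e
    refine ⟨⟨e, lt_of_lt_of_le e.2 h⟩, ?_⟩
    simp

theorem claimA5a : ClaimA5a := by
  classical
  intro k hk hdhj hgr δ hδ
  obtain ⟨m0, hm0⟩ := hdhj (δ / 2) (by positivity)
  have : Finite (Line (Fin k) (Fin m0)) := by
    refine Finite.of_injective (fun l : Line (Fin k) (Fin m0) => l.idxFun) ?_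
    intro l l' h
    exact Line.ext h
  have : Fintype (Line (Fin k) (Fin m0)) := Fintype.ofFinite _
  set L := Fintype.card (Line (Fin k) (Fin m0)) with hL
  set θ : ℝ := δ / 2 / (L + 1) with hθ
  have hθpos : 0 < θ := by positivity
  refine ⟨θ, hθpos, m0, ?_⟩
  intro m1 hm1
  obtain ⟨N, hN⟩ := hgr (k + 1) (by omega) m1 Bool
  refine ⟨N, ?_⟩
  intro ι _ _ hι Y _ _ _ A hA
  have hYpos : (0 : ℝ) < Fintype.card Y := by exact_mod_cast Fintype.card_pos
  -- the claim
  have claim : ∀ V : Subspace (Fin m0) (Fin (k + 1)) ι, ∃ l : Line (Fin (k + 1)) (Fin m0),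
      θ * (Fintype.card Y : ℝ) ≤
        ((univ.filter (fun y : Y => ∀ a : Fin k, y ∈ A (compLine V l a.castSucc))).card : ℝ) := by
    intro V
    set P : (Fin m0 → Fin k) → (ι → Fin (k + 1)) := fun z => V (fun i => (z i).castSucc) with hP
    set Z : Y → Finset (Fin m0 → Fin k) := fun y => univ.filter (fun z => y ∈ A (P z)) with hZ
    have hkpos : (0 : ℝ) < (k : ℝ) ^ m0 := by
      have : (0 : ℝ) < k := by exact_mod_cast hk
      positivity
    set Y' : Finset Y := univ.filter (fun y => δ / 2 * (k : ℝ) ^ m0 ≤ ((Z y).card : ℝ)) with hY'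
    have hsum : δ * (Fintype.card Y : ℝ) * (k : ℝ) ^ m0 ≤ ∑ y : Y, ((Z y).card : ℝ) := by
      have h1 : ∑ y : Y, ((Z y).card : ℝ) = ∑ z : Fin m0 → Fin k, ((A (P z)).card : ℝ) := by
        have h2 : ∀ y : Y, ((Z y).card : ℝ) =
            ∑ z : Fin m0 → Fin k, if y ∈ A (P z) then (1 : ℝ) else 0 := by
          intro y
          rw [hZ, sum_boole]
        have h3 : ∀ z : Fin m0 → Fin k, ((A (P z)).card : ℝ) =
            ∑ y : Y, if y ∈ A (P z) then (1 : ℝ) else 0 := by
          intro z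
          rw [sum_boole]
          simp
        simp_rw [h2, h3]
        exact sum_comm
      rw [h1]
      calc δ * (Fintype.card Y : ℝ) * (k : ℝ) ^ m0
          = ∑ _z : Fin m0 → Fin k, δ * (Fintype.card Y : ℝ) := by
            simp [mul_comm]
        _ ≤ _ := sum_le_sum fun z _ => hA (P z)
    have hZle : ∀ y, ((Z y).card : ℝ) ≤ (k : ℝ) ^ m0 := by
      intro y
      have := card_le_univ (Z y)
      simp only [Fintype.card_pi, Fintype.card_fin, prod_const, card_univ] at this
      exact_mod_cast this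
    have hY'card : δ / 2 * (Fintype.card Y : ℝ) ≤ (Y'.card : ℝ) := by
      have h4 : ∑ y : Y, ((Z y).card : ℝ) ≤
          ∑ y : Y, ((if y ∈ Y' then (k : ℝ) ^ m0 else 0) + δ / 2 * (k : ℝ) ^ m0) := by
        refine sum_le_sum fun y _ => ?_
        by_cases hy : y ∈ Y'
        · rw [if_pos hy]
          have := hZle y
          have h5 : 0 ≤ δ / 2 * (k : ℝ) ^ m0 := by positivity
          linarith
        · rw [if_neg hy]
          simp only [hY', mem_filter, mem_univ, true_and, not_le] at hy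
          linarith
      rw [sum_add_distrib, sum_ite_mem, univ_inter, sum_const, nsmul_eq_mul, sum_const,
        card_univ, nsmul_eq_mul] at h4
      have h6 : (δ / 2 * (Fintype.card Y : ℝ)) * (k : ℝ) ^ m0 ≤ (Y'.card : ℝ) * (k : ℝ) ^ m0 := by
        nlinarith
      exact le_of_mul_le_mul_right h6 hkpos
    -- the lines
    set G : Line (Fin k) (Fin m0) → Finset Y :=
      fun l => univ.filter (fun y => ∀ x, y ∈ A (P (l x))) with hG
    have hcov : Y' ⊆ univ.biUnion G := by
      intro y hy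
      simp only [hY', mem_filter, mem_univ, true_and] at hy
      obtain ⟨l, hl⟩ := hm0 (Fin m0) (by simp) (Z y) (by simpa only [Fintype.card_fin] using hy)
      simp only [mem_biUnion, mem_univ, true_and]
      refine ⟨l, ?_⟩
      simp only [hG, mem_filter, mem_univ, true_and]
      intro x
      have := hl x
      simpa only [hZ, mem_filter, mem_univ, true_and] using this
    have hcov2 : (Y'.card : ℝ) ≤ ∑ l : Line (Fin k) (Fin m0), ((G l).card : ℝ) := by
      have h7 := (card_le_card hcov).trans card_biUnion_le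
      exact_mod_cast h7
    obtain ⟨l, hl⟩ : ∃ l, θ * (Fintype.card Y : ℝ) ≤ ((G l).card : ℝ) := by
      by_contra hcon
      push Not at hcon
      have h8 : ∑ l : Line (Fin k) (Fin m0), ((G l).card : ℝ) ≤
          ∑ _l : Line (Fin k) (Fin m0), θ * (Fintype.card Y : ℝ) :=
        sum_le_sum fun l _ => (hcon l).le
      rw [sum_const, card_univ, nsmul_eq_mul, ← hL] at h8
      have h9 : θ * (L + 1) = δ / 2 := by
        rw [hθ]; field_simp
      have h10 : 0 < θ * (Fintype.card Y : ℝ) := by positivity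
      have h11 : δ / 2 * (Fintype.card Y : ℝ) =
          L * (θ * (Fintype.card Y : ℝ)) + θ * (Fintype.card Y : ℝ) := by
        rw [← h9]; ring
      linarith
    refine ⟨l.map Fin.castSucc, hl.trans ?_⟩
    have h12 : G l ⊆ univ.filter (fun y : Y => ∀ a : Fin k,
        y ∈ A (compLine V (l.map Fin.castSucc) a.castSucc)) := by
      intro y hy
      simp only [hG, mem_filter, mem_univ, true_and] at hy ⊢
      intro a
      rw [compLine_apply, Line.map_apply]
      exact hy a
    exact_mod_cast card_le_card h12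
  obtain ⟨W, hW⟩ := hN ι hι (fun l => decide (θ * (Fintype.card Y : ℝ) ≤
    ((univ.filter (fun y : Y => ∀ a : Fin k, y ∈ A (l a.castSucc))).card : ℝ)))
  refine ⟨W, ?_⟩
  intro l
  obtain ⟨l0, hl0⟩ := claim (compSub W (firstSub hm1))
  rw [compLine_compSub] at hl0
  have h13 := hW (compLine (firstSub hm1) l0) l
  have h14 : decide (θ * (Fintype.card Y : ℝ) ≤
    ((univ.filter (fun y : Y => ∀ a : Fin k,
      y ∈ A (compLine W (compLine (firstSub hm1) l0) a.castSucc))).card : ℝ)) = true := by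
    rw [decide_eq_true_iff]; exact hl0
  rw [h14] at h13
  have h15 := decide_eq_true_iff.1 h13.symm
  simp_rw [compLine_apply] at h15
  exact h15

end D159

end

section

/-!
# MP_d159ed_nt, A5b: density increment on an intersection of insensitive sets
-/

set_option autoImplicit false

namespace D159

open Finset Combinatorics
open scoped BigOperators

namespace A5b

/-- Glue a word on `B` and a word outside `B`. -/
def glue {ι α : Type} [DecidableEq ι] (B : Finset ι) (x : B → α) (y : {i // i ∉ B} → α) :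
    ι → α := fun i => if h : i ∈ B then x ⟨i, h⟩ else y ⟨i, h⟩

/-- A subspace on `B` and a constant word outside `B`. -/
def glueSub {η ι α : Type} [DecidableEq ι] (B : Finset ι) (W : Subspace η α B)
    (y : {i // i ∉ B} → α) : Subspace η α ι where
  idxFun i := if h : i ∈ B then W.idxFun ⟨i, h⟩ else Sum.inl (y ⟨i, h⟩)
  proper := by
    intro e
    obtain ⟨⟨i, hi⟩, h⟩ := W.proper e
    exact ⟨i, by simp [hi, h]⟩

theorem glueSub_apply {η ι α : Type} [DecidableEq ι] (B : Finset ι) (W : Subspace η α B)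
    (y : {i // i ∉ B} → α) (x : η → α) : glueSub B W y x = glue B (W x) y := by
  funext i
  simp only [Subspace.coe_apply, glueSub, glue]
  split <;> simp

/-- Replace the last letter by `a`. -/
def rep {k : ℕ} {η : Type} (a : Fin k) (x : η → Fin (k + 1)) : η → Fin (k + 1) :=
  fun i => if x i = Fin.last k then a.castSucc else x i

/-- The line through `x` whose wildcards are the positions of the last letter. -/
def lin {k : ℕ} {η : Type} (x : η → Fin (k + 1)) (hx : ∃ i, x i = Fin.last k) :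
    Line (Fin (k + 1)) η where
  idxFun i := if x i = Fin.last k then none else some (x i)
  proper := by
    obtain ⟨i, hi⟩ := hx
    exact ⟨i, by simp [hi]⟩

theorem lin_apply {k : ℕ} {η : Type} (x : η → Fin (k + 1)) (hx : ∃ i, x i = Fin.last k)
    (c : Fin (k + 1)) : lin x hx c = fun i => if x i = Fin.last k then c else x i := by
  funext i
  simp only [Line.coe_apply, lin]
  split <;> simp

theorem lin_castSucc {k : ℕ} {η : Type} (x : η → Fin (k + 1)) (hx : ∃ i, x i = Fin.last k)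
    (a : Fin k) : lin x hx a.castSucc = rep a x := lin_apply x hx _

theorem lin_last {k : ℕ} {η : Type} (x : η → Fin (k + 1)) (hx : ∃ i, x i = Fin.last k) :
    lin x hx (Fin.last k) = x := by
  rw [lin_apply]
  funext i
  by_cases h : x i = Fin.last k
  · rw [if_pos h, h]
  · rw [if_neg h]

theorem rep_eq {k : ℕ} {η : Type} (a : Fin k) (x y : η → Fin (k + 1))
    (h : ∀ i, x i = y i ∨ ((x i = a.castSucc ∨ x i = Fin.last k) ∧
      (y i = a.castSucc ∨ y i = Fin.last k))) : rep a x = rep a y := by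
  funext i
  have hr : ∀ c : Fin (k + 1), (c = a.castSucc ∨ c = Fin.last k) →
      (if c = Fin.last k then a.castSucc else c) = a.castSucc := by
    intro c hc
    rcases hc with hc | hc
    · subst hc
      split <;> rfl
    · rw [if_pos hc]
  rcases h i with h1 | ⟨h1, h2⟩
  · simp only [rep, h1]
  · simp only [rep]
    rw [hr _ h1, hr _ h2]

/-- Counting words without the last letter. -/
theorem card_noLast (k m : ℕ) :
    (univ.filter (fun x : Fin m → Fin (k + 1) => ¬ ∃ i, x i = Fin.last k)).card ≤ k ^ m := by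
  have h1 : (univ.filter (fun x : Fin m → Fin (k + 1) => ¬ ∃ i, x i = Fin.last k)) ⊆
      (univ : Finset (Fin m → Fin k)).image (fun z i => (z i).castSucc) := by
    intro x hx
    rw [mem_filter] at hx
    have hx2 : ∀ i, x i ≠ Fin.last k := fun i hi => hx.2 ⟨i, hi⟩
    rw [mem_image]
    refine ⟨fun i => (x i).castPred (hx2 i), mem_univ _, ?_⟩
    funext i
    simp
  refine (card_le_card h1).trans (card_image_le.trans ?_)
  simp

end A5b

open A5b in
theorem claimA5b : ClaimA5b := by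
  intro k hk hL h4 δ0 hδ0
  have hk0 : (0 : ℝ) < k := by exact_mod_cast hk
  set D : ℝ := min δ0 1 with hD
  have hD0 : 0 < D := lt_min hδ0 one_pos
  have hD1 : D ≤ 1 := min_le_right _ _
  obtain ⟨θ', hθ', m0', hm0'⟩ := hL (D / 2) (by positivity)
  set θ : ℝ := min θ' 1 with hθ
  have hθ0 : 0 < θ := lt_min hθ' one_pos
  have hθ1 : θ ≤ 1 := min_le_right _ _
  have hθθ : θ ≤ θ' := min_le_left _ _
  set ε : ℝ := D * θ / 16 with hε
  have hε0 : 0 < ε := by positivity
  have hDθ : D * θ ≤ 1 := mul_le_one₀ hD1 hθ0.le hθ1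
  have hDθD : D * θ ≤ D := mul_le_of_le_one_right hD0.le hθ1
  have hε16 : ε ≤ 1 / 16 := by rw [hε]; linarith
  obtain ⟨m2, hm2⟩ : ∃ m2 : ℕ, ((k : ℝ) / (k + 1)) ^ m2 < ε :=
    exists_pow_lt_of_lt_one hε0 (by rw [div_lt_one (by positivity)]; linarith)
  refine ⟨min ε (D * θ / (2 * k)), by positivity, max m0' m2, ?_⟩
  intro m1 hm1
  obtain ⟨m, hm⟩ := hm0' m1 ((le_max_left _ _).trans hm1)
  obtain ⟨N, hN⟩ := h4 (k + 1) (by omega) m ε hε0
  refine ⟨N, ?_⟩
  intro ι _ _ hι δ hδ A hA
  have hδD : D ≤ δ := (min_le_left _ _).trans hδ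
  obtain ⟨B, hBm, hB⟩ := hN ι hι A
  by_cases hline : ∃ l : Line (Fin (k + 1)) ι, ∀ x, l x ∈ A
  · exact Or.inl hline
  refine Or.inr ?_
  classical
  have hq : (0 : ℝ) < (k : ℝ) + 1 := by positivity
  have hqc : (((k + 1 : ℕ) : ℝ)) = (k : ℝ) + 1 := by push_cast; ring
  -- the words outside `B`
  let Y := {i // i ∉ B} → Fin (k + 1)
  have hYcard : (Fintype.card Y : ℝ) = ((k : ℝ) + 1) ^ (Fintype.card ι - m) := by
    have h1 : Fintype.card Y = (k + 1) ^ (Fintype.card ι - m) := by
      have h2 : Fintype.card {i // i ∉ B} = Fintype.card ι - m := by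
        rw [Fintype.card_subtype_compl, Fintype.card_coe, hBm]
      simp only [Y]
      rw [Fintype.card_fun, Fintype.card_fin, h2]
    rw [h1]
    push_cast
    ring
  have hY0 : (0 : ℝ) < Fintype.card Y := by rw [hYcard]; positivity
  -- the slices
  let A' : (B → Fin (k + 1)) → Finset Y := fun x => univ.filter (fun y => glue B x y ∈ A)
  have hA' : ∀ x, (δ - ε) * (Fintype.card Y : ℝ) ≤ ((A' x).card : ℝ) := by
    intro x
    have h1 := hB (glue B x (fun _ => 0))
    have h2 : ((A.filter (fun y => ∀ i ∈ B, y i = glue B x (fun _ => 0) i)).card : ℝ) ≤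
        ((A' x).card : ℝ) := by
      have h3 : ∀ z ∈ A.filter (fun y => ∀ i ∈ B, y i = glue B x (fun _ => 0) i),
          glue B x (fun i : {i // i ∉ B} => z i) = z := by
        intro z hz
        rw [mem_filter] at hz
        funext i
        by_cases hi : i ∈ B
        · rw [hz.2 i hi]
          simp [glue, hi]
        · simp [glue, hi]
      exact_mod_cast card_le_card_of_injOn
        (fun (z : ι → Fin (k + 1)) (i : {i // i ∉ B}) => z i)
        (fun z hz => by
          have hz' : z ∈ A.filter (fun y => ∀ i ∈ B, y i = glue B x (fun _ => 0) i) := hz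
          have : glue B x (fun i : {i // i ∉ B} => z i) ∈ A := by
            rw [h3 z hz']
            exact (mem_filter.1 hz').1
          simpa [A'] using this)
        (fun z hz w hw hzw => by
          have hz' : z ∈ A.filter (fun y => ∀ i ∈ B, y i = glue B x (fun _ => 0) i) := hz
          have hw' : w ∈ A.filter (fun y => ∀ i ∈ B, y i = glue B x (fun _ => 0) i) := hw
          have hzw' : (fun i : {i // i ∉ B} => z i) = (fun i : {i // i ∉ B} => w i) := hzw
          rw [← h3 z hz', ← h3 w hw', hzw'])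
    refine le_trans ?_ (h1.trans h2)
    rw [hYcard, hqc]
    apply mul_le_mul_of_nonneg_right _ (by positivity)
    apply sub_le_sub_right
    rw [le_div_iff₀ (by positivity)]
    exact hA
  obtain ⟨W0, hW0⟩ := hm B (by rw [Fintype.card_coe, hBm]) Y A' (by
    intro x
    refine le_trans (mul_le_mul_of_nonneg_right ?_ hY0.le) (hA' x)
    have : ε ≤ D / 2 := by rw [hε]; linarith
    linarith)
  -- notation
  let X := Fin m1 → Fin (k + 1)
  have hXcard : (Fintype.card X : ℝ) = ((k : ℝ) + 1) ^ m1 := by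
    simp only [X]
    rw [Fintype.card_fun, Fintype.card_fin, Fintype.card_fin]
    push_cast
    ring
  let P : X → Y → Prop := fun x y => glue B (W0 x) y ∈ A
  let Da : Fin k → X → Y → Prop := fun a x y => glue B (W0 (rep a x)) y ∈ A
  let p : X → Y → ℝ := fun x y => if P x y then 1 else 0
  let d : X → Y → ℝ := fun x y => if ∀ a, Da a x y then 1 else 0
  let e : Fin k → X → Y → ℝ := fun i x y => if (∀ j < i, Da j x y) ∧ ¬ Da i x y then 1 else 0
  have hp01 : ∀ x y, 0 ≤ p x y ∧ p x y ≤ 1 := by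
    intro x y
    simp only [p]
    split <;> norm_num
  have hd01 : ∀ x y, 0 ≤ d x y ∧ d x y ≤ 1 := by
    intro x y
    simp only [d]
    split <;> norm_num
  -- sum of the `e i`
  have hsume : ∀ x y, ∑ i, e i x y = 1 - d x y := by
    intro x y
    by_cases hall : ∀ a, Da a x y
    · have h1 : ∀ i, e i x y = 0 := by
        intro i
        simp only [e]
        rw [if_neg]
        rintro ⟨-, h2⟩
        exact h2 (hall i)
      simp only [h1, d]
      rw [if_pos hall]
      simp
    · have h0 : d x y = 0 := by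
        simp only [d]
        rw [if_neg hall]
      rw [h0, sub_zero]
      push Not at hall
      -- the least index
      obtain ⟨i0, hi0, hmin⟩ : ∃ i0, ¬ Da i0 x y ∧ ∀ j < i0, Da j x y := by
        obtain ⟨b, hb⟩ := hall
        have hne : (univ.filter (fun i => ¬ Da i x y)).Nonempty := ⟨b, by simp [hb]⟩
        obtain ⟨i0, hi0, hmin⟩ := Finset.exists_min_image _ (fun i : Fin k => i) hne
        refine ⟨i0, (mem_filter.1 hi0).2, ?_⟩
        intro j hj
        by_contra hj2
        exact absurd (hmin j (by simp [hj2])) (not_le.2 hj)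
      rw [Finset.sum_eq_single i0]
      · simp only [e]
        rw [if_pos ⟨hmin, hi0⟩]
      · intro i _ hne
        simp only [e]
        rw [if_neg]
        rintro ⟨h1, h2⟩
        rcases lt_or_gt_of_ne hne with h3 | h3
        · exact h2 (hmin i h3)
        · exact hi0 (h1 i0 h3)
      · intro h; exact absurd (mem_univ _) h
  -- lower bound for `P`
  have hPsum : (δ - ε) * (Fintype.card X * Fintype.card Y : ℝ) ≤ ∑ x, ∑ y, p x y := by
    have h1 : ∀ x : X, (δ - ε) * (Fintype.card Y : ℝ) ≤ ∑ y, p x y := by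
      intro x
      have h2 : ∑ y, p x y = ((A' (W0 x)).card : ℝ) := by
        simp only [p, P, A']
        rw [Finset.sum_boole]
      rw [h2]
      exact hA' _
    calc (δ - ε) * (Fintype.card X * Fintype.card Y : ℝ)
        = ∑ x : X, (δ - ε) * (Fintype.card Y : ℝ) := by
          rw [Finset.sum_const, card_univ, nsmul_eq_mul]; ring
      _ ≤ _ := Finset.sum_le_sum fun x _ => h1 x
  -- words with no last letter
  set β : ℝ := ((k : ℝ) / (k + 1)) ^ m1 with hβ
  have hβ0 : 0 ≤ β := by positivity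
  have hβε : β ≤ ε := by
    refine le_trans ?_ hm2.le
    exact pow_le_pow_of_le_one (by positivity)
      (by rw [div_le_one (by positivity)]; linarith) ((le_max_right _ _).trans hm1)
  have hnl : ((univ.filter (fun x : X => ¬ ∃ i, x i = Fin.last k)).card : ℝ) ≤
      β * Fintype.card X := by
    have h1 : ((univ.filter (fun x : X => ¬ ∃ i, x i = Fin.last k)).card : ℝ) ≤ (k : ℝ) ^ m1 := by
      exact_mod_cast card_noLast k m1
    refine h1.trans (le_of_eq ?_)
    rw [hXcard, hβ, div_pow, div_mul_cancel₀]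
    positivity
  -- the lines
  have hcon : ∀ x y, P x y → (∀ a, Da a x y) → ¬ ∃ i, x i = Fin.last k := by
    intro x y hP hDa hx
    apply hline
    refine ⟨compLine (glueSub B W0 y) (lin x hx), ?_⟩
    intro c
    rw [compLine_apply, glueSub_apply]
    induction c using Fin.lastCases with
    | last => rw [lin_last]; exact hP
    | cast a => rw [lin_castSucc]; exact hDa a
  have hPD : ∑ x, ∑ y, p x y * d x y ≤ β * (Fintype.card X * Fintype.card Y : ℝ) := by
    have h1 : ∀ x : X, ∑ y, p x y * d x y ≤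
        (if ¬ ∃ i, x i = Fin.last k then (1 : ℝ) else 0) * Fintype.card Y := by
      intro x
      by_cases hx : ∃ i, x i = Fin.last k
      · have h2 : ∀ y, p x y * d x y = 0 := by
          intro y
          by_cases hP : P x y
          · by_cases hDa : ∀ a, Da a x y
            · exact absurd hx (hcon x y hP hDa)
            · simp only [d]
              rw [if_neg hDa, mul_zero]
          · simp only [p]
            rw [if_neg hP, zero_mul]
        simp only [h2]
        rw [if_neg (not_not.2 hx)]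
        simp
      · rw [if_pos hx, one_mul]
        calc ∑ y, p x y * d x y ≤ ∑ _y : Y, (1 : ℝ) :=
              Finset.sum_le_sum fun y _ => mul_le_one₀ (hp01 x y).2 (hd01 x y).1 (hd01 x y).2
          _ = _ := by simp
    calc ∑ x, ∑ y, p x y * d x y
        ≤ ∑ x : X, (if ¬ ∃ i, x i = Fin.last k then (1 : ℝ) else 0) * Fintype.card Y :=
          Finset.sum_le_sum fun x _ => h1 x
      _ = ((univ.filter (fun x : X => ¬ ∃ i, x i = Fin.last k)).card : ℝ) * Fintype.card Y := by
          rw [← Finset.sum_mul, Finset.sum_boole]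
      _ ≤ β * Fintype.card X * Fintype.card Y := mul_le_mul_of_nonneg_right hnl hY0.le
      _ = _ := by ring
  have hDsum : θ * (1 - β) * (Fintype.card X * Fintype.card Y : ℝ) ≤ ∑ x, ∑ y, d x y := by
    have h1 : ∀ x : X, (if ∃ i, x i = Fin.last k then (1 : ℝ) else 0) * (θ * Fintype.card Y) ≤
        ∑ y, d x y := by
      intro x
      by_cases hx : ∃ i, x i = Fin.last k
      · rw [if_pos hx, one_mul]
        have h2 := hW0 (lin x hx)
        have h3 : ∑ y, d x y = ((univ.filter (fun y : Y => ∀ a : Fin k,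
            y ∈ A' (W0 (lin x hx a.castSucc)))).card : ℝ) := by
          simp only [d, Da]
          rw [Finset.sum_boole]
          congr 2
          ext y
          simp only [mem_filter, mem_univ, true_and, A', lin_castSucc]
        rw [h3]
        exact le_trans (mul_le_mul_of_nonneg_right hθθ hY0.le) h2
      · rw [if_neg hx, zero_mul]
        exact Finset.sum_nonneg fun y _ => (hd01 x y).1
    have h2 : (1 - β) * (Fintype.card X : ℝ) ≤
        ∑ x : X, (if ∃ i, x i = Fin.last k then (1 : ℝ) else 0) := by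
      have h3 : ∑ x : X, (if ∃ i, x i = Fin.last k then (1 : ℝ) else 0) =
          (Fintype.card X : ℝ) -
            ((univ.filter (fun x : X => ¬ ∃ i, x i = Fin.last k)).card : ℝ) := by
        rw [Finset.sum_boole, eq_sub_iff_add_eq]
        have := Finset.card_filter_add_card_filter_not (s := (univ : Finset X))
          (fun x => ∃ i, x i = Fin.last k)
        rw [card_univ] at this
        exact_mod_cast this
      rw [h3]
      linarith
    calc θ * (1 - β) * (Fintype.card X * Fintype.card Y : ℝ)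
        = ((1 - β) * (Fintype.card X : ℝ)) * (θ * Fintype.card Y) := by ring
      _ ≤ (∑ x : X, (if ∃ i, x i = Fin.last k then (1 : ℝ) else 0)) * (θ * Fintype.card Y) :=
          mul_le_mul_of_nonneg_right h2 (by positivity)
      _ = ∑ x : X, (if ∃ i, x i = Fin.last k then (1 : ℝ) else 0) * (θ * Fintype.card Y) :=
          Finset.sum_mul _ _ _
      _ ≤ _ := Finset.sum_le_sum fun x _ => h1 x
  -- the total
  set T : ℝ := (Fintype.card X * Fintype.card Y : ℝ) with hT
  have hT0 : 0 < T := by rw [hT, hXcard]; positivity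
  let F : Fin k × Y → ℝ := fun iy => ∑ x, (p x iy.2 - (δ + ε)) * e iy.1 x iy.2
  have hFsum : ∑ iy, F iy = ∑ x, ∑ y, p x y - ∑ x, ∑ y, p x y * d x y -
      (δ + ε) * (T - ∑ x, ∑ y, d x y) := by
    have h1 : ∑ iy, F iy = ∑ x, ∑ y, (p x y - (δ + ε)) * (1 - d x y) := by
      simp only [F]
      rw [Finset.sum_comm]
      apply Finset.sum_congr rfl
      intro x _
      rw [Fintype.sum_prod_type_right]
      apply Finset.sum_congr rfl
      intro y _
      rw [← hsume, Finset.mul_sum]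
    rw [h1]
    have h2 : ∀ x y, (p x y - (δ + ε)) * (1 - d x y) =
        p x y - p x y * d x y - (δ + ε) * (1 - d x y) := by
      intro x y; ring
    simp only [h2, Finset.sum_sub_distrib, ← Finset.mul_sum]
    congr 2
    rw [hT]
    simp
  have hbig : D * θ / 2 * T ≤ ∑ iy, F iy := by
    rw [hFsum]
    have h1 : (δ + ε) * (T - ∑ x, ∑ y, d x y) ≤ (δ + ε) * (T - θ * (1 - β) * T) := by
      apply mul_le_mul_of_nonneg_left _ (by linarith)
      linarith
    have h2 : D * θ / 2 * T ≤ (δ - ε) * T - β * T - (δ + ε) * (T - θ * (1 - β) * T) := by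
      have h3 : (δ - ε) * T - β * T - (δ + ε) * (T - θ * (1 - β) * T) =
          (δ * (θ * (1 - β)) - β - 2 * ε + ε * (θ * (1 - β))) * T := by ring
      rw [h3]
      apply mul_le_mul_of_nonneg_right _ hT0.le
      have h4 : 15 / 16 ≤ 1 - β := by linarith
      have h5 : D * (θ * (15 / 16)) ≤ δ * (θ * (1 - β)) := by
        apply mul_le_mul hδD _ (by positivity) (by linarith)
        exact mul_le_mul_of_nonneg_left h4 hθ0.le
      have h6 : 0 ≤ ε * (θ * (1 - β)) := by
        apply mul_nonneg hε0.le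
        apply mul_nonneg hθ0.le
        linarith
      have h7 : β + 2 * ε ≤ 3 * (D * θ / 16) := by rw [← hε]; linarith
      linarith
    linarith
  -- pigeonhole
  have hne : (univ : Finset (Fin k × Y)).Nonempty := by
    have : Nonempty (Fin k) := ⟨⟨0, hk⟩⟩
    exact univ_nonempty
  obtain ⟨⟨i, y⟩, -, hiy⟩ := Finset.exists_le_of_sum_le hne
    (f := fun _ => D * θ / (2 * k) * (Fintype.card X : ℝ)) (g := F) (by
      refine le_trans (le_of_eq ?_) hbig
      rw [Finset.sum_const, card_univ, nsmul_eq_mul, Fintype.card_prod, Fintype.card_fin, hT]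
      push_cast
      field_simp)
  -- the set
  let E : Fin k → Finset X := fun a =>
    if a < i then univ.filter (fun x => Da a x y)
    else if a = i then univ.filter (fun x => ¬ Da a x y)
    else univ
  have hmemE : ∀ x : X, (∀ a, x ∈ E a) ↔ ((∀ j < i, Da j x y) ∧ ¬ Da i x y) := by
    intro x
    constructor
    · intro h
      refine ⟨fun j hj => ?_, ?_⟩
      · have := h j
        simp only [E, if_pos hj] at this
        exact (mem_filter.1 this).2
      · have := h i
        simp only [E, lt_irrefl, if_false, if_true] at this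
        exact (mem_filter.1 this).2
    · rintro ⟨h1, h2⟩ a
      simp only [E]
      split_ifs with h3 h4
      · exact mem_filter.2 ⟨mem_univ _, h1 a h3⟩
      · subst h4
        exact mem_filter.2 ⟨mem_univ _, h2⟩
      · exact mem_univ _
  refine ⟨glueSub B W0 y, E, ?_, ?_, ?_⟩
  · intro a x x' hxx
    have h1 : Da a x y ↔ Da a x' y := by
      simp only [Da]
      rw [rep_eq a x x' hxx]
    simp only [E]
    split_ifs with h3 h4
    · simp only [mem_filter, mem_univ, true_and, h1]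
    · simp only [mem_filter, mem_univ, true_and, h1]
    · simp only [mem_univ]
  all_goals
    have he1 : ∑ x, e i x y =
        ((univ.filter (fun x : Fin m1 → Fin (k + 1) => ∀ a, x ∈ E a)).card : ℝ) := by
      simp only [e]
      rw [Finset.sum_boole]
      congr 2
      ext x
      simp only [mem_filter, mem_univ, true_and, hmemE]
    have he2 : ∑ x, p x y * e i x y =
        ((univ.filter (fun x : Fin m1 → Fin (k + 1) =>
          (∀ a, x ∈ E a) ∧ glueSub B W0 y x ∈ A)).card : ℝ) := by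
      have h1 : ∀ x, p x y * e i x y =
          if ((∀ a, x ∈ E a) ∧ glueSub B W0 y x ∈ A) then (1 : ℝ) else 0 := by
        intro x
        have h5 : ((∀ a, x ∈ E a) ∧ glueSub B W0 y x ∈ A) ↔
            (P x y ∧ ((∀ j < i, Da j x y) ∧ ¬ Da i x y)) := by
          rw [hmemE, glueSub_apply]
          exact and_comm
        by_cases h6 : P x y
        · by_cases h7 : (∀ j < i, Da j x y) ∧ ¬ Da i x y
          · rw [if_pos (h5.2 ⟨h6, h7⟩)]
            simp only [p, e]
            rw [if_pos h6, if_pos h7, mul_one]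
          · rw [if_neg (fun h => h7 (h5.1 h).2)]
            simp only [p, e]
            rw [if_neg h7, mul_zero]
        · rw [if_neg (fun h => h6 (h5.1 h).1)]
          simp only [p, e]
          rw [if_neg h6, zero_mul]
      simp only [h1]
      rw [Finset.sum_boole]
    have he3 : ∑ x, p x y * e i x y ≤ ∑ x, e i x y := by
      apply Finset.sum_le_sum
      intro x _
      have : 0 ≤ e i x y := by
        simp only [e]
        split <;> norm_num
      calc p x y * e i x y ≤ 1 * e i x y := mul_le_mul_of_nonneg_right (hp01 x y).2 this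
        _ = _ := one_mul _
    have he0 : 0 ≤ ∑ x, e i x y := by
      apply Finset.sum_nonneg
      intro x _
      simp only [e]
      split <;> norm_num
    have hF : D * θ / (2 * k) * (Fintype.card X : ℝ) ≤
        ∑ x, p x y * e i x y - (δ + ε) * ∑ x, e i x y := by
      refine hiy.trans (le_of_eq ?_)
      simp only [F]
      rw [Finset.mul_sum, ← Finset.sum_sub_distrib]
      apply Finset.sum_congr rfl
      intro x _
      ring
    have hX0 : (0 : ℝ) < Fintype.card X := by rw [hXcard]; positivity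
    have hc0 : 0 ≤ D * θ / (2 * k) * (Fintype.card X : ℝ) := by positivity
  · rw [← he1, ← hXcard]
    have h1 : min ε (D * θ / (2 * k)) * (Fintype.card X : ℝ) ≤
        D * θ / (2 * k) * (Fintype.card X : ℝ) :=
      mul_le_mul_of_nonneg_right (min_le_right _ _) hX0.le
    have h2 : 0 ≤ (δ + ε) * ∑ x, e i x y := mul_nonneg (by linarith) he0
    linarith
  · rw [← he1, ← he2]
    have h1 : (δ + min ε (D * θ / (2 * k))) * ∑ x, e i x y ≤ (δ + ε) * ∑ x, e i x y := by
      apply mul_le_mul_of_nonneg_right _ he0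
      linarith [min_le_left ε (D * θ / (2 * k))]
    linarith

end D159

end

section

/-!
# MP_d159ed_nt, A6: DHJ (k+1) from the density increment and the partition theorem
-/

set_option autoImplicit false

namespace D159

open Finset Combinatorics
open scoped BigOperators

theorem subspace_injective {η α ι : Type} (V : Subspace η α ι) {x y : η → α}
    (h : V x = V y) : x = y := by
  funext e
  obtain ⟨i, hi⟩ := V.proper e
  have h1 := congrFun h i
  rwa [Subspace.apply_inr hi, Subspace.apply_inr hi] at h1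

theorem claimA6 : ClaimA6 := by
  classical
  intro k hk hinc hpart δ0 hδ0
  obtain ⟨η0, hη0, m0, hm0⟩ := hinc δ0 hδ0
  obtain ⟨η, hη, hηle, hη1⟩ : ∃ η : ℝ, 0 < η ∧ η ≤ η0 ∧ η ≤ 1 :=
    ⟨min η0 1, lt_min hη0 one_pos, min_le_left _ _, min_le_right _ _⟩
  have hK : (0 : ℝ) < (k : ℝ) + 1 := by positivity
  have key : ∀ j : ℕ, ∃ N : ℕ, ∀ (ι : Type) [Fintype ι] [DecidableEq ι], N ≤ Fintype.card ι →
      ∀ δ : ℝ, δ0 ≤ δ → 1 + η - j * (η / 2) ≤ δ → ∀ A : Finset (ι → Fin (k + 1)),
        δ * ((k : ℝ) + 1) ^ Fintype.card ι ≤ (A.card : ℝ) →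
        ∃ l : Line (Fin (k + 1)) ι, ∀ x, l x ∈ A := by
    intro j
    induction j with
    | zero =>
      refine ⟨0, ?_⟩
      intro ι _ _ _ δ _ h1 A hA
      exfalso
      have h2 : (A.card : ℝ) ≤ ((k : ℝ) + 1) ^ Fintype.card ι := by
        have := Finset.card_le_univ A
        simp only [Fintype.card_pi, Fintype.card_fin, Finset.prod_const, Finset.card_univ] at this
        exact_mod_cast this
      have h3 : (0 : ℝ) < ((k : ℝ) + 1) ^ Fintype.card ι := by positivity
      have h4 : 1 < δ := by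
        simp only [Nat.cast_zero, zero_mul, sub_zero] at h1
        linarith
      nlinarith
    | succ j ih =>
      obtain ⟨d, hd⟩ := ih
      have hγ : (0 : ℝ) < η ^ 2 / 2 := by positivity
      obtain ⟨N', hN'⟩ := hpart d (η ^ 2 / 2) hγ
      obtain ⟨m1, hm1a, hm1b⟩ : ∃ m1 : ℕ, m0 ≤ m1 ∧ N' ≤ m1 :=
        ⟨max m0 N', le_max_left _ _, le_max_right _ _⟩
      obtain ⟨N, hN⟩ := hm0 m1 hm1a
      refine ⟨N, ?_⟩
      intro ι _ _ hι δ hδ h1 A hA
      rcases hN ι hι δ hδ A hA with h | ⟨W, E, hE, hE1, hE2⟩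
      · exact h
      obtain ⟨𝒱, hV1, hV2, hV3⟩ := hN' (Fin m1) (by simpa using hm1b) E hE
      simp only [Fintype.card_fin] at hV3
      set Es := univ.filter (fun x : Fin m1 → Fin (k + 1) => ∀ a, x ∈ E a) with hEs
      have hpos : (0 : ℝ) < ((k : ℝ) + 1) ^ m1 := by positivity
      have hEspos : (0 : ℝ) < (Es.card : ℝ) := lt_of_lt_of_le (by positivity) hE1
      have hγb : η ^ 2 / 2 * ((k : ℝ) + 1) ^ m1 ≤ η / 2 * (Es.card : ℝ) := by
        have h5 : η * ((k : ℝ) + 1) ^ m1 ≤ (Es.card : ℝ) := by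
          refine le_trans ?_ hE1
          exact mul_le_mul_of_nonneg_right hηle hpos.le
        calc η ^ 2 / 2 * ((k : ℝ) + 1) ^ m1 = η / 2 * (η * ((k : ℝ) + 1) ^ m1) := by ring
          _ ≤ η / 2 * (Es.card : ℝ) := mul_le_mul_of_nonneg_left h5 (by positivity)
      -- the covered points
      set P : Finset (Subspace (Fin d) (Fin (k + 1)) (Fin m1) × (Fin d → Fin (k + 1))) :=
        𝒱 ×ˢ univ with hP
      set f : Subspace (Fin d) (Fin (k + 1)) (Fin m1) × (Fin d → Fin (k + 1)) →
        (Fin m1 → Fin (k + 1)) := fun p => p.1 p.2 with hf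
      have hinj : Set.InjOn f P := by
        rintro ⟨V, x⟩ hp ⟨V', x'⟩ hp' heq
        simp only [hP, coe_product, coe_univ, Set.mem_prod, Finset.mem_coe, Set.mem_univ,
          and_true] at hp hp'
        by_cases hVV : V = V'
        · subst hVV
          simp only [hf] at heq
          rw [subspace_injective V heq]
        · exact absurd heq (hV2 V hp V' hp' hVV x x')
      have hPcard : (P.card : ℝ) = (𝒱.card : ℝ) * ((k : ℝ) + 1) ^ d := by
        simp [hP, Finset.card_product]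
      set PA := P.filter (fun p => W (f p) ∈ A) with hPA
      set EA := univ.filter (fun x : Fin m1 → Fin (k + 1) => (∀ a, x ∈ E a) ∧ W x ∈ A) with hEA
      have hsub : EA \ PA.image f ⊆ Es \ P.image f := by
        intro x hx
        simp only [mem_sdiff, hEA, mem_filter, mem_univ, true_and, mem_image, not_exists,
          not_and, hEs, hPA] at hx ⊢
        refine ⟨hx.1.1, ?_⟩
        intro p hp hpx
        exact hx.2 p ⟨hp, by rw [hpx]; exact hx.1.2⟩ hpx
      have hPE : P.image f ⊆ Es := by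
        intro x hx
        simp only [mem_image, hP, mem_product, mem_univ, and_true] at hx
        obtain ⟨p, hp, rfl⟩ := hx
        simp only [hEs, mem_filter, mem_univ, true_and]
        intro a
        exact hV1 p.1 hp p.2 a
      have hPAE : PA.image f ⊆ EA := by
        intro x hx
        simp only [mem_image, hPA, mem_filter] at hx
        obtain ⟨p, ⟨hp, hpA⟩, rfl⟩ := hx
        have h6 : f p ∈ Es := hPE (mem_image_of_mem f hp)
        simp only [hEs, mem_filter, mem_univ, true_and] at h6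
        simp only [hEA, mem_filter, mem_univ, true_and]
        exact ⟨h6, hpA⟩
      have hc1 := card_le_card hsub
      rw [card_sdiff_of_subset hPE, card_sdiff_of_subset hPAE,
        card_image_of_injOn hinj,
        card_image_of_injOn (hinj.mono (by
          intro p hp
          simp only [hPA, coe_filter, Set.mem_ofPred_eq] at hp
          exact hp.1))] at hc1
      have hPle : P.card ≤ Es.card := by
        rw [← card_image_of_injOn hinj]; exact card_le_card hPE
      have hc2 : (EA.card : ℝ) ≤ PA.card + ((Es.card : ℝ) - P.card) := by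
        have : EA.card ≤ PA.card + (Es.card - P.card) := by omega
        have h7 : (EA.card : ℝ) ≤ ((PA.card + (Es.card - P.card) : ℕ) : ℝ) := by
          exact_mod_cast this
        rwa [Nat.cast_add, Nat.cast_sub hPle] at h7
      have hPA1 : (δ + η / 2) * (Es.card : ℝ) ≤ PA.card := by
        have h8 : (δ + η) * (Es.card : ℝ) ≤ EA.card := by
          refine le_trans ?_ hE2
          exact mul_le_mul_of_nonneg_right (by linarith) hEspos.le
        nlinarith
      have hPA2 : (PA.card : ℝ) = ∑ V ∈ 𝒱, ((univ.filter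
          (fun x : Fin d → Fin (k + 1) => W (V x) ∈ A)).card : ℝ) := by
        rw [hPA, hP, card_filter, sum_product]
        push_cast
        refine sum_congr rfl fun V _ => ?_
        rw [card_filter]
        push_cast
        rfl
      have hδpos : 0 < δ := lt_of_lt_of_le hδ0 hδ
      have hne : 𝒱.Nonempty := by
        rw [nonempty_iff_ne_empty]
        intro h9
        rw [h9] at hV3
        simp only [card_empty, Nat.cast_zero, zero_mul, zero_add] at hV3
        nlinarith
      have hPA3 : ∑ V ∈ 𝒱, (δ + η / 2) * ((k : ℝ) + 1) ^ d ≤ ∑ V ∈ 𝒱, ((univ.filter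
          (fun x : Fin d → Fin (k + 1) => W (V x) ∈ A)).card : ℝ) := by
        rw [← hPA2, sum_const, nsmul_eq_mul]
        have h10 : (P.card : ℝ) ≤ Es.card := by exact_mod_cast hPle
        calc (𝒱.card : ℝ) * ((δ + η / 2) * ((k : ℝ) + 1) ^ d)
            = (δ + η / 2) * (P.card : ℝ) := by rw [hPcard]; ring
          _ ≤ (δ + η / 2) * (Es.card : ℝ) := mul_le_mul_of_nonneg_left h10 (by positivity)
          _ ≤ _ := hPA1
      obtain ⟨V, hV, hVd⟩ := exists_le_of_sum_le hne hPA3
      obtain ⟨l, hl⟩ := hd (Fin d) (by simp) (δ + η / 2) (by linarith)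
        (by push_cast at h1; linarith)
        (univ.filter (fun x : Fin d → Fin (k + 1) => W (V x) ∈ A))
        (by simpa only [Fintype.card_fin] using hVd)
      refine ⟨compLine W (compLine V l), fun x => ?_⟩
      have h11 := hl x
      simp only [mem_filter, mem_univ, true_and] at h11
      rw [compLine_apply, compLine_apply]
      exact h11
  obtain ⟨j, hj⟩ := exists_nat_ge ((1 + η) / (η / 2))
  obtain ⟨N, hN⟩ := key j
  refine ⟨N, ?_⟩
  intro ι _ _ hι A hA
  refine hN ι hι δ0 le_rfl ?_ A (by push_cast at hA; exact hA)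
  rw [div_le_iff₀ (by positivity)] at hj
  linarith

end D159

end

section

/-!
# MP_d159ed_nt, A7: the base case
-/

set_option autoImplicit false

namespace D159

open Finset Combinatorics

theorem claimA7 : ClaimA7 := by
  intro δ hδ
  refine ⟨1, ?_⟩
  intro ι _ _ hι A hA
  have hne : Nonempty ι := Fintype.card_pos_iff.1 (by omega)
  have hA0 : 0 < A.card := by
    have : (0 : ℝ) < A.card := by
      refine lt_of_lt_of_le ?_ hA
      simpa using hδ
    exact_mod_cast this
  obtain ⟨y, hy⟩ := card_pos.1 hA0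
  refine ⟨default, fun x => ?_⟩
  have : (default : Line (Fin 1) ι) x = y := Subsingleton.elim _ _
  rw [this]
  exact hy

end D159

end

section

/-!
# MP_d159ed_nt, A8: functional Szemeredi on ZMod M from DHJ 5
-/

set_option autoImplicit false

namespace D159

open Finset Combinatorics
open scoped BigOperators

/-- The sum of the letters of a word. -/
def wsum {n : ℕ} (x : Fin n → Fin 5) : ℕ := ∑ i, (x i : ℕ)

/-- The number of wildcards of a line. -/
def nwild {n : ℕ} (l : Line (Fin 5) (Fin n)) : ℕ := (univ.filter fun i => l.idxFun i = none).card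

/-- The sum of the fixed letters of a line. -/
def fixsum {n : ℕ} (l : Line (Fin 5) (Fin n)) : ℕ :=
  ∑ i ∈ univ.filter (fun i => l.idxFun i ≠ none), (l 0 i : ℕ)

theorem wsum_line {n : ℕ} (l : Line (Fin 5) (Fin n)) (a : Fin 5) :
    wsum (l a) = fixsum l + nwild l * (a : ℕ) := by
  unfold wsum fixsum nwild
  rw [← Finset.sum_filter_add_sum_filter_not univ (fun i => l.idxFun i ≠ none)]
  congr 1
  · refine Finset.sum_congr rfl fun i hi => ?_
    have h := (Finset.mem_filter.mp hi).2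
    obtain ⟨b, hb⟩ := Option.ne_none_iff_exists'.mp h
    rw [Line.apply_some hb, Line.apply_some hb]
  · simp only [ne_eq, not_not]
    rw [← smul_eq_mul, ← Finset.sum_const]
    refine Finset.sum_congr rfl fun i hi => ?_
    rw [Line.apply_none _ _ _ (Finset.mem_filter.mp hi).2]

theorem nwild_pos {n : ℕ} (l : Line (Fin 5) (Fin n)) : 0 < nwild l := by
  obtain ⟨i, hi⟩ := l.proper
  exact Finset.card_pos.mpr ⟨i, by simp [hi]⟩

theorem nwild_le {n : ℕ} (l : Line (Fin 5) (Fin n)) : nwild l ≤ n := by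
  unfold nwild
  refine (Finset.card_le_univ _).trans ?_
  simp

instance finite_line_A8 {n : ℕ} : Finite (Line (Fin 5) (Fin n)) := by
  refine Finite.of_injective (fun l : Line (Fin 5) (Fin n) => l.idxFun) ?_
  intro l l' h
  cases l
  cases l'
  simpa using h

theorem expect_line {M n : ℕ} [NeZero M] (hM : M.Prime) (hn : n < M) (g : ZMod M → ℝ)
    (l : Line (Fin 5) (Fin n)) :
    𝔼 a : ZMod M, 𝔼 d : ZMod M, ∏ i : Fin 5, g (a + d * (wsum (l i) : ZMod M)) =
      𝔼 x, 𝔼 d, ∏ i : Fin 5, g (x + (i : ℕ) * d) := by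
  have : Fact M.Prime := ⟨hM⟩
  have he : ((nwild l : ℕ) : ZMod M) ≠ 0 := by
    rw [Ne, ZMod.natCast_eq_zero_iff]
    intro h
    have := Nat.le_of_dvd (nwild_pos l) h
    have := nwild_le l
    omega
  rw [Finset.expect_comm]
  have h1 : ∀ d : ZMod M, 𝔼 a : ZMod M, ∏ i : Fin 5, g (a + d * (wsum (l i) : ZMod M)) =
      𝔼 a : ZMod M, ∏ i : Fin 5, g (a + (i : ℕ) * (d * (nwild l : ZMod M))) := by
    intro d
    refine Fintype.expect_equiv (Equiv.addRight (d * (fixsum l : ZMod M))) _ _ fun a => ?_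
    refine Finset.prod_congr rfl fun i _ => ?_
    congr 1
    rw [wsum_line]
    simp only [Equiv.coe_addRight]
    push_cast
    ring
  simp_rw [h1]
  rw [Finset.expect_comm univ univ (fun x d => ∏ i : Fin 5, g (x + ((i : ℕ) : ZMod M) * d))]
  exact Fintype.expect_equiv (Equiv.mulRight₀ _ he) _ _ fun d => rfl

theorem claimA8 : ClaimA8 := by
  intro hD δ hδ
  obtain ⟨N, hN⟩ := hD (δ / 4) (by positivity)
  classical
  set n := max 1 N with hn
  have : Fintype (Line (Fin 5) (Fin n)) := Fintype.ofFinite _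
  set q : ℝ := (Fintype.card (Line (Fin 5) (Fin n)) : ℝ) + 1 with hq
  have hq0 : 0 < q := by positivity
  refine ⟨(δ / 4) ^ 5 * (δ / 2) / q, by positivity, n + 1, ?_⟩
  intro M _ hMp hM g hg0 hg1 hδg
  rw [div_le_iff₀ hq0]
  set T : ℝ := 𝔼 x, 𝔼 d, ∏ i : Fin 5, g (x + (i : ℕ) * d) with hT
  have hT0 : 0 ≤ T := by
    refine Finset.expect_nonneg fun x _ => Finset.expect_nonneg fun d _ => ?_
    exact Finset.prod_nonneg fun i _ => hg0 _
  -- the average over words, differences and base points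
  have hav : 𝔼 a : ZMod M, 𝔼 d : ZMod M, 𝔼 x : Fin n → Fin 5, g (a + d * (wsum x : ZMod M)) =
      𝔼 x, g x := by
    have h1 : ∀ a : ZMod M, 𝔼 d : ZMod M, 𝔼 x : Fin n → Fin 5, g (a + d * (wsum x : ZMod M)) =
        𝔼 x : Fin n → Fin 5, 𝔼 d : ZMod M, g (a + d * (wsum x : ZMod M)) :=
      fun a => Finset.expect_comm _ _ _
    simp_rw [h1]
    rw [Finset.expect_comm]
    have h2 : ∀ x : Fin n → Fin 5,
        𝔼 a : ZMod M, 𝔼 d : ZMod M, g (a + d * (wsum x : ZMod M)) = 𝔼 x, g x := by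
      intro x
      rw [Finset.expect_comm]
      have h3 : ∀ d : ZMod M, 𝔼 a : ZMod M, g (a + d * (wsum x : ZMod M)) = 𝔼 x, g x :=
        fun d => Fintype.expect_equiv (Equiv.addRight (d * (wsum x : ZMod M))) _ _ fun a => rfl
      simp_rw [h3]
      exact Fintype.expect_const _
    simp_rw [h2]
    exact Fintype.expect_const _
  -- the local estimate
  have hloc : ∀ a d : ZMod M,
      (δ / 4) ^ 5 * ((𝔼 x : Fin n → Fin 5, g (a + d * (wsum x : ZMod M))) - δ / 2) ≤
        ∑ l : Line (Fin 5) (Fin n), ∏ i : Fin 5, g (a + d * (wsum (l i) : ZMod M)) := by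
    intro a d
    set t := 𝔼 x : Fin n → Fin 5, g (a + d * (wsum x : ZMod M)) with ht
    have ht1 : t ≤ 1 := Finset.expect_le univ_nonempty fun x _ => hg1 _
    have hnn : 0 ≤ ∑ l : Line (Fin 5) (Fin n), ∏ i : Fin 5, g (a + d * (wsum (l i) : ZMod M)) :=
      Finset.sum_nonneg fun l _ => Finset.prod_nonneg fun i _ => hg0 _
    rcases lt_or_ge t (δ / 2) with h | h
    · refine le_trans ?_ hnn
      exact mul_nonpos_of_nonneg_of_nonpos (by positivity) (by linarith)
    · -- a dense set of good words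
      set A : Finset (Fin n → Fin 5) :=
        univ.filter fun x => δ / 4 ≤ g (a + d * (wsum x : ZMod M)) with hA
      have hcard : (Fintype.card (Fin n → Fin 5) : ℝ) = 5 ^ n := by simp
      have hA1 : t * 5 ^ n ≤ A.card + δ / 4 * 5 ^ n := by
        have h1 : t * 5 ^ n = ∑ x : Fin n → Fin 5, g (a + d * (wsum x : ZMod M)) := by
          rw [← hcard, mul_comm, ht]
          exact Fintype.card_mul_expect _
        rw [h1]
        have h2 : ∀ x : Fin n → Fin 5, g (a + d * (wsum x : ZMod M)) ≤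
            (if x ∈ A then 1 else 0) + δ / 4 := by
          intro x
          split_ifs with hx
          · linarith [hg1 (a + d * (wsum x : ZMod M))]
          · have : ¬ δ / 4 ≤ g (a + d * (wsum x : ZMod M)) := fun h' =>
              hx (Finset.mem_filter.mpr ⟨Finset.mem_univ _, h'⟩)
            linarith
        refine (Finset.sum_le_sum fun x _ => h2 x).trans ?_
        rw [Finset.sum_add_distrib, Finset.sum_const, Finset.card_univ, nsmul_eq_mul, hcard]
        simp only [Finset.sum_ite_mem, Finset.univ_inter, Finset.sum_const, nsmul_eq_mul, mul_one]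
        linarith
      have hA2 : δ / 4 * ((5 : ℕ) : ℝ) ^ Fintype.card (Fin n) ≤ (A.card : ℝ) := by
        rw [Fintype.card_fin]
        push_cast
        have h5 : (0 : ℝ) < 5 ^ n := by positivity
        nlinarith
      obtain ⟨l, hl⟩ := hN (Fin n) (by rw [Fintype.card_fin]; exact le_max_right _ _) A hA2
      have hprod : (δ / 4) ^ 5 ≤ ∏ i : Fin 5, g (a + d * (wsum (l i) : ZMod M)) := by
        have h3 : ∏ _i : Fin 5, (δ / 4) = (δ / 4) ^ 5 := by
          rw [Finset.prod_const, Finset.card_univ, Fintype.card_fin]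
        rw [← h3]
        refine Finset.prod_le_prod (fun i _ => by positivity) fun i _ => ?_
        exact (Finset.mem_filter.mp (hl i)).2
      have hsum : ∏ i : Fin 5, g (a + d * (wsum (l i) : ZMod M)) ≤
          ∑ l : Line (Fin 5) (Fin n), ∏ i : Fin 5, g (a + d * (wsum (l i) : ZMod M)) :=
        Finset.single_le_sum (f := fun l : Line (Fin 5) (Fin n) =>
          ∏ i : Fin 5, g (a + d * (wsum (l i) : ZMod M)))
          (fun l _ => Finset.prod_nonneg fun i _ => hg0 _) (Finset.mem_univ l)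
      calc (δ / 4) ^ 5 * (t - δ / 2) ≤ (δ / 4) ^ 5 * 1 := by
            refine mul_le_mul_of_nonneg_left ?_ (by positivity)
            linarith
        _ = (δ / 4) ^ 5 := mul_one _
        _ ≤ _ := hprod.trans hsum
  -- average the local estimate
  have h1 : 𝔼 a : ZMod M, 𝔼 d : ZMod M,
      (δ / 4) ^ 5 * ((𝔼 x : Fin n → Fin 5, g (a + d * (wsum x : ZMod M))) - δ / 2) ≤
      𝔼 a : ZMod M, 𝔼 d : ZMod M,
        ∑ l : Line (Fin 5) (Fin n), ∏ i : Fin 5, g (a + d * (wsum (l i) : ZMod M)) :=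
    Finset.expect_le_expect fun a _ => Finset.expect_le_expect fun d _ => hloc a d
  have h2 : 𝔼 a : ZMod M, 𝔼 d : ZMod M,
      (δ / 4) ^ 5 * ((𝔼 x : Fin n → Fin 5, g (a + d * (wsum x : ZMod M))) - δ / 2) =
      (δ / 4) ^ 5 * ((𝔼 x, g x) - δ / 2) := by
    simp_rw [← Finset.mul_expect, Finset.expect_sub_distrib, Fintype.expect_const]
    rw [hav]
  have h3 : 𝔼 a : ZMod M, 𝔼 d : ZMod M,
        ∑ l : Line (Fin 5) (Fin n), ∏ i : Fin 5, g (a + d * (wsum (l i) : ZMod M)) =
      Fintype.card (Line (Fin 5) (Fin n)) * T := by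
    simp_rw [Finset.expect_sum_comm]
    have h4 : ∀ l : Line (Fin 5) (Fin n),
        𝔼 a : ZMod M, 𝔼 d : ZMod M, ∏ i : Fin 5, g (a + d * (wsum (l i) : ZMod M)) = T :=
      fun l => expect_line hMp (by omega) g l
    simp_rw [h4]
    rw [Finset.sum_const, Finset.card_univ, nsmul_eq_mul]
  rw [h2, h3] at h1
  have h5 : (δ / 4) ^ 5 * (δ / 2) ≤ (δ / 4) ^ 5 * ((𝔼 x, g x) - δ / 2) :=
    mul_le_mul_of_nonneg_left (by linarith) (by positivity)
  rw [hq]
  nlinarith

end D159

end

section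

/-!
# MP_d159ed_nt, part D: basic facts on wt and ell
-/

set_option autoImplicit false

namespace D159

open Finset
open scoped BigOperators ArithmeticFunction.vonMangoldt

lemma wt_at_zero (σ : ℝ) (hσ : 1 < σ) (j : ℕ) : wt σ j 0 = 0 := by
  unfold wt
  have : ((0 : ℕ) : ℝ) ^ (-σ) = 0 := by
    rw [Nat.cast_zero]; exact Real.zero_rpow (by linarith)
  rw [this, mul_zero]

lemma wt_nonneg (σ : ℝ) (j n : ℕ) : 0 ≤ wt σ j n := by
  unfold wt
  have := Real.log_natCast_nonneg n
  positivity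

lemma logpow_le (a : ℝ) (ha : 0 < a) (y : ℝ) (hy : 0 ≤ y) (j : ℕ) :
    y ^ j / (j.factorial : ℝ) ≤ (1 / a) ^ j * Real.exp (a * y) := by
  have h := Real.pow_div_factorial_le_exp (a * y) (by positivity) j
  rw [mul_pow] at h
  calc y ^ j / (j.factorial : ℝ) = (1 / a) ^ j * (a ^ j * y ^ j / j.factorial) := by
        rw [one_div, inv_pow]; field_simp
    _ ≤ _ := by gcongr

lemma exp_mul_log_nat (a : ℝ) (n : ℕ) (hn : 1 ≤ n) :
    Real.exp (a * Real.log n) = (n : ℝ) ^ a := by
  have : (0 : ℝ) < n := by exact_mod_cast hn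
  rw [Real.rpow_def_of_pos this, mul_comm]

lemma wt_le (σ a : ℝ) (ha : 0 < a) (j n : ℕ) (hn : 1 ≤ n) :
    wt σ j n ≤ (1 / a) ^ j * (n : ℝ) ^ (a - σ) := by
  unfold wt
  have hn0 : (0 : ℝ) < n := by exact_mod_cast hn
  have h1 := logpow_le a ha (Real.log n) (Real.log_natCast_nonneg n) j
  rw [exp_mul_log_nat a n hn] at h1
  have h3 : (n : ℝ) ^ (a - σ) = (n : ℝ) ^ a * (n : ℝ) ^ (-σ) := by
    rw [← Real.rpow_add hn0]; ring_nf
  rw [h3, ← mul_assoc]
  gcongr

lemma wt_eq_exp (σ : ℝ) (j n : ℕ) (hn : 1 ≤ n) :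
    wt σ j n = (Real.log n) ^ j / (j.factorial : ℝ) * Real.exp (-σ * Real.log n) := by
  rw [wt, exp_mul_log_nat _ _ hn]

lemma summable_wt (σ : ℝ) (hσ : 1 < σ) (j : ℕ) : Summable (fun n => wt σ j n) := by
  have ha : 0 < (σ - 1) / 2 := by linarith
  have h1 : Summable (fun n : ℕ => (1 / ((σ - 1) / 2)) ^ j * (n : ℝ) ^ ((σ - 1) / 2 - σ)) :=
    (Real.summable_nat_rpow.mpr (by linarith)).mul_left _
  refine Summable.of_nonneg_of_le (fun n => wt_nonneg σ j n) (fun n => ?_) h1
  rcases Nat.eq_zero_or_pos n with rfl | hn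
  · rw [wt_at_zero σ hσ]; positivity
  · exact wt_le σ _ ha j n hn

lemma summable_ell {q : ℕ} (χ : DirichletCharacter ℂ q) (σ : ℝ) (hσ : 1 < σ) (j : ℕ) :
    Summable (fun n : ℕ => χ n * ((wt σ j n : ℝ) : ℂ)) := by
  refine Summable.of_norm_bounded (summable_wt σ hσ j) (fun n => ?_)
  rw [norm_mul, Complex.norm_real, Real.norm_of_nonneg (wt_nonneg σ j n)]
  exact mul_le_of_le_one_left (wt_nonneg σ j n) (χ.norm_le_one _)

lemma ofReal_wt (σ : ℝ) (j n : ℕ) : ((wt σ j n : ℝ) : ℂ) =
    ((Real.log n : ℝ) : ℂ) ^ j / (j.factorial : ℂ) * (n : ℂ) ^ (-(σ : ℂ)) := by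
  unfold wt
  rw [Complex.ofReal_mul, Complex.ofReal_div, Complex.ofReal_pow,
    Complex.ofReal_cpow (Nat.cast_nonneg n)]
  norm_cast

/-- the zeroth derivative is the L-series -/
lemma ell_zero_eq {q : ℕ} (χ : DirichletCharacter ℂ q) (σ : ℝ) (hσ : 1 < σ) :
    ell χ σ 0 = LSeries (fun n => χ n) (σ : ℂ) := by
  unfold ell LSeries
  refine tsum_congr (fun n => ?_)
  rcases Nat.eq_zero_or_pos n with rfl | hn
  · rw [wt_at_zero σ hσ]; simp
  · rw [LSeries.term_of_ne_zero hn.ne', ofReal_wt, Complex.cpow_neg]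
    simp [div_eq_mul_inv]

/-- the first derivative -/
lemma ell_one_eq {q : ℕ} (χ : DirichletCharacter ℂ q) (σ : ℝ) (hσ : 1 < σ) :
    ell χ σ 1 = LSeries (LSeries.logMul (fun n => χ n)) (σ : ℂ) := by
  unfold ell LSeries
  refine tsum_congr (fun n => ?_)
  rcases Nat.eq_zero_or_pos n with rfl | hn
  · rw [wt_at_zero σ hσ]; simp
  · rw [LSeries.term_of_ne_zero hn.ne', ofReal_wt, Complex.cpow_neg, LSeries.logMul,
      Complex.ofReal_log (Nat.cast_nonneg n)]
    simp only [pow_one, Nat.factorial_one, Nat.cast_one, div_one, Complex.ofReal_natCast]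
    ring

end D159

end

section

/-!
# MP_d159ed_nt, items D2 and D2b: the recursion between the derivatives of L and of -L'/L
-/

set_option autoImplicit false

namespace D159

open Finset LSeries
open scoped BigOperators ArithmeticFunction.vonMangoldt

/-- the coefficient `a n * (log n)^j / j!` -/
noncomputable def lc (a : ℕ → ℂ) (j n : ℕ) : ℂ :=
  a n * ((((Real.log n) ^ j / (j.factorial : ℝ) : ℝ)) : ℂ)

lemma term_lc (a : ℕ → ℂ) (j n : ℕ) (σ : ℝ) (hσ : 1 < σ) :
    term (lc a j) (σ : ℂ) n = a n * ((wt σ j n : ℝ) : ℂ) := by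
  rcases eq_or_ne n 0 with rfl | hn
  · simp [wt, Real.zero_rpow (by linarith : -σ ≠ 0)]
  · rw [term_of_ne_zero hn, lc, wt]
    have h1 : ((((n : ℝ) ^ (-σ) : ℝ)) : ℂ) = 1 / (n : ℂ) ^ (σ : ℂ) := by
      rw [Complex.ofReal_cpow (Nat.cast_nonneg n), Complex.ofReal_neg, Complex.cpow_neg,
        Complex.ofReal_natCast, one_div]
    rw [Complex.ofReal_mul, h1]
    ring

lemma logMul_iterate (a : ℕ → ℂ) (j n : ℕ) :
    (logMul^[j] a) n = (Complex.log n) ^ j * a n := by
  induction j with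
  | zero => simp
  | succ j ih =>
    rw [Function.iterate_succ', Function.comp_apply, logMul, ih]
    ring

lemma lc_eq (a : ℕ → ℂ) (j : ℕ) :
    lc a j = (((j.factorial : ℂ))⁻¹) • (logMul^[j] a) := by
  funext n
  rw [Pi.smul_apply, logMul_iterate, lc, smul_eq_mul]
  push_cast
  ring

lemma summable_lc (a : ℕ → ℂ) (ha : abscissaOfAbsConv a ≤ 1) (j : ℕ) (σ : ℝ) (hσ : 1 < σ) :
    LSeriesSummable (lc a j) (σ : ℂ) := by
  rw [lc_eq]
  apply LSeriesSummable.smul
  apply LSeriesSummable_of_abscissaOfAbsConv_lt_re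
  rw [LSeries.absicssaOfAbsConv_logPowMul]
  refine lt_of_le_of_lt ha ?_
  rw [Complex.ofReal_re]
  exact_mod_cast hσ

/-- the binomial theorem in divided form -/
lemma binom_div (x y : ℝ) (m : ℕ) :
    ∑ j ∈ range (m + 1), x ^ (m - j) / ((m - j).factorial : ℝ) * (y ^ j / (j.factorial : ℝ)) =
      (x + y) ^ m / (m.factorial : ℝ) := by
  rw [add_comm x y, add_pow, Finset.sum_div]
  apply Finset.sum_congr rfl
  intro j hj
  have hjm : j ≤ m := Nat.lt_succ_iff.mp (Finset.mem_range.mp hj)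
  have h1 : ((m.choose j : ℕ) : ℝ) = (m.factorial : ℝ) /
      ((j.factorial : ℝ) * ((m - j).factorial : ℝ)) := Nat.cast_choose ℝ hjm
  rw [h1]
  have h2 : (m.factorial : ℝ) ≠ 0 := by positivity
  have h3 : (j.factorial : ℝ) ≠ 0 := by positivity
  have h4 : ((m - j).factorial : ℝ) ≠ 0 := by positivity
  field_simp

lemma conv_identity {q : ℕ} (χ : DirichletCharacter ℂ q) (m n : ℕ) (hn : n ≠ 0) :
    ((m : ℂ) + 1) * lc (fun k => χ k) (m + 1) n =
      ∑ j ∈ range (m + 1),
        (LSeries.convolution (lc (fun k => χ k) (m - j))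
          (lc (fun k => χ k * ((Λ k : ℝ) : ℂ)) j)) n := by
  have hR : ∀ j, (LSeries.convolution (lc (fun k => χ k) (m - j))
          (lc (fun k => χ k * ((Λ k : ℝ) : ℂ)) j)) n =
      ∑ p ∈ n.divisorsAntidiagonal, (χ n * ((Λ p.2 : ℝ) : ℂ)) *
        ((((Real.log p.1) ^ (m - j) / ((m - j).factorial : ℝ) *
          ((Real.log p.2) ^ j / (j.factorial : ℝ)) : ℝ)) : ℂ) := by
    intro j
    rw [convolution_def]
    apply Finset.sum_congr rfl
    intro p hp
    have hpn : p.1 * p.2 = n := (Nat.mem_divisorsAntidiagonal.mp hp).1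
    have hχ : χ (n : ZMod q) = χ (p.1 : ZMod q) * χ (p.2 : ZMod q) := by
      rw [← map_mul, ← Nat.cast_mul, hpn]
    rw [lc, lc, hχ]
    push_cast
    ring
  rw [Finset.sum_congr rfl (fun j _ => hR j), Finset.sum_comm]
  have hS : ∀ p ∈ n.divisorsAntidiagonal, (∑ j ∈ range (m + 1), (χ n * ((Λ p.2 : ℝ) : ℂ)) *
        ((((Real.log p.1) ^ (m - j) / ((m - j).factorial : ℝ) *
          ((Real.log p.2) ^ j / (j.factorial : ℝ)) : ℝ)) : ℂ)) =
        (χ n * ((((Real.log n) ^ m / (m.factorial : ℝ) : ℝ)) : ℂ)) * ((Λ p.2 : ℝ) : ℂ) := by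
    intro p hp
    rw [← Finset.mul_sum, ← Complex.ofReal_sum, binom_div]
    have hpn : p.1 * p.2 = n := (Nat.mem_divisorsAntidiagonal.mp hp).1
    have h1 : p.1 ≠ 0 := by
      rintro h; rw [h, zero_mul] at hpn; exact hn hpn.symm
    have h2 : p.2 ≠ 0 := by
      rintro h; rw [h, mul_zero] at hpn; exact hn hpn.symm
    rw [← Real.log_mul (by exact_mod_cast h1) (by exact_mod_cast h2), ← Nat.cast_mul, hpn]
    ring
  rw [Finset.sum_congr rfl hS, ← Finset.mul_sum]
  have hΛ : ∑ p ∈ n.divisorsAntidiagonal, ((Λ p.2 : ℝ) : ℂ) = ((Real.log n : ℝ) : ℂ) := by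
    rw [← Complex.ofReal_sum]
    congr 1
    rw [Nat.sum_divisorsAntidiagonal' (f := fun x => fun y => Λ y)]
    exact ArithmeticFunction.vonMangoldt_sum
  rw [hΛ, lc]
  have h5 : ((m + 1).factorial : ℝ) = ((m : ℝ) + 1) * (m.factorial : ℝ) := by
    rw [Nat.factorial_succ]; push_cast; ring
  rw [h5]
  have h2 : ((m.factorial : ℝ) : ℂ) ≠ 0 := by
    exact_mod_cast Nat.factorial_ne_zero m
  have h6 : ((m : ℂ) + 1) ≠ 0 := by
    exact_mod_cast Nat.succ_ne_zero m
  push_cast
  push_cast at h2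
  field_simp
  ring

lemma abscissa_char {q : ℕ} [NeZero q] (χ : DirichletCharacter ℂ q) :
    abscissaOfAbsConv (fun k : ℕ => χ k) ≤ 1 :=
  (DirichletCharacter.absicssaOfAbsConv_eq_one (NeZero.ne q) χ).le

lemma abscissa_charL {q : ℕ} (χ : DirichletCharacter ℂ q) :
    abscissaOfAbsConv (fun k : ℕ => χ k * ((Λ k : ℝ) : ℂ)) ≤ 1 := by
  apply abscissaOfAbsConv_le_of_forall_lt_LSeriesSummable
  intro y hy
  exact DirichletCharacter.LSeriesSummable_twist_vonMangoldt χ (by simpa using hy)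

lemma ell_eq {q : ℕ} (χ : DirichletCharacter ℂ q) (σ : ℝ) (hσ : 1 < σ) (j : ℕ) :
    ell χ σ j = LSeries (lc (fun k => χ k) j) (σ : ℂ) := by
  rw [ell, LSeries]
  exact tsum_congr (fun n => (term_lc (fun k => χ k) j n σ hσ).symm)

lemma fL_eq {q : ℕ} (χ : DirichletCharacter ℂ q) (σ : ℝ) (hσ : 1 < σ) (j : ℕ) :
    fL χ σ j = LSeries (lc (fun k => χ k * ((Λ k : ℝ) : ℂ)) j) (σ : ℂ) := by
  rw [fL, LSeries]
  refine tsum_congr (fun n => ?_)
  rw [term_lc (fun k => χ k * ((Λ k : ℝ) : ℂ)) j n σ hσ]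
  push_cast
  ring

theorem claimD2 : ClaimD2 := by
  intro q _ χ σ hσ m
  have hs1 : ∀ j, LSeriesSummable (lc (fun k => χ k) j) (σ : ℂ) := fun j =>
    summable_lc _ (abscissa_char χ) j σ hσ
  have hs2 : ∀ j, LSeriesSummable (lc (fun k => χ k * ((Λ k : ℝ) : ℂ)) j) (σ : ℂ) := fun j =>
    summable_lc _ (abscissa_charL χ) j σ hσ
  rw [ell_eq χ σ hσ]
  have h1 : ∀ j ∈ range (m + 1), ell χ σ (m - j) * fL χ σ j =
      LSeries (LSeries.convolution (lc (fun k => χ k) (m - j))
          (lc (fun k => χ k * ((Λ k : ℝ) : ℂ)) j)) (σ : ℂ) := by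
    intro j _
    rw [ell_eq χ σ hσ, fL_eq χ σ hσ, LSeries_convolution' (hs1 _) (hs2 _)]
  rw [Finset.sum_congr rfl h1]
  have h2 : ∑ j ∈ range (m + 1),
      LSeries (LSeries.convolution (lc (fun k => χ k) (m - j))
          (lc (fun k => χ k * ((Λ k : ℝ) : ℂ)) j)) (σ : ℂ) =
      LSeries (∑ j ∈ range (m + 1),
        (LSeries.convolution (lc (fun k => χ k) (m - j))
          (lc (fun k => χ k * ((Λ k : ℝ) : ℂ)) j))) (σ : ℂ) := by
    rw [LSeries_sum]
    intro j _
    exact (hs1 _).convolution (hs2 _)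
  rw [h2]
  rw [← LSeries_smul]
  apply LSeries_congr
  intro n hn
  rw [Pi.smul_apply, smul_eq_mul, conv_identity χ m n hn, Finset.sum_apply]

theorem claimD2b : ClaimD2b := by
  intro l f a θ ha hθ haθ hl hl0 hrec
  have hl0pos : 0 < ‖l 0‖ := lt_of_lt_of_le (by positivity) hl0
  have hl0ne : l 0 ≠ 0 := norm_pos_iff.mp hl0pos
  have hθ' : θ ≤ 1 / 4 := by nlinarith
  set B : ℝ := 2 * a ^ 2 / ‖l 0‖ with hB
  have hBpos : 0 < B := by positivity
  have hBle : B ≤ 1 / θ := by
    rw [hB, div_le_div_iff₀ hl0pos hθ]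
    nlinarith
  have key : ∀ m, ‖f m‖ ≤ B * (1 / θ) ^ m := by
    intro m
    induction m using Nat.strong_induction_on with
    | _ m ih =>
    have h1 := hrec m
    rw [Finset.sum_range_succ, Nat.sub_self] at h1
    have h2 : l 0 * f m = ((m : ℂ) + 1) * l (m + 1) -
        ∑ j ∈ range m, l (m - j) * f j := by rw [h1]; ring
    have h3 : ‖l 0‖ * ‖f m‖ ≤ ((m : ℝ) + 1) * a ^ (m + 2) +
        ∑ j ∈ range m, a ^ (m - j + 1) * (B * (1 / θ) ^ j) := by
      rw [← norm_mul, h2]
      refine (norm_sub_le _ _).trans ?_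
      apply add_le_add
      · rw [norm_mul]
        have : ‖(m : ℂ) + 1‖ = (m : ℝ) + 1 := by
          have : (m : ℂ) + 1 = (((m : ℝ) + 1 : ℝ) : ℂ) := by push_cast; ring
          rw [this, Complex.norm_real, Real.norm_of_nonneg (by positivity)]
        rw [this]
        exact mul_le_mul_of_nonneg_left (hl (m + 1)) (by positivity)
      · refine (norm_sum_le _ _).trans ?_
        apply Finset.sum_le_sum
        intro j hj
        rw [norm_mul]
        exact mul_le_mul (hl (m - j)) (ih j (Finset.mem_range.mp hj)) (norm_nonneg _)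
          (by positivity)
    have haT : a ≤ (1 / θ) / 4 := by
      rw [div_div, le_div_iff₀ (by positivity)]; nlinarith
    set T : ℝ := 1 / θ with hT
    have hTpos : 0 < T := by positivity
    -- first term
    have h4 : ((m : ℝ) + 1) * a ^ (m + 2) ≤ a ^ 2 * T ^ m := by
      have h5 : ((m : ℝ) + 1) ≤ 2 ^ m := by
        have := Nat.lt_two_pow_self (n := m)
        have h6 : m + 1 ≤ 2 ^ m := this
        exact_mod_cast h6
      calc ((m : ℝ) + 1) * a ^ (m + 2) ≤ 2 ^ m * a ^ (m + 2) :=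
            mul_le_mul_of_nonneg_right h5 (by positivity)
        _ = a ^ 2 * (2 * a) ^ m := by rw [mul_pow]; ring
        _ ≤ a ^ 2 * T ^ m := by
            apply mul_le_mul_of_nonneg_left _ (by positivity)
            exact pow_le_pow_left₀ (by positivity) (by linarith) m
    -- second term: sum_{j<m} a^(m-j+1) T^j <= (4/3) a^2 T^(m-1), i.e. times T: (4/3) a^2 T^m
    have h7 : (∑ j ∈ range m, a ^ (m - j + 1) * T ^ j) * T ≤ (4 / 3) * a ^ 2 * T ^ m := by
      clear h4 h3 h2 h1 ih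
      induction m with
      | zero => simp; positivity
      | succ m ihm =>
        rw [Finset.sum_range_succ]
        have h8 : ∑ j ∈ range m, a ^ (m + 1 - j + 1) * T ^ j =
            a * ∑ j ∈ range m, a ^ (m - j + 1) * T ^ j := by
          rw [Finset.mul_sum]
          apply Finset.sum_congr rfl
          intro j hj
          have hj' := Finset.mem_range.mp hj
          have : m + 1 - j + 1 = (m - j + 1) + 1 := by omega
          rw [this, pow_succ]
          ring
        rw [h8]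
        have h9 : m + 1 - m + 1 = 2 := by omega
        rw [h9]
        have h10 : (a * (∑ j ∈ range m, a ^ (m - j + 1) * T ^ j) + a ^ 2 * T ^ m) * T =
            a * ((∑ j ∈ range m, a ^ (m - j + 1) * T ^ j) * T) + a ^ 2 * T ^ (m + 1) := by ring
        rw [h10]
        have h11 : a * ((∑ j ∈ range m, a ^ (m - j + 1) * T ^ j) * T) ≤
            (T / 4) * ((4 / 3) * a ^ 2 * T ^ m) := by
          apply mul_le_mul haT ihm _ (by positivity)
          apply mul_nonneg _ hTpos.le
          exact Finset.sum_nonneg (fun j _ => by positivity)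
        have h12 : (T / 4) * ((4 / 3) * a ^ 2 * T ^ m) = (1 / 3) * a ^ 2 * T ^ (m + 1) := by ring
        rw [h12] at h11
        linarith
    have h13 : ∑ j ∈ range m, a ^ (m - j + 1) * (B * T ^ j) =
        B * θ * ((∑ j ∈ range m, a ^ (m - j + 1) * T ^ j) * T) := by
      have : θ * T = 1 := by rw [hT]; field_simp
      calc ∑ j ∈ range m, a ^ (m - j + 1) * (B * T ^ j) =
          B * (∑ j ∈ range m, a ^ (m - j + 1) * T ^ j) := by
            rw [Finset.mul_sum]
            exact Finset.sum_congr rfl (fun j _ => by ring)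
        _ = B * (∑ j ∈ range m, a ^ (m - j + 1) * T ^ j) * (θ * T) := by rw [this, mul_one]
        _ = _ := by ring
    have h14 : ∑ j ∈ range m, a ^ (m - j + 1) * (B * T ^ j) ≤
        B * θ * ((4 / 3) * a ^ 2 * T ^ m) := by
      rw [h13]
      exact mul_le_mul_of_nonneg_left h7 (by positivity)
    have h15 : ‖l 0‖ * ‖f m‖ ≤ a ^ 2 * T ^ m + B * θ * ((4 / 3) * a ^ 2 * T ^ m) :=
      h3.trans (add_le_add h4 h14)
    have h16 : a ^ 2 = ‖l 0‖ * B / 2 := by
      rw [hB]; field_simp
    have h17 : a ^ 2 * θ ≤ ‖l 0‖ / 3 := by linarith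
    have h18 : a ^ 2 * T ^ m + B * θ * ((4 / 3) * a ^ 2 * T ^ m) ≤ ‖l 0‖ * (B * T ^ m) := by
      have h19 : B * θ * ((4 / 3) * a ^ 2 * T ^ m) = (4 / 3) * (a ^ 2 * θ) * (B * T ^ m) := by ring
      have h20 : (4 / 3) * (a ^ 2 * θ) * (B * T ^ m) ≤ (4 / 3) * (‖l 0‖ / 3) * (B * T ^ m) := by
        apply mul_le_mul_of_nonneg_right _ (by positivity)
        linarith
      have h21 : a ^ 2 * T ^ m = (1 / 2) * (‖l 0‖ * (B * T ^ m)) := by
        rw [h16]; ring
      have h22 : 0 ≤ ‖l 0‖ * (B * T ^ m) := by positivity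
      rw [h19]
      nlinarith
    exact le_of_mul_le_mul_left (h15.trans h18) hl0pos
  intro m
  calc ‖f m‖ ≤ B * (1 / θ) ^ m := key m
    _ ≤ (1 / θ) * (1 / θ) ^ m := mul_le_mul_of_nonneg_right hBle (by positivity)
    _ = (1 / θ) ^ (m + 1) := by ring

end D159

end
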