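import Mathlib
import Pool.Agent.Work.MP_d159ed_nt.Bd.B01

/-! Bundle of small proof modules (one section per former module). -/

section

/-!
# MP_d159ed_nt, item D4: the principal character

The m-th normalised derivative of minus the logarithmic derivative of the zeta function at
`1 + η` is `η^(-(m+1))` up to an error that is at most geometric in `m` (Cauchy estimates for the
function `- Z' / Z`, `Z s = (s - 1) ζ s`, near 1).  The numbers not prime to `q` are negligible.
-/

set_option autoImplicit false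

namespace D159

open Finset Complex Metric
open scoped BigOperators ArithmeticFunction.vonMangoldt Nat

namespace D4

/-- `(s - 1) ζ s` as an entire function -/
noncomputable def Z : ℂ → ℂ := DirichletCharacter.LFunctionTrivChar₁ 1

lemma Z_diff : Differentiable ℂ Z := DirichletCharacter.differentiable_LFunctionTrivChar₁ 1

lemma Z_one : Z 1 ≠ 0 := DirichletCharacter.LFunctionTrivChar₁_apply_one_ne_zero 1

lemma exists_ball : ∃ r : ℝ, 0 < r ∧ ∀ s ∈ closedBall (1 : ℂ) (2 * r), Z s ≠ 0 := by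
  have h1 : ∀ᶠ s in nhds (1 : ℂ), Z s ≠ 0 := Z_diff.continuous.continuousAt.eventually_ne Z_one
  obtain ⟨ε, hε, h⟩ := Metric.eventually_nhds_iff_ball.mp h1
  refine ⟨ε / 4, by positivity, fun s hs => h s ?_⟩
  rw [mem_closedBall] at hs
  rw [mem_ball]
  linarith

/-- minus the logarithmic derivative of `Z` -/
noncomputable def kk (s : ℂ) : ℂ := - deriv Z s / Z s

lemma kk_diffAt {s : ℂ} (hs : Z s ≠ 0) : DifferentiableAt ℂ kk s := by
  unfold kk
  have h := Z_diff
  have h2 : Differentiable ℂ (deriv Z) := h.deriv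
  exact (h2 s).neg.div (h s) hs

lemma LSeries_eq {s : ℂ} (hs : 1 < s.re) :
    LSeries (fun n : ℕ => ((Λ n : ℝ) : ℂ)) s = (s - 1)⁻¹ + kk s := by
  have hs1 : s ≠ 1 := by
    rintro rfl
    simp at hs
  have hs1' : s - 1 ≠ 0 := sub_ne_zero.mpr hs1
  have hz : riemannZeta s ≠ 0 := riemannZeta_ne_zero_of_one_lt_re hs
  have e1 : DirichletCharacter.LFunctionTrivChar 1 = riemannZeta := by
    simp [DirichletCharacter.LFunctionTrivChar]
  have hZ : Z s = (s - 1) * riemannZeta s := by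
    unfold Z DirichletCharacter.LFunctionTrivChar₁
    rw [Function.update_of_ne hs1, e1]
  have hZ' : deriv Z s = (s - 1) * deriv riemannZeta s + riemannZeta s := by
    unfold Z
    rw [DirichletCharacter.deriv_LFunctionTrivChar₁_apply_of_ne_one 1 hs1, e1]
  rw [ArithmeticFunction.LSeries_vonMangoldt_eq_deriv_riemannZeta_div hs, kk, hZ, hZ']
  field_simp
  ring

lemma abscissa_le : LSeries.abscissaOfAbsConv (fun n : ℕ => ((Λ n : ℝ) : ℂ)) ≤ 1 := by
  refine LSeries.abscissaOfAbsConv_le_of_forall_lt_LSeriesSummable (x := 1) ?_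
  intro y hy
  exact ArithmeticFunction.LSeriesSummable_vonMangoldt (by simpa using hy)

lemma main : ∃ C r : ℝ, 0 < C ∧ 0 < r ∧ r ≤ 1 ∧ ∀ (m : ℕ) (η : ℝ), 0 < η → η ≤ r →
    ‖LSeries (LSeries.logMul^[m] (fun n : ℕ => ((Λ n : ℝ) : ℂ))) (1 + η) -
      m ! * ((1 / η) ^ (m + 1) : ℝ)‖ ≤ m ! * C / r ^ m := by
  obtain ⟨r0, hr0, hball⟩ := exists_ball
  set r := min r0 1 with hr
  have hrpos : 0 < r := lt_min hr0 one_pos
  have hrle : r ≤ r0 := min_le_left _ _
  have hcont : ContinuousOn kk (closedBall (1 : ℂ) (2 * r)) := by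
    intro s hs
    refine (kk_diffAt (hball s ?_)).continuousAt.continuousWithinAt
    exact closedBall_subset_closedBall (by linarith) hs
  obtain ⟨C, hC⟩ := (isCompact_closedBall (1 : ℂ) (2 * r)).exists_bound_of_continuousOn hcont
  refine ⟨max C 1, r, lt_max_of_lt_right one_pos, hrpos, min_le_right _ _, ?_⟩
  intro m η hη hηr
  have hre : (1 : ℝ) < (1 + (η : ℂ)).re := by simp [hη]
  have hderiv := LSeries_iteratedDeriv (f := (fun n : ℕ => ((Λ n : ℝ) : ℂ))) m (s := 1 + (η : ℂ))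
    (lt_of_le_of_lt abscissa_le (by exact_mod_cast hre))
  have hdist : dist (1 + (η : ℂ)) 1 = η := by
    simp [dist_eq_norm, abs_of_pos hη]
  have hsub : closedBall (1 + (η : ℂ)) r ⊆ closedBall (1 : ℂ) (2 * r) := by
    intro s hs
    rw [mem_closedBall] at hs ⊢
    calc dist s 1 ≤ dist s (1 + (η : ℂ)) + dist (1 + (η : ℂ)) 1 := dist_triangle _ _ _
      _ ≤ r + η := by rw [hdist]; linarith
      _ ≤ 2 * r := by linarith
  have hkd : ∀ s ∈ closedBall (1 + (η : ℂ)) r, DifferentiableAt ℂ kk s := fun s hs =>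
    kk_diffAt (hball s (closedBall_subset_closedBall (by linarith) (hsub hs)))
  have hcauchy : ‖iteratedDeriv m kk (1 + (η : ℂ))‖ ≤ m ! * (max C 1) / r ^ m := by
    refine Complex.norm_iteratedDeriv_le_of_forall_mem_sphere_norm_le m hrpos ?_ ?_
    · refine DifferentiableOn.diffContOnCl ?_
      intro s hs
      rw [closure_ball _ hrpos.ne'] at hs
      exact (hkd s hs).differentiableWithinAt
    · intro z hz
      exact (hC z (hsub (sphere_subset_closedBall hz))).trans (le_max_left _ _)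
  have heq : (LSeries (fun n : ℕ => ((Λ n : ℝ) : ℂ))) =ᶠ[nhds (1 + (η : ℂ))]
      ((fun s : ℂ => (s - 1)⁻¹) + kk) := by
    have hopen : IsOpen {s : ℂ | 1 < s.re} := isOpen_lt continuous_const Complex.continuous_re
    filter_upwards [hopen.mem_nhds hre] with s hs
    exact LSeries_eq hs
  have hne : (1 + (η : ℂ)) - 1 ≠ 0 := by
    simp [hη.ne']
  have hk_an : ContDiffAt ℂ m kk (1 + (η : ℂ)) := by
    have : AnalyticAt ℂ kk (1 + (η : ℂ)) := by
      rw [Complex.analyticAt_iff_eventually_differentiableAt]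
      filter_upwards [closedBall_mem_nhds (1 + (η : ℂ)) hrpos] with s hs
      exact hkd s hs
    exact this.contDiffAt
  have hinv_an : ContDiffAt ℂ m (fun s : ℂ => (s - 1)⁻¹) (1 + (η : ℂ)) := by
    refine ContDiffAt.inv ?_ hne
    fun_prop
  have hsum : iteratedDeriv m (LSeries (fun n : ℕ => ((Λ n : ℝ) : ℂ))) (1 + (η : ℂ)) =
      iteratedDeriv m (fun s : ℂ => (s - 1)⁻¹) (1 + (η : ℂ)) + iteratedDeriv m kk (1 + (η : ℂ)) := by
    rw [heq.iteratedDeriv_eq, iteratedDeriv_add hinv_an hk_an]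
  have hinv : iteratedDeriv m (fun s : ℂ => (s - 1)⁻¹) (1 + (η : ℂ)) =
      (-1) ^ m * (m ! * ((1 / η) ^ (m + 1) : ℝ)) := by
    have h := iter_deriv_inv_linear_sub (𝕜 := ℂ) m 1 1
    simp only [one_mul, one_pow, mul_one] at h
    rw [iteratedDeriv_eq_iterate, h]
    beta_reduce
    have e2 : (1 + (η : ℂ)) - 1 = (η : ℂ) := by ring
    rw [e2]
    have e3 : ((η : ℂ)) ^ (-1 - (m : ℤ)) = (((1 / η) ^ (m + 1) : ℝ) : ℂ) := by
      have : (-1 - (m : ℤ)) = - ((m + 1 : ℕ) : ℤ) := by push_cast; ring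
      rw [this, zpow_neg, zpow_natCast]
      push_cast
      rw [one_div, inv_pow]
    rw [e3]
    ring
  rw [hderiv, hinv] at hsum
  have hsq : ((-1 : ℂ) ^ m) * ((-1) ^ m) = 1 := by
    rw [← mul_pow]; simp
  have hfin : LSeries (LSeries.logMul^[m] (fun n : ℕ => ((Λ n : ℝ) : ℂ))) (1 + η) -
      m ! * ((1 / η) ^ (m + 1) : ℝ) =
      (-1) ^ m * iteratedDeriv m kk (1 + (η : ℂ)) := by
    have h5 := congrArg (fun t => (-1 : ℂ) ^ m * t) hsum
    simp only [mul_add, ← mul_assoc, hsq, one_mul] at h5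
    rw [h5]
    ring
  rw [hfin, norm_mul, norm_pow]
  simpa using hcauchy

lemma logMul_iter (f : ℕ → ℂ) (m n : ℕ) :
    (LSeries.logMul^[m] f) n = (Complex.log n) ^ m * f n := by
  induction m with
  | zero => simp
  | succ m ih =>
    rw [Function.iterate_succ_apply']
    simp only [LSeries.logMul]
    rw [ih]
    ring

lemma log_pow_le (M : ℕ) {dl : ℝ} (hdl : 0 < dl) {n : ℕ} (hn : 1 ≤ n) :
    (Real.log n) ^ M / (M ! : ℝ) ≤ (1 / dl) ^ M * (n : ℝ) ^ dl := by
  have hn' : (0 : ℝ) < n := by exact_mod_cast hn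
  have hl : 0 ≤ Real.log n := Real.log_natCast_nonneg n
  have h := Real.pow_div_factorial_le_exp (x := dl * Real.log n) (by positivity) M
  have h2 : Real.exp (dl * Real.log n) = (n : ℝ) ^ dl := by
    rw [Real.rpow_def_of_pos hn', mul_comm]
  rw [h2] at h
  calc (Real.log n) ^ M / (M ! : ℝ) = (1 / dl) ^ M * ((dl * Real.log n) ^ M / (M ! : ℝ)) := by
        have hd : (1 / dl) ^ M * dl ^ M = 1 := by
          rw [← mul_pow, one_div_mul_cancel hdl.ne', one_pow]
        rw [mul_pow]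
        calc _ = ((1 / dl) ^ M * dl ^ M) * ((Real.log n) ^ M / (M ! : ℝ)) := by rw [hd, one_mul]
          _ = _ := by ring
    _ ≤ _ := by gcongr

lemma wt_nonneg (σ : ℝ) (j n : ℕ) : 0 ≤ wt σ j n := by
  unfold wt
  have hl : 0 ≤ Real.log n := Real.log_natCast_nonneg n
  positivity

lemma wt_le {η : ℝ} (m n : ℕ) (hn : 1 ≤ n) {dl : ℝ} (hdl : 0 < dl) :
    wt (1 + η) m n ≤ (1 / dl) ^ m * (n : ℝ) ^ (dl - 1 - η) := by
  unfold wt
  have hn' : (0 : ℝ) < n := by exact_mod_cast hn
  calc _ ≤ ((1 / dl) ^ m * (n : ℝ) ^ dl) * (n : ℝ) ^ (-(1 + η)) := by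
        gcongr
        exact log_pow_le m hdl hn
    _ = _ := by
        rw [mul_assoc, ← Real.rpow_add hn']
        congr 2
        ring

lemma summable_main {η : ℝ} (hη : 0 < η) (m : ℕ) :
    Summable (fun n : ℕ => Λ n * wt (1 + η) m n) := by
  have h1 : Summable (fun n : ℕ => (m + 1) * ((3 / η) ^ (m + 1) * (n : ℝ) ^ (-(1 + η / 2)))) := by
    refine Summable.mul_left _ (Summable.mul_left _ ?_)
    rw [Real.summable_nat_rpow]
    linarith
  refine Summable.of_nonneg_of_le (fun n => ?_) (fun n => ?_) h1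
  · exact mul_nonneg ArithmeticFunction.vonMangoldt_nonneg (wt_nonneg _ _ _)
  · rcases Nat.eq_zero_or_pos n with rfl | hn
    · simp
      positivity
    · have hn' : (0 : ℝ) < n := by exact_mod_cast hn
      have hl : 0 ≤ Real.log n := Real.log_natCast_nonneg n
      have h2 := log_pow_le (m + 1) (dl := η / 3) (by positivity) hn
      have h3 : Λ n * wt (1 + η) m n ≤
          (m + 1) * ((Real.log n) ^ (m + 1) / ((m + 1) ! : ℝ)) * (n : ℝ) ^ (-(1 + η)) := by
        calc Λ n * wt (1 + η) m n ≤ Real.log n * wt (1 + η) m n := by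
              have := wt_nonneg (1 + η) m n
              gcongr
              exact ArithmeticFunction.vonMangoldt_le_log
          _ = _ := by
              unfold wt
              rw [Nat.factorial_succ]
              push_cast
              field_simp
              ring
      refine h3.trans ?_
      calc (m + 1) * ((Real.log n) ^ (m + 1) / ((m + 1) ! : ℝ)) * (n : ℝ) ^ (-(1 + η))
          ≤ (m + 1) * ((1 / (η / 3)) ^ (m + 1) * (n : ℝ) ^ (η / 3)) * (n : ℝ) ^ (-(1 + η)) := by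
            gcongr
        _ = (m + 1) * ((3 / η) ^ (m + 1) * (n : ℝ) ^ (η / 3 + -(1 + η))) := by
            rw [Real.rpow_add hn']
            have : 1 / (η / 3) = 3 / η := by field_simp
            rw [this]
            ring
        _ ≤ _ := by
            have h1n : (1 : ℝ) ≤ n := by exact_mod_cast hn
            have : (n : ℝ) ^ (η / 3 + -(1 + η)) ≤ (n : ℝ) ^ (-(1 + η / 2)) := by
              apply Real.rpow_le_rpow_of_exponent_le h1n
              linarith
            gcongr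

lemma LSeries_eq_tsum {η : ℝ} (m : ℕ) :
    LSeries (LSeries.logMul^[m] (fun n : ℕ => ((Λ n : ℝ) : ℂ))) (1 + η) =
      ((m ! * ∑' n : ℕ, Λ n * wt (1 + η) m n : ℝ) : ℂ) := by
  rw [← tsum_mul_left, Complex.ofReal_tsum, LSeries]
  congr 1
  ext n
  rcases Nat.eq_zero_or_pos n with rfl | hn
  · simp
  · rw [LSeries.term_of_ne_zero hn.ne', logMul_iter]
    have hn' : (0 : ℝ) < n := by exact_mod_cast hn
    have hf : (m ! : ℝ) ≠ 0 := by positivity
    have e1 : ((n : ℕ) : ℂ) ^ ((1 : ℂ) + (η : ℂ)) = (((n : ℝ) ^ (1 + η) : ℝ) : ℂ) := by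
      rw [Complex.ofReal_cpow hn'.le]
      push_cast
      rfl
    have e2 : Complex.log (n : ℂ) = ((Real.log n : ℝ) : ℂ) := by
      rw [Complex.ofReal_log hn'.le]
      simp
    rw [e1, e2]
    unfold wt
    rw [Real.rpow_neg hn'.le]
    push_cast
    have hfc : ((m ! : ℕ) : ℂ) ≠ 0 := by exact_mod_cast Nat.factorial_ne_zero m
    field_simp

lemma part1 : ∃ C r : ℝ, 0 < C ∧ 0 < r ∧ r ≤ 1 ∧ ∀ (m : ℕ) (η : ℝ), 0 < η → η ≤ r →
    (1 / η) ^ (m + 1) - C / r ^ m ≤ ∑' n : ℕ, Λ n * wt (1 + η) m n := by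
  obtain ⟨C, r, hC, hr, hr1, h⟩ := main
  refine ⟨C, r, hC, hr, hr1, fun m η hη hηr => ?_⟩
  have h1 := h m η hη hηr
  rw [LSeries_eq_tsum m] at h1
  set S := ∑' n : ℕ, Λ n * wt (1 + η) m n with hS
  have hf : (0 : ℝ) < (m ! : ℝ) := by positivity
  have e : (((m ! * S : ℝ) : ℂ) - (m ! : ℂ) * (((1 / η) ^ (m + 1) : ℝ) : ℂ)) =
      ((m ! * (S - (1 / η) ^ (m + 1)) : ℝ) : ℂ) := by
    push_cast
    ring
  rw [e, Complex.norm_real, Real.norm_eq_abs, abs_mul, abs_of_pos hf] at h1
  have h2 : |S - (1 / η) ^ (m + 1)| ≤ C / r ^ m := by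
    rw [mul_div_assoc] at h1
    exact le_of_mul_le_mul_left h1 hf
  have h3 := (abs_le.mp h2).1
  linarith

lemma part2 {η : ℝ} (hη : 0 < η) (m q : ℕ) [NeZero q] :
    ∑' n : ℕ, (if n.Coprime q then 0 else Λ n * wt (1 + η) m n) ≤ 3 * 2 ^ m * Real.log q := by
  set f : ℕ → ℝ := fun n => if n.Coprime q then 0 else Λ n * wt (1 + η) m n with hf
  have hnn : ∀ n, 0 ≤ Λ n * wt (1 + η) m n := fun n =>
    mul_nonneg ArithmeticFunction.vonMangoldt_nonneg (wt_nonneg _ _ _)
  have hf0 : ∀ n, 0 ≤ f n := by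
    intro n
    simp only [hf]
    split_ifs
    · exact le_refl _
    · exact hnn n
  have hsum : Summable f := by
    refine Summable.of_nonneg_of_le hf0 (fun n => ?_) (summable_main hη m)
    simp only [hf]
    split_ifs
    · exact hnn n
    · exact le_refl _
  have hsupp : Function.support f ⊆ {n | IsPrimePow n} := by
    intro n hn
    simp only [Function.mem_support, hf] at hn
    by_contra hcon
    apply hn
    split_ifs
    · rfl
    · rw [ArithmeticFunction.vonMangoldt_eq_zero_iff.mpr hcon, zero_mul]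
  rw [tsum_eq_tsum_primes_of_support_subset_prime_powers hsum hsupp]
  have hq : q ≠ 0 := NeZero.ne q
  have hzero : ∀ p : Nat.Primes, p ∉ (q.primeFactors.subtype Nat.Prime) →
      ∑' k : ℕ, f ((p : ℕ) ^ (k + 1)) = 0 := by
    intro p hp
    have hpq : ¬ (p : ℕ) ∣ q := by
      intro h
      apply hp
      exact Finset.mem_subtype.mpr (Nat.mem_primeFactors.mpr ⟨p.2, h, hq⟩)
    have hcop : (p : ℕ).Coprime q := (Nat.Prime.coprime_iff_not_dvd p.2).mpr hpq
    have : ∀ k : ℕ, f ((p : ℕ) ^ (k + 1)) = 0 := by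
      intro k
      simp only [hf]
      rw [if_pos (hcop.pow_left _)]
    simp [this]
  rw [tsum_eq_sum hzero]
  have hbound : ∀ p : Nat.Primes, ∑' k : ℕ, f ((p : ℕ) ^ (k + 1)) ≤
      3 * 2 ^ m * Real.log (p : ℕ) := by
    intro p
    have hp2 : (2 : ℝ) ≤ (p : ℕ) := by exact_mod_cast p.2.two_le
    have hp0 : (0 : ℝ) < (p : ℕ) := by linarith
    have hlog : 0 ≤ Real.log (p : ℕ) := Real.log_natCast_nonneg _
    have hterm : ∀ k : ℕ, f ((p : ℕ) ^ (k + 1)) ≤
        Real.log (p : ℕ) * 2 ^ m * ((3 / 4) * (3 / 4 : ℝ) ^ k) := by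
      intro k
      have hpk : 1 ≤ (p : ℕ) ^ (k + 1) := Nat.one_le_pow _ _ p.2.pos
      have hΛ : Λ ((p : ℕ) ^ (k + 1)) = Real.log (p : ℕ) := by
        rw [ArithmeticFunction.vonMangoldt_apply_pow (Nat.succ_ne_zero k),
          ArithmeticFunction.vonMangoldt_apply_prime p.2]
      have hw := wt_le (η := η) m ((p : ℕ) ^ (k + 1)) hpk (dl := 1 / 2) (by norm_num)
      have h34 : (((p : ℕ) ^ (k + 1) : ℕ) : ℝ) ^ ((1 : ℝ) / 2 - 1 - η) ≤
          (3 / 4) * (3 / 4 : ℝ) ^ k := by
        have h1 : (1 : ℝ) ≤ (((p : ℕ) ^ (k + 1) : ℕ) : ℝ) := by exact_mod_cast hpk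
        calc (((p : ℕ) ^ (k + 1) : ℕ) : ℝ) ^ ((1 : ℝ) / 2 - 1 - η)
            ≤ (((p : ℕ) ^ (k + 1) : ℕ) : ℝ) ^ (-(1 / 2) : ℝ) := by
              apply Real.rpow_le_rpow_of_exponent_le h1
              linarith
          _ = (((p : ℕ) : ℝ) ^ (-(1 / 2) : ℝ)) ^ (k + 1) := by
              push_cast
              rw [← Real.rpow_natCast, ← Real.rpow_mul hp0.le, ← Real.rpow_natCast,
                ← Real.rpow_mul hp0.le, mul_comm]
          _ ≤ (3 / 4 : ℝ) ^ (k + 1) := by
              gcongr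
              calc ((p : ℕ) : ℝ) ^ (-(1 / 2) : ℝ) ≤ (2 : ℝ) ^ (-(1 / 2) : ℝ) := by
                    apply Real.rpow_le_rpow_of_nonpos (by norm_num) hp2
                    norm_num
                _ ≤ 3 / 4 := by
                    rw [Real.rpow_neg (by norm_num), ← Real.sqrt_eq_rpow]
                    rw [inv_le_comm₀ (by positivity) (by norm_num)]
                    apply Real.le_sqrt_of_sq_le
                    norm_num
          _ = _ := by ring
      simp only [hf]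
      split_ifs
      · positivity
      · rw [hΛ]
        calc Real.log (p : ℕ) * wt (1 + η) m ((p : ℕ) ^ (k + 1))
            ≤ Real.log (p : ℕ) * ((1 / (1 / 2)) ^ m *
              (((p : ℕ) ^ (k + 1) : ℕ) : ℝ) ^ ((1 : ℝ) / 2 - 1 - η)) := by gcongr
          _ ≤ Real.log (p : ℕ) * ((1 / (1 / 2)) ^ m * ((3 / 4) * (3 / 4 : ℝ) ^ k)) := by gcongr
          _ = _ := by
              have : (1 / (1 / 2) : ℝ) = 2 := by norm_num
              rw [this]
              ring
    have hgeo : HasSum (fun k : ℕ => Real.log (p : ℕ) * 2 ^ m * ((3 / 4) * (3 / 4 : ℝ) ^ k))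
        (Real.log (p : ℕ) * 2 ^ m * ((3 / 4) * (1 - 3 / 4 : ℝ)⁻¹)) :=
      ((hasSum_geometric_of_lt_one (by norm_num) (by norm_num)).mul_left _).mul_left _
    have hs1 : Summable (fun k : ℕ => f ((p : ℕ) ^ (k + 1))) :=
      Summable.of_nonneg_of_le (fun k => hf0 _) hterm hgeo.summable
    calc _ ≤ Real.log (p : ℕ) * 2 ^ m * ((3 / 4) * (1 - 3 / 4 : ℝ)⁻¹) :=
          hasSum_le hterm hs1.hasSum hgeo
      _ = _ := by norm_num; ring
  calc ∑ p ∈ q.primeFactors.subtype Nat.Prime, ∑' k : ℕ, f ((p : ℕ) ^ (k + 1))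
      ≤ ∑ p ∈ q.primeFactors.subtype Nat.Prime, 3 * 2 ^ m * Real.log (p : ℕ) :=
        Finset.sum_le_sum fun p _ => hbound p
    _ = 3 * 2 ^ m * ∑ p ∈ q.primeFactors, Real.log p := by
        rw [← Finset.mul_sum]
        congr 1
        exact Finset.sum_subtype_of_mem (fun p : ℕ => Real.log p)
          (fun x hx => Nat.prime_of_mem_primeFactors hx)
    _ ≤ 3 * 2 ^ m * Real.log q := by
        gcongr
        rw [← Real.log_prod (fun p hp => by
          exact_mod_cast (Nat.prime_of_mem_primeFactors hp).ne_zero)]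
        have hdvd := Nat.prod_primeFactors_dvd q
        have hle : ∏ p ∈ q.primeFactors, p ≤ q := Nat.le_of_dvd (Nat.pos_of_ne_zero hq) hdvd
        have hpos : 0 < ∏ p ∈ q.primeFactors, p :=
          Finset.prod_pos fun p hp => (Nat.prime_of_mem_primeFactors hp).pos
        rw [← Nat.cast_prod]
        exact Real.log_le_log (by exact_mod_cast hpos) (by exact_mod_cast hle)

end D4

open D4 in
theorem claimD4 : ClaimD4 := by
  obtain ⟨C, r, hC, hr, hr1, h⟩ := part1
  refine ⟨1 / 2, by norm_num, min r (min (1 / (4 * C)) (1 / 12)), by positivity, ?_⟩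
  intro q _ m η hm hq hη hηle
  have hηr : η ≤ r := hηle.trans (min_le_left _ _)
  have hηC : η ≤ 1 / (4 * C) := hηle.trans ((min_le_right _ _).trans (min_le_left _ _))
  have hη12 : η ≤ 1 / 12 := hηle.trans ((min_le_right _ _).trans (min_le_right _ _))
  have h1 := h m η hη hηr
  have h2 := part2 hη m q
  have hnn : ∀ n, 0 ≤ Λ n * wt (1 + η) m n := fun n =>
    mul_nonneg ArithmeticFunction.vonMangoldt_nonneg (wt_nonneg _ _ _)
  have hs := summable_main hη m
  have hs1 : Summable (fun n : ℕ => if n.Coprime q then Λ n * wt (1 + η) m n else 0) := by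
    refine Summable.of_nonneg_of_le (fun n => ?_) (fun n => ?_) hs
    · split_ifs
      · exact hnn n
      · exact le_refl _
    · split_ifs
      · exact le_refl _
      · exact hnn n
  have hs2 : Summable (fun n : ℕ => if n.Coprime q then 0 else Λ n * wt (1 + η) m n) := by
    refine Summable.of_nonneg_of_le (fun n => ?_) (fun n => ?_) hs
    · split_ifs
      · exact le_refl _
      · exact hnn n
    · split_ifs
      · exact hnn n
      · exact le_refl _
  have hsplit : ∑' n : ℕ, Λ n * wt (1 + η) m n =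
      ∑' n : ℕ, (if n.Coprime q then Λ n * wt (1 + η) m n else 0) +
      ∑' n : ℕ, (if n.Coprime q then 0 else Λ n * wt (1 + η) m n) := by
    rw [← hs1.tsum_add hs2]
    congr 1
    ext n
    split_ifs <;> simp
  have hinv : 0 < 1 / η := by positivity
  have h12 : 12 ≤ 1 / η := by
    rw [le_div_iff₀ hη]
    linarith
  have h4C : 4 * C ≤ 1 / η := by
    rw [le_div_iff₀ hη]
    have := mul_le_mul_of_nonneg_left hηC (by positivity : 0 ≤ 4 * C)
    have e : 4 * C * (1 / (4 * C)) = 1 := by field_simp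
    linarith
  have hr' : 1 / r ≤ 1 / η := one_div_le_one_div_of_le hη hηr
  have hA : C / r ^ m ≤ (1 / 4) * (1 / η) ^ (m + 1) := by
    calc C / r ^ m = C * (1 / r) ^ m := by rw [one_div, inv_pow]; rfl
      _ ≤ C * (1 / η) ^ m := by gcongr
      _ ≤ (1 / 4 * (1 / η)) * (1 / η) ^ m := by
          gcongr
          linarith
      _ = _ := by ring
  have hB : 3 * 2 ^ m * Real.log q ≤ (1 / 4) * (1 / η) ^ (m + 1) := by
    have hm2 : (m : ℝ) ≤ 2 ^ m := by
      exact_mod_cast (Nat.lt_two_pow_self (n := m)).le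
    calc 3 * 2 ^ m * Real.log q ≤ 3 * 2 ^ m * (m : ℝ) := by gcongr
      _ ≤ 3 * 2 ^ m * 2 ^ m := by gcongr
      _ = 3 * 4 ^ m := by
          rw [mul_assoc, ← mul_pow]
          norm_num
      _ ≤ 3 * (1 / η) ^ m := by
          gcongr
          linarith
      _ ≤ (1 / 4 * (1 / η)) * (1 / η) ^ m := by
          gcongr
          linarith
      _ = _ := by ring
  linarith

end D159

end

section

/-!
# Claim D6: weighted lower bound for primes congruent to 1 mod q
-/

set_option autoImplicit false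

namespace D159

open Finset
open scoped BigOperators ArithmeticFunction.vonMangoldt

theorem d6_wt_nonneg (σ : ℝ) (j n : ℕ) : 0 ≤ wt σ j n := by
  unfold wt
  exact mul_nonneg (div_nonneg (pow_nonneg (Real.log_natCast_nonneg n) _) (Nat.cast_nonneg _))
    (Real.rpow_nonneg (Nat.cast_nonneg _) _)

theorem d6_fL_one (q : ℕ) [NeZero q] (σ : ℝ) (m : ℕ) :
    fL (1 : DirichletCharacter ℂ q) σ m =
      (((∑' n : ℕ, (if n.Coprime q then Λ n * wt σ m n else 0)) : ℝ) : ℂ) := by
  unfold fL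
  rw [Complex.ofReal_tsum]
  refine tsum_congr fun n => ?_
  by_cases h : n.Coprime q
  · rw [if_pos h, MulChar.one_apply ((ZMod.isUnit_iff_coprime n q).mpr h), one_mul]
  · rw [if_neg h, MulChar.map_nonunit _ (fun h' => h ((ZMod.isUnit_iff_coprime n q).mp h')),
      zero_mul]
    simp

/-- The splitting into primes and non-primes. -/
theorem d6_split (q : ℕ) (σ : ℝ) (m : ℕ)
    (hpos : 0 < ∑' n : ℕ, (if (n : ZMod q) = 1 then Λ n * wt σ m n else 0))
    (hs : Summable (fun n : ℕ => if n.Prime then 0 else Λ n * wt σ m n)) :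
    ∑' n : ℕ, (if (n : ZMod q) = 1 then Λ n * wt σ m n else 0) ≤
      ∑' n : ℕ, (if n.Prime ∧ (n : ZMod q) = 1 then Real.log n * wt σ m n else 0) +
      ∑' n : ℕ, (if n.Prime then 0 else Λ n * wt σ m n) := by
  have hf : Summable (fun n : ℕ => if (n : ZMod q) = 1 then Λ n * wt σ m n else 0) := by
    by_contra hns
    rw [tsum_eq_zero_of_not_summable hns] at hpos
    exact lt_irrefl _ hpos
  have hnn : ∀ n : ℕ, 0 ≤ Λ n * wt σ m n := fun n =>
    mul_nonneg ArithmeticFunction.vonMangoldt_nonneg (d6_wt_nonneg _ _ _)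
  have hg : Summable (fun n : ℕ => if n.Prime ∧ (n : ZMod q) = 1 then
      Real.log n * wt σ m n else 0) := by
    refine Summable.of_nonneg_of_le (fun n => ?_) (fun n => ?_) hf
    · split_ifs
      · exact mul_nonneg (Real.log_natCast_nonneg n) (d6_wt_nonneg _ _ _)
      · exact le_rfl
    · by_cases h1 : (n : ZMod q) = 1
      · by_cases h2 : n.Prime
        · simp only [h1, h2, and_self, if_true]
          rw [ArithmeticFunction.vonMangoldt_apply_prime h2]
        · simp only [h1, h2, false_and, if_true, if_false]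
          exact hnn n
      · simp only [h1, and_false, if_false]
        exact le_rfl
  rw [← hg.tsum_add hs]
  refine hf.tsum_le_tsum (fun n => ?_) (hg.add hs)
  by_cases h1 : (n : ZMod q) = 1
  · by_cases h2 : n.Prime
    · simp only [h1, h2, and_self, if_true, add_zero]
      rw [ArithmeticFunction.vonMangoldt_apply_prime h2]
    · simp only [h1, h2, false_and, if_true, if_false, zero_add]
      exact le_rfl
  · by_cases h2 : n.Prime
    · simp only [h1, h2, and_false, if_true, if_false, add_zero]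
      exact le_rfl
    · simp only [h1, h2, and_false, if_false, zero_add]
      exact hnn n

theorem d6_card (q : ℕ) [NeZero q] :
    Fintype.card (DirichletCharacter ℂ q) = Nat.totient q := by
  rw [← Nat.card_eq_fintype_card]
  exact DirichletCharacter.card_eq_totient_of_hasEnoughRootsOfUnity ℂ q

/-- The contribution of the nonprincipal characters. -/
theorem d6_main (d3 : ClaimD3) (q : ℕ) [NeZero q] (σ : ℝ) (hσ : 1 < σ) (m : ℕ) (B : ℝ)
    (hB0 : 0 ≤ B)
    (hB : ∀ χ : DirichletCharacter ℂ q, χ ≠ 1 → ‖fL χ σ m‖ ≤ B) :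
    (∑' n : ℕ, (if n.Coprime q then Λ n * wt σ m n else 0)) - (Nat.totient q : ℝ) * B ≤
      (Nat.totient q : ℝ) * ∑' n : ℕ, (if (n : ZMod q) = 1 then Λ n * wt σ m n else 0) := by
  classical
  have h3 := d3 q σ hσ m
  set S : ℝ := ∑' n : ℕ, (if (n : ZMod q) = 1 then Λ n * wt σ m n else 0) with hS
  set P : ℝ := ∑' n : ℕ, (if n.Coprime q then Λ n * wt σ m n else 0) with hP
  have hφ : (0 : ℝ) < Nat.totient q := by
    exact_mod_cast Nat.totient_pos.mpr (Nat.pos_of_ne_zero (NeZero.ne q))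
  have hφc : (Nat.totient q : ℂ) ≠ 0 := by
    exact_mod_cast hφ.ne'
  have hsplit : ∑ χ : DirichletCharacter ℂ q, fL χ σ m =
      (P : ℂ) + ∑ χ ∈ (univ : Finset (DirichletCharacter ℂ q)).erase 1, fL χ σ m := by
    rw [← Finset.add_sum_erase univ (fun χ : DirichletCharacter ℂ q => fL χ σ m)
      (Finset.mem_univ 1), d6_fL_one]
  set R : ℂ := ∑ χ ∈ (univ : Finset (DirichletCharacter ℂ q)).erase 1, fL χ σ m with hR
  have hRn : ‖R‖ ≤ (Nat.totient q : ℝ) * B := by
    calc ‖R‖ ≤ ∑ χ ∈ (univ : Finset (DirichletCharacter ℂ q)).erase 1, ‖fL χ σ m‖ :=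
          norm_sum_le _ _
      _ ≤ ∑ χ ∈ (univ : Finset (DirichletCharacter ℂ q)).erase 1, B :=
          Finset.sum_le_sum (fun χ hχ => hB χ (Finset.ne_of_mem_erase hχ))
      _ = (((univ : Finset (DirichletCharacter ℂ q)).erase 1).card : ℝ) * B := by
          rw [Finset.sum_const, nsmul_eq_mul]
      _ ≤ (Nat.totient q : ℝ) * B := by
          refine mul_le_mul_of_nonneg_right ?_ hB0
          have h1 : ((univ : Finset (DirichletCharacter ℂ q)).erase 1).card ≤
              (univ : Finset (DirichletCharacter ℂ q)).card :=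
            Finset.card_le_card (Finset.erase_subset _ _)
          rw [Finset.card_univ, d6_card q] at h1
          exact_mod_cast h1
  have h4 : (((Nat.totient q : ℝ) * S - P : ℝ) : ℂ) = R := by
    push_cast
    rw [h3, hsplit]
    field_simp
    ring
  have h5 : |(Nat.totient q : ℝ) * S - P| ≤ (Nat.totient q : ℝ) * B := by
    rw [← h4] at hRn
    rwa [Complex.norm_real, Real.norm_eq_abs] at hRn
  have := (abs_le.mp h5).1
  linarith

theorem claimD6 : ClaimD6 := by
  intro d1 d2 d2b d3 d4 d5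
  obtain ⟨c, hc, η0, hη0, h4⟩ := d4
  obtain ⟨C, hC, h5⟩ := d5
  obtain ⟨n0, hn0⟩ := exists_pow_lt_of_lt_one hc (show (3 / 4 : ℝ) < 1 by norm_num)
  refine ⟨c / 4, by positivity, max (max 2 n0) (max ⌈1 / η0⌉₊ ⌈4 * C / c⌉₊), ?_⟩
  intro z hz q _ hq hgood
  have hz2 : 2 ≤ z := (le_max_left _ _).trans ((le_max_left _ _).trans hz)
  have hzn0 : n0 ≤ z := (le_max_right _ _).trans ((le_max_left _ _).trans hz)
  have hzη : 1 / η0 ≤ (z : ℝ) := (Nat.le_ceil _).trans
    (by exact_mod_cast (le_max_left _ _).trans ((le_max_right _ _).trans hz))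
  have hzC : 4 * C / c ≤ (z : ℝ) := (Nat.le_ceil _).trans
    (by exact_mod_cast (le_max_right _ _).trans ((le_max_right _ _).trans hz))
  have hzR : (2 : ℝ) ≤ z := by exact_mod_cast hz2
  have hz1 : (1 : ℝ) ≤ z := by linarith
  have hz0 : (0 : ℝ) < z := by linarith
  have hz60 : (z : ℝ) ≤ (z : ℝ) ^ 60 := le_self_pow₀ hz1 (by norm_num)
  have hz60pos : (0 : ℝ) < (z : ℝ) ^ 60 := by positivity
  set t : ℕ := z ^ 6 with ht
  have htR : (z : ℝ) ^ 6 = (t : ℝ) := by rw [ht]; push_cast; ring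
  have hzt : z ≤ t := by rw [ht]; exact Nat.le_self_pow (by norm_num) z
  have ht1 : 1 ≤ t := by omega
  set η : ℝ := eta z with hη
  have hηdef : η = 1 / (z : ℝ) ^ 60 := rfl
  have hηpos : 0 < η := by rw [hηdef]; positivity
  have hηinv : 1 / η = (z : ℝ) ^ 60 := by rw [hηdef, one_div_one_div]
  have hηle : η ≤ η0 := by
    rw [hηdef, div_le_iff₀ hz60pos]
    have : 1 / η0 ≤ (z : ℝ) ^ 60 := hzη.trans hz60
    rw [div_le_iff₀ hη0] at this
    linarith
  have hη1 : η ≤ 1 := by
    rw [hηdef, div_le_one hz60pos]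
    exact hz1.trans hz60
  set m : ℕ := 2 * t with hm
  set a : ℝ := 8 * (1 + (z : ℝ) ^ 6) with ha
  -- bound for the logarithm of q
  have hqpos : (0 : ℝ) < q := by exact_mod_cast Nat.pos_of_ne_zero (NeZero.ne q)
  have hq1 : (1 : ℝ) ≤ q := by exact_mod_cast Nat.one_le_iff_ne_zero.mpr (NeZero.ne q)
  have hlogq : Real.log q ≤ (z : ℝ) ^ 6 := by
    rw [Real.log_le_iff_le_exp hqpos]; exact hq
  have hlogq0 : 0 ≤ Real.log q := Real.log_nonneg hq1
  have hexp : Real.exp ((z : ℝ) ^ 6) ≤ 3 ^ t := by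
    rw [htR]
    have : Real.exp (t : ℝ) = (Real.exp 1) ^ t := by
      rw [← Real.exp_nat_mul, mul_one]
    rw [this]
    exact pow_le_pow_left₀ (Real.exp_pos _).le (by linarith [Real.exp_one_lt_d9]) _
  have hφq : (Nat.totient q : ℝ) ≤ 3 ^ t := by
    have h1 : (Nat.totient q : ℝ) ≤ q := by exact_mod_cast Nat.totient_le q
    linarith
  have hφ : (0 : ℝ) < Nat.totient q := by
    exact_mod_cast Nat.totient_pos.mpr (Nat.pos_of_ne_zero (NeZero.ne q))
  -- size of a theta
  have haθ : a * (2 * η) ≤ 1 / 4 := by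
    rw [ha, hηdef]
    have h1 : (64 : ℝ) * (1 + (z : ℝ) ^ 6) ≤ (z : ℝ) ^ 60 := by
      have h2 : (2 : ℝ) ^ 54 ≤ (z : ℝ) ^ 54 := pow_le_pow_left₀ (by norm_num) hzR _
      have h3 : (z : ℝ) ^ 60 = (z : ℝ) ^ 54 * (z : ℝ) ^ 6 := by rw [← pow_add]
      have h4 : (1 : ℝ) ≤ (z : ℝ) ^ 6 := one_le_pow₀ hz1
      have h5 : (128 : ℝ) ≤ (z : ℝ) ^ 54 := le_trans (by norm_num) h2
      rw [h3]
      nlinarith
    rw [show 8 * (1 + (z : ℝ) ^ 6) * (2 * (1 / (z : ℝ) ^ 60)) =
      (16 * (1 + (z : ℝ) ^ 6)) / (z : ℝ) ^ 60 by ring]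
    rw [div_le_iff₀ hz60pos]
    linarith
  have ha1 : 1 ≤ a := by
    rw [ha]
    have : (0 : ℝ) ≤ (z : ℝ) ^ 6 := by positivity
    linarith
  -- nonprincipal characters
  have hB : ∀ χ : DirichletCharacter ℂ q, χ ≠ 1 →
      ‖fL χ (1 + η) m‖ ≤ (1 / (2 * η)) ^ (m + 1) := by
    intro χ hχ
    refine d2b (fun j => ell χ (1 + η) j) (fun j => fL χ (1 + η) j) a (2 * η) ha1
      (by positivity) haθ (fun j => ?_) ?_ (fun k => d2 q χ (1 + η) (by linarith) k) m
    · refine (d1 q χ hχ (1 + η) (by linarith) (by linarith) j).trans ?_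
      refine pow_le_pow_left₀ (by positivity) ?_ _
      rw [ha]
      linarith
    · have := hgood χ hχ
      refine le_trans (le_of_eq ?_) this
      rw [ha]
      ring
  have hmain := d6_main d3 q (1 + η) (by linarith) m ((1 / (2 * η)) ^ (m + 1))
    (by positivity) hB
  have hprin := h4 q m η (by omega) (by
    rw [hm]; push_cast
    have : (0 : ℝ) ≤ (t : ℝ) := Nat.cast_nonneg _
    rw [htR] at hlogq
    linarith) hηpos hηle
  set X : ℝ := (1 / η) ^ (m + 1) with hX
  have hXpos : 0 < X := by rw [hX]; positivity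
  have hhalf : (1 / (2 * η)) ^ (m + 1) = X * (1 / 2) ^ (m + 1) := by
    rw [hX, ← mul_pow]
    congr 1
    field_simp
  have h34 : (3 : ℝ) ^ t * (1 / 2) ^ (m + 1) ≤ c / 2 := by
    have h1 : (3 : ℝ) ^ t * (1 / 2) ^ (m + 1) = (3 / 4) ^ t * (1 / 2) := by
      rw [hm, pow_succ, pow_mul, ← mul_assoc, ← mul_pow]
      norm_num
    rw [h1]
    have h2 : (3 / 4 : ℝ) ^ t ≤ (3 / 4) ^ n0 :=
      pow_le_pow_of_le_one (by norm_num) (by norm_num) (hzn0.trans hzt)
    linarith
  set S : ℝ := ∑' n : ℕ, (if (n : ZMod q) = 1 then Λ n * wt (1 + η) m n else 0) with hS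
  have hφS : X * (c / 2) ≤ (Nat.totient q : ℝ) * S := by
    refine le_trans ?_ hmain
    have h1 : (Nat.totient q : ℝ) * (1 / (2 * η)) ^ (m + 1) ≤ X * (c / 2) := by
      rw [hhalf]
      calc (Nat.totient q : ℝ) * (X * (1 / 2) ^ (m + 1))
          ≤ 3 ^ t * (X * (1 / 2) ^ (m + 1)) :=
            mul_le_mul_of_nonneg_right hφq (by positivity)
        _ = X * (3 ^ t * (1 / 2) ^ (m + 1)) := by ring
        _ ≤ X * (c / 2) := mul_le_mul_of_nonneg_left h34 hXpos.le
    have h2 : c * X = X * (c / 2) + X * (c / 2) := by ring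
    linarith
  have hSpos : 0 < S := by
    have : 0 < (Nat.totient q : ℝ) * S := lt_of_lt_of_le (by positivity) hφS
    exact (mul_pos_iff_of_pos_left hφ).mp this
  obtain ⟨h5s, h5le⟩ := h5 m η hηpos
  have hsplit := d6_split q (1 + η) m hSpos h5s
  -- comparison with the non-primes
  have hcomp : C * 4 ^ m * (Nat.totient q : ℝ) ≤ c / 4 * X := by
    have h1 : C * 4 ^ m * (Nat.totient q : ℝ) ≤ C * 4 ^ m * 3 ^ t :=
      mul_le_mul_of_nonneg_left hφq (by positivity)
    have h2 : C * 4 ^ m * (3 : ℝ) ^ t = C * 48 ^ t := by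
      rw [hm, pow_mul, mul_assoc, ← mul_pow]
      norm_num
    have h3 : (48 : ℝ) ^ t ≤ ((z : ℝ) ^ 60) ^ m := by
      have h48 : (48 : ℝ) ≤ (z : ℝ) ^ 60 := by
        have : (2 : ℝ) ^ 60 ≤ (z : ℝ) ^ 60 := pow_le_pow_left₀ (by norm_num) hzR _
        exact le_trans (by norm_num) this
      calc (48 : ℝ) ^ t ≤ ((z : ℝ) ^ 60) ^ t := pow_le_pow_left₀ (by norm_num) h48 _
        _ ≤ ((z : ℝ) ^ 60) ^ m := pow_le_pow_right₀ (by linarith) (by omega)
    have h6 : C ≤ c / 4 * (z : ℝ) ^ 60 := by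
      have : 4 * C / c ≤ (z : ℝ) ^ 60 := hzC.trans hz60
      rw [div_le_iff₀ hc] at this
      linarith
    have h7 : C * (48 : ℝ) ^ t ≤ (c / 4 * (z : ℝ) ^ 60) * ((z : ℝ) ^ 60) ^ m :=
      mul_le_mul h6 h3 (by positivity) (by positivity)
    have h8 : (c / 4 * (z : ℝ) ^ 60) * ((z : ℝ) ^ 60) ^ m = c / 4 * X := by
      rw [hX, hηinv, pow_succ]
      ring
    linarith
  have hX' : ((z : ℝ) ^ 60) ^ (2 * z ^ 6 + 1) = X := by
    rw [hX, hηinv, hm]
  rw [hX']
  rw [div_le_iff₀ hφ]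
  have h9 : S * (Nat.totient q : ℝ) ≤
      (∑' n : ℕ, (if n.Prime ∧ (n : ZMod q) = 1 then Real.log n * wt (1 + η) m n else 0)) *
        (Nat.totient q : ℝ) + C * 4 ^ m * (Nat.totient q : ℝ) := by
    rw [← add_mul]
    refine mul_le_mul_of_nonneg_right ?_ hφ.le
    linarith
  have h10 : (Nat.totient q : ℝ) * S = S * (Nat.totient q : ℝ) := mul_comm _ _
  linarith

end D159

end

section

/-!
# D7: the transition argument
-/

set_option autoImplicit false

namespace D159

namespace D7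

/-- a bad quadratic character at `z` -/
structure Bad (z q : ℕ) (χ : DirichletCharacter ℂ q) : Prop where
  le : (q : ℝ) ≤ Real.exp ((z : ℝ) ^ 6)
  ne : χ ≠ 1
  sq : χ ^ 2 = 1
  lt : ‖ell χ (1 + eta z) 0‖ < 384 * (1 + (z : ℝ) ^ 6) ^ 2 * eta z

theorem mulCh_self {q : ℕ} (χ : DirichletCharacter ℂ q) (h : χ ^ 2 = 1) : mulCh χ χ = 1 := by
  have h1 : mulCh χ χ = (DirichletCharacter.changeLevel (Dvd.intro q rfl) χ) ^ 2 :=
    (sq (DirichletCharacter.changeLevel (Dvd.intro q rfl) χ)).symm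
  rw [h1, ← map_pow, h, map_one]

theorem log_le {q : ℕ} [NeZero q] {t : ℝ} (h : (q : ℝ) ≤ Real.exp t) : Real.log q ≤ t := by
  have hq : (0 : ℝ) < q := by exact_mod_cast Nat.pos_of_ne_zero (NeZero.ne q)
  exact (Real.log_le_iff_le_exp hq).2 h

theorem log_nonneg {q : ℕ} [NeZero q] : 0 ≤ Real.log q := by
  apply Real.log_nonneg
  exact_mod_cast Nat.pos_of_ne_zero (NeZero.ne q)

theorem eta_pos {z : ℕ} (hz : 1 ≤ z) : 0 < eta z := by
  have : (0 : ℝ) < z := by exact_mod_cast hz
  unfold eta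
  positivity

theorem eta_le_one {z : ℕ} (hz : 1 ≤ z) : eta z ≤ 1 := by
  have h : (1 : ℝ) ≤ z := by exact_mod_cast hz
  unfold eta
  rw [div_le_one (by positivity)]
  exact one_le_pow₀ h

theorem eta_succ_le {z : ℕ} (hz : 1 ≤ z) : eta (z + 1) ≤ eta z := by
  have h : (0 : ℝ) < z := by exact_mod_cast hz
  unfold eta
  apply one_div_le_one_div_of_le (by positivity)
  apply pow_le_pow_left₀ h.le
  push_cast
  linarith

theorem numeric (x : ℝ) (hx : 3 ≤ x) :
    16 * (1 + x ^ 6 + (x + 1) ^ 6) * (448 * (1 + x ^ 6) ^ 2) * (384 * (1 + (x + 1) ^ 6) ^ 2) <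
      x ^ 60 := by
  have h0 : 0 ≤ x := by linarith
  have h6 : (1 : ℝ) ≤ x ^ 6 := one_le_pow₀ (by linarith)
  have h1 : (x + 1) ^ 6 ≤ 64 * x ^ 6 := by
    have : (x + 1) ^ 6 ≤ (2 * x) ^ 6 := pow_le_pow_left₀ (by linarith) (by linarith) 6
    calc (x + 1) ^ 6 ≤ (2 * x) ^ 6 := this
      _ = 64 * x ^ 6 := by ring
  have h10 : 0 ≤ (x + 1) ^ 6 := by positivity
  have h2 : 1 + x ^ 6 ≤ 2 * x ^ 6 := by linarith
  have h3 : 1 + (x + 1) ^ 6 ≤ 65 * x ^ 6 := by linarith
  have h4 : 1 + x ^ 6 + (x + 1) ^ 6 ≤ 66 * x ^ 6 := by linarith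
  have h5 : (1 + x ^ 6) ^ 2 ≤ (2 * x ^ 6) ^ 2 := pow_le_pow_left₀ (by positivity) h2 2
  have h7 : (1 + (x + 1) ^ 6) ^ 2 ≤ (65 * x ^ 6) ^ 2 := pow_le_pow_left₀ (by positivity) h3 2
  have h8 : 16 * (1 + x ^ 6 + (x + 1) ^ 6) * (448 * (1 + x ^ 6) ^ 2) *
      (384 * (1 + (x + 1) ^ 6) ^ 2) ≤
      16 * (66 * x ^ 6) * (448 * (2 * x ^ 6) ^ 2) * (384 * (65 * x ^ 6) ^ 2) := by
    gcongr
  refine lt_of_le_of_lt h8 ?_
  have h9 : (3 : ℝ) ^ 30 ≤ x ^ 30 := pow_le_pow_left₀ (by norm_num) hx 30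
  have h11 : 16 * (66 * x ^ 6) * (448 * (2 * x ^ 6) ^ 2) * (384 * (65 * x ^ 6) ^ 2) =
      (16 * 66 * 448 * 4 * 384 * 4225) * x ^ 30 := by ring
  rw [h11]
  have h12 : x ^ 60 = x ^ 30 * x ^ 30 := by ring
  rw [h12]
  apply mul_lt_mul_of_pos_right _ (by positivity)
  refine lt_of_lt_of_le ?_ h9
  norm_num

end D7

open D7 in
theorem claimD7 : ClaimD7 := by
  intro hD1 hD1' hD7a hD7b hD7c hD7d hD7e z0
  by_contra hcon
  push Not at hcon
  obtain ⟨z1, hz1⟩ := hD7a hD1
  -- a bad character at each large z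
  have hbad : ∀ z : ℕ, z0 ≤ z → z1 ≤ z →
      ∃ (q : ℕ) (_ : NeZero q) (χ : DirichletCharacter ℂ q), Bad z q χ := by
    intro z h0 h1
    have h := hcon z h0
    unfold GoodZ at h
    push Not at h
    obtain ⟨q, hq, hle, hg⟩ := h
    unfold GoodMod at hg
    push Not at hg
    obtain ⟨χ, hne, hlt⟩ := hg
    refine ⟨q, hq, χ, hle, hne, ?_, hlt⟩
    by_contra hsq
    exact absurd (hz1 z h1 q hle χ hsq) (not_le.2 hlt)
  set m0 := max (max z0 z1) 3 with hm0
  have hm0z0 : z0 ≤ m0 := le_trans (le_max_left _ _) (le_max_left _ _)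
  have hm0z1 : z1 ≤ m0 := le_trans (le_max_right _ _) (le_max_left _ _)
  have hm03 : 3 ≤ m0 := le_max_right _ _
  obtain ⟨q0, hq0, χ0, hχ0⟩ := hbad m0 hm0z0 hm0z1
  let Z : ℕ → Prop := fun z => m0 ≤ z ∧
    ∃ (q : ℕ) (_ : NeZero q) (χ : DirichletCharacter ℂ q), Bad z q χ ∧ mulCh χ χ0 = 1
  have hZ0 : Z m0 := ⟨le_rfl, q0, hq0, χ0, hχ0, mulCh_self χ0 hχ0.sq⟩
  by_cases hstep : ∀ z, Z z → Z (z + 1)
  · -- all z are in Z
    have hall : ∀ z, m0 ≤ z → Z z := by
      intro z hz
      induction z, hz using Nat.le_induction with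
      | base => exact hZ0
      | succ z _ ih => exact hstep z ih
    obtain ⟨b, hb, z2, hz2⟩ := hD7e q0 χ0 hχ0.ne
    obtain ⟨z3, hz3⟩ := exists_nat_gt ((2 : ℝ) ^ q0 * 6144 / b)
    set z := max (max m0 z2) z3 with hz
    have hzm0 : m0 ≤ z := le_trans (le_max_left _ _) (le_max_left _ _)
    have hzz2 : z2 ≤ z := le_trans (le_max_right _ _) (le_max_left _ _)
    have hzz3 : z3 ≤ z := le_max_right _ _
    obtain ⟨_, q, hq, χ, hχ, hmul⟩ := hall z hzm0
    have hzpos : (1 : ℝ) ≤ z := by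
      have : 1 ≤ z := by omega
      exact_mod_cast this
    have hη := eta_pos (z := z) (by omega)
    have h1 := hz2 z hzz2
    have h2 := hD7c q q0 χ χ0 hχ.sq hχ0.sq hmul (1 + eta z) (by linarith)
    have h3 : Real.log q ≤ (z : ℝ) ^ 6 := log_le hχ.le
    have h4 : 0 ≤ Real.log q := log_nonneg
    have h5 : b ≤ 2 ^ q0 * (2 + 2 * (z : ℝ) ^ 6) * (384 * (1 + (z : ℝ) ^ 6) ^ 2 * eta z) := by
      refine le_trans h1 (le_trans h2 ?_)
      have := hχ.lt.le
      gcongr
    have h6 : (1 : ℝ) ≤ (z : ℝ) ^ 6 := one_le_pow₀ hzpos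
    have h7 : 2 ^ q0 * (2 + 2 * (z : ℝ) ^ 6) * (384 * (1 + (z : ℝ) ^ 6) ^ 2 * eta z) ≤
        2 ^ q0 * (4 * (z : ℝ) ^ 6) * (384 * (2 * (z : ℝ) ^ 6) ^ 2 * eta z) := by
      have e1 : 2 + 2 * (z : ℝ) ^ 6 ≤ 4 * (z : ℝ) ^ 6 := by linarith
      have e2 : 1 + (z : ℝ) ^ 6 ≤ 2 * (z : ℝ) ^ 6 := by linarith
      gcongr
    have h8 : 2 ^ q0 * (4 * (z : ℝ) ^ 6) * (384 * (2 * (z : ℝ) ^ 6) ^ 2 * eta z) =
        (2 ^ q0 * 6144) * ((z : ℝ) ^ 18 / (z : ℝ) ^ 60) := by
      unfold eta
      ring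
    have h9 : (z : ℝ) ^ 18 / (z : ℝ) ^ 60 ≤ 1 / (z : ℝ) := by
      rw [div_le_div_iff₀ (by positivity) (by positivity)]
      calc (z : ℝ) ^ 18 * z = (z : ℝ) ^ 19 := by ring
        _ ≤ (z : ℝ) ^ 60 := pow_le_pow_right₀ hzpos (by norm_num)
        _ = 1 * (z : ℝ) ^ 60 := by ring
    have h10 : b ≤ (2 ^ q0 * 6144) * (1 / (z : ℝ)) := by
      refine le_trans h5 (le_trans h7 ?_)
      rw [h8]
      gcongr
    have h11 : (2 : ℝ) ^ q0 * 6144 / b < z := by
      refine lt_of_lt_of_le hz3 ?_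
      exact_mod_cast hzz3
    rw [div_lt_iff₀ hb] at h11
    rw [mul_one_div, le_div_iff₀ (by positivity)] at h10
    linarith
  · push Not at hstep
    obtain ⟨z, ⟨hzm0, q, hq, χ, hχ, hmul⟩, hnZ⟩ := hstep
    obtain ⟨q1, hq1, χ1, hχ1⟩ := hbad (z + 1) (by omega) (by omega)
    have hne1 : mulCh χ1 χ0 ≠ 1 := fun h => hnZ ⟨by omega, q1, hq1, χ1, hχ1, h⟩
    have hne : mulCh χ χ1 ≠ 1 := fun h =>
      hne1 (hD7d q1 q q0 χ1 χ χ0 hχ1.sq hχ.sq hχ0.sq h hmul)
    have hz1' : 1 ≤ z := by omega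
    have hη := eta_pos hz1'
    have hη' := eta_pos (z := z + 1) (by omega)
    have hη1 := eta_le_one hz1'
    have hη1' := eta_le_one (z := z + 1) (by omega)
    have hle := eta_succ_le hz1'
    have hb := hD7b hD1 q q1 χ χ1 hχ.sq hχ1.sq hne (eta (z + 1)) hη' hη1'
    have hlog : Real.log q ≤ (z : ℝ) ^ 6 := log_le hχ.le
    have hlog1 : Real.log q1 ≤ ((z + 1 : ℕ) : ℝ) ^ 6 := log_le hχ1.le
    have hl0 : 0 ≤ Real.log q := log_nonneg
    have hl1 : 0 ≤ Real.log q1 := log_nonneg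
    have hLip := hD1' q χ hχ.ne (1 + eta z) (1 + eta (z + 1)) (by linarith) (by linarith)
      (by linarith)
    have hx : (3 : ℝ) ≤ z := by
      have : 3 ≤ z := by omega
      exact_mod_cast this
    have hA : ‖ell χ (1 + eta (z + 1)) 0‖ ≤ 448 * (1 + (z : ℝ) ^ 6) ^ 2 * eta z := by
      have e1 : ‖ell χ (1 + eta (z + 1)) 0‖ ≤ ‖ell χ (1 + eta z) 0‖ +
          ‖ell χ (1 + eta z) 0 - ell χ (1 + eta (z + 1)) 0‖ := by
        have := norm_sub_norm_le (ell χ (1 + eta (z + 1)) 0) (ell χ (1 + eta z) 0)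
        rw [norm_sub_rev] at this
        linarith
      have e2 : (1 + eta z - (1 + eta (z + 1))) * (8 * (1 + Real.log q)) ^ 2 ≤
          eta z * (8 * (1 + (z : ℝ) ^ 6)) ^ 2 := by
        have e3 : 1 + eta z - (1 + eta (z + 1)) ≤ eta z := by linarith
        have e4 : 0 ≤ 1 + eta z - (1 + eta (z + 1)) := by linarith
        gcongr
      have e5 := hχ.lt
      nlinarith
    have hB := hχ1.lt
    have hprod : ‖ell χ (1 + eta (z + 1)) 0‖ * ‖ell χ1 (1 + eta (z + 1)) 0‖ ≤
        (448 * (1 + (z : ℝ) ^ 6) ^ 2 * eta z) *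
          (384 * (1 + ((z + 1 : ℕ) : ℝ) ^ 6) ^ 2 * eta (z + 1)) := by
      have e0 := norm_nonneg (ell χ1 (1 + eta (z + 1)) 0)
      have e1 : 0 ≤ 448 * (1 + (z : ℝ) ^ 6) ^ 2 * eta z := by
        have := hη.le
        positivity
      exact mul_le_mul hA hB.le e0 e1
    have hlow : eta (z + 1) / (16 * (1 + (z : ℝ) ^ 6 + ((z + 1 : ℕ) : ℝ) ^ 6)) ≤
        eta (z + 1) / (16 * (1 + Real.log q + Real.log q1)) :=
      div_le_div_of_nonneg_left hη'.le (by linarith) (by linarith)
    have hfin := le_trans hlow (le_trans hb hprod)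
    rw [div_le_iff₀ (by positivity)] at hfin
    have hnum := numeric z hx
    have hcast : ((z + 1 : ℕ) : ℝ) = (z : ℝ) + 1 := by push_cast; ring
    rw [hcast] at hfin
    have h13 : eta (z + 1) ≤ eta (z + 1) * (eta z *
        (16 * (1 + (z : ℝ) ^ 6 + ((z : ℝ) + 1) ^ 6) * (448 * (1 + (z : ℝ) ^ 6) ^ 2) *
          (384 * (1 + ((z : ℝ) + 1) ^ 6) ^ 2))) := by
      refine le_trans hfin (le_of_eq ?_)
      ring
    have h14 : eta z *
        (16 * (1 + (z : ℝ) ^ 6 + ((z : ℝ) + 1) ^ 6) * (448 * (1 + (z : ℝ) ^ 6) ^ 2) *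
          (384 * (1 + ((z : ℝ) + 1) ^ 6) ^ 2)) < 1 := by
      have : eta z * (z : ℝ) ^ 60 = 1 := by
        unfold eta
        rw [one_div, inv_mul_cancel₀]
        positivity
      exact lt_of_lt_of_eq (mul_lt_mul_of_pos_left hnum hη) this
    have h15 := mul_lt_mul_of_pos_left h14 hη'
    linarith

end D159

end

section

/-!
# MP_d159ed_nt, item D8: primes 1 + k h w, w in S
-/

set_option autoImplicit false

namespace D159

open Finset
open scoped BigOperators Nat

namespace D8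

/-- the terms of the series in D8a without the coefficient -/
noncomputable def g (A η : ℝ) (M k : ℕ) : ℝ :=
  1 / (k : ℝ) * (k : ℝ) ^ (-η) * (Real.log k + A) ^ (M + 1) / (M ! : ℝ)

lemma g_nonneg {A : ℝ} (hA : 0 ≤ A) (η : ℝ) (M k : ℕ) : 0 ≤ g A η M k := by
  unfold g
  have hl : 0 ≤ Real.log k := Real.log_natCast_nonneg k
  positivity

lemma g_summable {A η : ℝ} (hA : 0 ≤ A) (hη : 0 < η) (M : ℕ) : Summable (g A η M) := by
  have h1 : Summable (fun n : ℕ =>
      ((M + 1) ! * (2 / η) ^ (M + 1) * Real.exp (η / 2 * A) / (M ! : ℝ)) *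
        (n : ℝ) ^ (-(1 + η / 2))) := by
    refine Summable.mul_left _ ?_
    rw [Real.summable_nat_rpow]
    linarith
  refine Summable.of_nonneg_of_le (fun n => g_nonneg hA _ _ _) (fun n => ?_) h1
  rcases Nat.eq_zero_or_pos n with rfl | hn
  · unfold g
    simp
    positivity
  · have hn' : (0 : ℝ) < n := by exact_mod_cast hn
    have hl : 0 ≤ Real.log n := Real.log_natCast_nonneg n
    have h2 := Real.pow_div_factorial_le_exp (x := η / 2 * (Real.log n + A)) (by positivity) (M + 1)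
    have h3 : Real.exp (η / 2 * (Real.log n + A)) =
        (n : ℝ) ^ (η / 2) * Real.exp (η / 2 * A) := by
      rw [mul_add, Real.exp_add, Real.rpow_def_of_pos hn', mul_comm (η / 2) (Real.log n)]
    rw [h3, div_le_iff₀ (by positivity)] at h2
    have hη2 : (2 / η) ^ (M + 1) * (η / 2) ^ (M + 1) = 1 := by
      rw [← mul_pow]
      have : 2 / η * (η / 2) = 1 := by field_simp
      rw [this, one_pow]
    have h4 : (Real.log n + A) ^ (M + 1) ≤
        (2 / η) ^ (M + 1) * ((n : ℝ) ^ (η / 2) * Real.exp (η / 2 * A) * ((M + 1) ! : ℝ)) := by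
      calc (Real.log n + A) ^ (M + 1)
          = (2 / η) ^ (M + 1) * (η / 2 * (Real.log n + A)) ^ (M + 1) := by
            rw [mul_pow, ← mul_assoc, hη2, one_mul]
        _ ≤ _ := by gcongr
    unfold g
    calc 1 / (n : ℝ) * (n : ℝ) ^ (-η) * (Real.log n + A) ^ (M + 1) / (M ! : ℝ)
        ≤ 1 / (n : ℝ) * (n : ℝ) ^ (-η) * ((2 / η) ^ (M + 1) *
          ((n : ℝ) ^ (η / 2) * Real.exp (η / 2 * A) * ((M + 1) ! : ℝ))) / (M ! : ℝ) := by gcongr
      _ = _ := by
          have e : (n : ℝ) ^ (-(1 + η / 2)) = 1 / (n : ℝ) * (n : ℝ) ^ (-η) * (n : ℝ) ^ (η / 2) := by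
            have : 1 / (n : ℝ) = (n : ℝ) ^ (-1 : ℝ) := by
              rw [Real.rpow_neg_one, one_div]
            rw [this, ← Real.rpow_add hn', ← Real.rpow_add hn']
            congr 1
            ring
          rw [e]
          ring

lemma totient_ratio {h w : ℕ} (hh : 1 ≤ h) (hw : 1 ≤ w)
    (hp : ∀ p : ℕ, p.Prime → p ∣ w → p ∣ h) : Nat.totient (h * w) = w * Nat.totient h := by
  have hh0 : h ≠ 0 := by omega
  have hw0 : w ≠ 0 := by omega
  have hpf : (h * w).primeFactors = h.primeFactors := by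
    rw [Nat.primeFactors_mul hh0 hw0]
    apply Finset.union_eq_left.mpr
    intro p hp'
    rw [Nat.mem_primeFactors] at hp' ⊢
    exact ⟨hp'.1, hp p hp'.1 hp'.2.1, hh0⟩
  have h1 := Nat.totient_eq_mul_prod_factors (h * w)
  have h2 := Nat.totient_eq_mul_prod_factors h
  rw [hpf] at h1
  have h3 : ((Nat.totient (h * w) : ℕ) : ℚ) = ((w * Nat.totient h : ℕ) : ℚ) := by
    rw [h1]
    push_cast
    rw [h2]
    ring
  exact_mod_cast h3

/-- one modulus -/
lemma one_modulus {η A : ℝ} (hη : 0 < η) (hA : 1 ≤ A) (M q : ℕ) [NeZero q]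
    (hq : Real.log q + 1 ≤ A) :
    (q : ℝ) * ∑' n : ℕ, (if n.Prime ∧ (n : ZMod q) = 1 then
        Real.log n * wt (1 + η) M n else 0) ≤
      ∑' k : ℕ, (if (1 + k * q).Prime then g A η M k else 0) := by
  have hq0 : 0 < q := Nat.pos_of_ne_zero (NeZero.ne q)
  have hqr : (1 : ℝ) ≤ q := by exact_mod_cast hq0
  have hqp : (0 : ℝ) < q := by linarith
  set F : ℕ → ℝ := fun n => if n.Prime ∧ (n : ZMod q) = 1 then
        Real.log n * wt (1 + η) M n else 0 with hF
  have hinj : Function.Injective (fun k : ℕ => 1 + k * q) := by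
    intro a b hab
    simp only at hab
    have : a * q = b * q := by omega
    exact Nat.eq_of_mul_eq_mul_right hq0 this
  have hsupp : Function.support F ⊆ Set.range (fun k : ℕ => 1 + k * q) := by
    intro n hn
    simp only [Function.mem_support, hF, ne_eq, ite_eq_right_iff, Classical.not_imp] at hn
    obtain ⟨⟨hp, hm⟩, _⟩ := hn
    have h1 : ((1 : ℕ) : ZMod q) = (n : ZMod q) := by rw [hm]; simp
    rw [ZMod.natCast_eq_natCast_iff] at h1
    have h2 : q ∣ n - 1 := (Nat.modEq_iff_dvd' hp.one_lt.le).mp h1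
    obtain ⟨k, hk⟩ := h2
    refine ⟨k, ?_⟩
    simp only
    have := hp.one_lt
    rw [mul_comm] at hk
    omega
  rw [← hinj.tsum_eq hsupp, ← tsum_mul_left]
  have hle : ∀ k : ℕ, (q : ℝ) * F (1 + k * q) ≤
      (if (1 + k * q).Prime then g A η M k else 0) := by
    intro k
    by_cases hp : (1 + k * q).Prime
    · have hm : (((1 + k * q : ℕ)) : ZMod q) = 1 := by simp
      have hk : 0 < k := by
        rcases Nat.eq_zero_or_pos k with rfl | hk
        · simp at hp
          exact absurd hp (by decide)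
        · exact hk
      simp only [hF]
      rw [if_pos ⟨hp, hm⟩, if_pos hp]
      have hkr : (1 : ℝ) ≤ k := by exact_mod_cast hk
      have hkp : (0 : ℝ) < k := by linarith
      have hlk : 0 ≤ Real.log k := Real.log_natCast_nonneg k
      have hkq : (1 : ℝ) ≤ k * q := by nlinarith
      have hlog : Real.log ((1 + k * q : ℕ) : ℝ) ≤ Real.log k + A := by
        push_cast
        calc Real.log (1 + k * q) ≤ Real.log (2 * (k * q)) := by
              apply Real.log_le_log
              · positivity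
              · linarith
          _ = Real.log 2 + (Real.log k + Real.log q) := by
              rw [Real.log_mul (by norm_num) (by positivity), Real.log_mul hkp.ne' hqp.ne']
          _ ≤ Real.log k + A := by
              have : Real.log 2 ≤ 1 := by
                have := Real.log_two_lt_d9
                linarith
              linarith
      have hlog0 : 0 ≤ Real.log ((1 + k * q : ℕ) : ℝ) := Real.log_natCast_nonneg _
      have hpow : (((1 + k * q : ℕ)) : ℝ) ^ (-(1 + η)) ≤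
          1 / (q : ℝ) * (1 / (k : ℝ) * (k : ℝ) ^ (-η)) := by
        calc (((1 + k * q : ℕ)) : ℝ) ^ (-(1 + η)) ≤ ((k : ℝ) * q) ^ (-(1 + η)) := by
              apply Real.rpow_le_rpow_of_nonpos (by positivity)
              · push_cast; linarith
              · linarith
          _ = (k : ℝ) ^ (-(1 + η)) * (q : ℝ) ^ (-(1 + η)) := Real.mul_rpow hkp.le hqp.le
          _ ≤ (k : ℝ) ^ (-(1 + η)) * (q : ℝ) ^ (-1 : ℝ) := by
              have : (q : ℝ) ^ (-(1 + η)) ≤ (q : ℝ) ^ (-1 : ℝ) :=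
                Real.rpow_le_rpow_of_exponent_le hqr (by linarith)
              gcongr
          _ = _ := by
              have e1 : (k : ℝ) ^ (-(1 + η)) = 1 / (k : ℝ) * (k : ℝ) ^ (-η) := by
                have : 1 / (k : ℝ) = (k : ℝ) ^ (-1 : ℝ) := by rw [Real.rpow_neg_one, one_div]
                rw [this, ← Real.rpow_add hkp]
                congr 1
                ring
              rw [e1, Real.rpow_neg_one]
              ring
      unfold wt g
      calc (q : ℝ) * (Real.log ((1 + k * q : ℕ) : ℝ) *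
            (Real.log ((1 + k * q : ℕ) : ℝ) ^ M / (M ! : ℝ) *
              (((1 + k * q : ℕ)) : ℝ) ^ (-(1 + η))))
          = (q : ℝ) * (Real.log ((1 + k * q : ℕ) : ℝ) ^ (M + 1) / (M ! : ℝ) *
              (((1 + k * q : ℕ)) : ℝ) ^ (-(1 + η))) := by ring
        _ ≤ (q : ℝ) * ((Real.log k + A) ^ (M + 1) / (M ! : ℝ) *
              (1 / (q : ℝ) * (1 / (k : ℝ) * (k : ℝ) ^ (-η)))) := by
            gcongr
        _ = _ := by
            field_simp
    · simp only [hF]
      rw [if_neg (fun h => hp h.1), if_neg hp, mul_zero]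
  have hs : Summable (fun k : ℕ => if (1 + k * q).Prime then g A η M k else 0) := by
    refine Summable.of_nonneg_of_le (fun k => ?_) (fun k => ?_)
      (g_summable (by linarith : 0 ≤ A) hη M)
    · split_ifs
      · exact g_nonneg (by linarith) _ _ _
      · exact le_refl _
    · split_ifs
      · exact le_refl _
      · exact g_nonneg (by linarith) _ _ _
  have hF0 : ∀ n, 0 ≤ F n := by
    intro n
    simp only [hF]
    split_ifs
    · have hl : 0 ≤ Real.log n := Real.log_natCast_nonneg n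
      unfold wt
      positivity
    · exact le_refl _
  refine Summable.tsum_le_tsum hle ?_ hs
  exact Summable.of_nonneg_of_le (fun k => mul_nonneg hqp.le (hF0 _)) hle hs

end D8

open D8 in
theorem claimD8 : ClaimD8 := by
  intro hW hA
  obtain ⟨c, hc, z1, hW⟩ := hW
  obtain ⟨c', hc', z2, hA⟩ := hA c hc
  refine ⟨c', hc', max 1 (max z1 z2), ?_⟩
  intro z hz hgood h hh S hS hSw
  have hz0 : 1 ≤ z := (le_max_left _ _).trans hz
  have hz1 : z1 ≤ z := (le_max_left _ _).trans ((le_max_right _ _).trans hz)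
  have hz2 : z2 ≤ z := (le_max_right _ _).trans ((le_max_right _ _).trans hz)
  have hzr : (1 : ℝ) ≤ z := by exact_mod_cast hz0
  have hη : 0 < eta z := by
    unfold eta
    positivity
  set η := eta z with hηdef
  set M := 2 * z ^ 6 with hM
  set A : ℝ := (z : ℝ) ^ 6 + 1 with hAdef
  have hA1 : 1 ≤ A := by
    have : 0 ≤ (z : ℝ) ^ 6 := by positivity
    linarith
  have hhr : (0 : ℝ) < h := by exact_mod_cast hh
  have hφ : (0 : ℝ) < (Nat.totient h : ℝ) := by exact_mod_cast Nat.totient_pos.mpr hh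
  have hB : 1 ≤ (h : ℝ) / (Nat.totient h : ℝ) := by
    rw [le_div_iff₀ hφ, one_mul]
    exact_mod_cast Nat.totient_le h
  have hcard : (0 : ℝ) < (S.card : ℝ) := by exact_mod_cast hS.card_pos
  -- one w
  have hone : ∀ w ∈ S, c * ((h : ℝ) / (Nat.totient h : ℝ)) * ((z : ℝ) ^ 60) ^ (M + 1) ≤
      ∑' k : ℕ, (if (1 + k * (h * w)).Prime then g A η M k else 0) := by
    intro w hw
    obtain ⟨hw1, hwe, hwp⟩ := hSw w hw
    have hq0 : 0 < h * w := Nat.mul_pos hh hw1
    have : NeZero (h * w) := ⟨hq0.ne'⟩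
    have hqr : (0 : ℝ) < ((h * w : ℕ) : ℝ) := by exact_mod_cast hq0
    have hlog : Real.log ((h * w : ℕ) : ℝ) + 1 ≤ A := by
      have : Real.log ((h * w : ℕ) : ℝ) ≤ (z : ℝ) ^ 6 := by
        rw [Real.log_le_iff_le_exp hqr]
        exact hwe
      linarith
    have h1 := hW z hz1 (h * w) hwe (hgood (h * w) hwe)
    have h2 := one_modulus hη hA1 M (h * w) hlog
    refine le_trans ?_ h2
    have hwr : (0 : ℝ) < w := by exact_mod_cast hw1
    calc c * ((h : ℝ) / (Nat.totient h : ℝ)) * ((z : ℝ) ^ 60) ^ (M + 1)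
        = ((h * w : ℕ) : ℝ) * (c * ((z : ℝ) ^ 60) ^ (M + 1) / (Nat.totient (h * w) : ℝ)) := by
          rw [totient_ratio hh hw1 hwp]
          push_cast
          field_simp
      _ ≤ _ := by
          gcongr
  -- the sequence
  set a : ℕ → ℝ := fun k =>
    ((S.filter (fun w => (1 + k * (h * w)).Prime)).card : ℝ) / (S.card : ℝ) with ha
  have ha01 : ∀ k, 0 ≤ a k ∧ a k ≤ 1 := by
    intro k
    constructor
    · simp only [ha]; positivity
    · simp only [ha]
      rw [div_le_one hcard]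
      exact_mod_cast Finset.card_filter_le _ _
  have hsw : ∀ w ∈ S, Summable
      (fun k : ℕ => if (1 + k * (h * w)).Prime then g A η M k else 0) := by
    intro w _
    refine Summable.of_nonneg_of_le (fun k => ?_) (fun k => ?_)
      (g_summable (by linarith : 0 ≤ A) hη M)
    · split_ifs
      · exact g_nonneg (by linarith) _ _ _
      · exact le_refl _
    · split_ifs
      · exact le_refl _
      · exact g_nonneg (by linarith) _ _ _
  have hmain : c * ((h : ℝ) / (Nat.totient h : ℝ)) * ((z : ℝ) ^ 60) ^ (M + 1) ≤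
      ∑' k : ℕ, a k / k * (k : ℝ) ^ (-η) * (Real.log k + (z : ℝ) ^ 6 + 1) ^ (M + 1) /
        (M ! : ℝ) := by
    have h1 : (S.card : ℝ) * (c * ((h : ℝ) / (Nat.totient h : ℝ)) * ((z : ℝ) ^ 60) ^ (M + 1)) ≤
        ∑ w ∈ S, ∑' k : ℕ, (if (1 + k * (h * w)).Prime then g A η M k else 0) := by
      rw [← nsmul_eq_mul]
      exact Finset.card_nsmul_le_sum _ _ _ hone
    rw [← Summable.tsum_finsetSum hsw] at h1
    have h2 : ∀ k : ℕ, ∑ w ∈ S, (if (1 + k * (h * w)).Prime then g A η M k else 0) =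
        (S.card : ℝ) * (a k / k * (k : ℝ) ^ (-η) *
          (Real.log k + (z : ℝ) ^ 6 + 1) ^ (M + 1) / (M ! : ℝ)) := by
      intro k
      rw [← Finset.sum_filter, Finset.sum_const, nsmul_eq_mul]
      simp only [ha, g, hAdef]
      rw [← add_assoc]
      field_simp
    rw [tsum_congr h2, tsum_mul_left] at h1
    exact le_of_mul_le_mul_left h1 hcard
  obtain ⟨K, hK1, hK2, hK3⟩ := hA z hz2 _ hB a ha01 hmain
  refine ⟨K, hK1, hK2, ?_⟩
  have hswap : ∑ w ∈ S, (((Icc 1 K).filter (fun k => (1 + k * (h * w)).Prime)).card : ℝ) =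
      (S.card : ℝ) * ∑ k ∈ Icc 1 K, a k := by
    rw [Finset.mul_sum]
    have h1 : ∀ w ∈ S, (((Icc 1 K).filter (fun k => (1 + k * (h * w)).Prime)).card : ℝ) =
        ∑ k ∈ Icc 1 K, (if (1 + k * (h * w)).Prime then (1 : ℝ) else 0) := by
      intro w _
      rw [Finset.sum_boole]
    rw [Finset.sum_congr rfl h1, Finset.sum_comm]
    refine Finset.sum_congr rfl fun k _ => ?_
    rw [Finset.sum_boole]
    simp only [ha]
    field_simp
  rw [hswap]
  calc c' * (S.card : ℝ) * ((h : ℝ) / (Nat.totient h : ℝ)) * (K : ℝ) / Real.log K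
      = (S.card : ℝ) * (c' * ((h : ℝ) / (Nat.totient h : ℝ)) * (K : ℝ) / Real.log K) := by ring
    _ ≤ _ := by gcongr

end D159

end

section

/-!
# MP_d159ed_nt, E1: positive density of the smooth set
-/

set_option autoImplicit false

namespace D159

open Finset
open scoped BigOperators

/-- the prime logarithm -/
noncomputable def e1L (p : ℕ) : ℝ := if p.Prime then Real.log p else 0

theorem e1_theta (n : ℕ) : Chebyshev.theta (n : ℝ) = ∑ p ∈ Ioc 0 n, e1L p := by
  unfold Chebyshev.theta e1L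
  rw [Nat.floor_natCast, Finset.sum_filter]

theorem e1_block : ∃ n0 : ℕ, ∀ n ≥ n0, (n : ℝ) ≤ ∑ p ∈ Ioc n (8 * n), e1L p := by
  have h1 := (isLittleO_log_rpow_atTop (r := 1 / 2) (by norm_num)).def
    (show (0 : ℝ) < 1 / 20 by norm_num)
  have h2 : ∀ᶠ n : ℕ in Filter.atTop,
      ‖Real.log ((8 * n : ℕ) : ℝ)‖ ≤ 1 / 20 * ‖(((8 * n : ℕ) : ℝ)) ^ (1 / 2 : ℝ)‖ := by
    have ht : Filter.Tendsto (fun n : ℕ => ((8 * n : ℕ) : ℝ)) Filter.atTop Filter.atTop := by
      refine tendsto_natCast_atTop_atTop.comp ?_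
      exact Filter.tendsto_id.const_mul_atTop' (by norm_num)
    exact ht.eventually h1
  obtain ⟨n0, hn0⟩ := Filter.eventually_atTop.1 h2
  refine ⟨max n0 1, fun n hn => ?_⟩
  have hn1 : n0 ≤ n := (le_max_left _ _).trans hn
  have hn2 : 1 ≤ n := (le_max_right _ _).trans hn
  have hlog := hn0 n hn1
  have hx8 : (8 : ℝ) ≤ ((8 * n : ℕ) : ℝ) := by
    have : 8 ≤ 8 * n := by omega
    exact_mod_cast this
  set x : ℝ := ((8 * n : ℕ) : ℝ) with hx
  have hxn : x = 8 * (n : ℝ) := by rw [hx]; push_cast; ring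
  have hlogx : 0 ≤ Real.log x := Real.log_nonneg (by linarith)
  rw [← Real.sqrt_eq_rpow, Real.norm_of_nonneg hlogx, Real.norm_of_nonneg (Real.sqrt_nonneg _)]
    at hlog
  have hs : Real.sqrt x * Real.sqrt x = x := Real.mul_self_sqrt (by linarith)
  have hs0 : 0 ≤ Real.sqrt x := Real.sqrt_nonneg _
  have hs1 : 1 ≤ Real.sqrt x := by
    rw [show (1 : ℝ) = Real.sqrt 1 by simp]
    exact Real.sqrt_le_sqrt (by linarith)
  have hsx : Real.sqrt x ≤ x := by nlinarith
  have hlog1 : Real.log (x + 1) ≤ 2 * Real.log x := by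
    rw [show 2 * Real.log x = Real.log (x ^ 2) by rw [Real.log_pow]; norm_num]
    exact Real.log_le_log (by linarith) (by nlinarith)
  have hA : 2 * Real.sqrt x * Real.log x ≤ x / 10 := by
    have : Real.sqrt x * Real.log x ≤ Real.sqrt x * (1 / 20 * Real.sqrt x) :=
      mul_le_mul_of_nonneg_left hlog hs0
    nlinarith
  have hB : Real.log (x + 1) ≤ x / 10 := by nlinarith
  have h3 := Chebyshev.theta_ge (8 * n)
  have h4 := Chebyshev.theta_le_log4_mul_x (x := (n : ℝ)) (by positivity)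
  rw [← hx] at h3
  have hl4 : Real.log 4 = 2 * Real.log 2 := by
    rw [show (4 : ℝ) = 2 ^ 2 by norm_num, Real.log_pow]; norm_num
  have hl2 := Real.log_two_gt_d9
  have hl2' := Real.log_two_lt_d9
  have hsplit : ∑ p ∈ Ioc 0 n, e1L p + ∑ p ∈ Ioc n (8 * n), e1L p =
      ∑ p ∈ Ioc 0 (8 * n), e1L p := Finset.sum_Ioc_consecutive _ (by omega) (by omega)
  rw [← e1_theta, ← e1_theta, ← hx] at hsplit
  have hn3 : (0 : ℝ) < n := by exact_mod_cast hn2
  rw [hl4] at h4
  nlinarith

/-- the weight -/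
noncomputable def e1W (p : ℕ) : ℝ := if p.Prime then Real.log p / p else 0

theorem e1_blocks {n0 : ℕ} (h0 : ∀ n ≥ n0, (n : ℝ) ≤ ∑ p ∈ Ioc n (8 * n), e1L p)
    (y : ℕ) (hy : n0 ≤ y) (hy1 : 1 ≤ y) (k : ℕ) :
    (k : ℝ) / 8 ≤ ∑ p ∈ Ioc y (8 ^ k * y), e1W p := by
  induction k with
  | zero => simp
  | succ k ih =>
    have h8 : 1 ≤ 8 ^ k := Nat.one_le_pow _ _ (by norm_num)
    have hle : y ≤ 8 ^ k * y := by nlinarith
    have hle2 : 8 ^ k * y ≤ 8 ^ (k + 1) * y := by
      rw [pow_succ]; nlinarith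
    rw [← Finset.sum_Ioc_consecutive _ hle hle2]
    have h1 := h0 (8 ^ k * y) (hy.trans hle)
    have hYpos : (0 : ℝ) < ((8 ^ k * y : ℕ) : ℝ) := by
      have : 0 < 8 ^ k * y := by positivity
      exact_mod_cast this
    have h2 : (1 : ℝ) / 8 ≤ ∑ p ∈ Ioc (8 ^ k * y) (8 ^ (k + 1) * y), e1W p := by
      have h3 : ∑ p ∈ Ioc (8 ^ k * y) (8 * (8 ^ k * y)), e1L p / (8 * ((8 ^ k * y : ℕ) : ℝ)) ≤
          ∑ p ∈ Ioc (8 ^ k * y) (8 * (8 ^ k * y)), e1W p := by
        refine Finset.sum_le_sum fun p hp => ?_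
        rw [Finset.mem_Ioc] at hp
        unfold e1L e1W
        by_cases hpp : p.Prime
        · simp only [hpp, if_true]
          refine div_le_div_of_nonneg_left (Real.log_natCast_nonneg p) ?_ ?_
          · exact_mod_cast hpp.pos
          · exact_mod_cast hp.2
        · simp [hpp]
      rw [← Finset.sum_div] at h3
      have h4 : (1 : ℝ) / 8 ≤
          (∑ p ∈ Ioc (8 ^ k * y) (8 * (8 ^ k * y)), e1L p) / (8 * ((8 ^ k * y : ℕ) : ℝ)) := by
        rw [le_div_iff₀ (by positivity)]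
        linarith
      rw [show 8 ^ (k + 1) * y = 8 * (8 ^ k * y) by ring]
      exact h4.trans h3
    push_cast
    linarith

/-- the set of primes of the window -/
def e1Q (u z : ℕ) : Finset ℕ := (Icc 1 z).filter fun p => p.Prime ∧ z ^ (u - 1) < p ^ u

theorem e1_sumQ (u : ℕ) (hu : 2 ≤ u) : ∃ z1 : ℕ, ∀ z ≥ z1,
    1 / (48 * (u : ℝ)) ≤ ∑ p ∈ e1Q u z, (1 : ℝ) / p := by
  obtain ⟨n0, hn0⟩ := e1_block
  refine ⟨(n0 + 1) ^ 2 + 8 ^ u, fun z hz => ?_⟩
  have hz1 : 8 ^ u ≤ z := (Nat.le_add_left _ _).trans hz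
  have hz2 : (n0 + 1) ^ 2 ≤ z := (Nat.le_add_right _ _).trans hz
  have h8u : 1 < 8 ^ u := Nat.one_lt_pow (by omega) (by norm_num)
  set k := Nat.log (8 ^ u) z with hk
  have hzpos : z ≠ 0 := by omega
  have hk1 : 1 ≤ k := Nat.log_pos h8u hz1
  have hkle : (8 ^ u) ^ k ≤ z := Nat.pow_log_le_self _ hzpos
  have hklt : z < (8 ^ u) ^ (k + 1) := Nat.lt_pow_succ_log_self h8u z
  have hkle' : (8 ^ k) ^ u ≤ z := by
    rw [← pow_mul, mul_comm, pow_mul]; exact hkle
  set y := z / 8 ^ k with hy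
  have h8k : 0 < 8 ^ k := by positivity
  have h8k1 : 1 ≤ 8 ^ k := h8k
  have hsq : (8 ^ k) ^ 2 ≤ z := (Nat.pow_le_pow_right h8k hu).trans hkle'
  have hyn : n0 + 1 ≤ y := by
    rw [hy, Nat.le_div_iff_mul_le h8k]
    by_cases hc : 8 ^ k ≤ n0 + 1
    · calc (n0 + 1) * 8 ^ k ≤ (n0 + 1) * (n0 + 1) := Nat.mul_le_mul_left _ hc
        _ = (n0 + 1) ^ 2 := by ring
        _ ≤ z := hz2
    · push Not at hc
      calc (n0 + 1) * 8 ^ k ≤ 8 ^ k * 8 ^ k := Nat.mul_le_mul_right _ hc.le
        _ = (8 ^ k) ^ 2 := by ring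
        _ ≤ z := hsq
  have hyle : 8 ^ k * y ≤ z := Nat.mul_div_le z (8 ^ k)
  have hblocks := e1_blocks hn0 y (by omega) (by omega) k
  have hlogz : 0 < Real.log z := by
    refine Real.log_pos ?_
    have : 1 < z := by omega
    exact_mod_cast this
  -- the sum over the window
  have hsub : ∑ p ∈ Ioc y (8 ^ k * y), e1W p ≤ ∑ p ∈ e1Q u z, Real.log z * ((1 : ℝ) / p) := by
    have h1 : ∑ p ∈ Ioc y (8 ^ k * y), e1W p =
        ∑ p ∈ (Ioc y (8 ^ k * y)).filter Nat.Prime, Real.log p / p := by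
      rw [Finset.sum_filter]; rfl
    rw [h1]
    have hss : (Ioc y (8 ^ k * y)).filter Nat.Prime ⊆ e1Q u z := by
      intro p hp
      rw [Finset.mem_filter, Finset.mem_Ioc] at hp
      obtain ⟨⟨hp1, hp2⟩, hp3⟩ := hp
      unfold e1Q
      rw [Finset.mem_filter, Finset.mem_Icc]
      refine ⟨⟨hp3.one_lt.le, hp2.trans hyle⟩, hp3, ?_⟩
      have h2 : z < p * 8 ^ k := by
        rw [hy] at hp1
        exact (Nat.div_lt_iff_lt_mul h8k).1 hp1
      have h3 : z ^ u < p ^ u * z := by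
        calc z ^ u < (p * 8 ^ k) ^ u := Nat.pow_lt_pow_left h2 (by omega)
          _ = p ^ u * (8 ^ k) ^ u := by rw [mul_pow]
          _ ≤ p ^ u * z := Nat.mul_le_mul_left _ hkle'
      have h4 : z ^ u = z ^ (u - 1) * z := by
        rw [← pow_succ]; congr 1; omega
      rw [h4] at h3
      exact lt_of_mul_lt_mul_right h3 (Nat.zero_le _)
    calc ∑ p ∈ (Ioc y (8 ^ k * y)).filter Nat.Prime, Real.log p / p
        ≤ ∑ p ∈ (Ioc y (8 ^ k * y)).filter Nat.Prime, Real.log z * ((1 : ℝ) / p) := by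
          refine Finset.sum_le_sum fun p hp => ?_
          rw [Finset.mem_filter, Finset.mem_Ioc] at hp
          have hp0 : (0 : ℝ) < p := by exact_mod_cast hp.2.pos
          rw [mul_one_div]
          refine div_le_div_of_nonneg_right ?_ hp0.le
          refine Real.log_le_log hp0 ?_
          exact_mod_cast hp.1.2.trans hyle
      _ ≤ ∑ p ∈ e1Q u z, Real.log z * ((1 : ℝ) / p) := by
          refine Finset.sum_le_sum_of_subset_of_nonneg hss fun p _ _ => ?_
          positivity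
  rw [← Finset.mul_sum] at hsub
  have hlogk : Real.log z ≤ 2 * k * (u * 3) := by
    have h1 : (z : ℝ) ≤ (((8 ^ u) ^ (k + 1) : ℕ) : ℝ) := by exact_mod_cast hklt.le
    have hz0 : (0 : ℝ) < z := by
      have : 0 < z := by omega
      exact_mod_cast this
    have h2 : Real.log z ≤ (k + 1 : ℝ) * (u * Real.log 8) := by
      calc Real.log z ≤ Real.log (((8 ^ u) ^ (k + 1) : ℕ) : ℝ) := Real.log_le_log hz0 h1
        _ = (k + 1 : ℝ) * (u * Real.log 8) := by
          push_cast
          rw [Real.log_pow, Real.log_pow]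
          push_cast
          ring
    have h8 : Real.log 8 ≤ 3 := by
      rw [show (8 : ℝ) = 2 ^ 3 by norm_num, Real.log_pow]
      have := Real.log_two_lt_d9
      norm_num
      linarith
    have hk1' : (1 : ℝ) ≤ k := by exact_mod_cast hk1
    have hu0 : (0 : ℝ) < u := by
      have : 0 < u := by omega
      exact_mod_cast this
    have h3 : (u : ℝ) * Real.log 8 ≤ u * 3 := mul_le_mul_of_nonneg_left h8 hu0.le
    calc Real.log z ≤ (k + 1 : ℝ) * (u * Real.log 8) := h2
      _ ≤ (k + 1 : ℝ) * (u * 3) := mul_le_mul_of_nonneg_left h3 (by positivity)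
      _ ≤ 2 * k * (u * 3) := by
        refine mul_le_mul_of_nonneg_right ?_ (by positivity)
        linarith
  have hu0 : (0 : ℝ) < u := by
    have : 0 < u := by omega
    exact_mod_cast this
  have hS : (k : ℝ) / 8 ≤ Real.log z * ∑ p ∈ e1Q u z, (1 : ℝ) / p := hblocks.trans hsub
  have hS2 : Real.log z * (1 / (48 * (u : ℝ))) ≤ Real.log z * ∑ p ∈ e1Q u z, (1 : ℝ) / p := by
    refine le_trans ?_ hS
    rw [mul_one_div, div_le_iff₀ (by positivity)]
    nlinarith
  exact le_of_mul_le_mul_left hS2 hlogz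

/-- number of odd numbers at most N / P -/
theorem e1_odd (N P : ℕ) (hP : 1 ≤ P) (hPN : P ≤ N) :
    (N : ℝ) / (4 * P) ≤ (((Icc 1 N).filter fun a => Odd a ∧ a * P ≤ N).card : ℝ) := by
  set M := N / P with hM
  have hM1 : 1 ≤ M := by rw [hM, Nat.le_div_iff_mul_le hP]; omega
  have hinj : (Finset.range ((M + 1) / 2)).card ≤
      ((Icc 1 N).filter fun a => Odd a ∧ a * P ≤ N).card := by
    refine Finset.card_le_card_of_injOn (fun i => 2 * i + 1) ?_ ?_
    · intro i hi
      have hi' : i < (M + 1) / 2 := by simpa using hi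
      have h1 : 2 * i + 1 ≤ M := by omega
      have h2 : (2 * i + 1) * P ≤ N := by
        calc (2 * i + 1) * P ≤ M * P := Nat.mul_le_mul_right _ h1
          _ ≤ N := Nat.div_mul_le_self N P
      have h3 : 2 * i + 1 ≤ N := by nlinarith
      rw [Finset.mem_coe, Finset.mem_filter, Finset.mem_Icc]
      exact ⟨⟨Nat.succ_le_succ (Nat.zero_le _), h3⟩, ⟨i, rfl⟩, h2⟩
    · intro i _ j _ hij
      have : 2 * i + 1 = 2 * j + 1 := hij
      omega
  rw [Finset.card_range] at hinj
  have h1 : (((M + 1) / 2 : ℕ) : ℝ) ≤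
      (((Icc 1 N).filter fun a => Odd a ∧ a * P ≤ N).card : ℝ) := by exact_mod_cast hinj
  refine le_trans ?_ h1
  have hP0 : (0 : ℝ) < P := by exact_mod_cast hP
  rw [div_le_iff₀ (by positivity)]
  have h2 : N < (M + 1) * P := by
    rw [hM]
    exact (Nat.div_lt_iff_lt_mul hP).1 (Nat.lt_succ_self _)
  have h3 : N ≤ (4 * ((M + 1) / 2)) * P := by
    refine h2.le.trans (Nat.mul_le_mul_right _ ?_)
    omega
  have h4 : (N : ℝ) ≤ ((4 * ((M + 1) / 2) * P : ℕ) : ℝ) := by exact_mod_cast h3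
  push_cast at h4
  linarith

/-- the pairs (f, a) -/
def e1T (u z : ℕ) : Finset ((_ : Fin u → ℕ) × ℕ) :=
  (Fintype.piFinset fun _ : Fin u => e1Q u z).sigma fun f =>
    (Icc 1 (z ^ u)).filter fun a => Odd a ∧ a * ∏ i, f i ≤ z ^ u

theorem e1_prod_gt {u z : ℕ} (hu : 2 ≤ u) {f : Fin u → ℕ} (hf : ∀ i, f i ∈ e1Q u z) :
    z ^ (u - 1) < ∏ i, f i := by
  have h1 : (z ^ (u - 1)) ^ u < (∏ i, f i) ^ u := by
    rw [← Finset.prod_pow]
    have hne : (univ : Finset (Fin u)).Nonempty := ⟨⟨0, by omega⟩, Finset.mem_univ _⟩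
    by_cases hz : z = 0
    · subst hz
      have h0 : e1Q u 0 = ∅ := by
        unfold e1Q; simp
      have := hf ⟨0, by omega⟩
      rw [h0] at this
      simp at this
    · calc (z ^ (u - 1)) ^ u = ∏ _i : Fin u, z ^ (u - 1) := by simp
        _ < ∏ i, f i ^ u := by
          refine Finset.prod_lt_prod_of_nonempty (fun i _ => by positivity) (fun i _ => ?_) hne
          have := hf i
          unfold e1Q at this
          rw [Finset.mem_filter] at this
          exact this.2.2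
  exact lt_of_pow_lt_pow_left₀ u (Nat.zero_le _) h1

theorem e1_prod_le {u z : ℕ} {f : Fin u → ℕ} (hf : ∀ i, f i ∈ e1Q u z) :
    ∏ i, f i ≤ z ^ u := by
  calc ∏ i, f i ≤ ∏ _i : Fin u, z := by
        refine Finset.prod_le_prod (fun i _ => Nat.zero_le _) fun i _ => ?_
        have := hf i
        unfold e1Q at this
        rw [Finset.mem_filter, Finset.mem_Icc] at this
        exact this.1.2
    _ = z ^ u := by simp

theorem e1_prod_pos {u z : ℕ} {f : Fin u → ℕ} (hf : ∀ i, f i ∈ e1Q u z) :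
    0 < ∏ i, f i := by
  refine Finset.prod_pos fun i _ => ?_
  have := hf i
  unfold e1Q at this
  rw [Finset.mem_filter] at this
  exact this.2.1.pos

theorem e1_cardT (u z : ℕ) (_hu : 2 ≤ u) :
    (z : ℝ) ^ u / 4 * (∑ p ∈ e1Q u z, (1 : ℝ) / p) ^ u ≤ ((e1T u z).card : ℝ) := by
  unfold e1T
  rw [Finset.card_sigma]
  push_cast
  have h1 : (∑ p ∈ e1Q u z, (1 : ℝ) / p) ^ u =
      ∑ f ∈ Fintype.piFinset (fun _ : Fin u => e1Q u z), ∏ i, (1 : ℝ) / (f i : ℝ) := by
    rw [← Finset.prod_univ_sum (fun _ : Fin u => e1Q u z) (fun _ p => (1 : ℝ) / (p : ℝ))]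
    simp
  rw [h1, Finset.mul_sum]
  refine Finset.sum_le_sum fun f hf => ?_
  rw [Fintype.mem_piFinset] at hf
  have h2 := e1_odd (z ^ u) (∏ i, f i) (e1_prod_pos hf) (e1_prod_le hf)
  refine le_trans (le_of_eq ?_) h2
  have hne : ((∏ i, f i : ℕ) : ℝ) ≠ 0 := by
    have := e1_prod_pos hf
    exact_mod_cast this.ne'
  push_cast at hne ⊢
  rw [Finset.prod_div_distrib]
  simp only [Finset.prod_const_one]
  field_simp

theorem e1_mem {u z : ℕ} (hu : 2 ≤ u) (hz : 4 ≤ z) {f : Fin u → ℕ} (hf : ∀ i, f i ∈ e1Q u z)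
    {a : ℕ} (ha1 : 1 ≤ a) (ha : Odd a) (haN : a * ∏ i, f i ≤ z ^ u) :
    a * ∏ i, f i ∈ Sset u z := by
  have hodd : ∀ i, Odd (f i) := by
    intro i
    have h := hf i
    unfold e1Q at h
    rw [Finset.mem_filter] at h
    rcases h.2.1.eq_two_or_odd' with h2 | h2
    · exfalso
      have h3 := h.2.2
      rw [h2] at h3
      have h4 : 2 ^ u ≤ z ^ (u - 1) := by
        calc 2 ^ u ≤ 2 ^ (2 * (u - 1)) := Nat.pow_le_pow_right (by norm_num) (by omega)
          _ = 4 ^ (u - 1) := by rw [pow_mul]; norm_num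
          _ ≤ z ^ (u - 1) := Nat.pow_le_pow_left hz _
      omega
    · exact h2
  have hpos := e1_prod_pos hf
  have hprime : ∀ i, (f i).Prime := by
    intro i
    have h := hf i
    unfold e1Q at h
    rw [Finset.mem_filter] at h
    exact h.2.1
  have hfz : ∀ i, f i ≤ z := by
    intro i
    have h := hf i
    unfold e1Q at h
    rw [Finset.mem_filter, Finset.mem_Icc] at h
    exact h.1.2
  have haz : a < z := by
    have h1 := e1_prod_gt hu hf
    by_contra hc
    push Not at hc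
    have h2 : z ^ u < a * ∏ i, f i := by
      calc z ^ u = z * z ^ (u - 1) := by
            rw [← pow_succ']; congr 1; omega
        _ < z * ∏ i, f i := Nat.mul_lt_mul_of_pos_left h1 (by omega)
        _ ≤ a * ∏ i, f i := Nat.mul_le_mul_right _ hc
    omega
  unfold Sset
  rw [Finset.mem_filter, Finset.mem_Icc]
  refine ⟨⟨Nat.mul_pos ha1 hpos, haN⟩, ?_, ?_⟩
  · refine ha.mul ?_
    exact Finset.prod_induction _ Odd (fun _ _ => Odd.mul) odd_one fun i _ => hodd i
  · intro p hp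
    have hpp := Nat.prime_of_mem_primeFactors hp
    have hpd := Nat.dvd_of_mem_primeFactors hp
    constructor
    · rcases hpp.dvd_mul.1 hpd with h | h
      · exact (Nat.le_of_dvd ha1 h).trans haz.le
      · obtain ⟨i, _, hi⟩ := (hpp.prime.dvd_finsetProd_iff _).1 h
        rw [(Nat.prime_dvd_prime_iff_eq hpp (hprime i)).1 hi]
        exact hfz i
    · rw [Nat.factorization_mul (by omega) hpos.ne', Finsupp.add_apply,
        Nat.factorization_prod_apply (fun i _ => (hprime i).ne_zero)]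
      have h1 : a.factorization p ≤ Nat.log 2 z := by
        have h2 : 2 ^ a.factorization p ≤ z := by
          calc 2 ^ a.factorization p ≤ p ^ a.factorization p :=
                Nat.pow_le_pow_left hpp.two_le _
            _ ≤ a := Nat.ordProj_le p (by omega)
            _ ≤ z := haz.le
        exact Nat.le_log_of_pow_le (by norm_num) h2
      have h3 : ∑ i, (f i).factorization p ≤ u := by
        calc ∑ i, (f i).factorization p ≤ ∑ _i : Fin u, 1 := by
              refine Finset.sum_le_sum fun i _ => ?_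
              rw [(hprime i).factorization]
              by_cases hpi : f i = p
              · rw [hpi]; simp
              · rw [Finsupp.single_apply, if_neg hpi]; omega
          _ = u := by simp
      unfold bz
      omega

theorem e1_primes {u z w : ℕ} (hu : 2 ≤ u) (hz : 2 ≤ z) (hw1 : 1 ≤ w) (hw : w ≤ z ^ u) :
    (w.primeFactors ∩ e1Q u z).card ≤ u ^ 2 := by
  set A := w.primeFactors ∩ e1Q u z with hA
  have h1 : ∏ p ∈ A, p ≤ w := by
    refine Nat.le_of_dvd hw1 ?_
    exact (Finset.prod_dvd_prod_of_subset _ _ _ Finset.inter_subset_left).trans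
      (Nat.prod_primeFactors_dvd w)
  have h2 : (z ^ (u - 1)) ^ A.card ≤ (∏ p ∈ A, p) ^ u := by
    rw [← Finset.prod_pow]
    calc (z ^ (u - 1)) ^ A.card = ∏ _p ∈ A, z ^ (u - 1) := by simp
      _ ≤ ∏ p ∈ A, p ^ u := by
        refine Finset.prod_le_prod (fun i _ => Nat.zero_le _) fun p hp => ?_
        have h := Finset.inter_subset_right hp
        unfold e1Q at h
        rw [Finset.mem_filter] at h
        exact h.2.2.le
  have h3 : z ^ ((u - 1) * A.card) ≤ z ^ (u * u) := by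
    rw [pow_mul, pow_mul]
    exact h2.trans (Nat.pow_le_pow_left (h1.trans hw) _)
  have h4 : (u - 1) * A.card ≤ u * u := (Nat.pow_le_pow_iff_right (by omega)).1 h3
  have h5 : 1 * A.card ≤ (u - 1) * A.card := Nat.mul_le_mul_right _ (by omega)
  nlinarith

theorem e1_fibre {u z w : ℕ} (hu : 2 ≤ u) (hz : 2 ≤ z) (hw : w ∈ Sset u z) :
    ((e1T u z).filter fun x => x.2 * ∏ i, x.1 i = w).card ≤ (u ^ 2) ^ u := by
  unfold Sset at hw
  rw [Finset.mem_filter, Finset.mem_Icc] at hw
  calc ((e1T u z).filter fun x => x.2 * ∏ i, x.1 i = w).card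
      ≤ (Fintype.piFinset fun _ : Fin u => w.primeFactors ∩ e1Q u z).card := by
        refine Finset.card_le_card_of_injOn (fun x => x.1) ?_ ?_
        · rintro ⟨f, a⟩ hx
          rw [Finset.mem_coe, Finset.mem_filter] at hx
          unfold e1T at hx
          rw [Finset.mem_sigma, Fintype.mem_piFinset] at hx
          obtain ⟨⟨hf, ha⟩, hw'⟩ := hx
          rw [Finset.mem_coe, Fintype.mem_piFinset]
          intro i
          rw [Finset.mem_inter]
          refine ⟨?_, hf i⟩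
          have h := hf i
          unfold e1Q at h
          rw [Finset.mem_filter] at h
          rw [Nat.mem_primeFactors]
          refine ⟨h.2.1, ?_, by omega⟩
          rw [← hw']
          exact Dvd.dvd.mul_left (Finset.dvd_prod_of_mem _ (Finset.mem_univ i)) _
        · rintro ⟨f, a⟩ hx ⟨f', a'⟩ hx' hff
          have hff' : f = f' := hff
          subst hff'
          rw [Finset.mem_coe, Finset.mem_filter] at hx hx'
          have hpos : 0 < ∏ i, f i := by
            have := hx.1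
            unfold e1T at this
            rw [Finset.mem_sigma, Fintype.mem_piFinset] at this
            exact e1_prod_pos this.1
          have h1 : a * ∏ i, f i = a' * ∏ i, f i := hx.2.trans hx'.2.symm
          rw [Nat.eq_of_mul_eq_mul_right hpos h1]
    _ = ((w.primeFactors ∩ e1Q u z).card) ^ u := by simp
    _ ≤ (u ^ 2) ^ u := Nat.pow_le_pow_left (e1_primes hu hz hw.1.1 hw.1.2) _

theorem claimE1 : ClaimE1 := by
  intro u hu
  obtain ⟨z1, hz1⟩ := e1_sumQ u hu
  have hu0 : (0 : ℝ) < u := by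
    have : 0 < u := by omega
    exact_mod_cast this
  refine ⟨1 / 4 * (1 / (48 * (u : ℝ))) ^ u / ((u : ℝ) ^ 2) ^ u, by positivity, max z1 4,
    fun z hz => ?_⟩
  have hz2 : z1 ≤ z := (le_max_left _ _).trans hz
  have hz4 : 4 ≤ z := (le_max_right _ _).trans hz
  have h1 : (e1T u z).card ≤ (u ^ 2) ^ u * (Sset u z).card := by
    refine Finset.card_le_mul_card_image_of_maps_to (f := fun x => x.2 * ∏ i, x.1 i) ?_ _ ?_
    · rintro ⟨f, a⟩ hx
      unfold e1T at hx
      rw [Finset.mem_sigma, Fintype.mem_piFinset, Finset.mem_filter, Finset.mem_Icc] at hx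
      obtain ⟨hf, ha, hodd, hle⟩ := hx
      exact e1_mem hu hz4 hf ha.1 hodd hle
    · intro w hw
      exact e1_fibre hu (by omega) hw
  have h2 : ((e1T u z).card : ℝ) ≤ ((u : ℝ) ^ 2) ^ u * ((Sset u z).card : ℝ) := by
    exact_mod_cast h1
  have h3 := e1_cardT u z hu
  have h4 : (1 / (48 * (u : ℝ))) ^ u ≤ (∑ p ∈ e1Q u z, (1 : ℝ) / p) ^ u :=
    pow_le_pow_left₀ (by positivity) (hz1 z hz2) _
  have h5 : (z : ℝ) ^ u / 4 * (1 / (48 * (u : ℝ))) ^ u ≤
      ((u : ℝ) ^ 2) ^ u * ((Sset u z).card : ℝ) :=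
    (mul_le_mul_of_nonneg_left h4 (by positivity)).trans (h3.trans h2)
  rw [div_mul_eq_mul_div, div_le_iff₀ (by positivity)]
  linarith

end D159

end

section

/-!
# MP_d159ed_nt, E2: size of h0
-/

set_option autoImplicit false

namespace D159

open Finset
open scoped BigOperators

theorem E2.two_pow_bz (u z : ℕ) (hz : 1 ≤ z) : 2 ^ bz u z ≤ 2 ^ (u + 1) * z := by
  unfold bz
  rw [add_assoc, pow_add, mul_comm]
  exact Nat.mul_le_mul_left _ (Nat.pow_log_le_self 2 (by omega))

theorem E2.bz_le (u z : ℕ) : bz u z ≤ z + u + 1 := by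
  unfold bz
  have := Nat.log_le_self 2 z
  omega

theorem E2.upper (u z : ℕ) (hz : 2 * u + 3 + 2 * 2 ^ (u + 1) ≤ z) :
    h0 u z * z ^ u ≤ 2 ^ z ^ 6 := by
  have hz1 : 1 ≤ z := by omega
  set c := 2 ^ (u + 1) with hc
  have hb := E2.two_pow_bz u z hz1
  have hb1 := E2.bz_le u z
  have hz2 : z ≤ 2 ^ z := Nat.lt_two_pow_self.le
  -- first factor
  have f1 : 2 ^ (2 ^ bz u z * z ^ 2) ≤ 2 ^ (c * z * z ^ 2) :=
    Nat.pow_le_pow_right (by norm_num) (Nat.mul_le_mul_right _ hb)
  -- second factor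
  have f2 : z.factorial ^ (bz u z + 1) ≤ 2 ^ (z * z * (z + u + 2)) := by
    calc z.factorial ^ (bz u z + 1) ≤ (z ^ z) ^ (bz u z + 1) :=
          Nat.pow_le_pow_left (Nat.factorial_le_pow z) _
      _ ≤ (z ^ z) ^ (z + u + 2) := Nat.pow_le_pow_right (Nat.pow_pos hz1) (by omega)
      _ ≤ ((2 ^ z) ^ z) ^ (z + u + 2) := Nat.pow_le_pow_left (Nat.pow_le_pow_left hz2 _) _
      _ = 2 ^ (z * z * (z + u + 2)) := by rw [← pow_mul, ← pow_mul, mul_assoc]
  -- third factor
  have f3 : ∏ r ∈ (range (z + 1)).filter (fun r => r.Prime ∧ Odd r), (r ^ (2 ^ bz u z * r) - 1) ≤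
      2 ^ (z * (c * z * z) * z) := by
    have h1 : ∀ r ∈ (range (z + 1)).filter (fun r => r.Prime ∧ Odd r),
        r ^ (2 ^ bz u z * r) - 1 ≤ 2 ^ (z * (c * z * z)) := by
      intro r hr
      simp only [Finset.mem_filter, Finset.mem_range] at hr
      have hrz : r ≤ z := by omega
      calc r ^ (2 ^ bz u z * r) - 1 ≤ r ^ (2 ^ bz u z * r) := Nat.sub_le _ _
        _ ≤ z ^ (2 ^ bz u z * r) := Nat.pow_le_pow_left hrz _
        _ ≤ z ^ (c * z * z) := Nat.pow_le_pow_right hz1 (Nat.mul_le_mul hb hrz)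
        _ ≤ (2 ^ z) ^ (c * z * z) := Nat.pow_le_pow_left hz2 _
        _ = 2 ^ (z * (c * z * z)) := by rw [← pow_mul]
    have h2 : ((range (z + 1)).filter (fun r => r.Prime ∧ Odd r)).card ≤ z := by
      have h3 : (range (z + 1)).filter (fun r => r.Prime ∧ Odd r) ⊆ Icc 1 z := by
        intro r hr
        simp only [Finset.mem_filter, Finset.mem_range] at hr
        exact Finset.mem_Icc.2 ⟨hr.2.1.one_le, by omega⟩
      simpa using Finset.card_le_card h3
    calc _ ≤ (2 ^ (z * (c * z * z))) ^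
          ((range (z + 1)).filter (fun r => r.Prime ∧ Odd r)).card := Finset.prod_le_pow_card _ _ _ h1
      _ ≤ (2 ^ (z * (c * z * z))) ^ z := Nat.pow_le_pow_right (by positivity) h2
      _ = 2 ^ (z * (c * z * z) * z) := by rw [← pow_mul]
  have f4 : z ^ u ≤ 2 ^ (z * u) := by
    calc z ^ u ≤ (2 ^ z) ^ u := Nat.pow_le_pow_left hz2 _
      _ = 2 ^ (z * u) := by rw [← pow_mul]
  calc h0 u z * z ^ u
      ≤ 2 ^ (c * z * z ^ 2) * 2 ^ (z * z * (z + u + 2)) * 2 ^ (z * (c * z * z) * z) *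
        2 ^ (z * u) := by
        unfold h0
        exact Nat.mul_le_mul (Nat.mul_le_mul (Nat.mul_le_mul f1 f2) f3) f4
    _ = 2 ^ (c * z * z ^ 2 + z * z * (z + u + 2) + z * (c * z * z) * z + z * u) := by
        rw [← pow_add, ← pow_add, ← pow_add]
    _ ≤ 2 ^ z ^ 6 := by
        refine Nat.pow_le_pow_right (by norm_num) ?_
        have h4 : c * z * z ^ 2 + z * z * (z + u + 2) + z * (c * z * z) * z + z * u ≤
            (2 * u + 3 + 2 * c) * z ^ 4 := by
          have e1 : z ≤ z ^ 4 := Nat.le_self_pow (by norm_num) z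
          have e2 : z ^ 2 ≤ z ^ 4 := Nat.pow_le_pow_right hz1 (by norm_num)
          have e3 : z ^ 3 ≤ z ^ 4 := Nat.pow_le_pow_right hz1 (by norm_num)
          have e4 := Nat.mul_le_mul_left c e3
          have e5 := Nat.mul_le_mul_left (u + 2) e2
          have e6 := Nat.mul_le_mul_left u e1
          nlinarith [e1, e2, e3, e4, e5, e6]
        calc _ ≤ (2 * u + 3 + 2 * c) * z ^ 4 := h4
          _ ≤ z * z ^ 4 := Nat.mul_le_mul_right _ hz
          _ = z ^ 5 := by ring
          _ ≤ z ^ 6 := Nat.pow_le_pow_right hz1 (by norm_num)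

theorem claimE2 : ClaimE2 := by
  intro u
  refine ⟨2 * u + 3 + 2 * 2 ^ (u + 1), fun z hz => ⟨?_, ?_, ?_⟩⟩
  · have h1 := E2.upper u z hz
    calc ((h0 u z * z ^ u : ℕ) : ℝ) ≤ ((2 ^ z ^ 6 : ℕ) : ℝ) := by exact_mod_cast h1
      _ = (2 : ℝ) ^ (z ^ 6) := by push_cast; rfl
      _ ≤ (Real.exp 1) ^ (z ^ 6) := by
          refine pow_le_pow_left₀ (by norm_num) ?_ _
          have := Real.add_one_le_exp (1 : ℝ)
          linarith
      _ = Real.exp ((z : ℝ) ^ 6) := by
          rw [← Real.exp_nat_mul]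
          push_cast
          ring_nf
  · have hprod : 1 ≤ ∏ r ∈ (range (z + 1)).filter (fun r => r.Prime ∧ Odd r),
        (r ^ (2 ^ bz u z * r) - 1) := by
      refine Finset.one_le_prod' fun r hr => ?_
      simp only [Finset.mem_filter, Finset.mem_range] at hr
      have hr2 := hr.2.1.two_le
      have h1 : 2 ^ 1 ≤ r ^ (2 ^ bz u z * r) := by
        calc 2 ^ 1 ≤ r ^ 1 := Nat.pow_le_pow_left hr2 1
          _ ≤ r ^ (2 ^ bz u z * r) := by
              refine Nat.pow_le_pow_right (by omega) ?_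
              exact Nat.one_le_iff_ne_zero.2 (Nat.mul_ne_zero (by positivity) (by omega))
      omega
    have hfac : 1 ≤ z.factorial ^ (bz u z + 1) := Nat.one_le_pow _ _ (Nat.factorial_pos z)
    calc 2 ^ z ^ 2 = 2 ^ (1 * z ^ 2) * 1 * 1 := by ring
      _ ≤ h0 u z := by
          unfold h0
          refine Nat.mul_le_mul (Nat.mul_le_mul ?_ hfac) hprod
          exact Nat.pow_le_pow_right (by norm_num) (Nat.mul_le_mul_right _ Nat.one_le_two_pow)
  · intro p hp hpz
    unfold h0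
    refine Dvd.dvd.mul_right (Dvd.dvd.mul_left ?_ _) _
    exact dvd_pow ((Nat.Prime.dvd_factorial hp).2 hpz) (by omega)

end D159

end

section

/-!
# MP_d159ed_nt: items E3a and E3c
-/

set_option autoImplicit false

namespace D159

open Finset Polynomial

/-- If all prime factors of `N` are `1` mod `n` then so is `N`. -/
theorem modEq_one_of_primes {n : ℕ} : ∀ {N : ℕ}, N ≠ 0 →
    (∀ p : ℕ, p.Prime → p ∣ N → p ≡ 1 [MOD n]) → N ≡ 1 [MOD n] := by
  intro N
  induction N using Nat.recOnMul with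
  | zero => intro h; exact absurd rfl h
  | one => intro _ _; exact Nat.ModEq.refl 1
  | prime p hp => intro _ h; exact h p hp dvd_rfl
  | mul a b iha ihb =>
    intro h0 h
    have ha0 : a ≠ 0 := fun h' => h0 (by rw [h', zero_mul])
    have hb0 : b ≠ 0 := fun h' => h0 (by rw [h', mul_zero])
    have ha := iha ha0 fun p hp hd => h p hp (hd.mul_right b)
    have hb := ihb hb0 fun p hp hd => h p hp (hd.mul_left a)
    simpa using ha.mul hb

theorem Ncyc_cast (n : ℕ) (hn : 1 ≤ n) : (Ncyc n : ℤ) = (cyclotomic n ℤ).eval 2 := by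
  unfold Ncyc
  apply Int.toNat_of_nonneg
  exact (cyclotomic_pos' n (R := ℤ) (by norm_num)).le

theorem Ncyc_pos (n : ℕ) (hn : 1 ≤ n) : 0 < Ncyc n := by
  have h1 := cyclotomic_pos' n (R := ℤ) (x := 2) (by norm_num)
  rw [← Ncyc_cast n hn] at h1
  exact_mod_cast h1

theorem Ncyc_dvd (n : ℕ) (hn : 1 ≤ n) : (Ncyc n : ℤ) ∣ 2 ^ n - 1 := by
  rw [Ncyc_cast n hn]
  have h := eval_dvd (x := (2 : ℤ)) (cyclotomic.dvd_X_pow_sub_one n ℤ)
  simpa using h

theorem isRoot_of_dvd {p m : ℕ} {a : ℤ} (h : (p : ℤ) ∣ (cyclotomic m ℤ).eval a) :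
    (cyclotomic m (ZMod p)).IsRoot (a : ZMod p) := by
  have h1 : (((cyclotomic m ℤ).eval a : ℤ) : ZMod p) = 0 := (ZMod.intCast_zmod_eq_zero_iff_dvd _ _).2 h
  have h2 := eval_intCast_map (Int.castRingHom (ZMod p)) (cyclotomic m ℤ) a
  rw [map_cyclotomic] at h2
  unfold IsRoot
  rw [h2]
  exact h1

theorem claimE3a : ClaimE3a := by
  intro n hn hq
  have hn1 : 1 ≤ n := by omega
  apply modEq_one_of_primes (Ncyc_pos n hn1).ne'
  intro p hp hpN
  have : Fact p.Prime := ⟨hp⟩
  have hpN' : (p : ℤ) ∣ (cyclotomic n ℤ).eval 2 := by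
    rw [← Ncyc_cast n hn1]
    exact_mod_cast hpN
  have hp2 : p ≠ 2 := by
    rintro rfl
    have h1 : (2 : ℤ) ∣ 2 ^ n - 1 := by
      have h2 : ((2 : ℕ) : ℤ) ∣ (Ncyc n : ℤ) := by exact_mod_cast hpN
      exact_mod_cast h2.trans (Ncyc_dvd n hn1)
    have h3 : (2 : ℤ) ∣ 2 ^ n := dvd_pow_self 2 (by omega)
    have h4 : (2 : ℤ) ∣ 1 := by
      have := dvd_sub h3 h1
      simpa using this
    norm_num at h4
  have hroot := isRoot_of_dvd hpN'
  set m := n / p ^ n.factorization p with hm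
  have hmn : p ^ n.factorization p * m = n := Nat.ordProj_mul_ordCompl_eq_self n p
  have hmp : ¬ p ∣ m := Nat.not_dvd_ordCompl hp (by omega)
  have : NeZero (m : ZMod p) := ⟨by
    intro h
    exact hmp ((ZMod.natCast_eq_zero_iff _ _).1 h)⟩
  rw [← hmn, isRoot_cyclotomic_prime_pow_mul_iff_of_charP] at hroot
  have h20 : ((2 : ℤ) : ZMod p) ≠ 0 := by
    intro h
    have h1 : ((2 : ℕ) : ZMod p) = 0 := by
      have := h
      push_cast at this ⊢
      exact this
    rw [ZMod.natCast_eq_zero_iff] at h1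
    exact hp2 ((Nat.prime_dvd_prime_iff_eq hp Nat.prime_two).1 h1)
  have hmdvd : m ∣ p - 1 := hroot.dvd_of_pow_eq_one _ (ZMod.pow_card_sub_one_eq_one h20)
  have hpn : ¬ p ∣ n := fun h => hq p hp h hp2 hmdvd
  have hmeq : m = n := by
    rw [hm, Nat.factorization_eq_zero_of_not_dvd hpn, pow_zero, Nat.div_one]
  rw [hmeq] at hmdvd
  exact ((Nat.modEq_iff_dvd' hp.one_le).2 hmdvd).symm

theorem claimE3c : ClaimE3c := by
  intro r hr hodd b
  have hr2 : r ≠ 2 := by rintro rfl; exact absurd hodd (by decide)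
  have hr3 : 3 ≤ r := by
    have := hr.two_le
    omega
  -- for each `i` a prime factor of the cyclotomic value
  have key : ∀ i : ℕ, ∃ q : ℕ, q.Prime ∧ ∃ h : (r : ZMod q) = (r : ZMod q),
      IsPrimitiveRoot ((r : ℕ) : ZMod q) (2 ^ (i + 1) * r) := by
    intro i
    set m := 2 ^ (i + 1) * r with hm
    have hm1 : 1 < m := by
      have : 1 ≤ 2 ^ (i + 1) := Nat.one_le_two_pow
      nlinarith
    have hlt := sub_one_lt_natAbs_cyclotomic_eval (n := m) (q := r) hm1 (by omega)
    set v := ((cyclotomic m ℤ).eval (r : ℤ)).natAbs with hv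
    have hv1 : v ≠ 1 := by omega
    have hv0 : v ≠ 0 := by omega
    obtain ⟨q, hq, hqv⟩ := Nat.exists_prime_and_dvd hv1
    have hqd : (q : ℤ) ∣ (cyclotomic m ℤ).eval (r : ℤ) := by
      rw [← Int.natCast_dvd_natCast, hv] at hqv
      exact (Int.dvd_natAbs).1 hqv
    have : Fact q.Prime := ⟨hq⟩
    -- q does not divide r
    have hqr : ¬ q ∣ r := by
      intro h
      have h1 : (cyclotomic m ℤ).eval (r : ℤ) ∣ (r : ℤ) ^ m - 1 := by
        have := eval_dvd (x := (r : ℤ)) (cyclotomic.dvd_X_pow_sub_one m ℤ)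
        simpa using this
      have h2 : (q : ℤ) ∣ (r : ℤ) ^ m :=
        dvd_pow (by exact_mod_cast h) (by omega)
      have h3 : (q : ℤ) ∣ 1 := by
        have := dvd_sub h2 (hqd.trans h1)
        simpa using this
      have h4 : q ∣ 1 := by exact_mod_cast h3
      exact hq.one_lt.ne' (Nat.dvd_one.1 h4)
    have hq2 : q ≠ 2 := by
      rintro rfl
      have h1 : (r : ℤ) - 1 ∣ (cyclotomic m ℤ).eval (r : ℤ) - (cyclotomic m ℤ).eval 1 :=
        sub_dvd_eval_sub _ _ _
      have h2 : (2 : ℤ) ∣ (r : ℤ) - 1 := by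
        obtain ⟨c, hc⟩ := hodd
        exact ⟨c, by rw [hc]; push_cast; ring⟩
      have h3 : (cyclotomic m ℤ).eval 1 = 1 := by
        apply eval_one_cyclotomic_not_prime_pow
        intro p hp k hk
        have h2m : 2 ∣ p ^ k := by
          rw [hk, hm]
          exact (dvd_pow_self 2 (by omega)).mul_right r
        have hp2 : p = 2 := ((Nat.prime_dvd_prime_iff_eq Nat.prime_two hp).1
          (Nat.prime_two.dvd_of_dvd_pow h2m)).symm
        have hrm : r ∣ p ^ k := by
          rw [hk, hm]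
          exact Dvd.intro_left _ rfl
        have := (Nat.prime_dvd_prime_iff_eq hr hp).1 (hr.dvd_of_dvd_pow hrm)
        omega
      rw [h3] at h1
      have h4 : (2 : ℤ) ∣ (cyclotomic m ℤ).eval (r : ℤ) := by exact_mod_cast hqd
      have h5 : (2 : ℤ) ∣ 1 := by
        have := dvd_sub h4 (h2.trans h1)
        simpa using this
      norm_num at h5
    have hqm : ¬ q ∣ m := by
      intro h
      rcases (Nat.Prime.dvd_mul hq).1 h with h1 | h1
      · exact hq2 ((Nat.prime_dvd_prime_iff_eq hq Nat.prime_two).1 (hq.dvd_of_dvd_pow h1))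
      · exact hqr h1
    have : NeZero (m : ZMod q) := ⟨by
      intro h
      exact hqm ((ZMod.natCast_eq_zero_iff _ _).1 h)⟩
    have hroot := isRoot_of_dvd hqd
    rw [isRoot_cyclotomic_iff] at hroot
    refine ⟨q, hq, rfl, ?_⟩
    simpa using hroot
  choose q hq _ hprim using key
  refine ⟨fun i => q i, ?_, ?_⟩
  · intro i j hij
    have hij' : q i = q j := hij
    have h1 := hprim i
    have h2 := hprim j
    rw [hij'] at h1
    have h3 := h1.unique h2
    have h4 : 2 ^ ((i : ℕ) + 1) = 2 ^ ((j : ℕ) + 1) := Nat.eq_of_mul_eq_mul_right hr.pos h3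
    have h5 := Nat.pow_right_injective le_rfl h4
    exact Fin.ext (by omega)
  · intro i
    have : Fact (q i).Prime := ⟨hq i⟩
    have hm0 : 0 < 2 ^ ((i : ℕ) + 1) * r := by positivity
    have hr0 : ((r : ℕ) : ZMod (q i)) ≠ 0 := by
      intro h
      have h1 := (hprim i).pow_eq_one
      rw [h, zero_pow hm0.ne'] at h1
      exact zero_ne_one h1
    refine ⟨hq i, ?_, ?_⟩
    · have h1 : 2 ^ ((i : ℕ) + 1) * r ∣ q i - 1 :=
        (hprim i).dvd_of_pow_eq_one _ (ZMod.pow_card_sub_one_eq_one hr0)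
      exact (Dvd.intro_left _ rfl).trans h1
    · have h1 : ((r : ℕ) : ZMod (q i)) ^ (2 ^ b * r) = 1 := by
        rw [(hprim i).pow_eq_one_iff_dvd]
        exact mul_dvd_mul_right (pow_dvd_pow 2 (by have := i.2; omega)) r
      have h2 : 1 ≤ r ^ (2 ^ b * r) := Nat.one_le_pow _ _ hr.pos
      rw [← Nat.modEq_iff_dvd' h2]
      apply (ZMod.natCast_eq_natCast_iff _ _ _).1
      push_cast
      rw [h1]

end D159

end

section

/-!
# MP_d159ed_nt, items E3b and E3d
-/

set_option autoImplicit false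

namespace D159

open Finset Polynomial
open scoped BigOperators

theorem e3b_prod (S : Finset ℕ)
    (h : ∀ d ∈ S, 2 * (cyclotomic d ℤ).derivative.eval 1 =
      (Nat.totient d : ℤ) * (cyclotomic d ℤ).eval 1) :
    2 * (∏ d ∈ S, cyclotomic d ℤ).derivative.eval 1 =
      ((∑ d ∈ S, Nat.totient d : ℕ) : ℤ) * (∏ d ∈ S, cyclotomic d ℤ).eval 1 := by
  induction S using Finset.induction_on with
  | empty => simp
  | insert a S ha ih =>
    have h1 := ih (fun d hd => h d (Finset.mem_insert_of_mem hd))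
    have h2 := h a (Finset.mem_insert_self _ _)
    rw [Finset.prod_insert ha, Finset.sum_insert ha, derivative_mul, eval_add, eval_mul, eval_mul,
      eval_mul]
    push_cast at h1 ⊢
    linear_combination (∏ d ∈ S, cyclotomic d ℤ).eval 1 * h2 + (cyclotomic a ℤ).eval 1 * h1

theorem e3b_geom (n : ℕ) : 2 * (∑ i ∈ range n, (X : ℤ[X]) ^ i).derivative.eval 1 =
    (n : ℤ) * ((n : ℤ) - 1) := by
  induction n with
  | zero => simp
  | succ n ih =>
    rw [Finset.sum_range_succ, derivative_add, eval_add, mul_add, ih]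
    simp only [derivative_X_pow, eval_mul, eval_pow, eval_X, one_pow, mul_one, eval_natCast,
      map_natCast]
    push_cast
    ring

theorem claimE3b : ClaimE3b := by
  intro m
  induction m using Nat.strong_induction_on with
  | _ n ih =>
    intro hn
    have hn0 : 0 < n := by omega
    have hg := prod_cyclotomic_eq_geom_sum hn0 ℤ
    set S := (n.divisors.erase 1).erase n with hS
    have hmem : n ∈ n.divisors.erase 1 := by
      rw [Finset.mem_erase, Nat.mem_divisors]
      exact ⟨by omega, dvd_rfl, by omega⟩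
    rw [← Finset.mul_prod_erase _ _ hmem, ← hS] at hg
    have hprod := e3b_prod S (by
      intro d hd
      rw [hS, Finset.mem_erase, Finset.mem_erase, Nat.mem_divisors] at hd
      have hle := Nat.le_of_dvd hn0 hd.2.2.1
      have hd0 : d ≠ 0 := by
        rintro rfl
        exact hn0.ne' (zero_dvd_iff.1 hd.2.2.1)
      exact ih d (lt_of_le_of_ne hle hd.1) (by have := hd.2.1; omega))
    have hsum : (∑ d ∈ S, Nat.totient d) + Nat.totient n + 1 = n := by
      have h1 := Nat.sum_totient n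
      have h1m : 1 ∈ n.divisors := by
        rw [Nat.mem_divisors]
        exact ⟨one_dvd _, by omega⟩
      rw [← Finset.add_sum_erase _ _ h1m, ← Finset.add_sum_erase _ _ hmem, ← hS,
        Nat.totient_one] at h1
      omega
    have hd := congrArg (fun p : ℤ[X] => 2 * p.derivative.eval 1) hg
    have he := congrArg (fun p : ℤ[X] => p.eval 1) hg
    beta_reduce at hd he
    rw [e3b_geom, derivative_mul, eval_add, eval_mul, eval_mul] at hd
    rw [eval_mul, eval_geom_sum] at he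
    simp only [one_pow, Finset.sum_const, Finset.card_range, nsmul_eq_mul, mul_one] at he
    set A := (cyclotomic n ℤ).eval 1 with hA
    set A' := (cyclotomic n ℤ).derivative.eval 1 with hA'
    set B := (∏ d ∈ S, cyclotomic d ℤ).eval 1 with hB
    set B' := (∏ d ∈ S, cyclotomic d ℤ).derivative.eval 1 with hB'
    have hB0 : B ≠ 0 := by
      intro h0
      rw [h0, mul_zero] at he
      have : (n : ℤ) ≠ 0 := by exact_mod_cast hn0.ne'
      exact this he.symm
    have hs : ((∑ d ∈ S, Nat.totient d : ℕ) : ℤ) = (n : ℤ) - 1 - (Nat.totient n : ℤ) := by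
      have : (((∑ d ∈ S, Nat.totient d) + Nat.totient n + 1 : ℕ) : ℤ) = (n : ℤ) := by
        exact_mod_cast hsum
      push_cast at this ⊢
      linarith
    rw [hs] at hprod
    apply mul_right_cancel₀ hB0
    linear_combination hd - A * hprod - ((n : ℤ) - 1) * he

theorem e3d_expand (m : ℕ) : ∀ t : ℕ, 0 < t → (∀ p : ℕ, p.Prime → p ∣ t → p ∣ m) →
    cyclotomic (m * t) ℤ = expand ℤ t (cyclotomic m ℤ) := by
  intro t
  induction t using Nat.strong_induction_on with
  | _ t ih =>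
    intro ht hp
    by_cases h1 : t = 1
    · subst h1
      rw [mul_one, expand_one]
    · have hpr := Nat.minFac_prime h1
      obtain ⟨t', ht'⟩ := Nat.minFac_dvd t
      set p := t.minFac with hpdef
      have ht'0 : 0 < t' := by
        rcases Nat.eq_zero_or_pos t' with h | h
        · rw [h, mul_zero] at ht'
          omega
        · exact h
      have hlt : t' < t := by
        rw [ht']
        have := hpr.two_le
        nlinarith
      have hpm : p ∣ m := hp p hpr (Nat.minFac_dvd t)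
      have h2 := ih t' hlt ht'0 (fun q hq hqt => hp q hq (by rw [ht']; exact dvd_mul_of_dvd_right hqt _))
      have h3 := cyclotomic_expand_eq_cyclotomic hpr (dvd_mul_of_dvd_left hpm t') ℤ
      rw [show m * t = m * t' * p by rw [ht']; ring, ← h3, h2, ← expand_mul, ← ht']

theorem claimE3d : ClaimE3d := by
  intro hb n r b hr hodd hn hbn h2n hrn hr1 hphi
  set s := ∏ p ∈ n.primeFactors, p with hs
  have hn0 : n ≠ 0 := by omega
  have hs0 : 0 < s := Finset.prod_pos (fun p hp => (Nat.prime_of_mem_primeFactors hp).pos)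
  have hsn : s ∣ n := Nat.prod_primeFactors_dvd n
  obtain ⟨t, ht⟩ := hsn
  have ht0 : 0 < t := by
    rcases Nat.eq_zero_or_pos t with h | h
    · rw [h, mul_zero] at ht
      exact absurd ht hn0
    · exact h
  have hts : n / s = t := by
    rw [ht]; exact Nat.mul_div_cancel_left _ hs0
  rw [hts] at hr1
  have hps : ∀ p : ℕ, p.Prime → p ∣ n → p ∣ s := by
    intro p hp hpn
    rw [hs]
    exact Finset.dvd_prod_of_mem _ (Nat.mem_primeFactors.2 ⟨hp, hpn, hn0⟩)
  have hcyc : (cyclotomic n ℤ).eval 2 = (cyclotomic s ℤ).eval (2 ^ t) := by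
    have h1 := e3d_expand s t ht0 (fun p hp hpt => hps p hp (by
      rw [ht]; exact dvd_mul_of_dvd_right hpt _))
    conv_lhs => rw [ht]
    rw [h1, expand_eval]
  set a := n.factorization r with ha
  have hr2 : r ≠ 2 := by
    rintro rfl
    exact absurd hodd (by decide)
  have hsqf : Squarefree s := by
    rw [hs]
    refine Finset.squarefree_prod_of_pairwise_isCoprime (fun p hp q hq hpq => ?_) ?_
    · rw [Finset.mem_coe, Nat.mem_primeFactors] at hp hq
      exact (Nat.coprime_iff_isRelPrime).1 ((Nat.coprime_primes hp.1 hq.1).2 hpq)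
    · intro p hp
      exact (Nat.prime_of_mem_primeFactors hp).prime.squarefree
  have hrs : r ∣ s := hps r hr hrn
  have h2s : 2 ∣ s := hps 2 Nat.prime_two h2n
  have hnp : ∀ {p : ℕ}, p.Prime → ∀ k : ℕ, p ^ k ≠ s := by
    intro p hp k hk
    have h1 : 2 ∣ p ^ k := by rw [hk]; exact h2s
    have h2 : r ∣ p ^ k := by rw [hk]; exact hrs
    have h3 := (Nat.prime_dvd_prime_iff_eq Nat.prime_two hp).1 (Nat.prime_two.dvd_of_dvd_pow h1)
    have h4 := (Nat.prime_dvd_prime_iff_eq hr hp).1 (hr.dvd_of_dvd_pow h2)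
    exact hr2 (h4.trans h3.symm)
  have hs1 : (cyclotomic s ℤ).eval 1 = 1 := eval_one_cyclotomic_not_prime_pow hnp
  have hs2 : 2 ≤ s := Nat.le_of_dvd hs0 h2s
  have ha1 : 1 ≤ a := by
    rw [ha]
    exact (hr.dvd_iff_one_le_factorization hn0).1 hrn
  -- the derivative
  have hrb : ((r : ℤ) ^ b) ∣ (cyclotomic s ℤ).derivative.eval 1 := by
    have h1 := hb s hs2
    rw [hs1, mul_one] at h1
    have h2 : ((r : ℤ) ^ b) ∣ 2 * (cyclotomic s ℤ).derivative.eval 1 := by
      rw [h1]
      exact_mod_cast hphi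
    have h3 : IsCoprime ((r : ℤ) ^ b) 2 := by
      apply IsCoprime.pow_left
      rw [show (2 : ℤ) = ((2 : ℕ) : ℤ) from rfl, Nat.isCoprime_iff_coprime]
      exact (Nat.coprime_primes hr Nat.prime_two).2 hr2
    exact h3.dvd_of_dvd_mul_left h2
  -- y = 2^t is 1 mod r^a
  have hra : r ^ (a - 1) ∣ t := by
    have h1 : r ^ a ∣ s * t := by
      rw [← ht, ha]
      exact Nat.ordProj_dvd n r
    obtain ⟨s', hs'⟩ := hrs
    have h2 : ¬ r ∣ s' := by
      rintro ⟨c, rfl⟩
      have h3 : r * r ∣ s := by rw [hs']; exact ⟨c, by ring⟩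
      have h4 := hsqf r h3
      exact hr.one_lt.ne' (Nat.isUnit_iff.1 h4)
    have h3 : r ^ (a - 1) ∣ s' * t := by
      obtain ⟨a', ha'⟩ : ∃ a', a = a' + 1 := ⟨a - 1, by omega⟩
      rw [ha', Nat.add_sub_cancel]
      rw [ha', hs', pow_succ, mul_assoc, mul_comm (r ^ a') r] at h1
      exact Nat.dvd_of_mul_dvd_mul_left hr.pos h1
    have h4 : Nat.Coprime (r ^ (a - 1)) s' := Nat.Coprime.pow_left _ ((hr.coprime_iff_not_dvd).2 h2)
    exact h4.dvd_of_dvd_mul_left h3
  have htot : Nat.totient (r ^ a) ∣ t := by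
    rw [Nat.totient_prime_pow hr (by omega)]
    apply Nat.Coprime.mul_dvd_of_dvd_of_dvd _ hra hr1
    apply Nat.Coprime.pow_left
    rw [hr.coprime_iff_not_dvd]
    intro hd
    have h1 := Nat.le_of_dvd (by have := hr.two_le; omega) hd
    have := hr.two_le
    omega
  have hy : ((r : ℤ) ^ a) ∣ (2 : ℤ) ^ t - 1 := by
    obtain ⟨c, hc⟩ := htot
    have h1 : 2 ^ Nat.totient (r ^ a) ≡ 1 [MOD (r ^ a)] := by
      apply Nat.ModEq.pow_totient
      exact Nat.Coprime.pow_right _ ((Nat.coprime_primes Nat.prime_two hr).2 (Ne.symm hr2))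
    have h2 : 2 ^ t ≡ 1 [MOD (r ^ a)] := by
      rw [hc, pow_mul]
      have := h1.pow c
      rwa [one_pow] at this
    have h3 := (Nat.modEq_iff_dvd.1 h2.symm)
    push_cast at h3
    exact h3
  obtain ⟨X, hX⟩ := hy
  obtain ⟨D, hD⟩ := hrb
  obtain ⟨k, hk⟩ := binomExpansion (cyclotomic s ℤ) 1 ((2 : ℤ) ^ t - 1)
  rw [add_sub_cancel, hs1] at hk
  rw [hcyc, hk, hX, hD]
  have e1 : 1 + (r : ℤ) ^ b * D * ((r : ℤ) ^ a * X) + k * ((r : ℤ) ^ a * X) ^ 2 - 1 =
      (r : ℤ) ^ (a + b) * (D * X) + (r : ℤ) ^ (a + a) * (k * X ^ 2) := by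
    rw [pow_add, pow_add]; ring
  rw [e1]
  exact dvd_add (dvd_mul_right _ _) (dvd_mul_of_dvd_left (pow_dvd_pow _ (by omega)) _)

end D159

end

section

/-!
# MP_d159ed_nt, E4: pseudoprimes from primes
-/

set_option autoImplicit false

namespace D159

open Finset
open scoped BigOperators

theorem E4.one_lt_eval (n : ℕ) (hn : 2 ≤ n) : 1 < (Polynomial.cyclotomic n ℤ).eval 2 := by
  have h1 := Polynomial.sub_one_pow_totient_lt_cyclotomic_eval (n := n) (q := 2) hn (by norm_num)
  have h2 : (Polynomial.cyclotomic n ℝ).eval 2 = (((Polynomial.cyclotomic n ℤ).eval 2 : ℤ) : ℝ) := by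
    rw [← Polynomial.map_cyclotomic_int n ℝ]
    have := Polynomial.eval_intCast_map (Int.castRingHom ℝ) (Polynomial.cyclotomic n ℤ) 2
    simpa using this
  rw [h2] at h1
  norm_num at h1
  exact_mod_cast h1

theorem claimE4 : ClaimE4 := by
  intro n w h8 hn hw hp hN
  have hn8 : 8 ≤ n := Nat.le_of_dvd hn h8
  have hNz := E4.one_lt_eval n (by omega)
  have hNcast : ((Ncyc n : ℕ) : ℤ) = (Polynomial.cyclotomic n ℤ).eval 2 := by
    unfold Ncyc
    exact Int.toNat_of_nonneg (by omega)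
  have hN1 : 1 < Ncyc n := by
    have : (1 : ℤ) < ((Ncyc n : ℕ) : ℤ) := by rw [hNcast]; exact hNz
    exact_mod_cast this
  set p := 1 + n * w with hpdef
  haveI : Fact p.Prime := ⟨hp⟩
  have hw1 : 1 ≤ w := hw.pos
  have hnw : n * w = p - 1 := by omega
  have hpn : n < p := by
    have : n * 1 ≤ n * w := Nat.mul_le_mul_left n hw1
    omega
  refine ⟨hN1, Nat.not_prime_mul (by omega) (by omega), ?_⟩
  -- N divides 2^n - 1
  have hNdvd : Ncyc n ∣ 2 ^ n - 1 := by
    have h1 : (Polynomial.cyclotomic n ℤ).eval 2 ∣ (2 : ℤ) ^ n - 1 := by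
      have h2 := Polynomial.cyclotomic.dvd_X_pow_sub_one n ℤ
      have h3 := Polynomial.eval_dvd (x := (2 : ℤ)) h2
      simpa using h3
    have h4 : (((Ncyc n : ℕ) : ℤ)) ∣ ((2 ^ n - 1 : ℕ) : ℤ) := by
      rw [hNcast, Nat.cast_sub Nat.one_le_two_pow]
      push_cast
      exact h1
    exact_mod_cast h4
  -- p does not divide N
  have hpN : ¬ p ∣ Ncyc n := by
    intro hdvd
    have hne : NeZero ((n : ℕ) : ZMod p) := ⟨by
      intro h0
      rw [ZMod.natCast_eq_zero_iff] at h0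
      exact absurd (Nat.le_of_dvd (by omega) h0) (by omega)⟩
    have hroot : (Polynomial.cyclotomic n (ZMod p)).IsRoot 2 := by
      rw [Polynomial.IsRoot, ← Polynomial.map_cyclotomic_int n (ZMod p)]
      have h1 := Polynomial.eval_intCast_map (Int.castRingHom (ZMod p))
        (Polynomial.cyclotomic n ℤ) 2
      have h2 : (((Polynomial.cyclotomic n ℤ).eval 2 : ℤ) : ZMod p) = 0 := by
        rw [← hNcast, Int.cast_natCast, ZMod.natCast_eq_zero_iff]
        exact hdvd
      simp only [Int.cast_ofNat, eq_intCast] at h1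
      rw [h1, h2]
    have hprim : IsPrimitiveRoot (2 : ZMod p) n := Polynomial.isRoot_cyclotomic_iff.1 hroot
    have hp2 : p ≠ 2 := by omega
    obtain ⟨m, hm⟩ := h8
    have hp8 : p % 8 = 1 := by
      rw [hpdef, hm, mul_assoc]
      omega
    have hsq : IsSquare (2 : ZMod p) := (ZMod.exists_sq_eq_two_iff hp2).2 (Or.inl hp8)
    have h20 : (2 : ZMod p) ≠ 0 := by
      intro h0
      have : ((2 : ℕ) : ZMod p) = 0 := by exact_mod_cast h0
      rw [ZMod.natCast_eq_zero_iff] at this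
      exact absurd (Nat.le_of_dvd (by omega) this) (by omega)
    have hpow : (2 : ZMod p) ^ (p / 2) = 1 := (ZMod.euler_criterion p h20).1 hsq
    have hdiv := hprim.dvd_of_pow_eq_one _ hpow
    have hhalf : p / 2 = 4 * (m * w) := by
      rw [hpdef, hm, mul_assoc]
      omega
    rw [hhalf, hm] at hdiv
    obtain ⟨c, hc⟩ := hdiv
    have hm0 : 0 < m := by
      rcases Nat.eq_zero_or_pos m with h0 | h0
      · subst h0; omega
      · exact h0
    have h3 : m * w = m * (2 * c) := by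
      have : 4 * (m * w) = 4 * (m * (2 * c)) := by rw [hc]; ring
      exact Nat.eq_of_mul_eq_mul_left (by norm_num) this
    have h4 : w = 2 * c := Nat.eq_of_mul_eq_mul_left hm0 h3
    rcases hw with ⟨k, hk⟩
    omega
  have hcop : Nat.Coprime (Ncyc n) p := ((Nat.Prime.coprime_iff_not_dvd hp).2 hpN).symm
  set N := Ncyc n with hNdef
  -- nw divides N - 1
  have hnwN : n * w ∣ N - 1 := (Nat.modEq_iff_dvd' hN1.le).1 hN.symm
  have hE : N * p - 1 = N * (p - 1) + (N - 1) := by
    have h1 : N * p = N * (p - 1) + N := by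
      conv_lhs => rw [show p = (p - 1) + 1 by omega]
      ring
    omega
  have hpE : (p - 1) ∣ N * p - 1 := by
    rw [hE]
    refine dvd_add (Dvd.intro_left N rfl) ?_
    rw [← hnw]
    exact hnwN
  have hnE : n ∣ N * p - 1 := dvd_trans (by rw [← hnw]; exact Dvd.intro w rfl) hpE
  have hNp1 : 1 ≤ N * p := Nat.one_le_iff_ne_zero.2 (Nat.mul_ne_zero (by omega) (by omega))
  -- the congruences
  have hN2 : N ∣ 2 ^ (N * p - 1) - 1 := by
    refine dvd_trans hNdvd ?_
    obtain ⟨c, hc⟩ := hnE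
    rw [hc, pow_mul]
    exact Nat.sub_one_dvd_pow_sub_one _ _ |> fun h => by simpa using h
  have hp2 : p ∣ 2 ^ (N * p - 1) - 1 := by
    have h1 : p ∣ 2 ^ (p - 1) - 1 := by
      have hc2 : Nat.Coprime 2 p := by
        rw [Nat.coprime_primes Nat.prime_two hp]
        omega
      have h3 : 2 ^ Nat.totient p ≡ 1 [MOD p] := Nat.ModEq.pow_totient hc2
      rw [Nat.totient_prime hp] at h3
      exact (Nat.modEq_iff_dvd' Nat.one_le_two_pow).1 h3.symm
    refine dvd_trans h1 ?_
    obtain ⟨c, hc⟩ := hpE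
    rw [hc, pow_mul]
    exact Nat.sub_one_dvd_pow_sub_one _ _ |> fun h => by simpa using h
  have hprod : N * p ∣ 2 ^ (N * p - 1) - 1 := Nat.Coprime.mul_dvd_of_dvd_of_dvd hcop hN2 hp2
  have hfin : 2 ^ (N * p) - 2 = 2 * (2 ^ (N * p - 1) - 1) := by
    rw [Nat.mul_sub, ← pow_succ', Nat.sub_add_cancel hNp1]
  rw [hfin]
  exact Dvd.dvd.mul_left hprod 2

end D159

end

section

/-!
# MP_d159ed_nt, part B: relative Szemeredi for 5 terms (Conlon-Fox-Zhao)

A point of the doubled space is `x : Fin 5 → Bool → ZMod M`; `pt x ω` selects one of the two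
values of each coordinate. The form number j is `psi j y = ∑ i, (i - j) * y i`; it does not
involve the coordinate j. `Idx` is the set of the 80 pairs (j, ω) with `ω j = false`.
-/

set_option autoImplicit false

namespace D159

open Finset
open scoped BigOperators

/-- The linear form number j. -/
def psi {M : ℕ} (j : Fin 5) (y : Fin 5 → ZMod M) : ZMod M :=
  ∑ i : Fin 5, (((i : ℕ) : ZMod M) - ((j : ℕ) : ZMod M)) * y i

/-- Selection of a vertex of the doubled point. -/
def pt {M : ℕ} (x : Fin 5 → Bool → ZMod M) (ω : Fin 5 → Bool) : Fin 5 → ZMod M :=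
  fun i => x i (ω i)

/-- The index set of the 80 forms. -/
def Idx : Finset (Fin 5 × (Fin 5 → Bool)) := univ.filter (fun a => a.2 a.1 = false)

/-- The linear forms condition with error ε. -/
def LF (M : ℕ) [NeZero M] (ν : ZMod M → ℝ) (ε : ℝ) : Prop :=
  ∀ A ⊆ Idx, |(𝔼 x : Fin 5 → Bool → ZMod M, ∏ a ∈ A, ν (psi a.1 (pt x a.2))) - 1| ≤ ε

/-- The majorant number j: sparse if τ, constant 1 otherwise. -/
def maj {M : ℕ} (ν : ZMod M → ℝ) (τ : Bool) (j : Fin 5) (y : Fin 5 → ZMod M) : ℝ :=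
  if τ then ν (psi j y) else 1

/-- B1: weighted Cauchy-Schwarz (strong linear forms condition). -/
def ClaimB1 : Prop :=
  ∀ κ : ℝ, 0 < κ → ∃ ε : ℝ, 0 < ε ∧ ∀ (M : ℕ) [NeZero M] (ν : ZMod M → ℝ),
    (∀ x, 0 ≤ ν x) → LF M ν ε →
    ∀ (i : Fin 5) (τ τ' : Fin 5 → Bool) (F F' : Fin 5 → (Fin 5 → ZMod M) → ℝ),
      (∀ j x t, F j (Function.update x j t) = F j x) →
      (∀ j x t, F' j (Function.update x j t) = F' j x) →
      (∀ j x, 0 ≤ F j x ∧ F j x ≤ maj ν (τ j) j x) →
      (∀ j x, 0 ≤ F' j x ∧ F' j x ≤ maj ν (τ' j) j x) →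
      |𝔼 x : Fin 5 → ZMod M, 𝔼 t : ZMod M, (ν (psi i x) - 1) *
        ∏ j ∈ univ.erase i, (F j x * F' j (Function.update x i t))| ≤ κ

/-- Cut norm smallness for functions on ZMod M (four variables summing to the argument). -/
def CutSmall (M : ℕ) [NeZero M] (h : ZMod M → ℝ) (ε : ℝ) : Prop :=
  ∀ u : Fin 4 → (Fin 4 → ZMod M) → ℝ,
    (∀ i y t, u i (Function.update y i t) = u i y) →
    (∀ i y, 0 ≤ u i y ∧ u i y ≤ 1) →
    |𝔼 y : Fin 4 → ZMod M, h (∑ i, y i) * ∏ i, u i y| ≤ ε

/-- Cut norm smallness for a function of the four variables other than j. -/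
def CutJ (M : ℕ) [NeZero M] (j : Fin 5) (H : (Fin 5 → ZMod M) → ℝ) (ε : ℝ) : Prop :=
  ∀ u : Fin 5 → (Fin 5 → ZMod M) → ℝ,
    (∀ i y t, u i (Function.update y i t) = u i y) →
    (∀ i y t, u i (Function.update y j t) = u i y) →
    (∀ i y, 0 ≤ u i y ∧ u i y ≤ 1) →
    |𝔼 y : Fin 5 → ZMod M, H y * ∏ i ∈ univ.erase j, u i y| ≤ ε

/-- B2a: abstract dense model theorem. -/
def ClaimB2a : Prop :=
  ∀ ε : ℝ, 0 < ε → ∃ κ : ℝ, 0 < κ ∧ ∀ (X : Type) [Fintype X] [Nonempty X]
    (Φ : Set (X → ℝ)), (1 : X → ℝ) ∈ Φ → (∀ φ ∈ Φ, ∀ x, |φ x| ≤ 1) →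
    (∀ φ ∈ Φ, ∀ φ' ∈ Φ, φ * φ' ∈ convexHull ℝ Φ) →
    ∀ f ν : X → ℝ, (∀ x, 0 ≤ f x) → (∀ x, f x ≤ ν x) →
      (∀ φ ∈ Φ, |𝔼 x, (ν x - 1) * φ x| ≤ κ) →
      ∃ g : X → ℝ, (∀ x, 0 ≤ g x ∧ g x ≤ 1) ∧ ∀ φ ∈ Φ, |𝔼 x, (f x - g x) * φ x| ≤ ε

/-- Dense model theorem for the cut norm. -/
def DenseModel : Prop :=
  ∀ ε : ℝ, 0 < ε → ∃ κ : ℝ, 0 < κ ∧ ∀ (M : ℕ) [NeZero M] (f ν : ZMod M → ℝ),
    (∀ x, 0 ≤ f x) → (∀ x, f x ≤ ν x) → CutSmall M (fun x => ν x - 1) κ →
    ∃ g : ZMod M → ℝ, (∀ x, 0 ≤ g x ∧ g x ≤ 1) ∧ CutSmall M (fun x => f x - g x) ε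

/-- B2b. -/
def ClaimB2b : Prop := ClaimB2a → DenseModel

/-- B3: the two cut norms agree (M prime, M at least 5). -/
def ClaimB3 : Prop :=
  ∀ (M : ℕ) [NeZero M], M.Prime → 5 ≤ M → ∀ (h : ZMod M → ℝ) (ε : ℝ) (j : Fin 5),
    CutSmall M h ε ↔ CutJ M j (fun y => h (psi j y)) ε

/-- The counting statement when the set of sparse indices is given by τ. -/
def Counting (τ : Fin 5 → Bool) : Prop :=
  ∀ κ : ℝ, 0 < κ → ∃ ε : ℝ, 0 < ε ∧ ∀ (M : ℕ) [NeZero M] (ν : ZMod M → ℝ),
    (∀ x, 0 ≤ ν x) → LF M ν ε →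
    ∀ F G : Fin 5 → (Fin 5 → ZMod M) → ℝ,
      (∀ j x t, F j (Function.update x j t) = F j x) →
      (∀ j x t, G j (Function.update x j t) = G j x) →
      (∀ j x, 0 ≤ F j x ∧ F j x ≤ maj ν (τ j) j x) →
      (∀ j x, 0 ≤ G j x ∧ G j x ≤ 1) →
      (∀ j, CutJ M j (fun x => F j x - G j x) ε) →
      |(𝔼 x : Fin 5 → ZMod M, ∏ j, F j x) - 𝔼 x : Fin 5 → ZMod M, ∏ j, G j x| ≤ κ

/-- B4a: the dense case (telescoping). -/
def ClaimB4a : Prop := Counting (fun _ => false)

/-- B4b: one densification step. -/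
def ClaimB4b : Prop :=
  ClaimB1 → ∀ (τ : Fin 5 → Bool) (i : Fin 5), τ i = true →
    Counting (Function.update τ i false) → Counting τ

/-- Relative Szemeredi for 5 terms. -/
def RelSzem5 : Prop :=
  ∀ δ : ℝ, 0 < δ → ∃ ε : ℝ, 0 < ε ∧ ∃ c : ℝ, 0 < c ∧ ∃ M0 : ℕ,
    ∀ (M : ℕ) [NeZero M], M.Prime → M0 ≤ M → ∀ ν f : ZMod M → ℝ,
      (∀ x, 0 ≤ f x) → (∀ x, f x ≤ ν x) → LF M ν ε → δ ≤ 𝔼 x, f x →
      c ≤ 𝔼 x, 𝔼 d, ∏ i : Fin 5, f (x + (i : ℕ) * d)

/-- B5: assembly of the relative Szemeredi theorem. -/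
def ClaimB5 : Prop :=
  ClaimB1 → DenseModel → ClaimB3 → Counting (fun _ => true) → Szem5 → RelSzem5

theorem relSzem5_of_claims (b1 : ClaimB1) (b2a : ClaimB2a) (b2b : ClaimB2b) (b3 : ClaimB3)
    (b4a : ClaimB4a) (b4b : ClaimB4b) (b5 : ClaimB5) (sz : Szem5) : RelSzem5 := by
  have key : ∀ s : Finset (Fin 5), Counting (fun j => decide (j ∈ s)) := by
    intro s
    induction s using Finset.induction_on with
    | empty => simpa [ClaimB4a] using b4a
    | insert a s ha ih =>
      refine b4b b1 _ a (by simp) ?_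
      convert ih using 1
      funext j
      by_cases h : j = a
      · subst h; simp [ha]
      · simp [h]
  have h5 : Counting (fun _ => true) := by
    have := key univ
    simpa using this
  exact b5 b1 (b2b b2a) b3 h5 sz

end D159

end

section

/-!
# MP_d159ed_nt, A2b: a prefix colouring of lines has a monochromatic subspace
-/

set_option autoImplicit false

namespace D159

open Finset Combinatorics

/-- The first wildcard of `l` is `i`. -/
def FirstAt {k M : ℕ} (l : Line (Fin k) (Fin M)) (i : Fin M) : Prop :=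
  l.idxFun i = none ∧ ∀ j < i, l.idxFun j ≠ none

theorem exists_firstAt {k M : ℕ} (l : Line (Fin k) (Fin M)) : ∃ i, FirstAt l i := by
  obtain ⟨i, hi, hmin⟩ := WellFounded.has_min
    (wellFounded_lt : WellFounded (fun a b : Fin M => a < b)) {i | l.idxFun i = none} l.proper
  exact ⟨i, hi, fun j hj hjn => hmin j hjn hj⟩

instance finite_line {α ι : Type} [Finite α] [Finite ι] : Finite (Line α ι) :=
  Finite.of_injective (fun l : Line α ι => l.idxFun) (fun _ _ h => Line.ext h)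

/-- A point in the first block, a line in the second block. -/
def blockLine {k n M : ℕ} (x : Fin n → Fin k) (l : Line (Fin k) (Fin M)) :
    Line (Fin k) (Fin (n + M)) where
  idxFun := Fin.append (fun i => some (x i)) l.idxFun
  proper := by
    obtain ⟨i, hi⟩ := l.proper
    exact ⟨Fin.natAdd n i, by simpa using hi⟩

theorem blockLine_samePrefix {k n M : ℕ} (x : Fin n → Fin k) {l l' : Line (Fin k) (Fin M)}
    (h : SamePrefix l l') : SamePrefix (blockLine x l) (blockLine x l') := by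
  obtain ⟨i, h1, h2, h3⟩ := h
  refine ⟨Fin.natAdd n i, by simpa [blockLine] using h1, by simpa [blockLine] using h2, ?_⟩
  intro j
  refine Fin.addCases (fun j _ => ?_) (fun j hj => ?_) j
  · simp [blockLine]
  · have hj' : j < i := by
      simpa using hj
    simpa [blockLine] using h3 j hj'

/-- The first variable in the first block, the others in the second. -/
def blockSub {k n M m : ℕ} (U : Subspace Unit (Fin k) (Fin n))
    (V : Subspace (Fin m) (Fin k) (Fin M)) : Subspace (Fin (m + 1)) (Fin k) (Fin (n + M)) where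
  idxFun := Fin.append (fun i => (U.idxFun i).map id (fun _ => 0))
    (fun i => (V.idxFun i).map id Fin.succ)
  proper := by
    intro e
    refine Fin.cases ?_ (fun e => ?_) e
    · obtain ⟨i, hi⟩ := U.proper ()
      exact ⟨Fin.castAdd M i, by simp [hi]⟩
    · obtain ⟨i, hi⟩ := V.proper e
      exact ⟨Fin.natAdd n i, by simp [hi]⟩

theorem a2b_first {k : ℕ} (hk : 1 ≤ k) (M' : ℕ) : ∀ (κ : Type) [Finite κ], ∃ M : ℕ,
    ∀ C : Line (Fin k) (Fin M) → κ, (∀ l l', SamePrefix l l' → C l = C l') →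
      ∃ V : Subspace (Fin M') (Fin k) (Fin M), ∀ (i : Fin M') (l l' : Line (Fin k) (Fin M')),
        FirstAt l i → FirstAt l' i → C (compLine V l) = C (compLine V l') := by
  induction M' with
  | zero =>
    intro κ _
    exact ⟨0, fun C _ => ⟨⟨fun i => i.elim0, fun e => e.elim0⟩, fun i => i.elim0⟩⟩
  | succ M' ih =>
    intro κ _
    obtain ⟨M1, hM1⟩ := ih κ
    obtain ⟨n1, hn1⟩ := Subspace.exists_mono_in_high_dimension_fin (Fin k)
      (Line (Fin k) (Fin M1) → κ) Unit
    refine ⟨n1 + M1, fun C hC => ?_⟩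
    obtain ⟨U, c, hU⟩ := hn1 (fun x l' => C (blockLine x l'))
    let a0 : Fin k := ⟨0, hk⟩
    have hc : ∀ l l', SamePrefix l l' → c l = c l' := by
      intro l l' h
      rw [← hU (fun _ => a0)]
      exact hC _ _ (blockLine_samePrefix _ h)
    obtain ⟨V1, hV1⟩ := hM1 c hc
    refine ⟨blockSub U V1, ?_⟩
    intro i
    refine Fin.cases ?_ (fun i => ?_) i
    · intro l l' hl hl'
      apply hC
      obtain ⟨i0, hi0, hmin⟩ := WellFounded.has_min
        (wellFounded_lt : WellFounded (fun a b : Fin n1 => a < b))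
        {i | U.idxFun i = Sum.inr ()} (U.proper ())
      have hi0' : U.idxFun i0 = Sum.inr () := hi0
      refine ⟨Fin.castAdd M1 i0, ?_, ?_, ?_⟩
      · simp [compLine, blockSub, hi0', hl.1]
      · simp [compLine, blockSub, hi0', hl'.1]
      · intro j
        refine Fin.addCases (fun j hj => ?_) (fun j hj => ?_) j
        · have hj' : j < i0 := by
            rw [Fin.lt_def] at hj ⊢
            exact hj
          cases hu : U.idxFun j with
          | inl b => simp [compLine, blockSub, hu]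
          | inr v => exact absurd hj' (hmin j hu)
        · exfalso
          rw [Fin.lt_def] at hj
          simp only [Fin.val_natAdd, Fin.val_castAdd] at hj
          omega
    · intro l l' hl hl'
      have main : ∀ l : Line (Fin k) (Fin (M' + 1)), ∀ hl : FirstAt l i.succ,
          C (compLine (blockSub U V1) l) = c (compLine V1 (tailLine l ⟨i, hl.1⟩)) := by
        intro l hl
        obtain ⟨a, ha⟩ := Option.ne_none_iff_exists'.1 (hl.2 0 (Fin.succ_pos i))
        rw [← hU (fun _ => a)]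
        show C _ = C (blockLine _ _)
        congr 1
        apply line_ext
        intro j
        refine Fin.addCases (fun j => ?_) (fun j => ?_) j
        · simp only [compLine, blockSub, blockLine, Fin.append_left, Subspace.coe_apply]
          cases hu : U.idxFun j <;> simp [ha]
        · simp only [compLine, blockSub, blockLine, Fin.append_right, tailLine]
          cases hu : V1.idxFun j <;> simp
      rw [main l hl, main l' hl']
      apply hV1 i
      · exact ⟨hl.1, fun j hj => hl.2 j.succ (Fin.succ_lt_succ_iff.2 hj)⟩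
      · exact ⟨hl'.1, fun j hj => hl'.2 j.succ (Fin.succ_lt_succ_iff.2 hj)⟩

theorem claimA2b : ClaimA2b := by
  intro k hk m κ _
  classical
  cases isEmpty_or_nonempty κ with
  | inl hκ =>
    refine ⟨m, fun C _ => ⟨default, fun l _ => ?_⟩⟩
    exact (hκ.false (C (compLine default l))).elim
  | inr hκ =>
    have := Fintype.ofFinite κ
    let a0 : Fin k := ⟨0, hk⟩
    obtain ⟨M, hM⟩ := a2b_first hk (Fintype.card κ * m) κ
    refine ⟨M, fun C hC => ?_⟩
    obtain ⟨V, hV⟩ := hM C hC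
    let std : Fin (Fintype.card κ * m) → Line (Fin k) (Fin (Fintype.card κ * m)) := fun i =>
      { idxFun := fun j => if j = i then none else some a0
        proper := ⟨i, by simp⟩ }
    have hstd : ∀ i, FirstAt (std i) i := by
      intro i
      refine ⟨by simp [std], fun j hj => ?_⟩
      simp [std, hj.ne]
    obtain ⟨y, hy⟩ := Fintype.exists_le_card_fiber_of_mul_le_card
      (fun i => C (compLine V (std i))) (n := m) (by simp)
    obtain ⟨g⟩ : Nonempty (Fin m ↪ {i // i ∈ univ.filter (fun i => C (compLine V (std i)) = y)}) := by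
      apply Function.Embedding.nonempty_of_card_le
      rw [Fintype.card_fin, Fintype.card_coe]
      exact hy
    let g' : Fin m → Fin (Fintype.card κ * m) := fun e => (g e).1
    have hg' : Function.Injective g' := fun a b h => g.injective (Subtype.ext h)
    have hgy : ∀ e, C (compLine V (std (g' e))) = y := fun e => by
      have := (g e).2
      rw [mem_filter] at this
      exact this.2
    let V2 : Subspace (Fin m) (Fin k) (Fin (Fintype.card κ * m)) :=
      { idxFun := Function.extend g' Sum.inr (fun _ => Sum.inl a0)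
        proper := fun e => ⟨g' e, by rw [hg'.extend_apply]⟩ }
    have main : ∀ l : Line (Fin k) (Fin m), C (compLine (compSub V V2) l) = y := by
      intro l
      rw [compLine_compSub]
      obtain ⟨i, hi⟩ := exists_firstAt (compLine V2 l)
      have : ∃ e, g' e = i := by
        by_contra h
        have h1 : V2.idxFun i = Sum.inl a0 := by
          show Function.extend g' Sum.inr (fun _ => Sum.inl a0) i = Sum.inl a0
          exact Function.extend_apply' _ _ _ h
        have h2 := hi.1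
        simp [compLine, h1] at h2
      obtain ⟨e, rfl⟩ := this
      rw [hV (g' e) _ _ hi (hstd _), hgy]
    exact ⟨compSub V V2, fun l l' => by rw [main l, main l']⟩

theorem grLines : GRLines := claimA2 claimA2a claimA2b

end D159

end

section

/-!
# MP_d159ed_nt, D3: orthogonality of characters
-/

set_option autoImplicit false

namespace D159

open Finset
open scoped BigOperators ArithmeticFunction.vonMangoldt

lemma D3.log_mul_wt (σ : ℝ) (m n : ℕ) :
    Real.log n * wt σ m n = ((m : ℝ) + 1) * wt σ (m + 1) n := by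
  unfold wt
  rw [Nat.factorial_succ]
  have h1 : (m.factorial : ℝ) ≠ 0 := by positivity
  have h2 : ((m : ℝ) + 1) ≠ 0 := by positivity
  push_cast
  field_simp
  ring

lemma D3.summable_Lwt (σ : ℝ) (hσ : 1 < σ) (m : ℕ) :
    Summable (fun n : ℕ => Λ n * wt σ m n) := by
  refine Summable.of_nonneg_of_le
    (fun n => mul_nonneg ArithmeticFunction.vonMangoldt_nonneg (wt_nonneg σ m n)) (fun n => ?_)
    ((summable_wt σ hσ (m + 1)).mul_left ((m : ℝ) + 1))
  rw [← D3.log_mul_wt]
  exact mul_le_mul_of_nonneg_right ArithmeticFunction.vonMangoldt_le_log (wt_nonneg σ m n)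

lemma D3.summable_fL {q : ℕ} (χ : DirichletCharacter ℂ q) (σ : ℝ) (hσ : 1 < σ) (m : ℕ) :
    Summable (fun n : ℕ => χ n * ((Λ n * wt σ m n : ℝ) : ℂ)) := by
  refine Summable.of_norm_bounded (D3.summable_Lwt σ hσ m) (fun n => ?_)
  have h0 : 0 ≤ Λ n * wt σ m n :=
    mul_nonneg ArithmeticFunction.vonMangoldt_nonneg (wt_nonneg σ m n)
  rw [norm_mul, Complex.norm_real, Real.norm_of_nonneg h0]
  exact mul_le_of_le_one_left h0 (χ.norm_le_one _)

theorem claimD3 : ClaimD3 := by
  intro q _ σ hσ m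
  have hφ : (Nat.totient q : ℂ) ≠ 0 := by
    exact_mod_cast (Nat.totient_pos.2 (NeZero.pos q)).ne'
  unfold fL
  rw [← Summable.tsum_finsetSum (fun χ _ => D3.summable_fL χ σ hσ m)]
  rw [Complex.ofReal_tsum, ← tsum_mul_left]
  refine tsum_congr fun n => ?_
  rw [← Finset.sum_mul, DirichletCharacter.sum_characters_eq ℂ ((n : ℕ) : ZMod q)]
  split_ifs with h
  · push_cast
    field_simp
  · simp

end D159

end
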