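import Mathlib
import Pool.Agent.Work.MP_d159ed_nt.Bd.B01
import Pool.Agent.Work.MP_d159ed_nt.Bd.B02

/-! Bundle of small proof modules (one section per former module). -/

section

/-!
# MP_d159ed_nt, A3b: partition of one insensitive set into subspaces
-/

set_option autoImplicit false

namespace D159

open Finset Combinatorics
open scoped BigOperators

/-- Glue two partial words. -/
def glueW {K : ℕ} {ι : Type} [DecidableEq ι] (S : Finset ι) (x : {i // i ∈ S} → Fin K)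
    (y : {i // i ∉ S} → Fin K) : ι → Fin K :=
  fun i => if h : i ∈ S then x ⟨i, h⟩ else y ⟨i, h⟩

theorem glueW_left {K : ℕ} {ι : Type} [DecidableEq ι] (S : Finset ι)
    (x : {i // i ∈ S} → Fin K) (y : {i // i ∉ S} → Fin K) :
    (fun i : {i // i ∈ S} => glueW S x y i.1) = x := by
  funext i
  simp [glueW, i.2]

theorem glueW_right {K : ℕ} {ι : Type} [DecidableEq ι] (S : Finset ι)
    (x : {i // i ∈ S} → Fin K) (y : {i // i ∉ S} → Fin K) :
    (fun i : {i // i ∉ S} => glueW S x y i.1) = y := by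
  funext i
  simp [glueW, i.2]

theorem glueW_eta {K : ℕ} {ι : Type} [DecidableEq ι] (S : Finset ι) (w : ι → Fin K) :
    glueW S (fun i : {i // i ∈ S} => w i.1) (fun i : {i // i ∉ S} => w i.1) = w := by
  funext i
  unfold glueW
  split_ifs <;> rfl

theorem glueW_inj {K : ℕ} {ι : Type} [DecidableEq ι] (S : Finset ι)
    {x x' : {i // i ∈ S} → Fin K} {y y' : {i // i ∉ S} → Fin K}
    (h : glueW S x y = glueW S x' y') : x = x' ∧ y = y' := by
  constructor
  · rw [← glueW_left S x y, h, glueW_left]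
  · rw [← glueW_right S x y, h, glueW_right]

/-- Words on a split index set are pairs of words. -/
def glueEquiv (K : ℕ) {ι : Type} [DecidableEq ι] (S : Finset ι) :
    (({i // i ∈ S} → Fin K) × ({i // i ∉ S} → Fin K)) ≃ (ι → Fin K) where
  toFun p := glueW S p.1 p.2
  invFun w := (fun i => w i.1, fun i => w i.1)
  left_inv p := by
    rw [Prod.ext_iff]
    exact ⟨glueW_left S p.1 p.2, glueW_right S p.1 p.2⟩
  right_inv w := glueW_eta S w

theorem card_eq_sum_left {K : ℕ} {ι : Type} [Fintype ι] [DecidableEq ι] (S : Finset ι)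
    (D : Finset (ι → Fin K)) :
    D.card = ∑ x : {i // i ∈ S} → Fin K,
      (univ.filter (fun y : {i // i ∉ S} → Fin K => glueW S x y ∈ D)).card := by
  have h1 : D.card = ∑ w : ι → Fin K, if w ∈ D then 1 else 0 := by
    rw [← Finset.card_filter]
    simp
  rw [h1, ← Equiv.sum_comp (glueEquiv K S), Fintype.sum_prod_type]
  refine Finset.sum_congr rfl fun x _ => ?_
  rw [Finset.card_filter]
  rfl

theorem card_eq_sum_right {K : ℕ} {ι : Type} [Fintype ι] [DecidableEq ι] (S : Finset ι)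
    (D : Finset (ι → Fin K)) :
    D.card = ∑ y : {i // i ∉ S} → Fin K,
      (univ.filter (fun x : {i // i ∈ S} → Fin K => glueW S x y ∈ D)).card := by
  have h1 : D.card = ∑ w : ι → Fin K, if w ∈ D then 1 else 0 := by
    rw [← Finset.card_filter]
    simp
  rw [h1, ← Equiv.sum_comp (glueEquiv K S), Fintype.sum_prod_type_right]
  refine Finset.sum_congr rfl fun x _ => ?_
  rw [Finset.card_filter]
  rfl

/-- Extend a subspace by a constant word on `S`. -/
def extR {d K : ℕ} {ι : Type} [DecidableEq ι] (S : Finset ι) (x : {i // i ∈ S} → Fin K)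
    (V : Subspace (Fin d) (Fin K) {i // i ∉ S}) : Subspace (Fin d) (Fin K) ι where
  idxFun i := if h : i ∈ S then Sum.inl (x ⟨i, h⟩) else V.idxFun ⟨i, h⟩
  proper e := by
    obtain ⟨⟨i, hi⟩, h⟩ := V.proper e
    exact ⟨i, by simp [hi, h]⟩

theorem extR_apply {d K : ℕ} {ι : Type} [DecidableEq ι] (S : Finset ι)
    (x : {i // i ∈ S} → Fin K) (V : Subspace (Fin d) (Fin K) {i // i ∉ S})
    (z : Fin d → Fin K) : extR S x V z = glueW S x (V z) := by
  funext i
  unfold glueW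
  rw [Subspace.coe_apply]
  unfold extR
  simp only
  split_ifs with h
  · rfl
  · rfl

/-- Extend a subspace on `S` by a constant word outside. -/
def extL {d K : ℕ} {ι : Type} [DecidableEq ι] (S : Finset ι)
    (V : Subspace (Fin d) (Fin K) {i // i ∈ S}) (y : {i // i ∉ S} → Fin K) :
    Subspace (Fin d) (Fin K) ι where
  idxFun i := if h : i ∈ S then V.idxFun ⟨i, h⟩ else Sum.inl (y ⟨i, h⟩)
  proper e := by
    obtain ⟨⟨i, hi⟩, h⟩ := V.proper e
    exact ⟨i, by simp [hi, h]⟩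

theorem extL_apply {d K : ℕ} {ι : Type} [DecidableEq ι] (S : Finset ι)
    (V : Subspace (Fin d) (Fin K) {i // i ∈ S}) (y : {i // i ∉ S} → Fin K)
    (z : Fin d → Fin K) : extL S V y z = glueW S (V z) y := by
  funext i
  unfold glueW
  rw [Subspace.coe_apply]
  unfold extL
  simp only
  split_ifs with h
  · rfl
  · rfl

/-- The points of `E` not covered by the family. -/
noncomputable def leftover {d K : ℕ} {ι : Type} [Fintype ι]
    (𝒱 : Finset (Subspace (Fin d) (Fin K) ι)) (E : Finset (ι → Fin K)) :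
    Finset (ι → Fin K) := by
  classical exact E \ cover 𝒱

theorem mem_leftover {d K : ℕ} {ι : Type} [Fintype ι]
    (𝒱 : Finset (Subspace (Fin d) (Fin K) ι)) (E : Finset (ι → Fin K)) (w : ι → Fin K) :
    w ∈ leftover 𝒱 E ↔ w ∈ E ∧ w ∉ cover 𝒱 := by
  classical
  unfold leftover
  rw [Finset.mem_sdiff]

theorem card_leftover {d K : ℕ} {ι : Type} [Fintype ι]
    (𝒱 : Finset (Subspace (Fin d) (Fin K) ι)) (E : Finset (ι → Fin K))
    (h1 : ∀ V ∈ 𝒱, ∀ x, V x ∈ E) (h2 : DisjFam 𝒱) :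
    E.card = 𝒱.card * K ^ d + (leftover 𝒱 E).card := by
  classical
  have hsub : cover 𝒱 ⊆ E := by
    intro w hw
    rw [mem_cover] at hw
    obtain ⟨V, hV, x, rfl⟩ := hw
    exact h1 V hV x
  unfold leftover
  rw [← card_cover 𝒱 h2, add_comm, Finset.card_sdiff_add_card_eq_card hsub]

/-- The induction statement: after `t` rounds the leftover is at most `max γ (1 - t c)`. -/
def PartT (k : ℕ) (a : Fin k) (d : ℕ) (γ c : ℝ) (M0 t : ℕ) : Prop :=
  ∀ (ι : Type) [Fintype ι] [DecidableEq ι], t * M0 ≤ Fintype.card ι →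
    ∀ E : Finset (ι → Fin (k + 1)), Insens a E →
      ∃ 𝒱 : Finset (Subspace (Fin d) (Fin (k + 1)) ι),
        (∀ V ∈ 𝒱, ∀ x, V x ∈ E) ∧ DisjFam 𝒱 ∧
        ((leftover 𝒱 E).card : ℝ) ≤ max γ (1 - t * c) * ((k : ℝ) + 1) ^ Fintype.card ι

theorem partT_zero (k : ℕ) (a : Fin k) (d : ℕ) (γ c : ℝ) (M0 : ℕ) :
    PartT k a d γ c M0 0 := by
  classical
  intro ι _ _ _ E _
  refine ⟨∅, by simp, by intro V hV; simp at hV, ?_⟩
  have h1 : (leftover (∅ : Finset (Subspace (Fin d) (Fin (k + 1)) ι)) E).card ≤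
      (k + 1) ^ Fintype.card ι := by
    rw [← card_words (K := k + 1) (ι := ι)]
    exact Finset.card_le_card (Finset.subset_univ _)
  have h2 : ((leftover (∅ : Finset (Subspace (Fin d) (Fin (k + 1)) ι)) E).card : ℝ) ≤
      ((k : ℝ) + 1) ^ Fintype.card ι := by exact_mod_cast h1
  refine h2.trans ?_
  have h3 : (1 : ℝ) ≤ max γ (1 - ((0 : ℕ) : ℝ) * c) := by
    refine le_trans ?_ (le_max_right _ _)
    simp
  have h4 : (0 : ℝ) ≤ ((k : ℝ) + 1) ^ Fintype.card ι := by positivity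
  nlinarith

theorem partT_succ (k : ℕ) (a : Fin k) (d : ℕ) (γ : ℝ) (hγ : 0 < γ) (M0 t : ℕ)
    (hM0 : ∀ (ι : Type) [Fintype ι] [DecidableEq ι], M0 ≤ Fintype.card ι →
      ∀ E : Finset (ι → Fin (k + 1)), Insens a E →
      γ / 2 * ((k : ℝ) + 1) ^ Fintype.card ι ≤ (E.card : ℝ) →
      ∃ V : Subspace (Fin d) (Fin (k + 1)) ι, ∀ x, V x ∈ E)
    (ih : PartT k a d γ (γ / 2 * ((k : ℝ) + 1) ^ d / ((k : ℝ) + 1) ^ M0) M0 t) :
    PartT k a d γ (γ / 2 * ((k : ℝ) + 1) ^ d / ((k : ℝ) + 1) ^ M0) M0 (t + 1) := by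
  classical
  intro ι _ _ hι E hE
  set c : ℝ := γ / 2 * ((k : ℝ) + 1) ^ d / ((k : ℝ) + 1) ^ M0 with hc
  have hM0ι : M0 ≤ (univ : Finset ι).card := by
    rw [Finset.card_univ]
    have : M0 ≤ (t + 1) * M0 := by nlinarith
    exact this.trans hι
  obtain ⟨S, -, hS⟩ := Finset.exists_subset_card_eq hM0ι
  have hcS : Fintype.card {i // i ∈ S} = M0 := by rw [Fintype.card_coe, hS]
  have hcsum : Fintype.card {i // i ∈ S} + Fintype.card {i // i ∉ S} = Fintype.card ι := by
    rw [← Fintype.card_sum]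
    exact Fintype.card_congr (Equiv.sumCompl (fun i => i ∈ S))
  set n' := Fintype.card {i // i ∉ S} with hn'
  have hn : Fintype.card ι = M0 + n' := by omega
  have hn't : t * M0 ≤ n' := by
    have : (t + 1) * M0 = t * M0 + M0 := by ring
    omega
  -- slices
  set sl : ({i // i ∈ S} → Fin (k + 1)) → Finset ({i // i ∉ S} → Fin (k + 1)) :=
    fun x => univ.filter (fun y => glueW S x y ∈ E) with hsl
  have hslI : ∀ x, Insens a (sl x) := by
    intro x y y' hyy
    simp only [hsl, mem_filter, mem_univ, true_and]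
    refine hE _ _ ?_
    intro i
    unfold glueW
    split_ifs with h
    · left; rfl
    · exact hyy ⟨i, h⟩
  choose F hF1 hF2 hF3 using fun (D : Finset ({i // i ∉ S} → Fin (k + 1)))
    (hD : Insens a D) => ih {i // i ∉ S} hn't D hD
  have hFcongr : ∀ D D' (h : Insens a D) (h' : Insens a D'), D = D' → F D h = F D' h' := by
    intro D D' h h' heq
    subst heq
    rfl
  -- the first family
  set 𝒱1 : Finset (Subspace (Fin d) (Fin (k + 1)) ι) :=
    univ.biUnion (fun x => (F (sl x) (hslI x)).image (fun V => extR S x V)) with h𝒱1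
  have hmem1 : ∀ V, V ∈ 𝒱1 ↔ ∃ x, ∃ V' ∈ F (sl x) (hslI x), extR S x V' = V := by
    intro V
    rw [h𝒱1, Finset.mem_biUnion]
    simp
  have hcov1 : ∀ x y, glueW S x y ∈ cover 𝒱1 ↔ y ∈ cover (F (sl x) (hslI x)) := by
    intro x y
    rw [mem_cover, mem_cover]
    constructor
    · rintro ⟨V, hV, z, hz⟩
      rw [hmem1] at hV
      obtain ⟨x', V', hV', rfl⟩ := hV
      rw [extR_apply] at hz
      obtain ⟨rfl, rfl⟩ := glueW_inj S hz
      exact ⟨V', hV', z, rfl⟩
    · rintro ⟨V', hV', z, rfl⟩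
      refine ⟨extR S x V', (hmem1 _).2 ⟨x, V', hV', rfl⟩, z, ?_⟩
      rw [extR_apply]
  have hin1 : ∀ V ∈ 𝒱1, ∀ z, V z ∈ E := by
    intro V hV z
    rw [hmem1] at hV
    obtain ⟨x, V', hV', rfl⟩ := hV
    rw [extR_apply]
    have := hF1 (sl x) (hslI x) V' hV' z
    simpa [hsl] using this
  have hdis1 : DisjFam 𝒱1 := by
    intro V hV W hW hne z z' heq
    rw [hmem1] at hV hW
    obtain ⟨x, V', hV', rfl⟩ := hV
    obtain ⟨x', W', hW', rfl⟩ := hW
    rw [extR_apply, extR_apply] at heq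
    obtain ⟨rfl, h2⟩ := glueW_inj S heq
    by_cases hVW : V' = W'
    · exact hne (by rw [hVW])
    · exact hF2 (sl x) (hslI x) V' hV' W' hW' hVW z z' h2
  set L := leftover 𝒱1 E with hL
  have hmemL : ∀ x y, glueW S x y ∈ L ↔ y ∈ leftover (F (sl x) (hslI x)) (sl x) := by
    intro x y
    rw [hL, mem_leftover, mem_leftover, hcov1]
    simp [hsl]
  have hKpos : (0 : ℝ) < (k : ℝ) + 1 := by positivity
  have hLcard : (L.card : ℝ) ≤ max γ (1 - t * c) * ((k : ℝ) + 1) ^ Fintype.card ι := by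
    rw [card_eq_sum_left S L]
    push_cast
    have h1 : ∀ x : {i // i ∈ S} → Fin (k + 1),
        ((univ.filter (fun y : {i // i ∉ S} → Fin (k + 1) => glueW S x y ∈ L)).card : ℝ) ≤
          max γ (1 - t * c) * ((k : ℝ) + 1) ^ n' := by
      intro x
      have h2 : (univ.filter (fun y : {i // i ∉ S} → Fin (k + 1) => glueW S x y ∈ L)) =
          leftover (F (sl x) (hslI x)) (sl x) := by
        ext y
        simp [hmemL]
      rw [h2]
      exact hF3 (sl x) (hslI x)
    refine (Finset.sum_le_sum fun x _ => h1 x).trans ?_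
    rw [Finset.sum_const, card_words, hcS, hn, nsmul_eq_mul, pow_add]
    push_cast
    apply le_of_eq
    ring
  by_cases hcase : (L.card : ℝ) ≤ γ * ((k : ℝ) + 1) ^ Fintype.card ι
  · refine ⟨𝒱1, hin1, hdis1, hcase.trans ?_⟩
    exact mul_le_mul_of_nonneg_right (le_max_left _ _) (by positivity)
  rw [not_le] at hcase
  -- the second family
  set sR : ({i // i ∉ S} → Fin (k + 1)) → Finset ({i // i ∈ S} → Fin (k + 1)) :=
    fun y => univ.filter (fun x => glueW S x y ∈ L) with hsR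
  have hsRI : ∀ y, Insens a (sR y) := by
    intro y x x' hxx
    have hE1 : ∀ y', (glueW S x y' ∈ E ↔ glueW S x' y' ∈ E) := by
      intro y'
      refine hE _ _ ?_
      intro i
      unfold glueW
      split_ifs with h
      · exact hxx ⟨i, h⟩
      · left; rfl
    have hsl2 : sl x = sl x' := by
      simp only [hsl]
      ext y'
      simp [hE1 y']
    simp only [hsR, mem_filter, mem_univ, true_and]
    rw [hmemL, hmemL, mem_leftover, mem_leftover, hFcongr _ _ _ (hslI x') hsl2, hsl2]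
  set Yg : Finset ({i // i ∉ S} → Fin (k + 1)) :=
    univ.filter (fun y => γ / 2 * ((k : ℝ) + 1) ^ M0 ≤ ((sR y).card : ℝ)) with hYg
  have hex : ∀ y, y ∈ Yg → ∃ V : Subspace (Fin d) (Fin (k + 1)) {i // i ∈ S},
      ∀ z, V z ∈ sR y := by
    intro y hy
    refine hM0 {i // i ∈ S} hcS.ge (sR y) (hsRI y) ?_
    rw [hcS]
    simpa [hYg] using hy
  choose V2 hV2 using hex
  set 𝒱2 : Finset (Subspace (Fin d) (Fin (k + 1)) ι) :=
    Yg.attach.image (fun y => extL S (V2 y.1 y.2) y.1) with h𝒱2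
  have hmem2 : ∀ V, V ∈ 𝒱2 ↔ ∃ y, ∃ hy : y ∈ Yg, extL S (V2 y hy) y = V := by
    intro V
    rw [h𝒱2, Finset.mem_image]
    constructor
    · rintro ⟨⟨y, hy⟩, -, h⟩
      exact ⟨y, hy, h⟩
    · rintro ⟨y, hy, h⟩
      exact ⟨⟨y, hy⟩, Finset.mem_attach _ _, h⟩
  have z0 : Fin d → Fin (k + 1) := fun _ => 0
  have hcard2 : 𝒱2.card = Yg.card := by
    rw [h𝒱2, Finset.card_image_of_injective, Finset.card_attach]
    intro y y' heq
    have h1 : extL S (V2 y.1 y.2) y.1 z0 = extL S (V2 y'.1 y'.2) y'.1 z0 := by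
      simp only at heq
      rw [heq]
    rw [extL_apply, extL_apply] at h1
    exact Subtype.ext (glueW_inj S h1).2
  have hinL : ∀ V ∈ 𝒱2, ∀ z, V z ∈ L := by
    intro V hV z
    rw [hmem2] at hV
    obtain ⟨y, hy, rfl⟩ := hV
    rw [extL_apply]
    have := hV2 y hy z
    simpa [hsR] using this
  have hdis2 : DisjFam 𝒱2 := by
    intro V hV W hW hne z z' heq
    rw [hmem2] at hV hW
    obtain ⟨y, hy, rfl⟩ := hV
    obtain ⟨y', hy', rfl⟩ := hW
    rw [extL_apply, extL_apply] at heq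
    obtain ⟨-, rfl⟩ := glueW_inj S heq
    exact hne rfl
  have h12 : ∀ V ∈ 𝒱1, ∀ W ∈ 𝒱2, ∀ z z', V z ≠ W z' := by
    intro V hV W hW z z' heq
    have h1 := hinL W hW z'
    rw [hL, mem_leftover] at h1
    apply h1.2
    rw [mem_cover]
    exact ⟨V, hV, z, heq⟩
  have hdisj : Disjoint 𝒱1 𝒱2 := by
    rw [Finset.disjoint_left]
    intro V hV hV'
    exact h12 V hV V hV' z0 z0 rfl
  have hin : ∀ V ∈ 𝒱1 ∪ 𝒱2, ∀ z, V z ∈ E := by
    intro V hV z
    rw [Finset.mem_union] at hV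
    rcases hV with hV | hV
    · exact hin1 V hV z
    · have h1 := hinL V hV z
      rw [hL, mem_leftover] at h1
      exact h1.1
  have hdis : DisjFam (𝒱1 ∪ 𝒱2) := by
    intro V hV W hW hne z z'
    rw [Finset.mem_union] at hV hW
    rcases hV with hV | hV <;> rcases hW with hW | hW
    · exact hdis1 V hV W hW hne z z'
    · exact h12 V hV W hW z z'
    · exact (h12 W hW V hV z' z).symm
    · exact hdis2 V hV W hW hne z z'
  refine ⟨𝒱1 ∪ 𝒱2, hin, hdis, ?_⟩
  have e1 := card_leftover 𝒱1 E hin1 hdis1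
  have e2 := card_leftover (𝒱1 ∪ 𝒱2) E hin hdis
  rw [Finset.card_union_of_disjoint hdisj, hcard2] at e2
  rw [← hL] at e1
  have e3 : (L.card : ℝ) = (Yg.card : ℝ) * ((k : ℝ) + 1) ^ d +
      ((leftover (𝒱1 ∪ 𝒱2) E).card : ℝ) := by
    have e4 : L.card = Yg.card * (k + 1) ^ d + (leftover (𝒱1 ∪ 𝒱2) E).card := by
      have e5 : 𝒱1.card * (k + 1) ^ d + L.card = 𝒱1.card * (k + 1) ^ d +
          (Yg.card * (k + 1) ^ d + (leftover (𝒱1 ∪ 𝒱2) E).card) := by
        rw [← e1, e2]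
        ring
      exact Nat.add_left_cancel e5
    exact_mod_cast e4
  -- many good y
  have hYgc : γ / 2 * ((k : ℝ) + 1) ^ n' ≤ (Yg.card : ℝ) := by
    have h1 : (L.card : ℝ) = ∑ y : {i // i ∉ S} → Fin (k + 1), ((sR y).card : ℝ) := by
      rw [card_eq_sum_right S L]
      push_cast
      rfl
    have h2 : ∀ y : {i // i ∉ S} → Fin (k + 1), ((sR y).card : ℝ) ≤
        (if y ∈ Yg then ((k : ℝ) + 1) ^ M0 else 0) + γ / 2 * ((k : ℝ) + 1) ^ M0 := by
      intro y
      split_ifs with hy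
      · have h3 : (sR y).card ≤ (k + 1) ^ M0 := by
          rw [← hcS, ← card_words (K := k + 1) (ι := {i // i ∈ S})]
          exact Finset.card_le_card (Finset.subset_univ _)
        have h4 : ((sR y).card : ℝ) ≤ ((k : ℝ) + 1) ^ M0 := by exact_mod_cast h3
        have h5 : (0 : ℝ) ≤ γ / 2 * ((k : ℝ) + 1) ^ M0 := by positivity
        linarith
      · simp only [hYg, mem_filter, mem_univ, true_and, not_le] at hy
        linarith
    have h3 : (L.card : ℝ) ≤ (Yg.card : ℝ) * ((k : ℝ) + 1) ^ M0 +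
        ((k : ℝ) + 1) ^ n' * (γ / 2 * ((k : ℝ) + 1) ^ M0) := by
      rw [h1]
      refine (Finset.sum_le_sum fun y _ => h2 y).trans ?_
      rw [Finset.sum_add_distrib, ← Finset.sum_filter, Finset.sum_const, Finset.sum_const,
        card_words, nsmul_eq_mul, nsmul_eq_mul, ← hn']
      have h4 : (univ.filter (fun y => y ∈ Yg)) = Yg := by simp
      rw [h4]
      push_cast
      exact le_rfl
    rw [hn, pow_add] at hcase
    have h5 : (0 : ℝ) < ((k : ℝ) + 1) ^ M0 := by positivity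
    by_contra hcon
    rw [not_le] at hcon
    have h6 := mul_lt_mul_of_pos_right hcon h5
    nlinarith
  have hmax : (L.card : ℝ) ≤ (1 - t * c) * ((k : ℝ) + 1) ^ Fintype.card ι := by
    rcases le_total γ (1 - t * c) with h | h
    · rwa [max_eq_right h] at hLcard
    · rw [max_eq_left h] at hLcard
      linarith
  have hfin : c * ((k : ℝ) + 1) ^ Fintype.card ι ≤ (Yg.card : ℝ) * ((k : ℝ) + 1) ^ d := by
    have h1 : c * ((k : ℝ) + 1) ^ Fintype.card ι =
        γ / 2 * ((k : ℝ) + 1) ^ n' * ((k : ℝ) + 1) ^ d := by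
      rw [hc, hn, pow_add]
      field_simp
    rw [h1]
    exact mul_le_mul_of_nonneg_right hYgc (by positivity)
  calc ((leftover (𝒱1 ∪ 𝒱2) E).card : ℝ)
      = (L.card : ℝ) - (Yg.card : ℝ) * ((k : ℝ) + 1) ^ d := by rw [e3]; ring
    _ ≤ (1 - t * c) * ((k : ℝ) + 1) ^ Fintype.card ι
        - c * ((k : ℝ) + 1) ^ Fintype.card ι := by linarith
    _ = (1 - ((t + 1 : ℕ) : ℝ) * c) * ((k : ℝ) + 1) ^ Fintype.card ι := by push_cast; ring
    _ ≤ max γ (1 - ((t + 1 : ℕ) : ℝ) * c) * ((k : ℝ) + 1) ^ Fintype.card ι :=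
        mul_le_mul_of_nonneg_right (le_max_right _ _) (by positivity)

theorem claimA3b : ClaimA3b := by
  classical
  intro k hk a h d γ hγ
  obtain ⟨M0, hM0⟩ := h d (γ / 2) (by positivity)
  set c : ℝ := γ / 2 * ((k : ℝ) + 1) ^ d / ((k : ℝ) + 1) ^ M0 with hc
  have hcpos : 0 < c := by positivity
  have key : ∀ t : ℕ, PartT k a d γ c M0 t := by
    intro t
    induction t with
    | zero => exact partT_zero k a d γ c M0
    | succ t ih => exact partT_succ k a d γ hγ M0 t hM0 ih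
  obtain ⟨t, ht⟩ := exists_nat_gt (1 / c)
  refine ⟨t * M0, ?_⟩
  intro ι _ _ hι E hE
  obtain ⟨𝒱, h1, h2, h3⟩ := key t ι hι E hE
  refine ⟨𝒱, h1, h2, ?_⟩
  have h4 : max γ (1 - t * c) = γ := by
    apply max_eq_left
    have h5 : 1 < t * c := by
      rw [div_lt_iff₀ hcpos] at ht
      exact ht
    linarith
  rw [h4] at h3
  have h6 := card_leftover 𝒱 E h1 h2
  have h7 : (E.card : ℝ) = (𝒱.card : ℝ) * ((k : ℝ) + 1) ^ d + ((leftover 𝒱 E).card : ℝ) := by
    exact_mod_cast h6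
  rw [h7]
  linarith

end D159

end

section

/-!
# MP_d159ed_nt, part B2a: the abstract dense model theorem
-/

set_option autoImplicit false

namespace D159

open Finset
open scoped BigOperators Pointwise

section aux

variable {X : Type} [Fintype X] [Nonempty X]

/-- the continuous linear functional `h ↦ 𝔼 h ψ` -/
noncomputable def ip (ψ : X → ℝ) : (X → ℝ) →ₗ[ℝ] ℝ where
  toFun h := 𝔼 x, h x * ψ x
  map_add' a b := by
    simp only [Pi.add_apply, add_mul, expect_add_distrib]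
  map_smul' c a := by
    simp only [Pi.smul_apply, smul_eq_mul, mul_assoc, RingHom.id_apply, mul_expect]

lemma ip_apply (ψ h : X → ℝ) : ip ψ h = 𝔼 x, h x * ψ x := rfl

lemma ip_comm (ψ h : X → ℝ) : ip ψ h = ip h ψ := by
  simp only [ip_apply, mul_comm]

lemma continuous_ip (ψ : X → ℝ) : Continuous (ip ψ) := LinearMap.continuous_of_finiteDimensional _

lemma exists_ip (l : (X → ℝ) →L[ℝ] ℝ) : ∃ ψ : X → ℝ, ∀ h, l h = ip ψ h := by
  classical
  refine ⟨fun x => (Fintype.card X : ℝ) * l (fun j => if x = j then 1 else 0), fun h => ?_⟩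
  have h1 := LinearMap.pi_apply_eq_sum_univ (l : (X → ℝ) →ₗ[ℝ] ℝ) h
  simp only [ContinuousLinearMap.coe_coe, smul_eq_mul] at h1
  rw [h1, ip_apply, Fintype.expect_eq_sum_div_card, Finset.sum_div]
  have hc : (Fintype.card X : ℝ) ≠ 0 := by
    exact_mod_cast Fintype.card_ne_zero
  refine sum_congr rfl fun x _ => ?_
  field_simp

/-- the symmetric convex hull -/
def HH (Φ : Set (X → ℝ)) : Set (X → ℝ) := convexHull ℝ (Φ ∪ -Φ)

omit [Fintype X] [Nonempty X] in
lemma neg_mem_convexHull {Φ : Set (X → ℝ)} {a : X → ℝ} (ha : a ∈ convexHull ℝ Φ) :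
    -a ∈ convexHull ℝ (-Φ) := by
  rw [convexHull_neg]
  simpa using ha

omit [Fintype X] [Nonempty X] in
lemma mul_mem_gen {Φ : Set (X → ℝ)} (hΦ : ∀ φ ∈ Φ, ∀ φ' ∈ Φ, φ * φ' ∈ convexHull ℝ Φ)
    {a b : X → ℝ} (ha : a ∈ Φ ∪ -Φ) (hb : b ∈ Φ ∪ -Φ) : a * b ∈ HH Φ := by
  have h1 : ∀ c ∈ convexHull ℝ Φ, c ∈ HH Φ := fun c hc =>
    convexHull_mono Set.subset_union_left hc
  have h2 : ∀ c ∈ convexHull ℝ Φ, -c ∈ HH Φ := fun c hc =>
    convexHull_mono Set.subset_union_right (neg_mem_convexHull hc)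
  rcases ha with ha | ha <;> rcases hb with hb | hb
  · exact h1 _ (hΦ a ha b hb)
  · have := h2 _ (hΦ a ha (-b) hb)
    simpa using this
  · have := h2 _ (hΦ (-a) ha b hb)
    simpa using this
  · have := h1 _ (hΦ (-a) ha (-b) hb)
    simpa using this

omit [Fintype X] [Nonempty X] in
lemma mul_mem_HH {Φ : Set (X → ℝ)} (hΦ : ∀ φ ∈ Φ, ∀ φ' ∈ Φ, φ * φ' ∈ convexHull ℝ Φ)
    {a b : X → ℝ} (ha : a ∈ HH Φ) (hb : b ∈ HH Φ) : a * b ∈ HH Φ := by
  have step1 : ∀ a ∈ Φ ∪ -Φ, ∀ b ∈ HH Φ, a * b ∈ HH Φ := by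
    intro a ha b hb
    have hsub : HH Φ ⊆ (LinearMap.mulLeft ℝ a) ⁻¹' (HH Φ) := by
      refine convexHull_min (fun b hb => ?_) ((convex_convexHull ℝ _).linear_preimage _)
      simpa using mul_mem_gen hΦ ha hb
    simpa using hsub hb
  have hsub : HH Φ ⊆ (LinearMap.mulRight ℝ b) ⁻¹' (HH Φ) := by
    refine convexHull_min (fun a ha => ?_) ((convex_convexHull ℝ _).linear_preimage _)
    simpa using step1 a ha b hb
  simpa using hsub ha

omit [Fintype X] [Nonempty X] in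
lemma mul_mem_closure {Φ : Set (X → ℝ)} (hΦ : ∀ φ ∈ Φ, ∀ φ' ∈ Φ, φ * φ' ∈ convexHull ℝ Φ)
    {a b : X → ℝ} (ha : a ∈ closure (HH Φ)) (hb : b ∈ closure (HH Φ)) :
    a * b ∈ closure (HH Φ) :=
  map_mem_closure₂ (f := fun a b : X → ℝ => a * b) continuous_mul ha hb
    (fun _ ha _ hb => mul_mem_HH hΦ ha hb)

omit [Fintype X] [Nonempty X] in
lemma pow_mem_closure {Φ : Set (X → ℝ)} (h1 : (1 : X → ℝ) ∈ Φ)
    (hΦ : ∀ φ ∈ Φ, ∀ φ' ∈ Φ, φ * φ' ∈ convexHull ℝ Φ)
    {a : X → ℝ} (ha : a ∈ closure (HH Φ)) (i : ℕ) : a ^ i ∈ closure (HH Φ) := by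
  induction i with
  | zero =>
    rw [pow_zero]
    exact subset_closure (subset_convexHull ℝ _ (Or.inl h1))
  | succ i ih =>
    rw [pow_succ]
    exact mul_mem_closure hΦ ih ha

omit [Fintype X] [Nonempty X] in
lemma closure_HH_min {Φ Z : Set (X → ℝ)} (h1 : Φ ⊆ Z) (h2 : ∀ a ∈ Φ, -a ∈ Z)
    (hc : Convex ℝ Z) (hcl : IsClosed Z) : closure (HH Φ) ⊆ Z := by
  refine closure_minimal (convexHull_min ?_ hc) hcl
  rintro a (ha | ha)
  · exact h1 ha
  · have := h2 _ ha
    simpa using this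

/-- The separation step: if no `g` works, there is a bad `ψ` in the closure of the hull. -/
lemma separation {ε : ℝ} (hε : 0 < ε) (Φ : Set (X → ℝ)) (h1 : (1 : X → ℝ) ∈ Φ) (f : X → ℝ)
    (hno : ¬ ∃ g : X → ℝ, (∀ x, 0 ≤ g x ∧ g x ≤ 1) ∧ ∀ φ ∈ Φ, |𝔼 x, (f x - g x) * φ x| ≤ ε) :
    ∃ ψ ∈ closure (HH Φ), ∀ g : X → ℝ, (∀ x, 0 ≤ g x ∧ g x ≤ 1) → ε < 𝔼 x, (f x - g x) * ψ x := by
  -- the two convex sets
  set K1 : Set (X → ℝ) := {g | ∀ x, 0 ≤ g x ∧ g x ≤ 1} with hK1
  set S : Set (X → ℝ) := (fun g : X → ℝ => f - g) '' K1 with hS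
  set K2 : Set (X → ℝ) := {h | ∀ φ ∈ Φ, |ip φ h| ≤ ε} with hK2
  have hK1' : K1 = Set.Icc (0 : X → ℝ) 1 := by
    ext g
    simp only [hK1, Set.mem_ofPred_eq, Set.mem_Icc, Pi.le_def, Pi.zero_apply, Pi.one_apply]
    exact forall_and
  have hK1c : IsCompact K1 := by rw [hK1']; exact isCompact_Icc
  have hK1v : Convex ℝ K1 := by rw [hK1']; exact convex_Icc _ _
  have hSc : IsCompact S := hK1c.image (continuous_const.sub continuous_id)
  have hSv : Convex ℝ S := by
    have h2 := (convex_singleton (𝕜 := ℝ) f).sub hK1v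
    have h3 : S = ({f} : Set (X → ℝ)) - K1 := by
      ext a
      simp [hS, Set.mem_sub]
    rw [h3]
    exact h2
  have hK2v : Convex ℝ K2 := by
    intro a ha b hb s t hs ht hst φ hφ
    have h2 := ha φ hφ
    have h3 := hb φ hφ
    rw [map_add, map_smul, map_smul, smul_eq_mul, smul_eq_mul]
    calc |s * ip φ a + t * ip φ b| ≤ |s * ip φ a| + |t * ip φ b| := abs_add_le _ _
      _ = s * |ip φ a| + t * |ip φ b| := by rw [abs_mul, abs_mul, abs_of_nonneg hs, abs_of_nonneg ht]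
      _ ≤ s * ε + t * ε := by gcongr
      _ = ε := by rw [← add_mul, hst, one_mul]
  have hK2c : IsClosed K2 := by
    have : K2 = ⋂ φ ∈ Φ, {h | |ip φ h| ≤ ε} := by
      ext h
      simp [hK2]
    rw [this]
    exact isClosed_biInter fun φ _ =>
      isClosed_le (continuous_abs.comp (continuous_ip φ)) continuous_const
  have hdisj : Disjoint S K2 := by
    rw [Set.disjoint_left]
    rintro a ⟨g, hg, rfl⟩ ha
    exact hno ⟨g, hg, fun φ hφ => by simpa [ip_apply] using ha φ hφ⟩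
  obtain ⟨l, u, v, hl1, huv, hl2⟩ :=
    geometric_hahn_banach_compact_closed hSv hSc hK2v hK2c hdisj
  obtain ⟨ψ0, hψ0⟩ := exists_ip l
  have h0K2 : (0 : X → ℝ) ∈ K2 := by
    intro φ _
    rw [map_zero, abs_zero]
    exact hε.le
  have hv : v < 0 := by
    have := hl2 0 h0K2
    rwa [map_zero] at this
  -- rescale
  set c : ℝ := ε / v with hc
  have hcneg : c < 0 := div_neg_of_pos_of_neg hε hv
  set ψ : X → ℝ := c • ψ0 with hψ
  have hipψ : ∀ h : X → ℝ, ip ψ h = c * l h := by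
    intro h
    rw [hψ0, ip_comm, hψ, map_smul, smul_eq_mul, ip_comm]
  have hcv : c * v = ε := by rw [hc, div_mul_cancel₀ _ hv.ne]
  have hA : ∀ g ∈ K1, ε < ip ψ (f - g) := by
    intro g hg
    rw [hipψ]
    have h3 := hl1 (f - g) ⟨g, hg, rfl⟩
    have h4 : c * v < c * l (f - g) := mul_lt_mul_of_neg_left (h3.trans huv) hcneg
    rwa [hcv] at h4
  have hB : ∀ h ∈ K2, ip ψ h < ε := by
    intro h hh
    rw [hipψ]
    have h4 : c * l h < c * v := mul_lt_mul_of_neg_left (hl2 h hh) hcneg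
    rwa [hcv] at h4
  refine ⟨ψ, ?_, fun g hg => ?_⟩
  · by_contra hmem
    obtain ⟨m, w, hm1, hm2⟩ := geometric_hahn_banach_closed_point
      ((convex_convexHull ℝ (Φ ∪ -Φ)).closure) isClosed_closure hmem
    obtain ⟨h, hh⟩ := exists_ip m
    have hin : ∀ a ∈ Φ ∪ -Φ, m a < w := fun a ha =>
      hm1 a (subset_closure (subset_convexHull ℝ _ ha))
    have hw : 0 < w := by
      have e1 := hin 1 (Or.inl h1)
      have e2 := hin (-1) (Or.inr (by simpa using h1))
      rw [map_neg] at e2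
      linarith
    have hd : 0 < ε / w := div_pos hε hw
    have hK : (ε / w) • h ∈ K2 := by
      intro φ hφ
      rw [map_smul, smul_eq_mul, abs_mul, abs_of_pos hd, ip_comm, ← hh]
      have e1 := hin φ (Or.inl hφ)
      have e2 := hin (-φ) (Or.inr (by simpa using hφ))
      rw [map_neg] at e2
      have e3 : |m φ| ≤ w := abs_le.mpr ⟨by linarith, e1.le⟩
      calc ε / w * |m φ| ≤ ε / w * w := by gcongr
        _ = ε := by field_simp
    have h5 := hB _ hK
    rw [map_smul, smul_eq_mul, ip_comm, ← hh] at h5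
    have h6 : ε / w * w < ε / w * m ψ := mul_lt_mul_of_pos_left hm2 hd
    have h7 : ε / w * w = ε := by field_simp
    linarith
  · have := hA g hg
    simpa [ip_apply] using this

end aux

theorem claimB2a : ClaimB2a := by
  intro ε hε
  -- polynomial approximation of the positive part
  obtain ⟨P, hP⟩ := exists_polynomial_near_of_continuousOn (-1) 1 (fun t : ℝ => max t 0)
    (continuous_id.max continuous_const).continuousOn (ε / 8) (by positivity)
  set C : ℝ := ∑ i ∈ range (P.natDegree + 1), |P.coeff i| with hC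
  have hC0 : 0 ≤ C := sum_nonneg fun i _ => abs_nonneg _
  refine ⟨min 1 (ε / (8 * (C + 1))), lt_min one_pos (by positivity), ?_⟩
  intro X _ _ Φ h1 hΦ1 hΦ2 f ν hf hfν hν
  set κ : ℝ := min 1 (ε / (8 * (C + 1))) with hκ
  have hκ0 : 0 < κ := lt_min one_pos (by positivity)
  have hκ1 : κ ≤ 1 := min_le_left _ _
  have hκC : C * κ ≤ ε / 8 := by
    calc C * κ ≤ (C + 1) * (ε / (8 * (C + 1))) := by
          gcongr
          · linarith
          · exact min_le_right _ _
      _ = ε / 8 := by field_simp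
  by_contra hno
  obtain ⟨ψ, hψ, hsep⟩ := separation hε Φ h1 f hno
  -- properties of ψ
  have hψ1 : ∀ x, |ψ x| ≤ 1 := by
    have : closure (HH Φ) ⊆ {a : X → ℝ | ∀ x, |a x| ≤ 1} := by
      apply closure_HH_min
      · exact fun a ha => hΦ1 a ha
      · intro a ha x
        simpa using hΦ1 a ha x
      · intro a ha b hb s t hs ht hst x
        simp only [Pi.add_apply, Pi.smul_apply, smul_eq_mul]
        calc |s * a x + t * b x| ≤ |s * a x| + |t * b x| := abs_add_le _ _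
          _ = s * |a x| + t * |b x| := by
            rw [abs_mul, abs_mul, abs_of_nonneg hs, abs_of_nonneg ht]
          _ ≤ s * 1 + t * 1 := by
            have h3 := ha x
            have h4 := hb x
            gcongr
          _ = 1 := by linarith
      · have : {a : X → ℝ | ∀ x, |a x| ≤ 1} = ⋂ x, {a : X → ℝ | |a x| ≤ 1} := by
          ext a
          simp
        rw [this]
        exact isClosed_iInter fun x =>
          isClosed_le (continuous_abs.comp (continuous_apply x)) continuous_const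
    exact this hψ
  have hνψ : ∀ a ∈ closure (HH Φ), |𝔼 x, (ν x - 1) * a x| ≤ κ := by
    have : closure (HH Φ) ⊆ {a : X → ℝ | |ip (fun x => ν x - 1) a| ≤ κ} := by
      apply closure_HH_min
      · intro a ha
        have := hν a ha
        simpa [ip_apply, mul_comm] using this
      · intro a ha
        have := hν a ha
        simp only [Set.mem_ofPred_eq, map_neg, abs_neg]
        simpa [ip_apply, mul_comm] using this
      · intro a ha b hb s t hs ht hst
        simp only [Set.mem_ofPred_eq] at ha hb ⊢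
        rw [map_add, map_smul, map_smul, smul_eq_mul, smul_eq_mul]
        calc |s * ip (fun x => ν x - 1) a + t * ip (fun x => ν x - 1) b|
            ≤ |s * ip (fun x => ν x - 1) a| + |t * ip (fun x => ν x - 1) b| := abs_add_le _ _
          _ = s * |ip (fun x => ν x - 1) a| + t * |ip (fun x => ν x - 1) b| := by
            rw [abs_mul, abs_mul, abs_of_nonneg hs, abs_of_nonneg ht]
          _ ≤ s * κ + t * κ := by gcongr
          _ = κ := by rw [← add_mul, hst, one_mul]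
      · exact isClosed_le (continuous_abs.comp (continuous_ip _)) continuous_const
    intro a ha
    have h3 := this ha
    simp only [Set.mem_ofPred_eq, ip_apply] at h3
    simpa [mul_comm] using h3
  -- the polynomial in ψ
  have hPν : |𝔼 x, (ν x - 1) * P.eval (ψ x)| ≤ C * κ := by
    have h2 : 𝔼 x, (ν x - 1) * P.eval (ψ x) =
        ∑ i ∈ range (P.natDegree + 1), P.coeff i * 𝔼 x, (ν x - 1) * (ψ ^ i) x := by
      simp_rw [mul_expect]
      rw [← expect_sum_comm]
      refine expect_congr rfl fun x _ => ?_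
      rw [Polynomial.eval_eq_sum_range, mul_sum]
      refine sum_congr rfl fun i _ => ?_
      rw [Pi.pow_apply]
      ring
    rw [h2]
    calc |∑ i ∈ range (P.natDegree + 1), P.coeff i * 𝔼 x, (ν x - 1) * (ψ ^ i) x|
        ≤ ∑ i ∈ range (P.natDegree + 1), |P.coeff i * 𝔼 x, (ν x - 1) * (ψ ^ i) x| :=
          abs_sum_le_sum_abs _ _
      _ ≤ ∑ i ∈ range (P.natDegree + 1), |P.coeff i| * κ := by
          refine sum_le_sum fun i _ => ?_
          rw [abs_mul]
          exact mul_le_mul_of_nonneg_left (hνψ _ (pow_mem_closure h1 hΦ2 hψ i)) (abs_nonneg _)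
      _ = C * κ := by rw [hC, sum_mul]
  have hν1 : 𝔼 x, ν x ≤ 1 + κ := by
    have h2 := hν 1 h1
    simp only [Pi.one_apply, mul_one, expect_sub_distrib] at h2
    rw [Fintype.expect_const] at h2
    have := (abs_le.mp h2).2
    linarith
  -- upper bound
  set g : X → ℝ := fun x => if 0 ≤ ψ x then 1 else 0 with hg
  have hg1 : ∀ x, 0 ≤ g x ∧ g x ≤ 1 := by
    intro x
    simp only [hg]
    split_ifs <;> norm_num
  have hmain := hsep g hg1
  have e1 : 𝔼 x, (f x - g x) * ψ x = 𝔼 x, f x * ψ x - 𝔼 x, max (ψ x) 0 := by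
    rw [← expect_sub_distrib]
    refine expect_congr rfl fun x _ => ?_
    simp only [hg]
    split_ifs with h
    · rw [max_eq_left h]; ring
    · rw [max_eq_right (le_of_not_ge h)]; ring
  have hnear : ∀ x, |P.eval (ψ x) - max (ψ x) 0| < ε / 8 := fun x =>
    hP (ψ x) (Set.mem_Icc.mpr (abs_le.mp (hψ1 x)))
  have e2 : 𝔼 x, f x * ψ x ≤ 𝔼 x, ((ν x - 1) * P.eval (ψ x) + max (ψ x) 0 + ε / 8 + ε / 8 * ν x) := by
    refine expect_le_expect fun x _ => ?_
    have h3 := abs_lt.mp (hnear x)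
    have hνx : 0 ≤ ν x := (hf x).trans (hfν x)
    have h4 : f x * ψ x ≤ ν x * max (ψ x) 0 := by
      calc f x * ψ x ≤ f x * max (ψ x) 0 := mul_le_mul_of_nonneg_left (le_max_left _ _) (hf x)
        _ ≤ ν x * max (ψ x) 0 := mul_le_mul_of_nonneg_right (hfν x) (le_max_right _ _)
    have h5 : ν x * max (ψ x) 0 ≤ ν x * (P.eval (ψ x) + ε / 8) :=
      mul_le_mul_of_nonneg_left (by linarith) hνx
    nlinarith
  have e3 : 𝔼 x, ((ν x - 1) * P.eval (ψ x) + max (ψ x) 0 + ε / 8 + ε / 8 * ν x) =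
      𝔼 x, (ν x - 1) * P.eval (ψ x) + 𝔼 x, max (ψ x) 0 + ε / 8 + ε / 8 * 𝔼 x, ν x := by
    rw [expect_add_distrib, expect_add_distrib, expect_add_distrib, mul_expect,
      Fintype.expect_const]
  have h6 := (abs_le.mp hPν).2
  have h7 : ε / 8 * 𝔼 x, ν x ≤ ε / 8 * 2 := by
    have : 𝔼 x, ν x ≤ 2 := by linarith
    gcongr
  linarith

end D159

end

section

/-!
# MP_d159ed_nt, part B2b: the dense model theorem for the cut norm
-/

set_option autoImplicit false

namespace D159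

open Finset
open scoped BigOperators

section aux

variable {M : ℕ} [NeZero M]

/-- admissible cut functions -/
def Adm (u : Fin 4 → (Fin 4 → ZMod M) → ℝ) : Prop :=
  (∀ i y t, u i (Function.update y i t) = u i y) ∧ (∀ i y, 0 ≤ u i y ∧ u i y ≤ 1)

/-- the dual function -/
noncomputable def phiu (u : Fin 4 → (Fin 4 → ZMod M) → ℝ) (s : ZMod M) : ℝ :=
  (M : ℝ) * 𝔼 y : Fin 4 → ZMod M, if ∑ i, y i = s then ∏ i, u i y else 0

lemma Mne : (M : ℝ) ≠ 0 := Nat.cast_ne_zero.mpr (NeZero.ne M)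

lemma Mpos : (0 : ℝ) < M := Nat.cast_pos.mpr (NeZero.pos M)

/-- `𝔼_s h(s) [a = s] = h(a) / M` -/
lemma expect_ite_eq (h : ZMod M → ℝ) (a : ZMod M) (c : ℝ) :
    𝔼 s : ZMod M, h s * ((M : ℝ) * (if a = s then c else 0)) = h a * c := by
  rw [Fintype.expect_eq_sum_div_card, ZMod.card]
  have h1 : ∑ s : ZMod M, h s * ((M : ℝ) * (if a = s then c else 0)) = h a * ((M : ℝ) * c) := by
    rw [Finset.sum_eq_single a]
    · simp
    · intro s _ hs
      rw [if_neg (Ne.symm hs)]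
      ring
    · intro h
      exact absurd (mem_univ a) h
  rw [h1]
  have := Mne (M := M)
  field_simp

lemma pair_phiu (h : ZMod M → ℝ) (u : Fin 4 → (Fin 4 → ZMod M) → ℝ) :
    𝔼 s : ZMod M, h s * phiu u s = 𝔼 y : Fin 4 → ZMod M, h (∑ i, y i) * ∏ i, u i y := by
  unfold phiu
  simp_rw [mul_expect]
  rw [expect_comm]
  exact expect_congr rfl fun y _ => expect_ite_eq h _ _

lemma shift_sum (y : Fin 4 → ZMod M) (s : ZMod M) :
    ∑ i, (y + (Pi.single 0 s : Fin 4 → ZMod M)) i = ∑ i, y i + s := by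
  simp only [Pi.add_apply, sum_add_distrib, Finset.sum_pi_single', mem_univ, if_true]

lemma count (s : ZMod M) :
    (M : ℝ) * (𝔼 y : Fin 4 → ZMod M, if ∑ i, y i = s then (1 : ℝ) else 0) = 1 := by
  have h1 : ∀ s : ZMod M, (𝔼 y : Fin 4 → ZMod M, if ∑ i, y i = s then (1 : ℝ) else 0) =
      𝔼 y : Fin 4 → ZMod M, if ∑ i, y i = 0 then (1 : ℝ) else 0 := by
    intro s
    symm
    refine Fintype.expect_equiv (Equiv.addRight (Pi.single 0 s : Fin 4 → ZMod M)) _ _ fun y => ?_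
    rw [Equiv.coe_addRight, shift_sum]
    congr 1
    simp
  have h2 : ∑ s : ZMod M, (𝔼 y : Fin 4 → ZMod M, if ∑ i, y i = s then (1 : ℝ) else 0) = 1 := by
    rw [← expect_sum_comm]
    have : ∀ y : Fin 4 → ZMod M, ∑ s : ZMod M, (if ∑ i, y i = s then (1 : ℝ) else 0) = 1 := by
      intro y
      simp
    rw [expect_congr rfl fun y _ => this y, Fintype.expect_const]
  rw [Finset.sum_congr rfl fun s _ => h1 s, sum_const, card_univ, ZMod.card, nsmul_eq_mul] at h2
  rw [h1 s]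
  exact h2

lemma phiu_one : phiu (M := M) (fun _ _ => 1) = 1 := by
  funext s
  simp only [phiu, prod_const_one, Pi.one_apply]
  exact count s

lemma prod_mem {u : Fin 4 → (Fin 4 → ZMod M) → ℝ} (hu : Adm u) (y : Fin 4 → ZMod M) :
    0 ≤ ∏ i, u i y ∧ ∏ i, u i y ≤ 1 :=
  ⟨prod_nonneg fun i _ => (hu.2 i y).1, prod_le_one (fun i _ => (hu.2 i y).1)
    (fun i _ => (hu.2 i y).2)⟩

lemma phiu_abs {u : Fin 4 → (Fin 4 → ZMod M) → ℝ} (hu : Adm u) (s : ZMod M) :
    |phiu u s| ≤ 1 := by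
  have h0 : 0 ≤ phiu u s := by
    refine mul_nonneg Mpos.le (expect_nonneg fun y _ => ?_)
    split_ifs
    · exact (prod_mem hu y).1
    · exact le_rfl
  rw [abs_of_nonneg h0, ← count s, phiu]
  refine mul_le_mul_of_nonneg_left (expect_le_expect fun y _ => ?_) Mpos.le
  split_ifs
  · exact (prod_mem hu y).2
  · exact le_rfl

/-- product with a shifted family -/
def shiftMul (u u' : Fin 4 → (Fin 4 → ZMod M) → ℝ) (h : Fin 4 → ZMod M) :
    Fin 4 → (Fin 4 → ZMod M) → ℝ := fun i y => u i y * u' i (y + h)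

lemma adm_shiftMul {u u' : Fin 4 → (Fin 4 → ZMod M) → ℝ} (hu : Adm u) (hu' : Adm u')
    (h : Fin 4 → ZMod M) : Adm (shiftMul u u' h) := by
  refine ⟨fun i y t => ?_, fun i y => ⟨?_, ?_⟩⟩
  · have e : Function.update y i t + h = Function.update (y + h) i (t + h i) := by
      funext j
      by_cases hj : j = i
      · subst hj; simp
      · simp [hj]
    simp only [shiftMul]
    rw [hu.1, e, hu'.1]
  · exact mul_nonneg (hu.2 i y).1 (hu'.2 i _).1
  · exact mul_le_one₀ (hu.2 i y).2 (hu'.2 i _).1 (hu'.2 i _).2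

lemma phiu_mul (u u' : Fin 4 → (Fin 4 → ZMod M) → ℝ) (s : ZMod M) :
    phiu u s * phiu u' s = 𝔼 h : Fin 4 → ZMod M,
      ((M : ℝ) * (if ∑ i, h i = 0 then 1 else 0)) * phiu (shiftMul u u' h) s := by
  have h1 : phiu u s * phiu u' s = 𝔼 y : Fin 4 → ZMod M, 𝔼 y' : Fin 4 → ZMod M,
      ((M : ℝ) * (if ∑ i, y i = s then ∏ i, u i y else 0)) *
        ((M : ℝ) * (if ∑ i, y' i = s then ∏ i, u' i y' else 0)) := by
    unfold phiu
    rw [mul_expect, mul_expect, expect_mul_expect]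
  have h2 : ∀ y : Fin 4 → ZMod M, 𝔼 y' : Fin 4 → ZMod M,
      ((M : ℝ) * (if ∑ i, y i = s then ∏ i, u i y else 0)) *
        ((M : ℝ) * (if ∑ i, y' i = s then ∏ i, u' i y' else 0)) =
      𝔼 h : Fin 4 → ZMod M, ((M : ℝ) * (if ∑ i, y i = s then ∏ i, u i y else 0)) *
        ((M : ℝ) * (if ∑ i, (y + h) i = s then ∏ i, u' i (y + h) else 0)) := by
    intro y
    symm
    exact Fintype.expect_equiv (Equiv.addLeft y) _ _ fun h => rfl
  rw [h1, expect_congr rfl fun y _ => h2 y, expect_comm]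
  refine expect_congr rfl fun h _ => ?_
  unfold phiu
  rw [mul_expect, mul_expect]
  refine expect_congr rfl fun y _ => ?_
  have e : ∑ i, (y + h) i = ∑ i, y i + ∑ i, h i := by
    simp only [Pi.add_apply, sum_add_distrib]
  rw [e]
  by_cases hy : ∑ i, y i = s
  · by_cases hh : ∑ i, h i = 0
    · rw [if_pos hy, if_pos hh, if_pos (by rw [hy, hh, add_zero]), if_pos hy]
      simp only [shiftMul, prod_mul_distrib]
      ring
    · rw [if_pos hy, if_neg hh, if_neg]
      · ring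
      · intro h3
        rw [hy] at h3
        exact hh (by simpa using h3)
  · rw [if_neg hy, if_neg hy]
    ring

end aux

theorem claimB2b : ClaimB2b := by
  intro hB2a ε hε
  obtain ⟨κ, hκ, H⟩ := hB2a ε hε
  refine ⟨κ, hκ, ?_⟩
  intro M _ f ν hf hfν hν
  obtain ⟨g, hg1, hg2⟩ := H (ZMod M) {φ | ∃ u, Adm (M := M) u ∧ φ = phiu u}
    ⟨fun _ _ => 1, ⟨fun _ _ _ => rfl, fun _ _ => ⟨zero_le_one, le_rfl⟩⟩, phiu_one.symm⟩
    (by
      rintro φ ⟨u, hu, rfl⟩ x
      exact phiu_abs hu x)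
    (by
      rintro φ ⟨u, hu, rfl⟩ φ' ⟨u', hu', rfl⟩
      have e : phiu u * phiu u' = ∑ h : Fin 4 → ZMod M,
          (((M : ℝ) * (if ∑ i, h i = 0 then 1 else 0)) / Fintype.card (Fin 4 → ZMod M)) •
            phiu (shiftMul u u' h) := by
        funext s
        rw [Pi.mul_apply, phiu_mul, Fintype.expect_eq_sum_div_card, Finset.sum_apply, sum_div]
        refine sum_congr rfl fun h _ => ?_
        rw [Pi.smul_apply, smul_eq_mul]
        ring
      rw [e]
      refine (convex_convexHull ℝ _).sum_mem (fun h _ => ?_) ?_ (fun h _ => ?_)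
      · refine div_nonneg (mul_nonneg Mpos.le ?_) (Nat.cast_nonneg _)
        split_ifs <;> norm_num
      · have h2 := count (M := M) 0
        rw [mul_expect, Fintype.expect_eq_sum_div_card, sum_div] at h2
        exact h2
      · exact subset_convexHull ℝ _ ⟨_, adm_shiftMul hu hu' h, rfl⟩)
    f ν hf hfν
    (by
      rintro φ ⟨u, hu, rfl⟩
      rw [pair_phiu (fun x => ν x - 1) u]
      exact hν u hu.1 hu.2)
  refine ⟨g, hg1, ?_⟩
  intro u hu1 hu2
  have h3 := hg2 (phiu u) ⟨u, ⟨hu1, hu2⟩, rfl⟩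
  rwa [pair_phiu (fun x => f x - g x) u] at h3

end D159

end

section

/-!
# MP_d159ed_nt, part B3: the two cut norms agree
-/

set_option autoImplicit false

namespace D159

open Finset
open scoped BigOperators

section aux

variable {M : ℕ} [NeZero M]

/-- the coefficients of the form number `j` -/
def cf (M : ℕ) (j : Fin 5) (k : Fin 4) : ZMod M :=
  (((j.succAbove k : Fin 5) : ℕ) : ZMod M) - ((j : ℕ) : ZMod M)

omit [NeZero M] in
lemma cf_ne_zero (hM : M.Prime) (h5 : 5 ≤ M) (j : Fin 5) (k : Fin 4) : cf M j k ≠ 0 := by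
  have hne : j.succAbove k ≠ j := Fin.succAbove_ne j k
  unfold cf
  intro h
  rw [sub_eq_zero, ZMod.natCast_eq_natCast_iff'] at h
  rw [Nat.mod_eq_of_lt (by omega), Nat.mod_eq_of_lt (by omega)] at h
  exact hne (Fin.ext h)

omit [NeZero M] in
lemma psi_eq (j : Fin 5) (x : Fin 5 → ZMod M) :
    psi j x = ∑ k : Fin 4, cf M j k * x (j.succAbove k) := by
  unfold psi cf
  rw [Fin.sum_univ_succAbove _ j]
  simp

lemma prod_erase (j : Fin 5) (w : Fin 5 → ℝ) :
    ∏ i ∈ univ.erase j, w i = ∏ k : Fin 4, w (j.succAbove k) := by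
  have h : (univ.erase j : Finset (Fin 5)) = (univ : Finset (Fin 4)).map j.succAboveEmb := by
    ext i
    simp only [mem_erase, mem_univ, and_true, mem_map, true_and, Fin.coe_succAboveEmb]
    constructor
    · intro hi
      exact Fin.exists_succAbove_eq hi
    · rintro ⟨k, rfl⟩
      exact Fin.succAbove_ne j k
  rw [h, prod_map]
  rfl

/-- the rescaled projection -/
def pr (j : Fin 5) (x : Fin 5 → ZMod M) : Fin 4 → ZMod M :=
  fun k => cf M j k * x (j.succAbove k)

lemma expect_pr (hM : M.Prime) (h5 : 5 ≤ M) (j : Fin 5) (F : (Fin 4 → ZMod M) → ℝ) :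
    𝔼 x : Fin 5 → ZMod M, F (pr j x) = 𝔼 y : Fin 4 → ZMod M, F y := by
  have : Fact M.Prime := ⟨hM⟩
  have h1 : 𝔼 x : Fin 5 → ZMod M, F (pr j x) =
      𝔼 q : ZMod M × (Fin 4 → ZMod M), F (fun k => cf M j k * q.2 k) := by
    symm
    refine Fintype.expect_equiv (Fin.insertNthEquiv (fun _ => ZMod M) j) _ _ fun q => ?_
    congr 1
    funext k
    simp [pr, Fin.insertNthEquiv]
  have h2 : 𝔼 q : ZMod M × (Fin 4 → ZMod M), F (fun k => cf M j k * q.2 k) =
      𝔼 z : Fin 4 → ZMod M, F (fun k => cf M j k * z k) := by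
    rw [← univ_product_univ, expect_product]
    simp
  rw [h1, h2]
  refine Fintype.expect_equiv
    (Equiv.piCongrRight fun k => Equiv.mulLeft₀ (cf M j k) (cf_ne_zero hM h5 j k)) _ _ fun z => ?_
  rfl

omit [NeZero M] in
lemma pr_update_self (j : Fin 5) (x : Fin 5 → ZMod M) (t : ZMod M) :
    pr j (Function.update x j t) = pr j x := by
  funext k
  simp only [pr]
  rw [Function.update_of_ne (Fin.succAbove_ne j k)]

omit [NeZero M] in
lemma pr_update (j : Fin 5) (k : Fin 4) (x : Fin 5 → ZMod M) (t : ZMod M) :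
    pr j (Function.update x (j.succAbove k) t) = Function.update (pr j x) k (cf M j k * t) := by
  funext l
  simp only [pr]
  by_cases h : l = k
  · subst h; simp
  · rw [Function.update_of_ne (fun h' => h (Fin.succAbove_right_injective h')),
      Function.update_of_ne h]
    rfl

/-- a section of the rescaled projection -/
noncomputable def sc (j : Fin 5) (y : Fin 4 → ZMod M) : Fin 5 → ZMod M :=
  j.insertNth 0 (fun k => (cf M j k)⁻¹ * y k)

omit [NeZero M] in
lemma sc_update (j : Fin 5) (k : Fin 4) (y : Fin 4 → ZMod M) (t : ZMod M) :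
    sc j (Function.update y k t) =
      Function.update (sc j y) (j.succAbove k) ((cf M j k)⁻¹ * t) := by
  funext i
  unfold sc
  rcases Fin.eq_self_or_eq_succAbove j i with rfl | ⟨l, rfl⟩
  · rw [Function.update_of_ne (Fin.succAbove_ne i k).symm]
    simp
  · by_cases h : l = k
    · subst h; simp
    · rw [Function.update_of_ne (fun h' => h (Fin.succAbove_right_injective h'))]
      simp [h]

omit [NeZero M] in
lemma sc_pr (hM : M.Prime) (h5 : 5 ≤ M) (j : Fin 5) (x : Fin 5 → ZMod M) :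
    sc j (pr j x) = Function.update x j 0 := by
  have : Fact M.Prime := ⟨hM⟩
  funext i
  unfold sc pr
  rcases Fin.eq_self_or_eq_succAbove j i with rfl | ⟨l, rfl⟩
  · simp
  · rw [Function.update_of_ne (Fin.succAbove_ne j l)]
    simp only [Fin.insertNth_apply_succAbove]
    rw [inv_mul_cancel_left₀ (cf_ne_zero hM h5 j l)]

end aux

theorem claimB3 : ClaimB3 := by
  intro M _ hM h5 h ε j
  constructor
  · intro hc u hu1 hu2 hu3
    have key := hc (fun k y => u (j.succAbove k) (sc j y))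
      (fun k y t => by
        show u (j.succAbove k) (sc j (Function.update y k t)) = u (j.succAbove k) (sc j y)
        rw [sc_update, hu1])
      (fun k y => hu3 _ _)
    rw [← expect_pr hM h5 j] at key
    convert key using 2
    refine expect_congr rfl fun x _ => ?_
    show h (psi j x) * _ = _
    rw [psi_eq, prod_erase]
    refine congrArg₂ (· * ·) rfl ?_
    refine prod_congr rfl fun k _ => ?_
    rw [sc_pr hM h5, hu2]
  · intro hc u hu1 hu3
    have key := hc (fun i x => (j.insertNth (1 : ℝ) (fun k => u k (pr j x)) : Fin 5 → ℝ) i)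
      (fun i x t => by
        rcases Fin.eq_self_or_eq_succAbove j i with rfl | ⟨k, rfl⟩
        · simp
        · simp only [Fin.insertNth_apply_succAbove]
          rw [pr_update, hu1])
      (fun i x t => by
        simp only [pr_update_self])
      (fun i x => by
        rcases Fin.eq_self_or_eq_succAbove j i with rfl | ⟨k, rfl⟩
        · simp
        · simp only [Fin.insertNth_apply_succAbove]
          exact hu3 _ _)
    rw [← expect_pr hM h5 j]
    convert key using 2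
    refine expect_congr rfl fun x _ => ?_
    show _ = h (psi j x) * _
    rw [psi_eq, prod_erase]
    refine congrArg₂ (· * ·) rfl ?_
    refine prod_congr rfl fun k _ => ?_
    simp

end D159

end

section

/-!
# MP_d159ed_nt, B4a: the dense case of the counting lemma (telescoping)
-/

set_option autoImplicit false

namespace D159

open Finset
open scoped BigOperators

/-- Averaging over one coordinate. -/
theorem b4a_expect_update {ι : Type} [DecidableEq ι] [Fintype ι] {Z : Type} [Fintype Z]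
    [Nonempty Z] (j : ι) (φ : (ι → Z) → ℝ) :
    𝔼 x : ι → Z, φ x = 𝔼 x : ι → Z, 𝔼 t : Z, φ (Function.update x j t) := by
  have h1 : 𝔼 x : ι → Z, 𝔼 t : Z, φ (Function.update x j t) =
      𝔼 p : (ι → Z) × Z, φ (Function.update p.1 j p.2) := by
    rw [← Finset.univ_product_univ, Finset.expect_product]
  have h2 : 𝔼 x : ι → Z, φ x = 𝔼 p : (ι → Z) × Z, φ p.1 := by
    rw [← Finset.univ_product_univ, Finset.expect_product]
    refine Finset.expect_congr rfl fun x _ => ?_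
    exact (Fintype.expect_const (ι := Z) (φ x)).symm
  rw [h1, h2]
  have hinv : Function.Involutive
      (fun p : (ι → Z) × Z => (Function.update p.1 j p.2, p.1 j)) := by
    rintro ⟨x, t⟩
    simp
  exact (Fintype.expect_equiv hinv.toPerm _ _ fun p => rfl).symm

/-- One term of the telescoping sum. -/
theorem b4a_term {M : ℕ} [NeZero M] (j : Fin 5) (D : (Fin 5 → ZMod M) → ℝ) {ε : ℝ}
    (hD : ∀ x t, D (Function.update x j t) = D x) (hcut : CutJ M j D ε)
    (H : Fin 5 → (Fin 5 → ZMod M) → ℝ)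
    (hH : ∀ i x t, H i (Function.update x i t) = H i x)
    (hH01 : ∀ i x, 0 ≤ H i x ∧ H i x ≤ 1) :
    |𝔼 x : Fin 5 → ZMod M, D x * ∏ i ∈ univ.erase j, H i x| ≤ ε := by
  rw [b4a_expect_update j, Finset.expect_comm]
  refine (Finset.abs_expect_le _ _).trans ?_
  refine Finset.expect_le univ_nonempty fun t _ => ?_
  have h := hcut (fun i x => H i (Function.update x j t)) ?_ ?_ ?_
  · simp only [hD]
    exact h
  · intro i y s
    by_cases hij : i = j
    · subst hij
      simp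
    · change H i (Function.update (Function.update y i s) j t) = _
      rw [Function.update_comm hij, hH]
  · intro i y s
    simp
  · intro i y
    exact hH01 i _

theorem b4a_telescope (a b : Fin 5 → ℝ) :
    ∏ j, a j - ∏ j, b j =
      ∑ j, (a j - b j) * ∏ i ∈ univ.erase j, (if i < j then b i else a i) := by
  have e0 : (univ.erase (0 : Fin 5)) = {1, 2, 3, 4} := by decide
  have e1 : (univ.erase (1 : Fin 5)) = {0, 2, 3, 4} := by decide
  have e2 : (univ.erase (2 : Fin 5)) = {0, 1, 3, 4} := by decide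
  have e3 : (univ.erase (3 : Fin 5)) = {0, 1, 2, 4} := by decide
  have e4 : (univ.erase (4 : Fin 5)) = {0, 1, 2, 3} := by decide
  rw [Fin.prod_univ_five, Fin.prod_univ_five, Fin.sum_univ_five, e0, e1, e2, e3, e4]
  simp only [Finset.prod_insert (show (1 : Fin 5) ∉ ({2, 3, 4} : Finset (Fin 5)) by decide),
    Finset.prod_insert (show (2 : Fin 5) ∉ ({3, 4} : Finset (Fin 5)) by decide),
    Finset.prod_insert (show (3 : Fin 5) ∉ ({4} : Finset (Fin 5)) by decide),
    Finset.prod_insert (show (0 : Fin 5) ∉ ({2, 3, 4} : Finset (Fin 5)) by decide),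
    Finset.prod_insert (show (0 : Fin 5) ∉ ({1, 3, 4} : Finset (Fin 5)) by decide),
    Finset.prod_insert (show (1 : Fin 5) ∉ ({3, 4} : Finset (Fin 5)) by decide),
    Finset.prod_insert (show (0 : Fin 5) ∉ ({1, 2, 4} : Finset (Fin 5)) by decide),
    Finset.prod_insert (show (1 : Fin 5) ∉ ({2, 4} : Finset (Fin 5)) by decide),
    Finset.prod_insert (show (2 : Fin 5) ∉ ({4} : Finset (Fin 5)) by decide),
    Finset.prod_insert (show (0 : Fin 5) ∉ ({1, 2, 3} : Finset (Fin 5)) by decide),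
    Finset.prod_insert (show (1 : Fin 5) ∉ ({2, 3} : Finset (Fin 5)) by decide),
    Finset.prod_insert (show (2 : Fin 5) ∉ ({3} : Finset (Fin 5)) by decide),
    Finset.prod_singleton]
  simp only [show ¬ ((1 : Fin 5) < 0) by decide, show ¬ ((2 : Fin 5) < 0) by decide,
    show ¬ ((3 : Fin 5) < 0) by decide, show ¬ ((4 : Fin 5) < 0) by decide,
    show (0 : Fin 5) < 1 by decide, show ¬ ((2 : Fin 5) < 1) by decide,
    show ¬ ((3 : Fin 5) < 1) by decide, show ¬ ((4 : Fin 5) < 1) by decide,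
    show (0 : Fin 5) < 2 by decide, show (1 : Fin 5) < 2 by decide,
    show ¬ ((3 : Fin 5) < 2) by decide, show ¬ ((4 : Fin 5) < 2) by decide,
    show (0 : Fin 5) < 3 by decide, show (1 : Fin 5) < 3 by decide,
    show (2 : Fin 5) < 3 by decide, show ¬ ((4 : Fin 5) < 3) by decide,
    show (0 : Fin 5) < 4 by decide, show (1 : Fin 5) < 4 by decide,
    show (2 : Fin 5) < 4 by decide, show (3 : Fin 5) < 4 by decide, if_true, if_false]
  ring

theorem claimB4a : ClaimB4a := by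
  intro κ hκ
  refine ⟨κ / 5, by positivity, ?_⟩
  intro M _ ν _ _ F G hF hG hF1 hG1 hcut
  have hF01 : ∀ j x, 0 ≤ F j x ∧ F j x ≤ 1 := by
    intro j x
    have := hF1 j x
    simpa [maj] using this
  have hsum : (𝔼 x : Fin 5 → ZMod M, ∏ j, F j x) - 𝔼 x : Fin 5 → ZMod M, ∏ j, G j x =
      ∑ j, 𝔼 x : Fin 5 → ZMod M, (F j x - G j x) *
        ∏ i ∈ univ.erase j, (if i < j then G i x else F i x) := by
    rw [← Finset.expect_sub_distrib, ← Finset.expect_sum_comm]
    refine Finset.expect_congr rfl fun x _ => ?_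
    exact b4a_telescope (fun j => F j x) (fun j => G j x)
  rw [hsum]
  calc |∑ j, 𝔼 x : Fin 5 → ZMod M, (F j x - G j x) *
        ∏ i ∈ univ.erase j, (if i < j then G i x else F i x)|
      ≤ ∑ j, |𝔼 x : Fin 5 → ZMod M, (F j x - G j x) *
        ∏ i ∈ univ.erase j, (if i < j then G i x else F i x)| := Finset.abs_sum_le_sum_abs _ _
    _ ≤ ∑ _j : Fin 5, κ / 5 := by
        refine Finset.sum_le_sum fun j _ => ?_
        refine b4a_term j (fun x => F j x - G j x) ?_ (hcut j)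
          (fun i x => if i < j then G i x else F i x) ?_ ?_
        · intro x t
          simp only [hF, hG]
        · intro i x t
          simp only [hF, hG]
        · intro i x
          by_cases hij : i < j
          · simp only [hij, if_true]
            exact hG1 i x
          · simp only [hij, if_false]
            exact hF01 i x
    _ = κ := by simp; ring

end D159

end

section

/-!
# MP_d159ed_nt, B5: assembly of the relative Szemeredi theorem (helper63)
-/

set_option autoImplicit false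

namespace D159

open Finset
open scoped BigOperators

section B5

variable {M : ℕ} [NeZero M]

theorem b5_psi_update (j : Fin 5) (x : Fin 5 → ZMod M) (t : ZMod M) :
    psi j (Function.update x j t) = psi j x := by
  unfold psi
  refine Finset.sum_congr rfl fun i _ => ?_
  by_cases h : i = j
  · subst h; simp
  · rw [Function.update_of_ne h]

theorem b5_shift {X : Type*} [Fintype X] [AddCommGroup X] (φ : X → ℝ) (a : X) :
    (𝔼 x : X, φ (x + a)) = 𝔼 x : X, φ x :=
  Fintype.expect_equiv (Equiv.addRight a) _ _ (fun _ => rfl)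

theorem b5_uniform (H : ZMod M → ZMod M → ℝ) :
    (𝔼 x : Fin 5 → ZMod M, H (∑ i : Fin 5, ((i : ℕ) : ZMod M) * x i) (-∑ i : Fin 5, x i)) =
      𝔼 a, 𝔼 d, H a d := by
  have h1 : ∀ s t : ZMod M,
      (𝔼 x : Fin 5 → ZMod M, H (∑ i : Fin 5, ((i : ℕ) : ZMod M) * x i + s)
        (-∑ i : Fin 5, x i + t)) =
      𝔼 x : Fin 5 → ZMod M, H (∑ i : Fin 5, ((i : ℕ) : ZMod M) * x i) (-∑ i : Fin 5, x i) := by
    intro s t
    rw [← b5_shift (fun x : Fin 5 → ZMod M =>
      H (∑ i : Fin 5, ((i : ℕ) : ZMod M) * x i) (-∑ i : Fin 5, x i)) ![-s - t, s, 0, 0, 0]]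
    refine Finset.expect_congr rfl fun x _ => ?_
    congr 1
    · simp [Fin.sum_univ_five]; ring
    · simp [Fin.sum_univ_five]; ring
  have h2 : (𝔼 s : ZMod M, 𝔼 t : ZMod M,
      𝔼 x : Fin 5 → ZMod M, H (∑ i : Fin 5, ((i : ℕ) : ZMod M) * x i + s)
        (-∑ i : Fin 5, x i + t)) =
      𝔼 x : Fin 5 → ZMod M, H (∑ i : Fin 5, ((i : ℕ) : ZMod M) * x i) (-∑ i : Fin 5, x i) := by
    rw [Finset.expect_congr rfl fun s _ => Finset.expect_congr rfl fun t _ => h1 s t]
    rw [Fintype.expect_const, Fintype.expect_const]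
  rw [← h2]
  have h3 : (𝔼 s : ZMod M, 𝔼 t : ZMod M,
      𝔼 x : Fin 5 → ZMod M, H (∑ i : Fin 5, ((i : ℕ) : ZMod M) * x i + s)
        (-∑ i : Fin 5, x i + t)) = 𝔼 x : Fin 5 → ZMod M, 𝔼 s : ZMod M, 𝔼 t : ZMod M,
       H (∑ i : Fin 5, ((i : ℕ) : ZMod M) * x i + s) (-∑ i : Fin 5, x i + t) := by
    rw [Finset.expect_congr rfl fun s _ => Finset.expect_comm _ _ _]
    rw [Finset.expect_comm]
  rw [h3]
  have h4 : ∀ x : Fin 5 → ZMod M, (𝔼 s : ZMod M, 𝔼 t : ZMod M,
       H (∑ i : Fin 5, ((i : ℕ) : ZMod M) * x i + s) (-∑ i : Fin 5, x i + t)) =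
       𝔼 a, 𝔼 d, H a d := by
    intro x
    refine (Fintype.expect_equiv (Equiv.addLeft (∑ i : Fin 5, ((i : ℕ) : ZMod M) * x i)) _
      (fun a => 𝔼 t : ZMod M, H a (-∑ i : Fin 5, x i + t)) (fun s => rfl)).trans ?_
    refine Finset.expect_congr rfl fun a _ => ?_
    exact Fintype.expect_equiv (Equiv.addLeft (-∑ i : Fin 5, x i)) _
      (fun d => H a d) (fun s => rfl)
  rw [Finset.expect_congr rfl fun x _ => h4 x, Fintype.expect_const]

theorem b5_psi (j : Fin 5) (x : Fin 5 → ZMod M) :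
    psi j x = ∑ i : Fin 5, ((i : ℕ) : ZMod M) * x i + ((j : ℕ) : ZMod M) * (-∑ i : Fin 5, x i) := by
  unfold psi
  rw [mul_neg, ← sub_eq_add_neg, Finset.mul_sum, ← Finset.sum_sub_distrib]
  refine Finset.sum_congr rfl fun i _ => ?_
  ring

theorem b5_prod (f : ZMod M → ℝ) :
    (𝔼 x : Fin 5 → ZMod M, ∏ j : Fin 5, f (psi j x)) =
      𝔼 x, 𝔼 d, ∏ i : Fin 5, f (x + (i : ℕ) * d) := by
  rw [← b5_uniform (fun a d : ZMod M => ∏ i : Fin 5, f (a + ((i : ℕ) : ZMod M) * d))]
  refine Finset.expect_congr rfl fun x _ => ?_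
  refine Finset.prod_congr rfl fun j _ => ?_
  rw [b5_psi]

theorem b5_sum4 (h : ZMod M → ℝ) :
    (𝔼 y : Fin 4 → ZMod M, h (∑ i, y i)) = 𝔼 v, h v := by
  have h1 : ∀ t : ZMod M, (𝔼 y : Fin 4 → ZMod M, h (∑ i, y i + t)) =
      𝔼 y : Fin 4 → ZMod M, h (∑ i, y i) := by
    intro t
    rw [← b5_shift (fun y : Fin 4 → ZMod M => h (∑ i, y i)) ![t, 0, 0, 0]]
    refine Finset.expect_congr rfl fun x _ => ?_
    congr 1
    simp [Fin.sum_univ_four]; ring
  have h2 : (𝔼 t : ZMod M, 𝔼 y : Fin 4 → ZMod M, h (∑ i, y i + t)) =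
      𝔼 y : Fin 4 → ZMod M, h (∑ i, y i) := by
    rw [Finset.expect_congr rfl fun t _ => h1 t, Fintype.expect_const]
  rw [← h2, Finset.expect_comm]
  have h4 : ∀ y : Fin 4 → ZMod M, (𝔼 t : ZMod M, h (∑ i, y i + t)) = 𝔼 v, h v := fun y =>
    Fintype.expect_equiv (Equiv.addLeft (∑ i, y i)) _ (fun d => h d) (fun s => rfl)
  rw [Finset.expect_congr rfl fun x _ => h4 x, Fintype.expect_const]

theorem b5_cutJ_mono {j : Fin 5} {H : (Fin 5 → ZMod M) → ℝ} {ε ε' : ℝ} (h : CutJ M j H ε)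
    (hε : ε ≤ ε') : CutJ M j H ε' := fun u h1 h2 h3 => (h u h1 h2 h3).trans hε

theorem b5_LF_mono {ν : ZMod M → ℝ} {ε ε' : ℝ} (h : LF M ν ε) (hε : ε ≤ ε') : LF M ν ε' :=
  fun A hA => (h A hA).trans hε

end B5

theorem claimB5 : ClaimB5 := by
  intro b1 dm b3 cnt sz δ hδ
  obtain ⟨c0, hc0, M0, hsz⟩ := sz (δ / 2) (by positivity)
  obtain ⟨ε1, hε1, hcnt⟩ := cnt (c0 / 2) (by positivity)
  obtain ⟨κ1, hκ1, hdm⟩ := dm (min ε1 (δ / 2)) (lt_min hε1 (by positivity))
  obtain ⟨ε2, hε2, hb1⟩ := b1 κ1 hκ1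
  refine ⟨min ε1 ε2, lt_min hε1 hε2, c0 / 2, by positivity, max M0 5, ?_⟩
  intro M _ hp hM ν f hf0 hfν hLF hfδ
  have hM0 : M0 ≤ M := (le_max_left _ _).trans hM
  have hM5 : 5 ≤ M := (le_max_right _ _).trans hM
  have hν0 : ∀ x, 0 ≤ ν x := fun x => (hf0 x).trans (hfν x)
  have hcut : CutSmall M (fun x => ν x - 1) κ1 := by
    rw [b3 M hp hM5 (fun x => ν x - 1) κ1 0]
    intro u hu1 hu2 hu3
    have := hb1 M ν hν0 (b5_LF_mono hLF (min_le_right _ _)) 0 (fun _ => false) (fun _ => false)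
      u (fun _ _ => 1) hu1 (fun _ _ _ => rfl) (fun j x => ⟨(hu3 j x).1, by
        simpa [maj] using (hu3 j x).2⟩) (fun j x => ⟨zero_le_one, by simp [maj]⟩)
    simpa [Fintype.expect_const] using this
  obtain ⟨g, hg, hfg⟩ := hdm M f ν hf0 hfν hcut
  have hEg : δ / 2 ≤ 𝔼 x, g x := by
    have h1 := hfg (fun _ _ => 1) (fun _ _ _ => rfl) (fun _ _ => ⟨zero_le_one, le_rfl⟩)
    simp only [Finset.prod_const_one, mul_one] at h1
    rw [b5_sum4 (fun x => f x - g x), Finset.expect_sub_distrib] at h1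
    have h2 := (abs_le.1 (h1.trans (min_le_right _ _))).2
    linarith
  have hszg := hsz M hp hM0 g (fun x => (hg x).1) (fun x => (hg x).2) hEg
  have hc := hcnt M ν hν0 (b5_LF_mono hLF (min_le_left _ _)) (fun j x => f (psi j x))
    (fun j x => g (psi j x)) (fun j x t => by simp only [b5_psi_update])
    (fun j x t => by simp only [b5_psi_update])
    (fun j x => ⟨hf0 _, by simpa [maj] using hfν _⟩) (fun j x => hg _)
    (fun j => by
      have := (b3 M hp hM5 (fun x => f x - g x) _ j).1 hfg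
      exact b5_cutJ_mono this (min_le_left _ _))
  rw [b5_prod, b5_prod] at hc
  have := (abs_le.1 hc).1
  linarith

end D159

end

section

/-!
# MP_d159ed_nt, part B: basic facts on averages over product spaces (helper41)
-/

set_option autoImplicit false

namespace D159

open Finset
open scoped BigOperators

section general

variable {ι α : Type*} [Fintype ι] [DecidableEq ι] [Fintype α]

/-- Exchange of one coordinate with an auxiliary variable. -/
def updEquiv (i : ι) : (ι → α) × α ≃ (ι → α) × α where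
  toFun p := (Function.update p.1 i p.2, p.1 i)
  invFun p := (Function.update p.1 i p.2, p.1 i)
  left_inv p := by simp
  right_inv p := by simp

theorem expect_prod_eq {β γ : Type*} [Fintype β] [Fintype γ] (g : β → γ → ℝ) :
    𝔼 x : β, 𝔼 t : γ, g x t = 𝔼 p : β × γ, g p.1 p.2 := by
  rw [← Finset.univ_product_univ, Finset.expect_product]

/-- Averaging over one coordinate does not change the full average. -/
theorem expect_update (i : ι) (Φ : (ι → α) → ℝ) :
    𝔼 x : ι → α, 𝔼 t : α, Φ (Function.update x i t) = 𝔼 x : ι → α, Φ x := by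
  rw [expect_prod_eq (fun x t => Φ (Function.update x i t))]
  refine (Fintype.expect_equiv (updEquiv i) _ (fun p : (ι → α) × α => Φ p.1)
    (fun p => rfl)).trans ?_
  rw [← expect_prod_eq (fun x _ => Φ x)]
  rcases isEmpty_or_nonempty α with h | h
  · have : IsEmpty (ι → α) := ⟨fun x => h.elim (x i)⟩
    simp [Finset.univ_eq_empty]
  · refine Finset.expect_congr rfl fun x _ => ?_
    rw [Fintype.expect_const]

/-- One-dimensional marginal. -/
theorem expect_marginal [Nonempty α] (i : ι) (φ : α → ℝ) :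
    𝔼 x : ι → α, φ (x i) = 𝔼 t : α, φ t := by
  rw [← expect_update i (fun x => φ (x i))]
  simp only [Function.update_self]
  rw [Fintype.expect_const]

/-- Absolute value of an average. -/
theorem abs_expect_le' {β : Type*} [Fintype β] (g : β → ℝ) :
    |𝔼 x : β, g x| ≤ 𝔼 x : β, |g x| := Finset.abs_expect_le _ _

/-- Bound of an average by a pointwise bound. -/
theorem abs_expect_le_of {β : Type*} [Fintype β] [Nonempty β] (g : β → ℝ) (c : ℝ)
    (h : ∀ x, |g x| ≤ c) : |𝔼 x : β, g x| ≤ c :=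
  (abs_expect_le' g).trans (Finset.expect_le Finset.univ_nonempty fun x _ => h x)

/-- Cauchy-Schwarz with a weight. -/
theorem expect_cs {β : Type*} [Fintype β] (V K : β → ℝ) (hV : ∀ x, 0 ≤ V x) :
    (𝔼 x : β, V x * K x) ^ 2 ≤ (𝔼 x : β, V x) * 𝔼 x : β, V x * K x ^ 2 := by
  have h := Finset.expect_mul_sq_le_sq_mul_sq (Finset.univ : Finset β)
    (fun x => Real.sqrt (V x)) (fun x => Real.sqrt (V x) * K x)
  have e1 : ∀ x, Real.sqrt (V x) * (Real.sqrt (V x) * K x) = V x * K x := by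
    intro x; rw [← mul_assoc, Real.mul_self_sqrt (hV x)]
  have e2 : ∀ x, Real.sqrt (V x) ^ 2 = V x := fun x => Real.sq_sqrt (hV x)
  have e3 : ∀ x, (Real.sqrt (V x) * K x) ^ 2 = V x * K x ^ 2 := by
    intro x; rw [mul_pow, e2]
  simpa only [e1, e2, e3] using h

end general

section doubled

variable {Z : Type*} [Fintype Z]

/-- Averages over the functions on Bool. -/
theorem expect_bool [Nonempty Z] (G G' : Z → ℝ) :
    𝔼 p : Bool → Z, G (p false) * G' (p true) = (𝔼 a, G a) * 𝔼 b, G' b := by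
  refine (Fintype.expect_equiv (Equiv.boolArrowEquivProd Z) _
    (fun p : Z × Z => G p.1 * G' p.2) (fun p => rfl)).trans ?_
  rw [← expect_prod_eq (fun a b => G a * G' b), Finset.expect_mul_expect]

/-- Doubled space as a product. -/
def dblEquiv (Z : Type*) : (Fin 5 → Bool → Z) ≃ (Fin 5 → Z) × (Fin 5 → Z) where
  toFun x := (fun j => x j false, fun j => x j true)
  invFun p := fun j b => if b then p.2 j else p.1 j
  left_inv x := by
    funext j b
    cases b <;> simp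
  right_inv p := by simp

theorem expect_dbl [Nonempty Z] (i : Fin 5) (Φ : (Fin 5 → Z) → Z → ℝ) :
    𝔼 x : Fin 5 → Bool → Z, Φ (fun j => x j false) (x i true) =
      𝔼 y : Fin 5 → Z, 𝔼 t : Z, Φ y t := by
  refine (Fintype.expect_equiv (dblEquiv Z) _
    (fun p : (Fin 5 → Z) × (Fin 5 → Z) => Φ p.1 (p.2 i)) (fun p => rfl)).trans ?_
  rw [← expect_prod_eq (fun (y y' : Fin 5 → Z) => Φ y (y' i))]
  refine Finset.expect_congr rfl fun y _ => ?_
  exact expect_marginal i (fun t => Φ y t)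

end doubled

end D159

end

section

/-!
# MP_d159ed_nt, part D: zeta bound, product of characters
-/

set_option autoImplicit false

namespace D159

open Finset
open scoped BigOperators ArithmeticFunction.vonMangoldt

lemma rpow_step (η : ℝ) (hη : 0 < η) (x : ℝ) (hx : 1 ≤ x) :
    (x + 1) ^ (-(1 + η)) ≤ (x ^ (-η) - (x + 1) ^ (-η)) / η := by
  have hx0 : 0 < x := by linarith
  have hx1 : 0 < x + 1 := by linarith
  rw [le_div_iff₀ hη]
  have h1 : (x + 1) ^ (-(1 + η)) = (x + 1) ^ (-η) * (x + 1)⁻¹ := by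
    rw [show -(1 + η) = -η + -1 by ring, Real.rpow_add hx1, Real.rpow_neg_one]
  have h2 : x ^ (-η) = (x + 1) ^ (-η) * (x / (x + 1)) ^ (-η) := by
    rw [← Real.mul_rpow hx1.le (by positivity)]
    congr 1
    field_simp
  have h3 : 1 + η * (x + 1)⁻¹ ≤ (x / (x + 1)) ^ (-η) := by
    rw [Real.rpow_def_of_pos (by positivity)]
    have h4 := Real.log_le_sub_one_of_pos (x := x / (x + 1)) (by positivity)
    have h5 : x / (x + 1) - 1 = -(x + 1)⁻¹ := by field_simp; ring
    rw [h5] at h4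
    have h6 := Real.add_one_le_exp (Real.log (x / (x + 1)) * -η)
    nlinarith
  rw [h1, h2]
  have h7 : 0 < (x + 1) ^ (-η) := Real.rpow_pos_of_pos hx1 _
  nlinarith

lemma partial_zeta_le (η : ℝ) (hη : 0 < η) (n : ℕ) :
    ∑ k ∈ range (n + 1), ((k + 1 : ℕ) : ℝ) ^ (-(1 + η)) ≤
      1 + (1 - ((n + 1 : ℕ) : ℝ) ^ (-η)) / η := by
  induction n with
  | zero => simp
  | succ n ih =>
    rw [sum_range_succ]
    have h := rpow_step η hη ((n + 1 : ℕ) : ℝ) (by push_cast; linarith [(Nat.cast_nonneg n : (0 : ℝ) ≤ n)])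
    have e : ((n + 1 : ℕ) : ℝ) + 1 = ((n + 1 + 1 : ℕ) : ℝ) := by push_cast; ring
    rw [e] at h
    have e2 : (1 - ((n + 1 + 1 : ℕ) : ℝ) ^ (-η)) / η = (1 - ((n + 1 : ℕ) : ℝ) ^ (-η)) / η +
      (((n + 1 : ℕ) : ℝ) ^ (-η) - ((n + 1 + 1 : ℕ) : ℝ) ^ (-η)) / η := by ring
    rw [e2]
    linarith

lemma tsum_wt_zero_le (η : ℝ) (hη : 0 < η) : ∑' n : ℕ, wt (1 + η) 0 n ≤ 1 + 1 / η := by
  refine Real.tsum_le_of_sum_range_le (fun n => wt_nonneg _ _ _) (fun n => ?_)
  rcases n with _ | n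
  · simp; positivity
  rw [sum_range_succ', wt_at_zero _ (by linarith), add_zero]
  rcases n with _ | n
  · simp; positivity
  have h := partial_zeta_le η hη n
  have e : ∀ k, wt (1 + η) 0 (k + 1) = ((k + 1 : ℕ) : ℝ) ^ (-(1 + η)) := by
    intro k; simp [wt]
  simp only [e]
  refine h.trans ?_
  have : (0 : ℝ) ≤ ((n + 1 : ℕ) : ℝ) ^ (-η) := by positivity
  gcongr
  linarith

/-- trivial bound for L at 1 + η -/
lemma norm_ell_zero_le {q : ℕ} (χ : DirichletCharacter ℂ q) (η : ℝ) (hη : 0 < η) :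
    ‖ell χ (1 + η) 0‖ ≤ 1 + 1 / η := by
  refine le_trans ?_ (tsum_wt_zero_le η hη)
  unfold ell
  refine tsum_of_norm_bounded (summable_wt (1 + η) (by linarith) 0).hasSum (fun n => ?_)
  rw [norm_mul, Complex.norm_real, Real.norm_of_nonneg (wt_nonneg _ _ n)]
  exact mul_le_of_le_one_left (wt_nonneg _ _ n) (χ.norm_le_one _)

/-- values of a character after a change of level, for arguments coprime to the new level -/
lemma changeLevel_nat {q m : ℕ} (h : q ∣ m) (χ : DirichletCharacter ℂ q) (n : ℕ)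
    (hn : n.Coprime m) : DirichletCharacter.changeLevel h χ (n : ZMod m) = χ (n : ZMod q) := by
  have hu : IsUnit (n : ZMod m) := (ZMod.isUnit_iff_coprime n m).mpr hn
  have := DirichletCharacter.changeLevel_eq_cast_of_dvd χ h hu.unit
  rw [IsUnit.unit_spec] at this
  rw [this]
  congr 1
  exact ZMod.cast_natCast h n

lemma char_not_coprime {q : ℕ} (χ : DirichletCharacter ℂ q) (n : ℕ) (hn : ¬ n.Coprime q) :
    χ (n : ZMod q) = 0 := by
  apply MulChar.map_nonunit
  rwa [ZMod.isUnit_iff_coprime]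

/-- values of mulCh -/
lemma mulCh_apply {q1 q2 : ℕ} (χ1 : DirichletCharacter ℂ q1) (χ2 : DirichletCharacter ℂ q2)
    (n : ℕ) : mulCh χ1 χ2 (n : ZMod (q1 * q2)) = χ1 (n : ZMod q1) * χ2 (n : ZMod q2) := by
  unfold mulCh
  rw [MulChar.mul_apply]
  by_cases h : n.Coprime (q1 * q2)
  · rw [changeLevel_nat _ _ _ h, changeLevel_nat _ _ _ h]
  · rw [char_not_coprime _ n h, zero_mul]
    rw [Nat.coprime_mul_iff_right, not_and_or] at h
    rcases h with h | h
    · rw [char_not_coprime χ1 n h, zero_mul]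
    · rw [char_not_coprime χ2 n h, mul_zero]

lemma char_cases {q : ℕ} (χ : DirichletCharacter ℂ q) (h : χ ^ 2 = 1) (n : ZMod q) :
    χ n = 0 ∨ χ n = 1 ∨ χ n = -1 :=
  MulChar.isQuadratic_iff_sq_eq_one.mpr h n

end D159

end

section

/-!
# MP_d159ed_nt, claims D1 and D1'
-/

set_option autoImplicit false

namespace D159

open Finset
open scoped BigOperators ArithmeticFunction.vonMangoldt

namespace D1

/-- the profile of the weight in the logarithmic variable -/
noncomputable def phi (σ : ℝ) (j : ℕ) (t : ℝ) : ℝ :=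
  t ^ j / (j.factorial : ℝ) * Real.exp (-σ * t)

/-- its derivative -/
noncomputable def phi' (σ : ℝ) (j : ℕ) (t : ℝ) : ℝ :=
  (j * t ^ (j - 1)) / (j.factorial : ℝ) * Real.exp (-σ * t) +
    t ^ j / (j.factorial : ℝ) * (Real.exp (-σ * t) * (-σ))

lemma hasDerivAt_phi (σ : ℝ) (j : ℕ) (t : ℝ) : HasDerivAt (phi σ j) (phi' σ j t) t := by
  unfold phi phi'
  refine HasDerivAt.mul ((hasDerivAt_pow j t).div_const _) ?_
  have := (hasDerivAt_id t).const_mul (-σ)
  simpa using this.exp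

lemma phi'_le (σ a : ℝ) (hσ1 : 1 < σ) (hσ2 : σ ≤ 2) (ha : 0 < a) (ha1 : a ≤ 1) (j : ℕ)
    (t y0 : ℝ) (hy0 : 0 ≤ y0) (ht : y0 ≤ t) :
    ‖phi' σ j t‖ ≤ 3 * (1 / a) ^ j * Real.exp ((a - 1) * y0) := by
  have ht0 : 0 ≤ t := hy0.trans ht
  have h1a : 1 ≤ 1 / a := by rw [le_div_iff₀ ha]; linarith
  have hA : (j * t ^ (j - 1)) / (j.factorial : ℝ) ≤ (1 / a) ^ j * Real.exp (a * t) := by
    rcases Nat.eq_zero_or_pos j with rfl | hj
    · simp; positivity
    · obtain ⟨k, rfl⟩ : ∃ k, j = k + 1 := ⟨j - 1, by omega⟩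
      have h := logpow_le a ha t ht0 k
      have e : ((k + 1 : ℕ) : ℝ) * t ^ (k + 1 - 1) / ((k + 1).factorial : ℝ)
          = t ^ k / (k.factorial : ℝ) := by
        rw [Nat.factorial_succ]
        push_cast
        have : ((k : ℝ) + 1) ≠ 0 := by positivity
        rw [mul_div_mul_left _ _ this]
      rw [e]
      refine h.trans ?_
      have : (1 / a) ^ k ≤ (1 / a) ^ (k + 1) := pow_le_pow_right₀ h1a (by omega)
      gcongr
  have hB := logpow_le a ha t ht0 j
  have hE : 0 < Real.exp (-σ * t) := Real.exp_pos _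
  have hA0 : 0 ≤ (j * t ^ (j - 1)) / (j.factorial : ℝ) := by positivity
  have hB0 : 0 ≤ t ^ j / (j.factorial : ℝ) := by positivity
  have h1 : ‖phi' σ j t‖ ≤ (j * t ^ (j - 1)) / (j.factorial : ℝ) * Real.exp (-σ * t) +
      t ^ j / (j.factorial : ℝ) * (Real.exp (-σ * t) * σ) := by
    unfold phi'
    refine (norm_add_le _ _).trans (add_le_add ?_ ?_)
    · rw [Real.norm_of_nonneg (by positivity)]
    · rw [norm_mul, norm_mul, norm_neg, Real.norm_of_nonneg hB0, Real.norm_of_nonneg hE.le,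
        Real.norm_of_nonneg (by linarith : (0 : ℝ) ≤ σ)]
  have h2 : (j * t ^ (j - 1)) / (j.factorial : ℝ) * Real.exp (-σ * t) +
      t ^ j / (j.factorial : ℝ) * (Real.exp (-σ * t) * σ) ≤
      (1 / a) ^ j * Real.exp (a * t) * Real.exp (-σ * t) +
      (1 / a) ^ j * Real.exp (a * t) * (Real.exp (-σ * t) * 2) := by
    gcongr
  have h3 : Real.exp (a * t) * Real.exp (-σ * t) ≤ Real.exp ((a - 1) * y0) := by
    rw [← Real.exp_add]
    apply Real.exp_le_exp.mpr
    nlinarith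
  have hpos : 0 < (1 / a) ^ j := by positivity
  calc ‖phi' σ j t‖ ≤ _ := h1
    _ ≤ _ := h2
    _ = 3 * (1 / a) ^ j * (Real.exp (a * t) * Real.exp (-σ * t)) := by ring
    _ ≤ _ := by gcongr

lemma phi_sub_le (σ a : ℝ) (hσ1 : 1 < σ) (hσ2 : σ ≤ 2) (ha : 0 < a) (ha1 : a ≤ 1) (j : ℕ)
    (y y0 : ℝ) (hy0 : 0 ≤ y0) (hy : y0 ≤ y) :
    ‖phi σ j y - phi σ j y0‖ ≤ 3 * (1 / a) ^ j * Real.exp ((a - 1) * y0) * (y - y0) := by
  have h := Convex.norm_image_sub_le_of_norm_hasDerivWithin_le (s := Set.Icc y0 y)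
    (f := phi σ j) (f' := phi' σ j) (x := y0) (y := y)
    (C := 3 * (1 / a) ^ j * Real.exp ((a - 1) * y0))
    (fun t _ => (hasDerivAt_phi σ j t).hasDerivWithinAt)
    (fun t ht => phi'_le σ a hσ1 hσ2 ha ha1 j t y0 hy0 ht.1)
    (convex_Icc _ _) (Set.left_mem_Icc.mpr hy) (Set.right_mem_Icc.mpr hy)
  rwa [Real.norm_of_nonneg (by linarith : (0 : ℝ) ≤ y - y0)] at h

lemma wt_eq_phi (σ : ℝ) (j n : ℕ) (hn : 1 ≤ n) : wt σ j n = phi σ j (Real.log n) := by
  rw [wt_eq_exp σ j n hn, phi]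

/-- one term in the block number m -/
lemma block_term (σ a : ℝ) (hσ1 : 1 < σ) (hσ2 : σ ≤ 2) (ha : 0 < a) (ha1 : a ≤ 1 / 2) (j : ℕ)
    (q m r : ℕ) (hq : 1 ≤ q) (hm : 1 ≤ m) (hr : r ≤ q) :
    ‖wt σ j (r + q * m) - wt σ j (q * m)‖ ≤
      3 * (1 / a) ^ j * ((q : ℝ) ^ (a - 1) * (m : ℝ) ^ (-(3 / 2 : ℝ))) := by
  have hq0 : (0 : ℝ) < q := by exact_mod_cast hq
  have hm0 : (0 : ℝ) < m := by exact_mod_cast hm
  have hqm : 1 ≤ q * m := Nat.mul_pos hq hm
  have hqm0 : (0 : ℝ) < (q * m : ℕ) := by exact_mod_cast hqm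
  have h1 : 1 ≤ r + q * m := by omega
  rw [wt_eq_phi _ _ _ h1, wt_eq_phi _ _ _ hqm]
  have hle : Real.log ((q * m : ℕ) : ℝ) ≤ Real.log ((r + q * m : ℕ) : ℝ) := by
    apply Real.log_le_log hqm0
    push_cast
    have : (0 : ℝ) ≤ r := Nat.cast_nonneg r
    linarith
  have h := phi_sub_le σ a hσ1 hσ2 ha (by linarith) j (Real.log ((r + q * m : ℕ) : ℝ))
    (Real.log ((q * m : ℕ) : ℝ)) (Real.log_natCast_nonneg _) hle
  refine h.trans ?_
  have hdiff : Real.log ((r + q * m : ℕ) : ℝ) - Real.log ((q * m : ℕ) : ℝ) ≤ 1 / m := by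
    rw [← Real.log_div (by positivity) (by positivity)]
    have e : ((r + q * m : ℕ) : ℝ) / ((q * m : ℕ) : ℝ) = 1 + r / (q * m) := by
      push_cast
      field_simp
      ring
    rw [e]
    have h2 : (r : ℝ) / (q * m) ≤ 1 / m := by
      rw [div_le_div_iff₀ (by positivity) hm0]
      have : (r : ℝ) ≤ q := by exact_mod_cast hr
      nlinarith
    have h3 := Real.log_le_sub_one_of_pos (x := 1 + (r : ℝ) / (q * m)) (by positivity)
    linarith
  have e2 : Real.exp ((a - 1) * Real.log ((q * m : ℕ) : ℝ)) = (q : ℝ) ^ (a - 1) *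
      (m : ℝ) ^ (a - 1) := by
    rw [exp_mul_log_nat _ _ hqm]
    push_cast
    rw [Real.mul_rpow hq0.le hm0.le]
  rw [e2]
  have e3 : (m : ℝ) ^ (a - 1) * (1 / m) ≤ (m : ℝ) ^ (-(3 / 2 : ℝ)) := by
    rw [one_div, ← Real.rpow_neg_one, ← Real.rpow_add hm0]
    apply Real.rpow_le_rpow_of_exponent_le (by exact_mod_cast hm)
    linarith
  calc 3 * (1 / a) ^ j * ((q : ℝ) ^ (a - 1) * (m : ℝ) ^ (a - 1)) *
        (Real.log ((r + q * m : ℕ) : ℝ) - Real.log ((q * m : ℕ) : ℝ))
      ≤ 3 * (1 / a) ^ j * ((q : ℝ) ^ (a - 1) * (m : ℝ) ^ (a - 1)) * (1 / m) := by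
        gcongr
    _ = 3 * (1 / a) ^ j * ((q : ℝ) ^ (a - 1) * ((m : ℝ) ^ (a - 1) * (1 / m))) := by ring
    _ ≤ _ := by gcongr

/-- partial sums of n^(-3/2) -/
lemma partial_sum_le (n : ℕ) :
    ∑ k ∈ range (n + 1), ((k + 1 : ℕ) : ℝ) ^ (-(3 / 2 : ℝ)) ≤
      3 - 2 / Real.sqrt ((n + 1 : ℕ) : ℝ) := by
  induction n with
  | zero => norm_num
  | succ n ih =>
    rw [sum_range_succ]
    refine (add_le_add_left ih _).trans ?_
    set x := Real.sqrt ((n + 1 : ℕ) : ℝ) with hx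
    set y := Real.sqrt ((n + 1 + 1 : ℕ) : ℝ) with hy
    have hx0 : 0 < x := Real.sqrt_pos.mpr (by positivity)
    have hy0 : 0 < y := Real.sqrt_pos.mpr (by positivity)
    have hx2 : x ^ 2 = ((n + 1 : ℕ) : ℝ) := Real.sq_sqrt (by positivity)
    have hy2 : y ^ 2 = ((n + 1 + 1 : ℕ) : ℝ) := Real.sq_sqrt (by positivity)
    have hxy : x ≤ y := Real.sqrt_le_sqrt (by push_cast; linarith)
    have e : ((n + 1 + 1 : ℕ) : ℝ) ^ (-(3 / 2 : ℝ)) = 1 / y ^ 3 := by
      rw [← hy2, ← Real.rpow_natCast y 2, ← Real.rpow_mul hy0.le, one_div,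
        ← Real.rpow_natCast y 3, ← Real.rpow_neg hy0.le]
      norm_num
    rw [e]
    have hrel : y ^ 2 = x ^ 2 + 1 := by rw [hx2, hy2]; push_cast; ring
    have key : 1 / y ^ 3 ≤ 2 / x - 2 / y := by
      have h1 : 2 / x - 2 / y = 2 * (y - x) / (x * y) := by field_simp
      rw [h1, div_le_div_iff₀ (by positivity) (by positivity)]
      have h2 : (y - x) * (y + x) = 1 := by nlinarith
      have h3 : x * y * (y + x) ≤ 2 * y ^ 3 := by nlinarith [mul_pos hx0 hy0]
      have h4 : (0 : ℝ) < y + x := by positivity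
      have h5 : 2 * (y - x) * y ^ 3 * (y + x) = 2 * y ^ 3 := by
        have : 2 * (y - x) * y ^ 3 * (y + x) = 2 * y ^ 3 * ((y - x) * (y + x)) := by ring
        rw [this, h2, mul_one]
      have h6 : 1 * (x * y) * (y + x) ≤ 2 * (y - x) * y ^ 3 * (y + x) := by
        rw [h5]; linarith
      exact le_of_mul_le_mul_right h6 h4
    linarith

lemma summable_32 : Summable (fun n : ℕ => (n : ℝ) ^ (-(3 / 2 : ℝ))) :=
  Real.summable_nat_rpow.mpr (by norm_num)

lemma tsum_32 : ∑' n : ℕ, (n : ℝ) ^ (-(3 / 2 : ℝ)) ≤ 3 := by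
  refine Real.tsum_le_of_sum_range_le (fun n => by positivity) (fun n => ?_)
  rcases n with _ | n
  · simp
  rw [sum_range_succ']
  have h0 : ((0 : ℕ) : ℝ) ^ (-(3 / 2 : ℝ)) = 0 := by
    rw [Nat.cast_zero]; exact Real.zero_rpow (by norm_num)
  rw [h0, add_zero]
  rcases n with _ | n
  · simp
  refine (partial_sum_le n).trans ?_
  have : 0 ≤ 2 / Real.sqrt ((n + 1 : ℕ) : ℝ) := by positivity
  linarith

/-- first block -/
lemma block_zero (σ a : ℝ) (hσ1 : 1 < σ) (ha : 0 < a) (j : ℕ)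
    (q : ℕ) (hq : 1 ≤ q) :
    ∑ r ∈ range q, wt σ j r ≤ (1 / a) ^ j * ((q : ℝ) ^ a * (1 + Real.log q)) := by
  have hq0 : (0 : ℝ) < q := by exact_mod_cast hq
  have h1 : ∀ r ∈ range q, wt σ j r ≤ (1 / a) ^ j * ((q : ℝ) ^ a * ((r : ℝ))⁻¹) := by
    intro r hr
    rcases Nat.eq_zero_or_pos r with rfl | hr0
    · rw [wt_at_zero σ hσ1]; simp
    · refine (wt_le σ a ha j r hr0).trans ?_
      have hr1 : (0 : ℝ) < r := by exact_mod_cast hr0
      have hrq : (r : ℝ) ≤ q := by exact_mod_cast (mem_range.mp hr).le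
      have e : (r : ℝ) ^ (a - σ) ≤ (q : ℝ) ^ a * (r : ℝ)⁻¹ := by
        have e1 : (r : ℝ) ^ (a - σ) ≤ (r : ℝ) ^ (a - 1) :=
          Real.rpow_le_rpow_of_exponent_le (by exact_mod_cast hr0) (by linarith)
        have e2 : (r : ℝ) ^ (a - 1) = (r : ℝ) ^ a * (r : ℝ)⁻¹ := by
          rw [Real.rpow_sub hr1, Real.rpow_one, div_eq_mul_inv]
        rw [e2] at e1
        refine e1.trans ?_
        gcongr
      gcongr
  refine (sum_le_sum h1).trans ?_
  rw [← mul_sum, ← mul_sum]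
  have h2 : ∑ r ∈ range q, ((r : ℝ))⁻¹ ≤ 1 + Real.log q := by
    have h3 := harmonic_le_one_add_log q
    rw [harmonic] at h3
    push_cast at h3
    refine le_trans ?_ h3
    have : ∑ r ∈ range q, ((r : ℝ))⁻¹ ≤ ∑ r ∈ range (q + 1), ((r : ℝ))⁻¹ :=
      sum_le_sum_of_subset_of_nonneg (range_mono (by omega)) (fun _ _ _ => by positivity)
    refine this.trans ?_
    rw [sum_range_succ']
    simp
  gcongr

theorem bound (q : ℕ) [NeZero q] (χ : DirichletCharacter ℂ q) (hχ : χ ≠ 1) (σ a : ℝ)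
    (hσ1 : 1 < σ) (hσ2 : σ ≤ 2) (ha : 0 < a) (ha1 : a ≤ 1 / 2) (j : ℕ) :
    ‖ell χ σ j‖ ≤ (1 / a) ^ j * (q : ℝ) ^ a * (10 + Real.log q) := by
  have hq : 1 ≤ q := NeZero.one_le
  have hq0 : (0 : ℝ) < q := by exact_mod_cast hq
  have hsum := summable_ell χ σ hσ1 j
  have h1 : ell χ σ j = ∑' m : ℕ, ∑ r : ZMod q,
      χ ((r.val + q * m : ℕ) : ZMod q) * ((wt σ j (r.val + q * m) : ℝ) : ℂ) := by
    unfold ell
    rw [Nat.sumByResidueClasses hsum q]
    rw [Summable.tsum_finsetSum]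
    intro r _
    exact hsum.comp_injective (i := fun m : ℕ => r.val + q * m) (fun m m' h => by
      have : q * m = q * m' := by simpa using h
      exact Nat.eq_of_mul_eq_mul_left hq this)
  have hval : ∀ (r : ZMod q) (m : ℕ), ((r.val + q * m : ℕ) : ZMod q) = r := by
    intro r m
    push_cast
    rw [ZMod.natCast_self, zero_mul, add_zero, ZMod.natCast_zmod_val]
  have hsumval : ∀ F : ℕ → ℝ, ∑ r : ZMod q, F r.val = ∑ r ∈ range q, F r := by
    intro F
    refine Finset.sum_bij (fun r _ => r.val) (fun r _ => mem_range.mpr (ZMod.val_lt r))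
      (fun r _ r' _ h => ZMod.val_injective q h) (fun n hn => ?_) (fun r _ => rfl)
    exact ⟨(n : ZMod q), mem_univ _, ZMod.val_cast_of_lt (mem_range.mp hn)⟩
  rw [h1]
  set C0 : ℝ := (1 / a) ^ j * ((q : ℝ) ^ a * (1 + Real.log q)) with hC0
  set C1 : ℝ := 3 * (1 / a) ^ j * (q : ℝ) ^ a with hC1
  have hlog : 0 ≤ Real.log q := Real.log_natCast_nonneg q
  have hC00 : 0 ≤ C0 := by positivity
  have hC10 : 0 ≤ C1 := by positivity
  have hbs : HasSum (fun m : ℕ => (if m = 0 then C0 else 0) + C1 * (m : ℝ) ^ (-(3 / 2 : ℝ)))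
      (C0 + C1 * ∑' m : ℕ, (m : ℝ) ^ (-(3 / 2 : ℝ))) := by
    refine HasSum.add ?_ (summable_32.hasSum.mul_left C1)
    exact hasSum_ite_eq 0 C0
  have hle := tsum_of_norm_bounded (f := fun m : ℕ => ∑ r : ZMod q,
      χ ((r.val + q * m : ℕ) : ZMod q) * ((wt σ j (r.val + q * m) : ℝ) : ℂ)) hbs (fun m => ?_)
  · refine hle.trans ?_
    have := tsum_32
    calc C0 + C1 * ∑' m : ℕ, (m : ℝ) ^ (-(3 / 2 : ℝ)) ≤ C0 + C1 * 3 := by gcongr
      _ = (1 / a) ^ j * (q : ℝ) ^ a * (10 + Real.log q) := by rw [hC0, hC1]; ring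
  · rcases Nat.eq_zero_or_pos m with rfl | hm
    · have h0 : ((0 : ℕ) : ℝ) ^ (-(3 / 2 : ℝ)) = 0 := by
        rw [Nat.cast_zero]; exact Real.zero_rpow (by norm_num)
      rw [h0]
      simp only [if_true, mul_zero, add_zero]
      refine (norm_sum_le _ _).trans ?_
      have : ∀ r : ZMod q, ‖χ ((r.val : ℕ) : ZMod q) * ((wt σ j r.val : ℝ) : ℂ)‖ ≤
          wt σ j r.val := by
        intro r
        rw [norm_mul, Complex.norm_real, Real.norm_of_nonneg (wt_nonneg σ j _)]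
        exact mul_le_of_le_one_left (wt_nonneg σ j _) (χ.norm_le_one _)
      refine (sum_le_sum (fun r _ => this r)).trans ?_
      rw [hsumval (fun n => wt σ j n)]
      exact block_zero σ a hσ1 ha j q hq
    · rw [if_neg hm.ne', zero_add]
      have hz : ∑ r : ZMod q, χ ((r.val + q * m : ℕ) : ZMod q) * ((wt σ j (q * m) : ℝ) : ℂ)
          = 0 := by
        rw [← sum_mul]
        have : ∑ r : ZMod q, χ ((r.val + q * m : ℕ) : ZMod q) = ∑ r : ZMod q, χ r :=
          sum_congr rfl (fun r _ => by rw [hval])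
        rw [this, MulChar.sum_eq_zero_of_ne_one hχ, zero_mul]
      have e : ∑ r : ZMod q, χ ((r.val + q * m : ℕ) : ZMod q) *
          ((wt σ j (r.val + q * m) : ℝ) : ℂ) =
          ∑ r : ZMod q, χ ((r.val + q * m : ℕ) : ZMod q) *
          ((wt σ j (r.val + q * m) - wt σ j (q * m) : ℝ) : ℂ) := by
        rw [← sub_zero (∑ r : ZMod q, χ ((r.val + q * m : ℕ) : ZMod q) *
          ((wt σ j (r.val + q * m) : ℝ) : ℂ)), ← hz, ← sum_sub_distrib]
        refine sum_congr rfl (fun r _ => ?_)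
        push_cast
        ring
      rw [e]
      refine (norm_sum_le _ _).trans ?_
      have hb : ∀ r : ZMod q, ‖χ ((r.val + q * m : ℕ) : ZMod q) *
          ((wt σ j (r.val + q * m) - wt σ j (q * m) : ℝ) : ℂ)‖ ≤
          3 * (1 / a) ^ j * ((q : ℝ) ^ (a - 1) * (m : ℝ) ^ (-(3 / 2 : ℝ))) := by
        intro r
        rw [norm_mul, Complex.norm_real]
        refine (mul_le_of_le_one_left (norm_nonneg _) (χ.norm_le_one _)).trans ?_
        exact block_term σ a hσ1 hσ2 ha ha1 j q m r.val hq hm (ZMod.val_lt r).le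
      refine (sum_le_sum (fun r _ => hb r)).trans ?_
      rw [sum_const, card_univ, ZMod.card, nsmul_eq_mul]
      have e2 : (q : ℝ) * (q : ℝ) ^ (a - 1) = (q : ℝ) ^ a := by
        rw [Real.rpow_sub hq0, Real.rpow_one]; field_simp
      rw [hC1, ← e2]
      apply le_of_eq
      ring

lemma two_le_of_ne_one (q : ℕ) [NeZero q] (χ : DirichletCharacter ℂ q) (hχ : χ ≠ 1) :
    2 ≤ q := by
  by_contra h
  have hq : q = 1 := by
    have := NeZero.one_le (n := q)
    omega
  subst hq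
  exact hχ (DirichletCharacter.level_one χ)

end D1

theorem claimD1 : ClaimD1 := by
  intro q _ χ hχ σ hσ1 hσ2 j
  have hq := D1.two_le_of_ne_one q χ hχ
  have hq0 : (0 : ℝ) < q := by positivity
  set L := Real.log q with hL
  have hL1 : 0.69 ≤ L := by
    have h1 : Real.log 2 ≤ Real.log q := Real.log_le_log (by norm_num) (by exact_mod_cast hq)
    have := Real.log_two_gt_d9
    linarith
  have ha : 0 < 1 / (8 * (1 + L)) := by positivity
  have ha1 : 1 / (8 * (1 + L)) ≤ 1 / 2 := by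
    rw [div_le_div_iff₀ (by positivity) (by norm_num)]
    linarith
  have h := D1.bound q χ hχ σ _ hσ1 hσ2 ha ha1 j
  refine h.trans ?_
  rw [one_div_one_div, pow_succ, mul_assoc]
  have hqa : (q : ℝ) ^ (1 / (8 * (1 + L))) ≤ 8 / 7 := by
    rw [Real.rpow_def_of_pos hq0]
    have h1 : Real.log q * (1 / (8 * (1 + L))) ≤ 1 / 8 := by
      rw [← hL, mul_one_div, div_le_div_iff₀ (by positivity) (by norm_num)]
      linarith
    have h2 : Real.exp (Real.log q * (1 / (8 * (1 + L)))) ≤ Real.exp (1 / 8) :=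
      Real.exp_le_exp.mpr h1
    have h3 : Real.exp (1 / 8) ≤ 8 / 7 := by
      have h4 := Real.add_one_le_exp (-(1 / 8 : ℝ))
      rw [Real.exp_neg] at h4
      have h5 : (0 : ℝ) < Real.exp (1 / 8) := Real.exp_pos _
      rw [le_div_iff₀ (by norm_num)]
      have h6 : (Real.exp (1 / 8))⁻¹ * Real.exp (1 / 8) = 1 := inv_mul_cancel₀ h5.ne'
      nlinarith
    linarith
  have h2 : (q : ℝ) ^ (1 / (8 * (1 + L))) * (10 + L) ≤ 8 * (1 + L) := by
    calc (q : ℝ) ^ (1 / (8 * (1 + L))) * (10 + L) ≤ 8 / 7 * (10 + L) := by gcongr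
      _ ≤ 8 * (1 + L) := by linarith
  gcongr

theorem claimD1' : ClaimD1' := by
  intro q _ χ hχ σ σ' h1 h2 h3
  have hq : 1 ≤ q := NeZero.one_le
  have hq0 : (0 : ℝ) < q := by exact_mod_cast hq
  set L := Real.log q with hL
  have hder : ∀ t ∈ Set.Icc σ' σ, HasDerivWithinAt (fun t : ℝ => ell χ t 0) (-(ell χ t 1))
      (Set.Icc σ' σ) t := by
    intro t ht
    have ht1 : 1 < t := h1.trans_le ht.1
    have ha : LSeries.abscissaOfAbsConv (fun n => χ n) < ((t : ℂ)).re := by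
      rw [DirichletCharacter.absicssaOfAbsConv_eq_one (NeZero.ne q) χ]
      rw [Complex.ofReal_re]
      exact_mod_cast ht1
    have hd := (LSeries_hasDerivAt ha).comp_ofReal
    rw [ell_one_eq χ t ht1]
    refine hd.hasDerivWithinAt.congr (fun s hs => ?_) ?_
    · exact ell_zero_eq χ s (h1.trans_le hs.1)
    · exact ell_zero_eq χ t ht1
  have hb : ∀ t ∈ Set.Icc σ' σ, ‖-(ell χ t 1)‖ ≤ (8 * (1 + L)) ^ 2 := by
    intro t ht
    rw [norm_neg]
    exact claimD1 q χ hχ t (h1.trans_le ht.1) (ht.2.trans h3) 1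
  have h := Convex.norm_image_sub_le_of_norm_hasDerivWithin_le hder hb (convex_Icc _ _)
    (Set.left_mem_Icc.mpr h2) (Set.right_mem_Icc.mpr h2)
  rw [Real.norm_of_nonneg (by linarith : (0 : ℝ) ≤ σ - σ')] at h
  rw [mul_comm]
  exact h

end D159

end

section

/-!
# MP_d159ed_nt, D5: proper prime powers are negligible
-/

set_option autoImplicit false

namespace D159

open Finset
open scoped BigOperators ArithmeticFunction.vonMangoldt

/-- the majorant -/
noncomputable def D5.g (n : ℕ) : ℝ := if n.Prime then 0 else Λ n * (n : ℝ) ^ (-(3 / 4) : ℝ)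

lemma D5.g_nonneg (n : ℕ) : 0 ≤ D5.g n := by
  unfold D5.g
  split_ifs
  · exact le_rfl
  · exact mul_nonneg ArithmeticFunction.vonMangoldt_nonneg (by positivity)

lemma D5.summable_g : Summable D5.g := by
  classical
  -- the injection from pairs (p, k)
  let i : Nat.Primes × ℕ → ℕ := fun x => (Nat.Primes.prodNatEquiv x : ℕ)
  have hi : Function.Injective i := Subtype.val_injective.comp Nat.Primes.prodNatEquiv.injective
  have hrange : ∀ n ∉ Set.range i, D5.g n = 0 := by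
    intro n hn
    have hpp : ¬ IsPrimePow n := by
      intro h
      refine hn ⟨Nat.Primes.prodNatEquiv.symm ⟨n, h⟩, ?_⟩
      simp only [i, Equiv.apply_symm_apply]
    unfold D5.g
    rw [ArithmeticFunction.vonMangoldt_eq_zero_iff.2 hpp]
    simp
  rw [← hi.summable_iff hrange]
  set r : ℝ := (2 : ℝ) ^ (-(3 / 4) : ℝ) with hr
  have hr0 : 0 < r := by positivity
  have hr1 : r < 1 := Real.rpow_lt_one_of_one_lt_of_neg (by norm_num) (by norm_num)
  have hr2 : 1 ≤ 2 * r := by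
    have h1 : (2 : ℝ) * r = (2 : ℝ) ^ (1 + (-(3 / 4)) : ℝ) := by
      rw [Real.rpow_add (by norm_num), Real.rpow_one]
    rw [h1]
    exact Real.one_le_rpow (by norm_num) (by norm_num)
  have hs1 : Summable (fun p : Nat.Primes => 2 * wt (3 / 2) 1 (p : ℕ)) := by
    have h1 := (summable_wt (3 / 2) (by norm_num) 1).comp_injective
      (i := fun p : Nat.Primes => (p : ℕ)) (fun a b h => Subtype.ext h)
    exact h1.mul_left 2
  have hs2 : Summable (fun k : ℕ => r ^ k) := summable_geometric_of_lt_one hr0.le hr1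
  have hs3 := hs1.mul_of_nonneg hs2 (fun p => mul_nonneg (by norm_num) (wt_nonneg _ _ _))
    (fun k => by positivity)
  refine Summable.of_nonneg_of_le (fun x => D5.g_nonneg _) (fun x => ?_) hs3
  obtain ⟨p, k⟩ := x
  have hip : i (p, k) = (p : ℕ) ^ (k + 1) := by simp [i]
  simp only [Function.comp_apply, hip]
  have hp2 : (2 : ℝ) ≤ ((p : ℕ) : ℝ) := by exact_mod_cast p.2.two_le
  have hp0 : (0 : ℝ) < ((p : ℕ) : ℝ) := by linarith
  rcases k with _ | k
  · have : D5.g ((p : ℕ) ^ (0 + 1)) = 0 := by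
      unfold D5.g
      rw [zero_add, pow_one, if_pos p.2]
    rw [this]
    exact mul_nonneg (mul_nonneg (by norm_num) (wt_nonneg _ _ _)) (by positivity)
  · have hnp : ¬ ((p : ℕ) ^ (k + 1 + 1)).Prime := Nat.Prime.not_prime_pow (by omega)
    unfold D5.g
    rw [if_neg hnp, ArithmeticFunction.vonMangoldt_apply_pow (by omega),
      ArithmeticFunction.vonMangoldt_apply_prime p.2]
    have h1 : (((p : ℕ) ^ (k + 1 + 1) : ℕ) : ℝ) ^ (-(3 / 4) : ℝ) =
        ((p : ℕ) : ℝ) ^ (-(3 / 2) : ℝ) * (((p : ℕ) : ℝ) ^ (-(3 / 4) : ℝ)) ^ k := by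
      push_cast
      rw [← Real.rpow_natCast, ← Real.rpow_mul hp0.le, ← Real.rpow_natCast (((p : ℕ) : ℝ) ^ _),
        ← Real.rpow_mul hp0.le, ← Real.rpow_add hp0]
      congr 1
      push_cast
      ring
    rw [h1]
    have h2 : ((p : ℕ) : ℝ) ^ (-(3 / 4) : ℝ) ≤ r := by
      rw [hr]
      exact Real.rpow_le_rpow_of_nonpos (by norm_num) hp2 (by norm_num)
    have h3 : (((p : ℕ) : ℝ) ^ (-(3 / 4) : ℝ)) ^ k ≤ r ^ k :=
      pow_le_pow_left₀ (by positivity) h2 k
    have h4 : wt (3 / 2) 1 (p : ℕ) = Real.log (p : ℕ) * ((p : ℕ) : ℝ) ^ (-(3 / 2) : ℝ) := by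
      unfold wt
      simp
    rw [h4]
    have hlog : 0 ≤ Real.log (p : ℕ) := Real.log_natCast_nonneg _
    calc Real.log (p : ℕ) * (((p : ℕ) : ℝ) ^ (-(3 / 2) : ℝ) * (((p : ℕ) : ℝ) ^ (-(3 / 4) : ℝ)) ^ k)
        = (Real.log (p : ℕ) * ((p : ℕ) : ℝ) ^ (-(3 / 2) : ℝ)) *
          (((p : ℕ) : ℝ) ^ (-(3 / 4) : ℝ)) ^ k := by ring
      _ ≤ (Real.log (p : ℕ) * ((p : ℕ) : ℝ) ^ (-(3 / 2) : ℝ)) * r ^ k :=
          mul_le_mul_of_nonneg_left h3 (by positivity)
      _ ≤ (Real.log (p : ℕ) * ((p : ℕ) : ℝ) ^ (-(3 / 2) : ℝ)) * ((2 * r) * r ^ k) := by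
          refine mul_le_mul_of_nonneg_left ?_ (by positivity)
          exact le_mul_of_one_le_left (by positivity) hr2
      _ = 2 * (Real.log (p : ℕ) * ((p : ℕ) : ℝ) ^ (-(3 / 2) : ℝ)) * r ^ (k + 1) := by ring

theorem claimD5 : ClaimD5 := by
  have hg0 : 0 ≤ ∑' n : ℕ, D5.g n := tsum_nonneg D5.g_nonneg
  refine ⟨∑' n : ℕ, D5.g n + 1, by linarith, fun m η hη => ?_⟩
  have hle : ∀ n : ℕ, (if n.Prime then 0 else Λ n * wt (1 + η) m n) ≤ 4 ^ m * D5.g n := by
    intro n
    unfold D5.g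
    split_ifs with hp
    · simp
    · rcases Nat.eq_zero_or_pos n with rfl | hn
      · simp
      · have hn1 : (1 : ℝ) ≤ n := by exact_mod_cast hn
        have h1 := wt_le (1 + η) (1 / 4) (by norm_num) m n hn
        have h2 : (1 / (1 / 4) : ℝ) = 4 := by norm_num
        rw [h2] at h1
        have h3 : (n : ℝ) ^ (1 / 4 - (1 + η)) ≤ (n : ℝ) ^ (-(3 / 4) : ℝ) :=
          Real.rpow_le_rpow_of_exponent_le hn1 (by linarith)
        have h4 : wt (1 + η) m n ≤ 4 ^ m * (n : ℝ) ^ (-(3 / 4) : ℝ) :=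
          h1.trans (mul_le_mul_of_nonneg_left h3 (by positivity))
        calc Λ n * wt (1 + η) m n ≤ Λ n * (4 ^ m * (n : ℝ) ^ (-(3 / 4) : ℝ)) :=
              mul_le_mul_of_nonneg_left h4 ArithmeticFunction.vonMangoldt_nonneg
          _ = 4 ^ m * (Λ n * (n : ℝ) ^ (-(3 / 4) : ℝ)) := by ring
  have hnn : ∀ n : ℕ, 0 ≤ (if n.Prime then 0 else Λ n * wt (1 + η) m n) := by
    intro n
    split_ifs
    · exact le_rfl
    · exact mul_nonneg ArithmeticFunction.vonMangoldt_nonneg (wt_nonneg _ _ _)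
  have hs : Summable (fun n : ℕ => if n.Prime then 0 else Λ n * wt (1 + η) m n) :=
    Summable.of_nonneg_of_le hnn hle (D5.summable_g.mul_left _)
  refine ⟨hs, ?_⟩
  calc ∑' n : ℕ, (if n.Prime then 0 else Λ n * wt (1 + η) m n)
      ≤ ∑' n : ℕ, 4 ^ m * D5.g n := hs.tsum_le_tsum hle (D5.summable_g.mul_left _)
    _ = 4 ^ m * ∑' n : ℕ, D5.g n := tsum_mul_left
    _ ≤ (∑' n : ℕ, D5.g n + 1) * 4 ^ m := by
        have h5 : (0 : ℝ) < 4 ^ m := by positivity
        nlinarith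

end D159

end

section

/-!
# MP_d159ed_nt, items D7d and D7e
-/

set_option autoImplicit false

namespace D159

open Finset LSeries
open scoped BigOperators ArithmeticFunction.vonMangoldt

lemma mulCh_apply_de {q1 q2 : ℕ} (χ1 : DirichletCharacter ℂ q1) (χ2 : DirichletCharacter ℂ q2)
    {n : ℕ} (h : n.Coprime (q1 * q2)) : mulCh χ1 χ2 (n : ZMod (q1 * q2)) = χ1 n * χ2 n := by
  have hc : IsCoprime ((n : ℕ) : ℤ) ((q1 * q2 : ℕ) : ℤ) := Nat.isCoprime_iff_coprime.mpr h
  have h1 := DirichletCharacter.changeLevel_eq_cast_of_dvd' χ1 (Dvd.intro q2 rfl) hc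
  have h2 := DirichletCharacter.changeLevel_eq_cast_of_dvd' χ2 (Dvd.intro_left q1 rfl) hc
  rw [Int.cast_natCast, Int.cast_natCast] at h1 h2
  rw [mulCh, MulChar.mul_apply, h1, h2]

lemma sq_apply {q : ℕ} (χ : DirichletCharacter ℂ q) (h2 : χ ^ 2 = 1) {n : ℕ}
    (h : n.Coprime q) : χ n * χ n = 1 := by
  have hu : IsUnit (n : ZMod q) := (ZMod.isUnit_iff_coprime n q).mpr h
  have h3 : (χ ^ 2) (n : ZMod q) = 1 := by rw [h2]; exact MulChar.one_apply hu
  rw [pow_two, MulChar.mul_apply] at h3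
  exact h3

theorem claimD7d : ClaimD7d := by
  intro q1 q2 q3 _ _ _ χ1 χ2 χ3 _ h2 _ h21 h23
  apply MulChar.ext
  intro u
  obtain ⟨p, hp, hpp, hpu⟩ := Nat.forall_exists_prime_gt_and_eq_mod
    (q := q1 * q3) (a := (u : ZMod (q1 * q3))) u.isUnit (q1 * q2 * q3)
  have hq1 : 0 < q1 := Nat.pos_of_ne_zero (NeZero.ne q1)
  have hq2 : 0 < q2 := Nat.pos_of_ne_zero (NeZero.ne q2)
  have hq3 : 0 < q3 := Nat.pos_of_ne_zero (NeZero.ne q3)
  have hle : ∀ d, d ∣ q1 * q2 * q3 → p.Coprime d := by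
    intro d hd
    rw [Nat.Prime.coprime_iff_not_dvd hpp]
    intro hpd
    have := Nat.le_of_dvd (by positivity) (hpd.trans hd)
    omega
  have c13 : p.Coprime (q1 * q3) := hle _ ⟨q2, by ring⟩
  have c21 : p.Coprime (q2 * q1) := hle _ ⟨q3, by ring⟩
  have c23 : p.Coprime (q2 * q3) := hle _ ⟨q1, by ring⟩
  have c2 : p.Coprime q2 := hle _ ⟨q1 * q3, by ring⟩
  have e21 : χ2 p * χ1 p = 1 := by
    rw [← mulCh_apply_de χ2 χ1 c21, h21]
    exact MulChar.one_apply ((ZMod.isUnit_iff_coprime p (q2 * q1)).mpr c21)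
  have e23 : χ2 p * χ3 p = 1 := by
    rw [← mulCh_apply_de χ2 χ3 c23, h23]
    exact MulChar.one_apply ((ZMod.isUnit_iff_coprime p (q2 * q3)).mpr c23)
  have e2 := sq_apply χ2 h2 c2
  rw [← hpu, mulCh_apply_de χ1 χ3 c13,
    MulChar.one_apply ((ZMod.isUnit_iff_coprime p (q1 * q3)).mpr c13)]
  calc χ1 p * χ3 p = (χ2 p * χ2 p) * (χ1 p * χ3 p) := by rw [e2, one_mul]
    _ = (χ2 p * χ1 p) * (χ2 p * χ3 p) := by ring
    _ = 1 := by rw [e21, e23, one_mul]

lemma ell_zero_eq_de {q : ℕ} [NeZero q] (χ : DirichletCharacter ℂ q) (σ : ℝ) (hσ : 1 < σ) :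
    ell χ σ 0 = DirichletCharacter.LFunction χ (σ : ℂ) := by
  rw [ell_eq χ σ hσ, DirichletCharacter.LFunction_eq_LSeries χ (by simpa using hσ)]
  apply LSeries_congr
  intro n _
  simp [lc]

lemma tendsto_eta : Filter.Tendsto eta Filter.atTop (nhds 0) := by
  have h1 : Filter.Tendsto (fun z : ℕ => (z : ℝ) ^ 60) Filter.atTop Filter.atTop :=
    (Filter.tendsto_pow_atTop (by norm_num)).comp tendsto_natCast_atTop_atTop
  have h2 := h1.inv_tendsto_atTop
  refine h2.congr (fun z => ?_)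
  simp [eta]

theorem claimD7e : ClaimD7e := by
  intro q _ χ hχ
  have h1 : DirichletCharacter.LFunction χ 1 ≠ 0 :=
    DirichletCharacter.LFunction_apply_one_ne_zero hχ
  have hcont : Continuous (DirichletCharacter.LFunction χ) :=
    (DirichletCharacter.differentiable_LFunction hχ).continuous
  have ht : Filter.Tendsto (fun z : ℕ => ‖DirichletCharacter.LFunction χ (((1 + eta z : ℝ)) : ℂ)‖)
      Filter.atTop (nhds ‖DirichletCharacter.LFunction χ 1‖) := by
    apply Filter.Tendsto.norm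
    have h2 : Filter.Tendsto (fun z : ℕ => (((1 + eta z : ℝ)) : ℂ)) Filter.atTop (nhds 1) := by
      have h3 : Filter.Tendsto (fun z : ℕ => (1 + eta z : ℝ)) Filter.atTop (nhds (1 + 0)) :=
        tendsto_const_nhds.add tendsto_eta
      rw [add_zero] at h3
      have h4 := (Complex.continuous_ofReal.tendsto (1 : ℝ)).comp h3
      rw [Complex.ofReal_one] at h4
      exact h4
    exact (hcont.tendsto 1).comp h2
  have hpos : 0 < ‖DirichletCharacter.LFunction χ 1‖ := norm_pos_iff.mpr h1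
  have h5 := ht.eventually (lt_mem_nhds (half_lt_self hpos))
  obtain ⟨z1, hz1⟩ := Filter.eventually_atTop.mp h5
  refine ⟨‖DirichletCharacter.LFunction χ 1‖ / 2, by positivity, max z1 1, ?_⟩
  intro z hz
  have hz0 : 1 ≤ z := le_trans (le_max_right _ _) hz
  have hzpos : (0 : ℝ) < z := by exact_mod_cast hz0
  have heta : 0 < eta z := by rw [eta]; positivity
  rw [ell_zero_eq_de χ (1 + eta z) (by linarith)]
  exact (hz1 z (le_trans (le_max_left _ _) hz)).le

end D159

end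

section

/-!
# MP_d159ed_nt, item E3: N is congruent to 1 modulo n w
-/

set_option autoImplicit false

namespace D159

open Finset
open scoped BigOperators

theorem e3_two_pow_dvd (u z : ℕ) : 2 ^ (2 ^ bz u z * z ^ 2) ∣ h0 u z := by
  unfold h0
  exact dvd_mul_of_dvd_left (dvd_mul_right _ _) _

theorem e3_fact_dvd (u z : ℕ) : z.factorial ^ (bz u z + 1) ∣ h0 u z := by
  unfold h0
  exact dvd_mul_of_dvd_left (dvd_mul_left _ _) _

theorem e3_prod_dvd (u z : ℕ) {r : ℕ} (hr : r.Prime) (ho : Odd r) (hz : r ≤ z) :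
    r ^ (2 ^ bz u z * r) - 1 ∣ h0 u z := by
  unfold h0
  refine dvd_mul_of_dvd_right ?_ _
  exact Finset.dvd_prod_of_mem (fun r => r ^ (2 ^ bz u z * r) - 1)
    (Finset.mem_filter.2 ⟨Finset.mem_range.2 (by omega), hr, ho⟩)

theorem e3_h0_pos (u z : ℕ) : 0 < h0 u z := by
  unfold h0
  refine Nat.mul_pos (Nat.mul_pos (by positivity) (by positivity)) (Finset.prod_pos ?_)
  intro r hr
  rw [Finset.mem_filter] at hr
  have h1 : 1 < r ^ (2 ^ bz u z * r) := Nat.one_lt_pow (by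
    have := hr.2.1.pos
    positivity) hr.2.1.one_lt
  omega

/-- an odd prime divisor of `h0` is smaller than the power of two in `h0` -/
theorem e3_small (u z : ℕ) (hz : 1 ≤ z) {q : ℕ} (hq : q.Prime) (hq2 : q ≠ 2) (hd : q ∣ h0 u z) :
    q < 2 ^ (2 ^ bz u z * z ^ 2) := by
  have hE : z ≤ 2 ^ bz u z * z ^ 2 := by
    have h1 : 1 ≤ 2 ^ bz u z := Nat.one_le_two_pow
    nlinarith
  unfold h0 at hd
  rcases (hq.dvd_mul).1 hd with hd | hd
  · rcases (hq.dvd_mul).1 hd with hd | hd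
    · exact absurd ((Nat.prime_dvd_prime_iff_eq hq Nat.prime_two).1 (hq.dvd_of_dvd_pow hd)) hq2
    · have h1 := (hq.dvd_factorial).1 (hq.dvd_of_dvd_pow hd)
      calc q ≤ z := h1
        _ < 2 ^ z := Nat.lt_two_pow_self
        _ ≤ 2 ^ (2 ^ bz u z * z ^ 2) := Nat.pow_le_pow_right (by norm_num) hE
  · obtain ⟨r, hr, hqr⟩ := (hq.prime.dvd_finsetProd_iff _).1 hd
    rw [Finset.mem_filter, Finset.mem_range] at hr
    have h1 : 1 < r ^ (2 ^ bz u z * r) := Nat.one_lt_pow (by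
      have := hr.2.1.pos
      positivity) hr.2.1.one_lt
    have h2 := Nat.le_of_dvd (by omega) hqr
    have h3 : r ^ (2 ^ bz u z * r) ≤ 2 ^ (2 ^ bz u z * z ^ 2) := by
      calc r ^ (2 ^ bz u z * r) ≤ z ^ (2 ^ bz u z * r) := Nat.pow_le_pow_left (by omega) _
        _ ≤ z ^ (2 ^ bz u z * z) := Nat.pow_le_pow_right hz (Nat.mul_le_mul_left _ (by omega))
        _ ≤ (2 ^ z) ^ (2 ^ bz u z * z) := Nat.pow_le_pow_left Nat.lt_two_pow_self.le _
        _ = 2 ^ (2 ^ bz u z * z ^ 2) := by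
          rw [← pow_mul]
          congr 1
          ring
    omega

/-- part (1) -/
theorem e3_mod_n (ha : ClaimE3a) (u z : ℕ) (hz : 2 ≤ z) (k : ℕ) (hk : 1 ≤ k)
    (hkq : ∀ q : ℕ, q.Prime → q ∣ k → ¬ h0 u z ∣ q - 1) :
    Ncyc (h0 u z * k) ≡ 1 [MOD (h0 u z * k)] := by
  have hh := e3_h0_pos u z
  have hn : 0 < h0 u z * k := Nat.mul_pos hh hk
  have hE : 1 ≤ 2 ^ bz u z * z ^ 2 := by
    have h1 : 1 ≤ 2 ^ bz u z := Nat.one_le_two_pow
    nlinarith
  have h2 : 2 ≤ h0 u z * k := by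
    have h3 : 2 ∣ h0 u z * k := dvd_mul_of_dvd_left ((dvd_pow_self 2 (by omega)).trans
      (e3_two_pow_dvd u z)) _
    exact Nat.le_of_dvd hn h3
  apply ha _ h2
  intro q hq hqn hq2 hdiv
  set n := h0 u z * k with hndef
  have hq1 : 0 < q - 1 := by have := hq.two_le; omega
  -- a divisor of n coprime to q divides n / q^v
  have key : ∀ d : ℕ, d ∣ n → ¬ q ∣ d → d ∣ n / q ^ n.factorization q := by
    intro d hd hqd
    have h1 : q ^ n.factorization q * (n / q ^ n.factorization q) = n := Nat.ordProj_mul_ordCompl_eq_self n q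
    rw [← h1] at hd
    have hc : Nat.Coprime d (q ^ n.factorization q) :=
      Nat.Coprime.pow_right _ (((hq.coprime_iff_not_dvd).2 hqd).symm)
    exact hc.dvd_of_dvd_mul_left hd
  by_cases hqh : q ∣ h0 u z
  · have h1 := key _ ((e3_two_pow_dvd u z).trans (dvd_mul_right _ k)) (by
      intro h
      exact hq2 ((Nat.prime_dvd_prime_iff_eq hq Nat.prime_two).1 (hq.dvd_of_dvd_pow h)))
    have h2 := Nat.le_of_dvd hq1 (h1.trans hdiv)
    have h3 := e3_small u z (by omega) hq hq2 hqh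
    omega
  · have h1 := key _ (dvd_mul_right (h0 u z) k) hqh
    have h2 : q ∣ k := ((hq.dvd_mul).1 hqn).resolve_left hqh
    exact hkq q hq h2 (h1.trans hdiv)

theorem e3_totient (n : ℕ) :
    Nat.totient (∏ p ∈ n.primeFactors, p) = ∏ p ∈ n.primeFactors, (p - 1) := by
  have h1 := Nat.totient_mul_prod_primeFactors (∏ p ∈ n.primeFactors, p)
  rw [Nat.primeFactors_prod_primeFactors] at h1
  have h2 : 0 < ∏ p ∈ n.primeFactors, p :=
    Finset.prod_pos (fun p hp => (Nat.prime_of_mem_primeFactors hp).pos)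
  rw [mul_comm] at h1
  exact Nat.eq_of_mul_eq_mul_left h2 h1

theorem e3_fact_dvd_div (m n c : ℕ) (hm : 0 < m) (hn : 0 < n) (hc : 2 ≤ c) (h : m ^ c ∣ n) :
    m ∣ n / (∏ p ∈ n.primeFactors, p) := by
  set s := ∏ p ∈ n.primeFactors, p with hs
  have hs0 : 0 < s := Finset.prod_pos (fun p hp => (Nat.prime_of_mem_primeFactors hp).pos)
  have hsn : s ∣ n := Nat.prod_primeFactors_dvd n
  have hsqf : Squarefree s := by
    rw [hs]
    refine Finset.squarefree_prod_of_pairwise_isCoprime (fun p hp q hq hpq => ?_) ?_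
    · rw [Finset.mem_coe, Nat.mem_primeFactors] at hp hq
      exact (Nat.coprime_iff_isRelPrime).1 ((Nat.coprime_primes hp.1 hq.1).2 hpq)
    · intro p hp
      exact (Nat.prime_of_mem_primeFactors hp).prime.squarefree
  have hne : n / s ≠ 0 := (Nat.div_pos (Nat.le_of_dvd hn hsn) hs0).ne'
  rw [← Nat.factorization_prime_le_iff_dvd hm.ne' hne]
  intro p hp
  rw [Nat.factorization_div hsn, Finsupp.tsub_apply]
  have h1 : c * m.factorization p ≤ n.factorization p := by
    have h2 := (Nat.factorization_le_iff_dvd (pow_pos hm c).ne' hn.ne').2 h p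
    rwa [Nat.factorization_pow, Finsupp.smul_apply, smul_eq_mul] at h2
  have h3 : s.factorization p ≤ 1 := hsqf.natFactorization_le_one p
  have h4 : 2 * m.factorization p ≤ c * m.factorization p := Nat.mul_le_mul_right _ hc
  omega

theorem claimE3x (ha : ClaimE3a) (hb : ClaimE3b) (hc : ClaimE3c) (hd : ClaimE3d) : NCong := by
  intro u
  refine ⟨2, fun z hz k hk hkq w hw => ?_⟩
  have hn1 := e3_mod_n ha u z hz k hk hkq
  have hh := e3_h0_pos u z
  have hdn : h0 u z ∣ h0 u z * k := dvd_mul_right _ _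
  set n := h0 u z * k with hndef
  have hn : 0 < n := Nat.mul_pos hh hk
  set b := bz u z with hbdef
  have hb1 : 1 ≤ b := by rw [hbdef]; unfold bz; omega
  have hpos : 0 < (Polynomial.cyclotomic n ℤ).eval 2 := Polynomial.cyclotomic_pos' n (by norm_num)
  have hN : ((Ncyc n : ℕ) : ℤ) = (Polynomial.cyclotomic n ℤ).eval 2 := Int.toNat_of_nonneg hpos.le
  have hN1 : 1 ≤ Ncyc n := by
    have : (0 : ℤ) < (Ncyc n : ℕ) := by rw [hN]; exact hpos
    exact_mod_cast this
  have hNn : n ∣ Ncyc n - 1 := (Nat.modEq_iff_dvd' hN1).1 hn1.symm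
  refine ((Nat.modEq_iff_dvd' hN1).2 ?_).symm
  rw [Nat.dvd_iff_prime_pow_dvd_dvd]
  intro p j hp hpj
  rw [Sset, Finset.mem_filter, Finset.mem_Icc] at hw
  obtain ⟨⟨hw1, _⟩, hwodd, hwp⟩ := hw
  have hw0 : w ≠ 0 := by omega
  by_cases hpw : p ∣ w
  · have hpodd : Odd p := hwodd.of_dvd_nat hpw
    obtain ⟨hpz, hpv⟩ := hwp p (Nat.mem_primeFactors.2 ⟨hp, hpw, hw0⟩)
    have hpfact : p ∣ z.factorial := (hp.dvd_factorial).2 hpz
    have hfn : z.factorial ^ (b + 1) ∣ n := (e3_fact_dvd u z).trans hdn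
    have hvn : b + 1 ≤ n.factorization p :=
      (hp.pow_dvd_iff_le_factorization hn.ne').1 ((pow_dvd_pow_of_dvd hpfact _).trans hfn)
    have hpn : p ∣ n := (dvd_pow_self p (by omega)).trans ((pow_dvd_pow_of_dvd hpfact _).trans hfn)
    have h2n : 2 ∣ n := ((dvd_pow_self 2 (by
      have h1 : 1 ≤ 2 ^ bz u z := Nat.one_le_two_pow
      nlinarith)).trans (e3_two_pow_dvd u z)).trans hdn
    have hp1 : (p - 1) ∣ n / (∏ q ∈ n.primeFactors, q) := by
      have h1 : (p - 1) ∣ z.factorial :=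
        Nat.dvd_factorial (by have := hp.two_le; omega) (by omega)
      exact h1.trans (e3_fact_dvd_div _ n (b + 1) (Nat.factorial_pos z) hn (by omega) hfn)
    have hphi : p ^ b ∣ Nat.totient (∏ q ∈ n.primeFactors, q) := by
      rw [e3_totient]
      obtain ⟨q, hinj, hq⟩ := hc p hp hpodd b
      have h1 : p ^ b ∣ ∏ i : Fin b, (q i - 1) := by
        have h2 : ∏ _i : Fin b, p = p ^ b := by
          rw [Finset.prod_const, Finset.card_univ, Fintype.card_fin]
        rw [← h2]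
        exact Finset.prod_dvd_prod_of_dvd _ _ (fun i _ => (hq i).2.1)
      refine h1.trans ?_
      have h3 : ∏ i : Fin b, (q i - 1) = ∏ x ∈ Finset.univ.image q, (x - 1) := by
        rw [Finset.prod_image (fun i _ j _ hij => hinj hij)]
      rw [h3]
      apply Finset.prod_dvd_prod_of_subset
      intro x hx
      obtain ⟨i, _, rfl⟩ := Finset.mem_image.1 hx
      exact Nat.mem_primeFactors.2 ⟨(hq i).1,
        ((hq i).2.2.trans (e3_prod_dvd u z hp hpodd hpz)).trans hdn, hn.ne'⟩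
    have hfin := hd hb n p b hp hpodd hn (by omega) h2n hpn hp1 hphi
    rw [← hN] at hfin
    have hfin' : p ^ (n.factorization p + b) ∣ Ncyc n - 1 := by
      have h4 : ((p ^ (n.factorization p + b) : ℕ) : ℤ) ∣ ((Ncyc n - 1 : ℕ) : ℤ) := by
        rw [Nat.cast_sub hN1]
        push_cast
        exact hfin
      exact_mod_cast h4
    refine (pow_dvd_pow p ?_).trans hfin'
    have h5 := (hp.pow_dvd_iff_le_factorization (Nat.mul_ne_zero hn.ne' hw0)).1 hpj
    rw [Nat.factorization_mul hn.ne' hw0, Finsupp.add_apply] at h5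
    omega
  · have h1 : Nat.Coprime (p ^ j) w := Nat.Coprime.pow_left _ ((hp.coprime_iff_not_dvd).2 hpw)
    exact (h1.dvd_of_dvd_mul_right hpj).trans hNn

theorem claimE3 : ClaimE3 := fun ha hc hd => claimE3x ha claimE3b hc hd

end D159

end

section

/-!
# MP_d159ed_nt, part C: the Selberg majorant and its correlations

`h` is the fixed multiplier, `R` the level. `Dset h R` is the set of squarefree d in [1,R]
coprime to h; `Gs` is the Selberg sum; `lam` are the Selberg weights; `Lam h R n` is the divisor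
sum. The prime set is `Pr h R`.
-/

set_option autoImplicit false

namespace D159

open Finset
open scoped BigOperators

/-- squarefree numbers up to R coprime to h -/
def Dset (h R : ℕ) : Finset ℕ := (Icc 1 R).filter (fun d => Squarefree d ∧ Nat.Coprime d h)

/-- primes up to R not dividing h -/
def Pr (h R : ℕ) : Finset ℕ := (Icc 1 R).filter (fun p => p.Prime ∧ Nat.Coprime p h)

/-- the Selberg sum G -/
noncomputable def Gs (h R : ℕ) : ℝ := ∑ d ∈ Dset h R, (1 : ℝ) / (Nat.totient d : ℝ)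

/-- the Selberg weights -/
noncomputable def lam (h R d : ℕ) : ℝ :=
  if d ∈ Dset h R then
    (ArithmeticFunction.moebius d : ℝ) * ((d : ℝ) / (Nat.totient d : ℝ)) *
      (∑ m ∈ (Dset h R).filter (fun m => Nat.Coprime m d ∧ m * d ≤ R),
        (1 : ℝ) / (Nat.totient m : ℝ)) / Gs h R
  else 0

/-- the divisor sum -/
noncomputable def Lam (h R n : ℕ) : ℝ := ∑ d ∈ (Dset h R).filter (fun d => d ∣ n), lam h R d

/-- C1: elementary facts on the weights. -/
def ClaimC1 : Prop :=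
  ∀ h R : ℕ, 1 ≤ h → 1 ≤ R →
    lam h R 1 = 1 ∧ (∀ d, |lam h R d| ≤ 1) ∧
    ((Nat.totient h : ℝ) / (h : ℝ) * Real.log R ≤ Gs h R) ∧ 1 ≤ Gs h R ∧
    Gs h R ≤ (1 + Real.log R) ^ 2 ∧
    (∀ n : ℕ, n.Prime → R < n → Lam h R n = 1)

/-- C2: the diagonalisation bound for the weights with prescribed part on a finite set P of
primes. -/
def ClaimC2 : Prop :=
  ∀ h R : ℕ, 1 ≤ h → 1 ≤ R → ∀ P : Finset ℕ, (∀ p ∈ P, p.Prime) →
    ∀ a b : ℕ, a ∣ ∏ p ∈ P, p → b ∣ ∏ p ∈ P, p →
      |∑ e ∈ (Dset h R).filter (fun e => ∀ p ∈ P, ¬ p ∣ e),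
        ∑ f ∈ (Dset h R).filter (fun f => ∀ p ∈ P, ¬ p ∣ f),
          lam h R (a * e) * lam h R (b * f) / (Nat.lcm e f : ℝ)| ≤ 4 ^ P.card / Gs h R

/-- C2': the exact value of the quadratic form. -/
def ClaimC2' : Prop :=
  ∀ h R : ℕ, 1 ≤ h → 1 ≤ R →
    ∑ e ∈ Dset h R, ∑ f ∈ Dset h R, lam h R e * lam h R f / (Nat.lcm e f : ℝ) = 1 / Gs h R

/-- the model sum with local factors τ -/
noncomputable def Smod (h R s : ℕ) (τ : ℕ → Finset (Fin s) → ℝ) : ℝ :=
  ∑ d ∈ Fintype.piFinset (fun _ : Fin s => Dset h R),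
    ∑ d' ∈ Fintype.piFinset (fun _ : Fin s => Dset h R),
      (∏ j, lam h R (d j) * lam h R (d' j)) *
        ∏ p ∈ Pr h R, τ p (univ.filter (fun j => p ∣ d j ∨ p ∣ d' j))

/-- Comparison of the model sum with the independent model. -/
def ModelBound : Prop :=
  ∀ h R s : ℕ, 1 ≤ h → 1 ≤ R → ∀ τ : ℕ → Finset (Fin s) → ℝ, (∀ p, τ p ∅ = 1) →
    |Gs h R ^ s * Smod h R s τ - 1| ≤
      (∏ p ∈ Pr h R, (1 + 4 ^ s * ∑ J ∈ (univ : Finset (Fin s)).powerset.filter (fun J => J ≠ ∅),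
        3 ^ J.card * |τ p J - (1 / (p : ℝ)) ^ J.card|)) - 1

/-- C3. -/
def ClaimC3 : Prop := ClaimC2 → ClaimC2' → ModelBound

/-- the local factors of the forms 1 + h k v_j -/
noncomputable def tauv (h s : ℕ) (v : Fin s → ℕ) (p : ℕ) (J : Finset (Fin s)) : ℝ :=
  if J = ∅ then 1 else
    (((range p).filter (fun k => ∀ j ∈ J, p ∣ 1 + h * k * v j)).card : ℝ) / (p : ℝ)

/-- The average over k is the model sum up to a small error. -/
def ModelApprox : Prop :=
  ∀ h R s K : ℕ, 1 ≤ h → 1 ≤ R → 1 ≤ K → ∀ v : Fin s → ℕ,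
    |(∑ k ∈ Icc 1 K, ∏ j, Lam h R (1 + h * k * v j) ^ 2) / (K : ℝ) -
      Smod h R s (tauv h s v)| ≤ (R : ℝ) ^ (2 * s) / (K : ℝ)

/-- C4. -/
def ClaimC4 : Prop := ClaimC1 → ModelApprox

/-- C5: bounds for the local factors. -/
def ClaimC5 : Prop :=
  ∀ h s : ℕ, ∀ v : Fin s → ℕ, ∀ p : ℕ, p.Prime → ¬ p ∣ h →
    (∀ J : Finset (Fin s), J ≠ ∅ → |tauv h s v p J - (1 / (p : ℝ)) ^ J.card| ≤ 1 / (p : ℝ)) ∧
    ((∀ j, ¬ p ∣ v j) → (∀ i j, i ≠ j → ¬ (v i ≡ v j [MOD p])) →
      ∀ J : Finset (Fin s), J ≠ ∅ → |tauv h s v p J - (1 / (p : ℝ)) ^ J.card| ≤ 1 / (p : ℝ) ^ 2)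

/-- C6: the key correlation estimate at distinct points. -/
def KeyCorr : Prop :=
  ∀ s u : ℕ, ∃ C : ℝ, ∀ z h R K : ℕ, 1 ≤ z → 1 ≤ h → (∀ p, p.Prime → p ≤ z → p ∣ h) → z ≤ R →
    R ^ (4 * s) ≤ K → 1 ≤ K → ∀ v : Fin s → ℕ, Function.Injective v →
      (∀ j, 1 ≤ v j ∧ v j ≤ z ^ u) →
      |(∑ k ∈ Icc 1 K, ∏ j, (Gs h R * Lam h R (1 + h * k * v j) ^ 2)) / (K : ℝ) - 1| ≤ C / z

/-- C6. -/
def ClaimC6 : Prop := ClaimC1 → ModelBound → ModelApprox → ClaimC5 → KeyCorr

/-- C7: crude upper bound, no distinctness. -/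
def CrudeCorr : Prop :=
  ∀ t : ℕ, ∃ C : ℕ, ∀ h R K : ℕ, 1 ≤ h → 1 ≤ R → R ^ (2 * t) ≤ K → 1 ≤ K → ∀ v : Fin t → ℕ,
    (∑ k ∈ Icc 1 K, ∏ j, Lam h R (1 + h * k * v j) ^ 2) / (K : ℝ) ≤
      (C : ℝ) * (1 + Real.log R) ^ C

/-- C7. -/
def ClaimC7 : Prop := ClaimC1 → CrudeCorr

/-- C8: collisions of the 80 forms. -/
def ClaimC8 : Prop :=
  ∀ (M : ℕ) [NeZero M], M.Prime → 5 ≤ M →
    (∀ a ∈ Idx, ∀ b ∈ Idx, a ≠ b →
      (𝔼 x : Fin 5 → Bool → ZMod M,
        (if psi a.1 (pt x a.2) = psi b.1 (pt x b.2) then (1 : ℝ) else 0)) = 1 / (M : ℝ)) ∧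
    (∀ a ∈ Idx, ∀ b ∈ Idx,
      (𝔼 x : Fin 5 → Bool → ZMod M, 𝔼 y : Fin 5 → Bool → ZMod M,
        (if psi a.1 (pt x a.2) = psi b.1 (pt y b.2) then (1 : ℝ) else 0)) = 1 / (M : ℝ)) ∧
    (∀ a ∈ Idx, ∀ g : ZMod M → ℝ,
      (𝔼 x : Fin 5 → Bool → ZMod M, g (psi a.1 (pt x a.2))) = 𝔼 v, g v)

/-- the majorant on ZMod M for the parameter k -/
noncomputable def nuk (h R Y k : ℕ) {M : ℕ} (v : ZMod M) : ℝ :=
  if 1 ≤ v.val ∧ v.val ≤ Y then Gs h R * Lam h R (1 + h * k * v.val) ^ 2 else 1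

/-- C9: the second moment over k of all linear forms averages. -/
def SecondMoment : Prop :=
  ∃ C1 : ℕ, ∀ u : ℕ, ∃ C : ℝ, ∀ (z h R K M : ℕ) [NeZero M], M.Prime → 5 ≤ M → z ^ u < M →
    1 ≤ z → 1 ≤ h → (∀ p, p.Prime → p ≤ z → p ∣ h) → z ≤ R → R ^ 640 ≤ K → 1 ≤ K →
    ∀ A ⊆ Idx,
      (∑ k ∈ Icc 1 K, ((𝔼 x : Fin 5 → Bool → ZMod M,
        ∏ a ∈ A, nuk h R (z ^ u) k (psi a.1 (pt x a.2))) - 1) ^ 2) / (K : ℝ) ≤
      C / z + C * (1 + Real.log R) ^ C1 / M

/-- C9. -/
def ClaimC9 : Prop := ClaimC1 → KeyCorr → CrudeCorr → ClaimC8 → SecondMoment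

theorem secondMoment_of_claims (c1 : ClaimC1) (c2 : ClaimC2) (c2' : ClaimC2') (c3 : ClaimC3)
    (c4 : ClaimC4) (c5 : ClaimC5) (c6 : ClaimC6) (c7 : ClaimC7) (c8 : ClaimC8) (c9 : ClaimC9) :
    SecondMoment :=
  c9 c1 (c6 c1 (c3 c2 c2') (c4 c1) c5) (c7 c1) c8

end D159

end

section

/-!
# MP_d159ed_nt, C7: crude moment bound
-/

set_option autoImplicit false

namespace D159

open Finset
open scoped BigOperators

namespace C7

/-- the number of divisors -/
noncomputable def tau (n : ℕ) : ℝ := (n.divisors.card : ℝ)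

theorem tau_nonneg (n : ℕ) : 0 ≤ tau n := Nat.cast_nonneg _

theorem tau_one : tau 1 = 1 := by simp [tau]

theorem tau_mul_le (m n : ℕ) : tau (m * n) ≤ tau m * tau n := by
  unfold tau
  rw [Nat.divisors_mul]
  exact_mod_cast Finset.card_mul_le

/-- the sums of powers of the divisor function -/
noncomputable def S (R a : ℕ) : ℝ := ∑ d ∈ Icc 1 R, tau d ^ a / (d : ℝ)

theorem S_nonneg (R a : ℕ) : 0 ≤ S R a := by
  unfold S
  exact Finset.sum_nonneg fun d _ => div_nonneg (pow_nonneg (tau_nonneg d) a) (Nat.cast_nonneg d)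

theorem S_zero_le (R : ℕ) : S R 0 ≤ 1 + Real.log R := by
  have h := harmonic_le_one_add_log R
  have h2 : S R 0 = ((harmonic R : ℚ) : ℝ) := by
    unfold S
    rw [harmonic_eq_sum_Icc]
    push_cast
    refine Finset.sum_congr rfl fun d _ => ?_
    simp
  rw [h2]
  exact h

theorem S_succ_le (R a : ℕ) : S R (a + 1) ≤ S R a ^ 2 := by
  have h1 : S R (a + 1) = ∑ d ∈ Icc 1 R, ∑ _x ∈ d.divisorsAntidiagonal, tau d ^ a / (d : ℝ) := by
    unfold S
    refine Finset.sum_congr rfl fun d _ => ?_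
    have hcard : d.divisorsAntidiagonal.card = d.divisors.card := by
      rw [← Nat.map_div_right_divisors, Finset.card_map]
    rw [Finset.sum_const, nsmul_eq_mul, hcard, pow_succ]
    unfold tau
    ring
  have h2 : S R a ^ 2 = ∑ x ∈ Icc 1 R ×ˢ Icc 1 R,
      (tau x.1 ^ a / (x.1 : ℝ)) * (tau x.2 ^ a / (x.2 : ℝ)) := by
    rw [sq, S, Finset.sum_mul_sum, Finset.sum_product]
  rw [h1, h2]
  have h3 : ∑ d ∈ Icc 1 R, ∑ _x ∈ d.divisorsAntidiagonal, tau d ^ a / (d : ℝ) ≤
      ∑ d ∈ Icc 1 R, ∑ x ∈ d.divisorsAntidiagonal,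
        (tau x.1 ^ a / (x.1 : ℝ)) * (tau x.2 ^ a / (x.2 : ℝ)) := by
    refine Finset.sum_le_sum fun d hd => Finset.sum_le_sum fun x hx => ?_
    rw [Nat.mem_divisorsAntidiagonal] at hx
    have hd0 : 0 < d := by
      have := (Finset.mem_Icc.1 hd).1
      omega
    rw [← hx.1]
    push_cast
    rw [div_mul_div_comm]
    have h0 : (0 : ℝ) ≤ (x.1 : ℝ) * (x.2 : ℝ) := by positivity
    refine div_le_div_of_nonneg_right ?_ h0
    rw [← mul_pow]
    exact pow_le_pow_left₀ (tau_nonneg _) (tau_mul_le _ _) a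
  refine h3.trans ?_
  have h4 : (∑ d ∈ Icc 1 R, ∑ x ∈ d.divisorsAntidiagonal,
        (tau x.1 ^ a / (x.1 : ℝ)) * (tau x.2 ^ a / (x.2 : ℝ))) =
      ∑ x ∈ (Icc 1 R).biUnion (fun d => d.divisorsAntidiagonal),
        (tau x.1 ^ a / (x.1 : ℝ)) * (tau x.2 ^ a / (x.2 : ℝ)) := by
    rw [Finset.sum_biUnion]
    intro d _ d' _ hdd
    rw [Function.onFun, Finset.disjoint_left]
    intro x hx hx'
    rw [Nat.mem_divisorsAntidiagonal] at hx hx'
    exact hdd (hx.1.symm.trans hx'.1)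
  rw [h4]
  refine Finset.sum_le_sum_of_subset_of_nonneg ?_ ?_
  · intro x hx
    rw [Finset.mem_biUnion] at hx
    obtain ⟨d, hd, hx⟩ := hx
    rw [Nat.mem_divisorsAntidiagonal] at hx
    rw [Finset.mem_Icc] at hd
    have hx1 : x.1 ≠ 0 := by
      intro h
      rw [h, zero_mul] at hx
      omega
    have hx2 : x.2 ≠ 0 := by
      intro h
      rw [h, mul_zero] at hx
      omega
    have h1 : x.1 ≤ x.1 * x.2 := Nat.le_mul_of_pos_right _ (Nat.pos_of_ne_zero hx2)
    have h2 : x.2 ≤ x.1 * x.2 := Nat.le_mul_of_pos_left _ (Nat.pos_of_ne_zero hx1)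
    rw [Finset.mem_product, Finset.mem_Icc, Finset.mem_Icc]
    omega
  · intro x _ _
    have := tau_nonneg x.1
    have := tau_nonneg x.2
    positivity

theorem one_le_log {R : ℕ} (hR : 1 ≤ R) : (1 : ℝ) ≤ 1 + Real.log R := by
  have : 0 ≤ Real.log R := Real.log_nonneg (by exact_mod_cast hR)
  linarith

theorem S_le {R : ℕ} (hR : 1 ≤ R) (a : ℕ) : S R a ≤ (1 + Real.log R) ^ (2 ^ a) := by
  induction a with
  | zero => simpa using S_zero_le R
  | succ a ih =>
    refine (S_succ_le R a).trans ?_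
    rw [pow_succ 2 a, pow_mul]
    exact pow_le_pow_left₀ (S_nonneg R a) ih 2

/-- the averaged lcm sum -/
theorem lcm_sum_le (R a n : ℕ) (hn : 1 ≤ n) :
    ∑ d ∈ Icc 1 R, tau (Nat.lcm n d) ^ a / (Nat.lcm n d : ℝ) ≤
      tau n ^ (a + 1) / (n : ℝ) * S R a := by
  have hn0 : (0 : ℝ) < n := by exact_mod_cast hn
  have h1 : ∑ d ∈ Icc 1 R, tau (Nat.lcm n d) ^ a / (Nat.lcm n d : ℝ) ≤
      ∑ d ∈ Icc 1 R, tau n ^ a / (n : ℝ) *
        (tau (d / Nat.gcd n d) ^ a / ((d / Nat.gcd n d : ℕ) : ℝ)) := by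
    refine Finset.sum_le_sum fun d hd => ?_
    have hl : Nat.lcm n d = n * (d / Nat.gcd n d) := by
      rw [Nat.lcm, Nat.mul_div_assoc _ (Nat.gcd_dvd_right n d)]
    rw [hl]
    push_cast
    rw [div_mul_div_comm]
    refine div_le_div_of_nonneg_right ?_ (by positivity)
    rw [← mul_pow]
    exact pow_le_pow_left₀ (tau_nonneg _) (tau_mul_le _ _) a
  refine h1.trans ?_
  rw [← Finset.mul_sum]
  have h2 : ∑ d ∈ Icc 1 R, (tau (d / Nat.gcd n d) ^ a / ((d / Nat.gcd n d : ℕ) : ℝ)) ≤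
      ∑ x ∈ n.divisors ×ˢ Icc 1 R, tau x.2 ^ a / (x.2 : ℝ) := by
    have hinj : Set.InjOn (fun d => (Nat.gcd n d, d / Nat.gcd n d)) (Icc 1 R : Finset ℕ) := by
      intro d _ d' _ hdd
      simp only [Prod.mk.injEq] at hdd
      rw [← Nat.mul_div_cancel' (Nat.gcd_dvd_right n d),
        ← Nat.mul_div_cancel' (Nat.gcd_dvd_right n d'), hdd.1]
      rw [hdd.1] at hdd
      rw [hdd.2]
    have h3 : ∑ d ∈ Icc 1 R, (tau (d / Nat.gcd n d) ^ a / ((d / Nat.gcd n d : ℕ) : ℝ)) =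
        ∑ x ∈ (Icc 1 R).image (fun d => (Nat.gcd n d, d / Nat.gcd n d)),
          tau x.2 ^ a / (x.2 : ℝ) := by
      rw [Finset.sum_image hinj]
    rw [h3]
    refine Finset.sum_le_sum_of_subset_of_nonneg ?_ ?_
    · intro x hx
      rw [Finset.mem_image] at hx
      obtain ⟨d, hd, rfl⟩ := hx
      rw [Finset.mem_Icc] at hd
      rw [Finset.mem_product, Nat.mem_divisors, Finset.mem_Icc]
      refine ⟨⟨Nat.gcd_dvd_left n d, by omega⟩, ?_, ?_⟩
      · exact Nat.div_pos (Nat.le_of_dvd (by omega) (Nat.gcd_dvd_right n d))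
          (Nat.gcd_pos_of_pos_left _ (by omega))
      · exact (Nat.div_le_self _ _).trans hd.2
    · intro x _ _
      exact div_nonneg (pow_nonneg (tau_nonneg _) a) (Nat.cast_nonneg _)
  have h4 : ∑ x ∈ n.divisors ×ˢ Icc 1 R, tau x.2 ^ a / (x.2 : ℝ) = tau n * S R a := by
    rw [Finset.sum_product]
    simp only [Finset.sum_const, nsmul_eq_mul]
    rfl
  rw [h4] at h2
  calc tau n ^ a / (n : ℝ) *
        ∑ d ∈ Icc 1 R, (tau (d / Nat.gcd n d) ^ a / ((d / Nat.gcd n d : ℕ) : ℝ))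
      ≤ tau n ^ a / (n : ℝ) * (tau n * S R a) :=
        mul_le_mul_of_nonneg_left h2 (div_nonneg (pow_nonneg (tau_nonneg _) a) hn0.le)
    _ = tau n ^ (a + 1) / (n : ℝ) * S R a := by rw [pow_succ]; ring

/-- number of elements of a set of pairwise congruent integers -/
theorem card_le_of_modEq {K n : ℕ} (hn : 1 ≤ n) (hnK : n ≤ K) (E : Finset ℕ) (hE : E ⊆ Icc 1 K)
    (hc : ∀ k ∈ E, ∀ k' ∈ E, k ≡ k' [MOD n]) : (E.card : ℝ) ≤ 2 * K / n := by
  have h1 : E.card ≤ K / n + 1 := by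
    have : E.card ≤ (Finset.range (K / n + 1)).card := by
      refine Finset.card_le_card_of_injOn (fun k => k / n) ?_ ?_
      · intro k hk
        have := Finset.mem_Icc.1 (hE hk)
        simp only [Finset.coe_range, Set.mem_Iio]
        exact Nat.lt_succ_of_le (Nat.div_le_div_right this.2)
      · intro k hk k' hk' h
        simp only at h
        have h2 := hc k hk k' hk'
        unfold Nat.ModEq at h2
        rw [← Nat.div_add_mod k n, ← Nat.div_add_mod k' n, h, h2]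
    simpa using this
  have hn0 : (0 : ℝ) < n := by exact_mod_cast hn
  have h2 : ((K / n : ℕ) : ℝ) ≤ (K : ℝ) / n := Nat.cast_div_le
  have h3 : (1 : ℝ) ≤ (K : ℝ) / n := by
    rw [one_le_div hn0]
    exact_mod_cast hnK
  have h4 : (E.card : ℝ) ≤ ((K / n : ℕ) : ℝ) + 1 := by exact_mod_cast h1
  have h5 : 2 * (K : ℝ) / n = K / n + K / n := by ring
  rw [h5]
  linarith

theorem main_bound (h R K : ℕ) {ι : Type} [DecidableEq ι] (v : ι → ℕ)
    (s : Finset ι) : ∀ n : ℕ, 1 ≤ n → n * R ^ s.card ≤ K → ∀ E : Finset ℕ, E ⊆ Icc 1 K →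
      (∀ k ∈ E, ∀ k' ∈ E, k ≡ k' [MOD n]) →
      ∑ k ∈ E, ∏ i ∈ s, (((Dset h R).filter (fun d => d ∣ 1 + h * k * v i)).card : ℝ) ≤
        2 * K * (tau n ^ s.card / n) * ∏ i ∈ range s.card, S R i := by
  induction s using Finset.induction_on with
  | empty =>
    intro n hn hnK E hE hc
    simp only [Finset.prod_empty, Finset.sum_const, nsmul_eq_mul, mul_one, Finset.card_empty,
      pow_zero, Finset.range_zero]
    have := card_le_of_modEq hn (by simpa using hnK) E hE hc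
    rw [mul_one_div]
    exact this
  | insert i0 s hi0 ih =>
    intro n hn hnK E hE hc
    rw [Finset.card_insert_of_notMem hi0] at hnK ⊢
    have hn0 : (0 : ℝ) < n := by exact_mod_cast hn
    have h1 : ∑ k ∈ E, ∏ i ∈ insert i0 s,
          (((Dset h R).filter (fun d => d ∣ 1 + h * k * v i)).card : ℝ) =
        ∑ d ∈ Dset h R, ∑ k ∈ E.filter (fun k => d ∣ 1 + h * k * v i0),
          ∏ i ∈ s, (((Dset h R).filter (fun d => d ∣ 1 + h * k * v i)).card : ℝ) := by
      have h2 : ∀ k ∈ E, ∏ i ∈ insert i0 s,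
            (((Dset h R).filter (fun d => d ∣ 1 + h * k * v i)).card : ℝ) =
          ∑ d ∈ Dset h R, if d ∣ 1 + h * k * v i0 then
            ∏ i ∈ s, (((Dset h R).filter (fun d => d ∣ 1 + h * k * v i)).card : ℝ) else 0 := by
        intro k _
        rw [Finset.prod_insert hi0, ← Finset.sum_filter, Finset.sum_const, nsmul_eq_mul]
      rw [Finset.sum_congr rfl h2, Finset.sum_comm]
      refine Finset.sum_congr rfl fun d _ => ?_
      rw [← Finset.sum_filter]
    rw [h1]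
    have hP : 0 ≤ ∏ i ∈ range s.card, S R i := Finset.prod_nonneg fun i _ => S_nonneg R i
    have h3 : ∀ d ∈ Dset h R, ∑ k ∈ E.filter (fun k => d ∣ 1 + h * k * v i0),
          ∏ i ∈ s, (((Dset h R).filter (fun d => d ∣ 1 + h * k * v i)).card : ℝ) ≤
        2 * K * (tau (Nat.lcm n d) ^ s.card / (Nat.lcm n d : ℝ)) * ∏ i ∈ range s.card, S R i := by
      intro d hd
      rw [Dset, Finset.mem_filter, Finset.mem_Icc] at hd
      obtain ⟨⟨hd1, hdR⟩, -, hdh⟩ := hd
      refine ih (Nat.lcm n d) (Nat.lcm_pos (by omega) (by omega)) ?_ _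
        ((Finset.filter_subset _ _).trans hE) ?_
      · calc Nat.lcm n d * R ^ s.card ≤ (n * d) * R ^ s.card :=
              Nat.mul_le_mul_right _ (Nat.le_of_dvd (Nat.mul_pos hn hd1) (Nat.lcm_dvd_mul n d))
          _ ≤ (n * R) * R ^ s.card := Nat.mul_le_mul_right _ (Nat.mul_le_mul_left _ hdR)
          _ = n * R ^ (s.card + 1) := by rw [pow_succ]; ring
          _ ≤ K := hnK
      · intro k hk k' hk'
        rw [Finset.mem_filter] at hk hk'
        have hm := hc k hk.1 k' hk'.1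
        have hcop : Nat.Coprime d (h * v i0) := by
          refine Nat.Coprime.mul_right hdh ?_
          rw [Nat.coprime_iff_gcd_eq_one]
          have h5 : Nat.gcd d (v i0) ∣ 1 := by
            have h6 : Nat.gcd d (v i0) ∣ 1 + h * k * v i0 := (Nat.gcd_dvd_left _ _).trans hk.2
            have h7 : Nat.gcd d (v i0) ∣ h * k * v i0 :=
              (Nat.gcd_dvd_right _ _).trans (Dvd.intro_left _ rfl)
            exact (Nat.dvd_add_left h7).1 h6
          exact Nat.dvd_one.1 h5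
        have hd2 : k ≡ k' [MOD d] := by
          have h8 : 1 + h * k * v i0 ≡ 1 + h * k' * v i0 [MOD d] :=
            ((Nat.modEq_zero_iff_dvd).2 hk.2).trans ((Nat.modEq_zero_iff_dvd).2 hk'.2).symm
          have h9 : h * k * v i0 ≡ h * k' * v i0 [MOD d] := Nat.ModEq.add_left_cancel' 1 h8
          have h10 : (h * v i0) * k ≡ (h * v i0) * k' [MOD d] := by
            have e1 : (h * v i0) * k = h * k * v i0 := by ring
            have e2 : (h * v i0) * k' = h * k' * v i0 := by ring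
            rw [e1, e2]
            exact h9
          exact Nat.ModEq.cancel_left_of_coprime (by simpa using hcop) h10
        rw [Nat.modEq_iff_dvd] at hm hd2 ⊢
        have h11 : ((Nat.lcm n d : ℕ) : ℤ) = ((Int.lcm (n : ℤ) (d : ℤ) : ℕ) : ℤ) := by
          rw [Int.lcm_natCast_natCast]
        rw [h11]
        exact Int.coe_lcm_dvd hm hd2
    refine (Finset.sum_le_sum h3).trans ?_
    have hsub : Dset h R ⊆ Icc 1 R := Finset.filter_subset _ _
    have h4 : ∑ d ∈ Dset h R, (tau (Nat.lcm n d) ^ s.card / (Nat.lcm n d : ℝ)) ≤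
        tau n ^ (s.card + 1) / (n : ℝ) * S R s.card :=
      (Finset.sum_le_sum_of_subset_of_nonneg hsub fun d _ _ =>
        div_nonneg (pow_nonneg (tau_nonneg _) _) (Nat.cast_nonneg _)).trans
        (lcm_sum_le R s.card n hn)
    rw [← Finset.sum_mul, ← Finset.mul_sum, Finset.prod_range_succ]
    have hK0 : (0 : ℝ) ≤ 2 * K := by positivity
    calc 2 * (K : ℝ) * (∑ d ∈ Dset h R, (tau (Nat.lcm n d) ^ s.card / (Nat.lcm n d : ℝ))) *
          ∏ i ∈ range s.card, S R i
        ≤ 2 * (K : ℝ) * (tau n ^ (s.card + 1) / (n : ℝ) * S R s.card) *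
          ∏ i ∈ range s.card, S R i :=
          mul_le_mul_of_nonneg_right (mul_le_mul_of_nonneg_left h4 hK0) hP
      _ = 2 * (K : ℝ) * (tau n ^ (s.card + 1) / (n : ℝ)) *
          ((∏ i ∈ range s.card, S R i) * S R s.card) := by ring

theorem abs_Lam_le (c1 : ClaimC1) {h R : ℕ} (hh : 1 ≤ h) (hR : 1 ≤ R) (n : ℕ) :
    |Lam h R n| ≤ (((Dset h R).filter (fun d => d ∣ n)).card : ℝ) := by
  unfold Lam
  refine (Finset.abs_sum_le_sum_abs _ _).trans ?_
  refine (Finset.sum_le_sum fun d _ => (c1 h R hh hR).2.1 d).trans ?_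
  simp

end C7

theorem claimC7 : ClaimC7 := by
  intro c1 t
  refine ⟨2 ^ (2 * t) + 2, ?_⟩
  intro h R K hh hR hRK hK v
  have hK0 : (0 : ℝ) < K := by exact_mod_cast hK
  rw [div_le_iff₀ hK0]
  have hb := C7.main_bound h R K (ι := Fin t ⊕ Fin t) (Sum.elim v v) Finset.univ 1 le_rfl
    (by
      rw [Finset.card_univ, Fintype.card_sum, Fintype.card_fin, ← two_mul, one_mul]
      exact hRK) (Icc 1 K) (Finset.Subset.refl _) (fun k _ k' _ => Nat.modEq_one)
  rw [Finset.card_univ, Fintype.card_sum, Fintype.card_fin, ← two_mul] at hb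
  simp only [Fintype.prod_sum_type, Sum.elim_inl, Sum.elim_inr] at hb
  have h1 : ∑ k ∈ Icc 1 K, ∏ j, Lam h R (1 + h * k * v j) ^ 2 ≤
      ∑ k ∈ Icc 1 K, (∏ j, (((Dset h R).filter (fun d => d ∣ 1 + h * k * v j)).card : ℝ)) *
        ∏ j, (((Dset h R).filter (fun d => d ∣ 1 + h * k * v j)).card : ℝ) := by
    refine Finset.sum_le_sum fun k _ => ?_
    rw [← Finset.prod_mul_distrib]
    refine Finset.prod_le_prod (fun j _ => sq_nonneg _) fun j _ => ?_
    have h2 := C7.abs_Lam_le c1 hh hR (1 + h * k * v j)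
    rw [← sq_abs, ← sq]
    exact pow_le_pow_left₀ (abs_nonneg _) h2 2
  refine h1.trans (hb.trans ?_)
  have hL := C7.one_le_log hR
  have h3 : ∏ i ∈ range (2 * t), C7.S R i ≤ (1 + Real.log R) ^ (2 ^ (2 * t)) := by
    have h4 : ∀ m : ℕ, ∏ i ∈ range m, C7.S R i ≤ (1 + Real.log R) ^ (2 ^ m) := by
      intro m
      induction m with
      | zero =>
        simp only [Finset.range_zero, Finset.prod_empty, pow_zero, pow_one]
        exact hL
      | succ m ih =>
        rw [Finset.prod_range_succ, pow_succ 2 m, pow_mul, sq]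
        refine mul_le_mul ih (C7.S_le hR m) (C7.S_nonneg R m) ?_
        positivity
    exact h4 (2 * t)
  have h5 : (1 + Real.log R) ^ (2 ^ (2 * t)) ≤ (1 + Real.log R) ^ (2 ^ (2 * t) + 2) :=
    pow_le_pow_right₀ hL (by omega)
  have h6 : 0 ≤ (1 + Real.log R) ^ (2 ^ (2 * t) + 2) := by positivity
  have h7 : (2 : ℝ) ≤ ((2 ^ (2 * t) + 2 : ℕ) : ℝ) := by
    push_cast
    have : (0 : ℝ) ≤ 2 ^ (2 * t) := by positivity
    linarith
  calc 2 * (K : ℝ) * (C7.tau 1 ^ (2 * t) / ((1 : ℕ) : ℝ)) * ∏ i ∈ range (2 * t), C7.S R i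
      = 2 * (∏ i ∈ range (2 * t), C7.S R i) * K := by
        rw [C7.tau_one, one_pow, Nat.cast_one, div_one]
        ring
    _ ≤ ((2 ^ (2 * t) + 2 : ℕ) : ℝ) * (1 + Real.log R) ^ (2 ^ (2 * t) + 2) * K := by
        refine mul_le_mul_of_nonneg_right ?_ hK0.le
        exact mul_le_mul h7 (h3.trans h5) (Finset.prod_nonneg fun i _ => C7.S_nonneg R i)
          (by positivity)

end D159

end
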