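import Mathlib
import Pool.Agent.Work.MP_d159ed_nt.Bd.B02
import Pool.Agent.Work.MP_d159ed_nt.Bd.B03

/-! Bundle of small proof modules (one section per former module). -/

section

/-!
# MP_d159ed_nt, claim B1: weighted Cauchy-Schwarz (helper41)
-/

set_option autoImplicit false

namespace D159

open Finset
open scoped BigOperators

namespace B1

variable {M : ℕ}

/-- The doubled space. -/
abbrev X (M : ℕ) : Type := Fin 5 → Bool → ZMod M

/-- Exchange of the two copies of the coordinate l. -/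
def sw (l : Fin 5) (x : X M) : X M := Function.update x l (fun b => x l (!b))

/-- Vertices supported on S. -/
def Om (S : Finset (Fin 5)) : Finset (Fin 5 → Bool) :=
  univ.filter (fun ω => ∀ j, j ∉ S → ω j = false)

theorem mem_Om {S : Finset (Fin 5)} {ω : Fin 5 → Bool} :
    ω ∈ Om S ↔ ∀ j, j ∉ S → ω j = false := by simp [Om]

/-- Product of Φ over the vertices supported on S. -/
def P (S : Finset (Fin 5)) (Φ : (Fin 5 → ZMod M) → ℝ) (x : X M) : ℝ :=
  ∏ ω ∈ Om S, Φ (pt x ω)

theorem sw_comm {i l : Fin 5} (h : l ≠ i) (x : X M) : sw i (sw l x) = sw l (sw i x) := by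
  unfold sw
  rw [Function.update_of_ne h.symm, Function.update_of_ne h]
  rw [Function.update_comm h]

theorem sw_update {i l : Fin 5} (h : l ≠ i) (x : X M) (p : Bool → ZMod M) :
    sw i (Function.update x l p) = Function.update (sw i x) l p := by
  unfold sw
  rw [Function.update_of_ne h.symm]
  rw [Function.update_comm h]

theorem pt_sw (l : Fin 5) (x : X M) (ω : Fin 5 → Bool) :
    pt (sw l x) ω = pt x (Function.update ω l (!(ω l))) := by
  funext j
  by_cases hj : j = l
  · subst hj; simp [pt, sw]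
  · simp [pt, sw, hj]

theorem Om_insert {S : Finset (Fin 5)} {l : Fin 5} (hl : l ∉ S) :
    Om (insert l S) = Om S ∪ (Om S).image (fun ω => Function.update ω l true) := by
  ext ω
  simp only [mem_union, mem_image, mem_Om]
  constructor
  · intro h
    cases hω : ω l
    · left
      intro j hj
      by_cases hjl : j = l
      · subst hjl; exact hω
      · exact h j (by simp [hjl, hj])
    · right
      refine ⟨Function.update ω l false, ?_, ?_⟩
      · intro j hj
        by_cases hjl : j = l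
        · subst hjl; simp
        · rw [Function.update_of_ne hjl]; exact h j (by simp [hjl, hj])
      · rw [Function.update_idem, ← hω, Function.update_eq_self]
  · rintro (h | ⟨ω', h, rfl⟩)
    · intro j hj
      exact h j (fun h' => hj (mem_insert_of_mem h'))
    · intro j hj
      have hjl : j ≠ l := fun h' => hj (by simp [h'])
      rw [Function.update_of_ne hjl]
      exact h j (fun h' => hj (mem_insert_of_mem h'))

theorem P_insert {S : Finset (Fin 5)} {l : Fin 5} (hl : l ∉ S) (Φ : (Fin 5 → ZMod M) → ℝ)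
    (x : X M) : P (insert l S) Φ x = P S Φ x * P S Φ (sw l x) := by
  unfold P
  rw [Om_insert hl, prod_union]
  · congr 1
    rw [prod_image]
    · refine prod_congr rfl fun ω hω => ?_
      rw [pt_sw, mem_Om.1 hω l hl]
      rfl
    · intro ω hω ω' hω' he
      have h1 : ω l = false := mem_Om.1 hω l hl
      have h2 : ω' l = false := mem_Om.1 hω' l hl
      have he' : Function.update ω l true = Function.update ω' l true := he
      funext j
      by_cases hj : j = l
      · subst hj; rw [h1, h2]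
      · have := congrFun he' j
        rwa [Function.update_of_ne hj, Function.update_of_ne hj] at this
  · rw [disjoint_left]
    intro ω hω hω'
    obtain ⟨ω', -, rfl⟩ := mem_image.1 hω'
    have := mem_Om.1 hω l hl
    simp at this

theorem P_indep {S : Finset (Fin 5)} {l : Fin 5} {Φ : (Fin 5 → ZMod M) → ℝ}
    (hΦ : ∀ y t, Φ (Function.update y l t) = Φ y) (x : X M) (p : Bool → ZMod M) :
    P S Φ (Function.update x l p) = P S Φ x := by
  unfold P
  refine prod_congr rfl fun ω _ => ?_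
  have : pt (Function.update x l p) ω = Function.update (pt x ω) l (p (ω l)) := by
    funext j
    by_cases hj : j = l
    · subst hj; simp [pt]
    · simp [pt, hj]
  rw [this, hΦ]

theorem P_half {S : Finset (Fin 5)} {l : Fin 5} (hl : l ∉ S) (Φ : (Fin 5 → ZMod M) → ℝ)
    (x : X M) (p : Bool → ZMod M) (hp : p false = x l false) :
    P S Φ (Function.update x l p) = P S Φ x := by
  unfold P
  refine prod_congr rfl fun ω hω => ?_
  congr 1
  funext j
  by_cases hj : j = l
  · subst hj; simp [pt, mem_Om.1 hω j hl, hp]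
  · simp [pt, hj]

/-- The Cauchy-Schwarz step. -/
theorem cs_step [NeZero M] (l : Fin 5) (Fw V H : X M → ℝ)
    (hFw : ∀ x p, Fw (Function.update x l p) = Fw x)
    (hV : ∀ x p, V (Function.update x l p) = V x)
    (hH : ∀ x p, p false = x l false → H (Function.update x l p) = H x)
    (hle : ∀ x, |Fw x| ≤ V x) :
    (𝔼 x : X M, Fw x * H x) ^ 2 ≤
      (𝔼 x : X M, V x) * (𝔼 x : X M, V x * (H x * H (sw l x))) ∧
    0 ≤ 𝔼 x : X M, V x * (H x * H (sw l x)) := by
  set K : X M → ℝ := fun x => 𝔼 p : Bool → ZMod M, H (Function.update x l p) with hK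
  have h1 : 𝔼 x : X M, Fw x * H x = 𝔼 x : X M, Fw x * K x := by
    rw [← expect_update l (fun x : X M => Fw x * H x)]
    refine Finset.expect_congr rfl fun x _ => ?_
    rw [hK]
    simp only
    rw [Finset.mul_expect]
    refine Finset.expect_congr rfl fun p _ => ?_
    rw [hFw]
  have hV0 : ∀ x, 0 ≤ V x := fun x => (abs_nonneg _).trans (hle x)
  have h2 : |𝔼 x : X M, Fw x * K x| ≤ 𝔼 x : X M, V x * |K x| := by
    refine (abs_expect_le' _).trans (Finset.expect_le_expect fun x _ => ?_)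
    rw [abs_mul]
    exact mul_le_mul_of_nonneg_right (hle x) (abs_nonneg _)
  have h3 : (𝔼 x : X M, Fw x * K x) ^ 2 ≤ (𝔼 x : X M, V x * |K x|) ^ 2 := by
    rw [← sq_abs (𝔼 x : X M, Fw x * K x)]
    exact pow_le_pow_left₀ (abs_nonneg _) h2 2
  have h4 := expect_cs V (fun x : X M => |K x|) hV0
  have h5 : 𝔼 x : X M, V x * |K x| ^ 2 = 𝔼 x : X M, V x * (H x * H (sw l x)) := by
    rw [← expect_update l (fun x : X M => V x * (H x * H (sw l x)))]
    refine Finset.expect_congr rfl fun x _ => ?_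
    simp only [hV]
    rw [← Finset.mul_expect]
    congr 1
    rw [sq_abs]
    set G : ZMod M → ℝ := fun a => H (Function.update x l (fun _ => a)) with hG
    have hHG : ∀ p : Bool → ZMod M, H (Function.update x l p) = G (p false) := by
      intro p
      rw [hG]
      simp only
      have := hH (Function.update x l (fun _ => p false)) p (by simp)
      rw [Function.update_idem] at this
      exact this
    have hsw : ∀ p : Bool → ZMod M,
        sw l (Function.update x l p) = Function.update x l (fun b => p (!b)) := by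
      intro p
      unfold sw
      rw [Function.update_idem, Function.update_self]
    have hK' : K x = 𝔼 a, G a := by
      rw [hK]
      simp only [hHG]
      exact expect_marginal false G
    rw [hK', sq]
    simp only [hHG, hsw, Bool.not_false]
    rw [expect_bool]
  refine ⟨?_, ?_⟩
  · calc (𝔼 x : X M, Fw x * H x) ^ 2 = (𝔼 x : X M, Fw x * K x) ^ 2 := by rw [h1]
      _ ≤ (𝔼 x : X M, V x * |K x|) ^ 2 := h3
      _ ≤ (𝔼 x : X M, V x) * 𝔼 x : X M, V x * |K x| ^ 2 := h4
      _ = _ := by rw [h5]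
  · rw [← h5]
    exact Finset.expect_nonneg fun x _ => mul_nonneg (hV0 x) (sq_nonneg _)

/-- Products over index sets. -/
def L (ν : ZMod M → ℝ) (A : Finset (Fin 5 × (Fin 5 → Bool))) (x : X M) : ℝ :=
  ∏ a ∈ A, ν (psi a.1 (pt x a.2))

/-- The index set of a pair of sparse factors. -/
def AS (i l : Fin 5) (T : Finset (Fin 5)) (b b' : Bool) : Finset (Fin 5 × (Fin 5 → Bool)) :=
  (if b then (Om T).image (fun ω => (l, ω)) else ∅) ∪
    (if b' then (Om T).image (fun ω => (l, Function.update ω i true)) else ∅)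

theorem P_maj (ν : ZMod M → ℝ) (b : Bool) (l : Fin 5) (T : Finset (Fin 5)) (x : X M) :
    P T (maj ν b l) x = L ν (if b then (Om T).image (fun ω => (l, ω)) else ∅) x := by
  cases b
  · simp [P, maj, L]
  · simp only [P, maj, L, if_true]
    rw [prod_image]
    intro ω _ ω' _ he
    exact (Prod.mk.inj he).2

theorem P_maj_sw (ν : ZMod M → ℝ) (b : Bool) (i l : Fin 5) (T : Finset (Fin 5)) (hi : i ∉ T)
    (x : X M) :
    P T (maj ν b l) (sw i x) =
      L ν (if b then (Om T).image (fun ω => (l, Function.update ω i true)) else ∅) x := by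
  cases b
  · simp [P, maj, L]
  · simp only [P, maj, L, if_true]
    rw [prod_image]
    · refine prod_congr rfl fun ω hω => ?_
      rw [pt_sw, mem_Om.1 hω i hi]
      rfl
    · intro ω hω ω' hω' he
      have h1 : ω i = false := mem_Om.1 hω i hi
      have h2 : ω' i = false := mem_Om.1 hω' i hi
      have he' := (Prod.mk.inj he).2
      funext j
      by_cases hj : j = i
      · subst hj; rw [h1, h2]
      · have := congrFun he' j
        rwa [Function.update_of_ne hj, Function.update_of_ne hj] at this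

theorem L_union (ν : ZMod M → ℝ) {A B : Finset (Fin 5 × (Fin 5 → Bool))} (h : Disjoint A B)
    (x : X M) : L ν (A ∪ B) x = L ν A x * L ν B x := prod_union h

theorem P_pair (ν : ZMod M → ℝ) (b b' : Bool) (i l : Fin 5) (T : Finset (Fin 5)) (hi : i ∉ T)
    (x : X M) :
    P T (maj ν b l) x * P T (maj ν b' l) (sw i x) = L ν (AS i l T b b') x := by
  rw [P_maj, P_maj_sw ν b' i l T hi, AS, L_union]
  rw [disjoint_left]
  rintro a ha ha'
  cases b
  · simp at ha
  cases b'
  · simp at ha'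
  simp only [if_true, mem_image] at ha ha'
  obtain ⟨ω, hω, rfl⟩ := ha
  obtain ⟨ω', hω', he⟩ := ha'
  have h1 : ω i = false := mem_Om.1 hω i hi
  have he' := congrFun (Prod.mk.inj he).2 i
  rw [Function.update_self, h1] at he'
  exact absurd he' (by simp)

theorem mem_AS {i l : Fin 5} {T : Finset (Fin 5)} {b b' : Bool}
    {a : Fin 5 × (Fin 5 → Bool)} (h : a ∈ AS i l T b b') (hlT : l ∉ T) (hli : l ≠ i) :
    a.1 = l ∧ a.2 l = false := by
  unfold AS at h
  rw [mem_union] at h
  rcases h with h | h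
  · cases b
    · simp at h
    simp only [if_true, mem_image] at h
    obtain ⟨ω, hω, rfl⟩ := h
    exact ⟨rfl, mem_Om.1 hω l hlT⟩
  · cases b'
    · simp at h
    simp only [if_true, mem_image] at h
    obtain ⟨ω, hω, rfl⟩ := h
    refine ⟨rfl, ?_⟩
    show Function.update ω i true l = false
    rw [Function.update_of_ne hli]
    exact mem_Om.1 hω l hlT

theorem mem_Idx {a : Fin 5 × (Fin 5 → Bool)} : a ∈ Idx ↔ a.2 a.1 = false := by simp [Idx]

theorem psi_update (l : Fin 5) (y : Fin 5 → ZMod M) (t : ZMod M) :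
    psi l (Function.update y l t) = psi l y := by
  unfold psi
  refine sum_congr rfl fun j _ => ?_
  by_cases hj : j = l
  · subst hj; simp
  · rw [Function.update_of_ne hj]

theorem maj_update (ν : ZMod M → ℝ) (b : Bool) (l : Fin 5) (y : Fin 5 → ZMod M) (t : ZMod M) :
    maj ν b l (Function.update y l t) = maj ν b l y := by
  unfold maj
  rw [psi_update]

theorem maj_nonneg {ν : ZMod M → ℝ} (hν : ∀ x, 0 ≤ ν x) (b : Bool) (l : Fin 5)
    (y : Fin 5 → ZMod M) : 0 ≤ maj ν b l y := by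
  unfold maj
  split_ifs
  · exact hν _
  · exact zero_le_one

/-- The averages of the induction. -/
noncomputable def TS [NeZero M] (ν : ZMod M → ℝ) (i : Fin 5) (τ τ' : Fin 5 → Bool)
    (F F' : Fin 5 → (Fin 5 → ZMod M) → ℝ) (S : Finset (Fin 5)) : ℝ :=
  𝔼 x : X M, P S (fun y => ν (psi i y) - 1) x *
    ((∏ l ∈ univ.erase i \ S, (P S (F l) x * P S (F' l) (sw i x))) *
      ∏ l ∈ S, (P (S.erase l) (maj ν (τ l) l) x * P (S.erase l) (maj ν (τ' l) l) (sw i x)))

/-- One step. -/
theorem TS_step [NeZero M] (ν : ZMod M → ℝ) (hν : ∀ x, 0 ≤ ν x) {ε : ℝ} (hε : ε ≤ 1)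
    (hLF : LF M ν ε) (i : Fin 5) (τ τ' : Fin 5 → Bool)
    (F F' : Fin 5 → (Fin 5 → ZMod M) → ℝ)
    (hF : ∀ j x t, F j (Function.update x j t) = F j x)
    (hF' : ∀ j x t, F' j (Function.update x j t) = F' j x)
    (hFb : ∀ j x, 0 ≤ F j x ∧ F j x ≤ maj ν (τ j) j x)
    (hFb' : ∀ j x, 0 ≤ F' j x ∧ F' j x ≤ maj ν (τ' j) j x)
    (S : Finset (Fin 5)) (hiS : i ∉ S) (l : Fin 5) (hlS : l ∉ S) (hli : l ≠ i) :
    TS ν i τ τ' F F' S ^ 2 ≤ 2 * TS ν i τ τ' F F' (insert l S) := by
  set V : X M → ℝ := fun x => P S (maj ν (τ l) l) x * P S (maj ν (τ' l) l) (sw i x) with hVdef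
  set Fw : X M → ℝ := fun x => P S (F l) x * P S (F' l) (sw i x) with hFwdef
  set H : X M → ℝ := fun x => P S (fun y => ν (psi i y) - 1) x *
    ((∏ l' ∈ univ.erase i \ insert l S, (P S (F l') x * P S (F' l') (sw i x))) *
      ∏ l' ∈ S, (P (S.erase l') (maj ν (τ l') l') x *
        P (S.erase l') (maj ν (τ' l') l') (sw i x))) with hHdef
  have hset : univ.erase i \ S = insert l (univ.erase i \ insert l S) := by
    ext j
    simp only [mem_sdiff, mem_erase, mem_univ, and_true, mem_insert]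
    constructor
    · rintro ⟨h1, h2⟩
      by_cases hj : j = l
      · left; exact hj
      · right; exact ⟨h1, fun h => h.elim hj h2⟩
    · rintro (rfl | ⟨h1, h2⟩)
      · exact ⟨hli, hlS⟩
      · exact ⟨h1, fun h => h2 (Or.inr h)⟩
  have hl_notin : l ∉ univ.erase i \ insert l S := by simp
  have hTS : TS ν i τ τ' F F' S = 𝔼 x : X M, Fw x * H x := by
    unfold TS
    refine Finset.expect_congr rfl fun x _ => ?_
    rw [hset, prod_insert hl_notin]
    simp only [hFwdef, hHdef]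
    ring
  have hTS' : TS ν i τ τ' F F' (insert l S) = 𝔼 x : X M, V x * (H x * H (sw l x)) := by
    unfold TS
    refine Finset.expect_congr rfl fun x _ => ?_
    rw [P_insert hlS, prod_insert hlS, erase_insert hlS]
    have e1 : ∏ l' ∈ univ.erase i \ insert l S,
        (P (insert l S) (F l') x * P (insert l S) (F' l') (sw i x)) =
        (∏ l' ∈ univ.erase i \ insert l S, (P S (F l') x * P S (F' l') (sw i x))) *
        ∏ l' ∈ univ.erase i \ insert l S,
          (P S (F l') (sw l x) * P S (F' l') (sw i (sw l x))) := by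
      rw [← prod_mul_distrib]
      refine prod_congr rfl fun l' _ => ?_
      rw [P_insert hlS, P_insert hlS, sw_comm hli]
      ring
    have e2 : ∏ l' ∈ S, (P ((insert l S).erase l') (maj ν (τ l') l') x *
        P ((insert l S).erase l') (maj ν (τ' l') l') (sw i x)) =
        (∏ l' ∈ S, (P (S.erase l') (maj ν (τ l') l') x *
          P (S.erase l') (maj ν (τ' l') l') (sw i x))) *
        ∏ l' ∈ S, (P (S.erase l') (maj ν (τ l') l') (sw l x) *
          P (S.erase l') (maj ν (τ' l') l') (sw i (sw l x))) := by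
      rw [← prod_mul_distrib]
      refine prod_congr rfl fun l' hl' => ?_
      have hne : l ≠ l' := fun h => hlS (h ▸ hl')
      rw [erase_insert_of_ne hne, P_insert (fun h => hlS (mem_of_mem_erase h)),
        P_insert (fun h => hlS (mem_of_mem_erase h)), sw_comm hli]
      ring
    rw [e1, e2]
    simp only [hVdef, hHdef]
    ring
  have hFwU : ∀ x p, Fw (Function.update x l p) = Fw x := by
    intro x p
    simp only [hFwdef]
    rw [sw_update hli, P_indep (hF l), P_indep (hF' l)]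
  have hVU : ∀ x p, V (Function.update x l p) = V x := by
    intro x p
    simp only [hVdef]
    rw [sw_update hli, P_indep (maj_update ν (τ l) l), P_indep (maj_update ν (τ' l) l)]
  have hHU : ∀ x p, p false = x l false → H (Function.update x l p) = H x := by
    intro x p hp
    have hp' : p false = (sw i x) l false := by
      unfold sw
      rw [Function.update_of_ne hli, hp]
    simp only [hHdef]
    rw [sw_update hli, P_half hlS _ _ _ hp]
    congr 1
    congr 1
    · refine prod_congr rfl fun l' _ => ?_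
      rw [P_half hlS _ _ _ hp, P_half hlS _ _ _ hp']
    · refine prod_congr rfl fun l' _ => ?_
      rw [P_half (fun h => hlS (mem_of_mem_erase h)) _ _ _ hp,
        P_half (fun h => hlS (mem_of_mem_erase h)) _ _ _ hp']
  have hle : ∀ x, |Fw x| ≤ V x := by
    intro x
    simp only [hFwdef, hVdef]
    rw [abs_mul]
    refine mul_le_mul ?_ ?_ (abs_nonneg _) ?_
    · unfold P
      rw [abs_prod]
      refine prod_le_prod (fun _ _ => abs_nonneg _) fun ω _ => ?_
      rw [abs_of_nonneg (hFb l _).1]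
      exact (hFb l _).2
    · unfold P
      rw [abs_prod]
      refine prod_le_prod (fun _ _ => abs_nonneg _) fun ω _ => ?_
      rw [abs_of_nonneg (hFb' l _).1]
      exact (hFb' l _).2
    · exact prod_nonneg fun ω _ => maj_nonneg hν _ _ _
  have hcs := cs_step l Fw V H hFwU hVU hHU hle
  have hV2 : 𝔼 x : X M, V x ≤ 2 := by
    have hE : 𝔼 x : X M, V x = 𝔼 x : X M, ∏ a ∈ AS i l S (τ l) (τ' l), ν (psi a.1 (pt x a.2)) :=
      Finset.expect_congr rfl fun x _ => P_pair ν (τ l) (τ' l) i l S hiS x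
    have hsub : AS i l S (τ l) (τ' l) ⊆ Idx := by
      intro a ha
      obtain ⟨h1, h2⟩ := mem_AS ha hlS hli
      rw [mem_Idx, h1, h2]
    have := hLF _ hsub
    rw [hE]
    have := (abs_le.1 this).2
    linarith
  rw [hTS, hTS']
  exact hcs.1.trans (mul_le_mul_of_nonneg_right hV2 hcs.2)

/-- Expansion around the independent model. -/
theorem expand [NeZero M] {κ : Type*} [DecidableEq κ] (Ω : Finset κ) (hΩ : Ω.Nonempty)
    (a : κ → X M → ℝ) (b : X M → ℝ) (ε : ℝ)
    (h : ∀ B ⊆ Ω, |(𝔼 x : X M, (∏ ω ∈ B, a ω x) * b x) - 1| ≤ ε) :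
    |𝔼 x : X M, (∏ ω ∈ Ω, (a ω x - 1)) * b x| ≤ 2 ^ Ω.card * ε := by
  have e1 : ∀ x, (∏ ω ∈ Ω, (a ω x - 1)) * b x =
      ∑ B ∈ Ω.powerset, (-1) ^ (Ω \ B).card * ((∏ ω ∈ B, a ω x) * b x) := by
    intro x
    simp only [sub_eq_add_neg]
    rw [prod_add, sum_mul]
    refine sum_congr rfl fun B _ => ?_
    rw [prod_const]
    ring
  have e2 : (∏ ω ∈ Ω, ((1 : ℝ) - 1)) = 0 := by
    obtain ⟨ω, hω⟩ := hΩ
    exact prod_eq_zero hω (sub_self 1)
  have e3 : (∏ ω ∈ Ω, ((1 : ℝ) - 1)) = ∑ B ∈ Ω.powerset, (-1 : ℝ) ^ (Ω \ B).card := by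
    simp only [sub_eq_add_neg]
    rw [prod_add]
    refine sum_congr rfl fun B _ => ?_
    rw [prod_const, prod_const]
    ring
  have e4 : 𝔼 x : X M, (∏ ω ∈ Ω, (a ω x - 1)) * b x =
      ∑ B ∈ Ω.powerset, (-1) ^ (Ω \ B).card *
        ((𝔼 x : X M, (∏ ω ∈ B, a ω x) * b x) - 1) := by
    simp only [e1]
    rw [Finset.expect_sum_comm]
    simp only [mul_sub, mul_one, sum_sub_distrib]
    rw [← e3, e2, sub_zero]
    refine sum_congr rfl fun B _ => ?_
    rw [Finset.mul_expect]
  rw [e4]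
  refine (abs_sum_le_sum_abs _ _).trans ?_
  calc ∑ B ∈ Ω.powerset, |(-1) ^ (Ω \ B).card *
        ((𝔼 x : X M, (∏ ω ∈ B, a ω x) * b x) - 1)|
      ≤ ∑ B ∈ Ω.powerset, ε := by
        refine sum_le_sum fun B hB => ?_
        rw [abs_mul, abs_pow, abs_neg, abs_one, one_pow, one_mul]
        exact h B (mem_powerset.1 hB)
    _ = 2 ^ Ω.card * ε := by
        rw [sum_const, card_powerset, nsmul_eq_mul]
        push_cast
        rfl

/-- The last average of the induction. -/
theorem TS_full [NeZero M] (ν : ZMod M → ℝ) {ε : ℝ} (hε0 : 0 ≤ ε)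
    (hLF : LF M ν ε) (i : Fin 5) (τ τ' : Fin 5 → Bool)
    (F F' : Fin 5 → (Fin 5 → ZMod M) → ℝ) :
    |TS ν i τ τ' F F' (univ.erase i)| ≤ 2 ^ 32 * ε := by
  have hne : (Om (univ.erase i)).Nonempty := ⟨fun _ => false, by simp [mem_Om]⟩
  set A : Finset (Fin 5 × (Fin 5 → Bool)) := (univ.erase i).biUnion
    (fun l => AS i l ((univ.erase i).erase l) (τ l) (τ' l)) with hA
  have hAmem : ∀ a ∈ A, a.1 ≠ i ∧ a.2 a.1 = false := by
    intro a ha
    rw [hA, mem_biUnion] at ha
    obtain ⟨l, hl, ha⟩ := ha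
    have hli : l ≠ i := (mem_erase.1 hl).1
    obtain ⟨h1, h2⟩ := mem_AS ha (by simp) hli
    rw [h1]
    exact ⟨hli, h2⟩
  have hTS : TS ν i τ τ' F F' (univ.erase i) =
      𝔼 x : X M, (∏ ω ∈ Om (univ.erase i), (ν (psi i (pt x ω)) - 1)) * L ν A x := by
    unfold TS
    refine Finset.expect_congr rfl fun x _ => ?_
    rw [sdiff_self, bot_eq_empty, prod_empty, one_mul]
    congr 1
    rw [hA]
    unfold L
    rw [prod_biUnion]
    · refine prod_congr rfl fun l hl => ?_
      rw [P_pair]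
      · rfl
      · simp
    · intro l hl l' hl' hne
      rw [Function.onFun, disjoint_left]
      intro a ha ha'
      have hli : l ≠ i := (mem_erase.1 hl).1
      have hli' : l' ≠ i := (mem_erase.1 hl').1
      have h1 := (mem_AS ha (by simp) hli).1
      have h2 := (mem_AS ha' (by simp) hli').1
      exact hne (h1.symm.trans h2)
  rw [hTS]
  have hex := expand (Om (univ.erase i)) hne (fun ω (x : X M) => ν (psi i (pt x ω))) (L ν A) ε ?_
  · refine hex.trans ?_
    refine mul_le_mul_of_nonneg_right ?_ hε0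
    refine pow_le_pow_right₀ one_le_two ?_
    refine (card_le_univ _).trans ?_
    simp [Fintype.card_pi]
  · intro B hB
    have hBA : ∀ x : X M, (∏ ω ∈ B, ν (psi i (pt x ω))) * L ν A x =
        ∏ a ∈ B.image (fun ω => (i, ω)) ∪ A, ν (psi a.1 (pt x a.2)) := by
      intro x
      rw [prod_union]
      · congr 1
        rw [prod_image]
        intro ω _ ω' _ he
        exact (Prod.mk.inj he).2
      · rw [disjoint_left]
        intro a ha ha'
        obtain ⟨ω, _, rfl⟩ := mem_image.1 ha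
        exact (hAmem _ ha').1 rfl
    simp only [hBA]
    apply hLF
    intro a ha
    rw [mem_union] at ha
    rw [mem_Idx]
    rcases ha with ha | ha
    · obtain ⟨ω, hω, rfl⟩ := mem_image.1 ha
      exact mem_Om.1 (hB hω) i (by simp)
    · exact (hAmem _ ha).2

/-- The induction. -/
theorem TS_small (i : Fin 5) (S : Finset (Fin 5)) (hiS : i ∉ S) :
    ∀ κ : ℝ, 0 < κ → ∃ ε : ℝ, 0 < ε ∧ ∀ (M : ℕ) [NeZero M] (ν : ZMod M → ℝ),
    (∀ x, 0 ≤ ν x) → LF M ν ε →
    ∀ (τ τ' : Fin 5 → Bool) (F F' : Fin 5 → (Fin 5 → ZMod M) → ℝ),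
      (∀ j x t, F j (Function.update x j t) = F j x) →
      (∀ j x t, F' j (Function.update x j t) = F' j x) →
      (∀ j x, 0 ≤ F j x ∧ F j x ≤ maj ν (τ j) j x) →
      (∀ j x, 0 ≤ F' j x ∧ F' j x ≤ maj ν (τ' j) j x) →
      |TS ν i τ τ' F F' S| ≤ κ := by
  induction hn : (univ.erase i \ S).card using Nat.strong_induction_on generalizing S with
  | _ n ih =>
  intro κ hκ
  rcases Finset.eq_empty_or_nonempty (univ.erase i \ S) with he | he
  · have hS : S = univ.erase i := by
      apply subset_antisymm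
      · intro j hj
        simp only [mem_erase, mem_univ, and_true]
        exact fun h => hiS (h ▸ hj)
      · exact sdiff_eq_empty_iff_subset.1 he
    refine ⟨κ / 2 ^ 32, by positivity, ?_⟩
    intro M _ ν _ hLF τ τ' F F' _ _ _ _
    rw [hS]
    have := TS_full ν (by positivity) hLF i τ τ' F F'
    refine this.trans (le_of_eq ?_)
    field_simp
  · obtain ⟨l, hl⟩ := he
    rw [mem_sdiff, mem_erase] at hl
    obtain ⟨⟨hli, -⟩, hlS⟩ := hl
    have hlt : (univ.erase i \ insert l S).card < n := by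
      rw [← hn]
      apply card_lt_card
      rw [ssubset_iff_of_subset]
      · exact ⟨l, by simp [hli, hlS], by simp⟩
      · intro j hj
        simp only [mem_sdiff, mem_erase, mem_univ, and_true, mem_insert, not_or] at hj ⊢
        exact ⟨hj.1, hj.2.2⟩
    have hi' : i ∉ insert l S := by
      simp only [mem_insert, not_or]
      exact ⟨hli.symm, hiS⟩
    obtain ⟨ε, hε, H⟩ := ih _ hlt (insert l S) hi' rfl (κ ^ 2 / 2) (by positivity)
    refine ⟨min ε 1, lt_min hε one_pos, ?_⟩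
    intro M _ ν hν hLF τ τ' F F' hF hF' hFb hFb'
    have hLF1 : LF M ν ε := fun A hA => (hLF A hA).trans (min_le_left _ _)
    have h1 := H M ν hν hLF1 τ τ' F F' hF hF' hFb hFb'
    have h2 := TS_step ν hν (min_le_right ε 1) hLF i τ τ' F F' hF hF' hFb hFb' S hiS l hlS hli
    have h3 : TS ν i τ τ' F F' S ^ 2 ≤ κ ^ 2 := by
      have := (le_abs_self _).trans h1
      linarith
    exact abs_le_of_sq_le_sq h3 hκ.le

end B1

/-- B1: weighted Cauchy-Schwarz. -/
theorem claimB1 : ClaimB1 := by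
  intro κ hκ
  have hall : ∀ i : Fin 5, ∃ ε : ℝ, 0 < ε ∧ ∀ (M : ℕ) [NeZero M] (ν : ZMod M → ℝ),
    (∀ x, 0 ≤ ν x) → LF M ν ε →
    ∀ (τ τ' : Fin 5 → Bool) (F F' : Fin 5 → (Fin 5 → ZMod M) → ℝ),
      (∀ j x t, F j (Function.update x j t) = F j x) →
      (∀ j x t, F' j (Function.update x j t) = F' j x) →
      (∀ j x, 0 ≤ F j x ∧ F j x ≤ maj ν (τ j) j x) →
      (∀ j x, 0 ≤ F' j x ∧ F' j x ≤ maj ν (τ' j) j x) →
      |B1.TS ν i τ τ' F F' ∅| ≤ κ := fun i => B1.TS_small i ∅ (by simp) κ hκ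
  choose e he H using hall
  obtain ⟨i0, -, hi0⟩ := Finset.exists_min_image (univ : Finset (Fin 5)) e ⟨0, mem_univ _⟩
  refine ⟨e i0, he i0, ?_⟩
  intro M _ ν hν hLF i τ τ' F F' hF hF' hFb hFb'
  have hLF1 : LF M ν (e i) := fun A hA => (hLF A hA).trans (hi0 i (mem_univ _))
  have h := H i M ν hν hLF1 τ τ' F F' hF hF' hFb hFb'
  have hTS : B1.TS ν i τ τ' F F' ∅ =
      𝔼 x : Fin 5 → ZMod M, 𝔼 t : ZMod M, (ν (psi i x) - 1) *
        ∏ j ∈ univ.erase i, (F j x * F' j (Function.update x i t)) := by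
    rw [← expect_dbl i (fun (x : Fin 5 → ZMod M) (t : ZMod M) => (ν (psi i x) - 1) *
        ∏ j ∈ univ.erase i, (F j x * F' j (Function.update x i t)))]
    unfold B1.TS
    refine Finset.expect_congr rfl fun x _ => ?_
    have hOm : B1.Om ∅ = {fun _ => false} := by
      ext ω
      rw [B1.mem_Om, mem_singleton]
      constructor
      · intro h
        funext j
        exact h j (by simp)
      · rintro rfl j _
        rfl
    have hpt : pt x (fun _ => false) = fun j => x j false := rfl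
    have hpt' : pt (B1.sw i x) (fun _ => false) =
        Function.update (fun j => x j false) i (x i true) := by
      funext j
      by_cases hj : j = i
      · subst hj; simp [pt, B1.sw]
      · simp [pt, B1.sw, hj]
    simp only [B1.P, hOm, prod_singleton, hpt, hpt', prod_empty, mul_one, sdiff_empty]
  rw [← hTS]
  exact h

end D159

end

section

/-!
# MP_d159ed_nt, part C, item C1: elementary facts on the Selberg weights
-/

set_option autoImplicit false

namespace D159

open Finset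
open scoped BigOperators

namespace C1

lemma mem_Dset {h R d : ℕ} :
    d ∈ Dset h R ↔ (1 ≤ d ∧ d ≤ R) ∧ Squarefree d ∧ Nat.Coprime d h := by
  simp [Dset, mem_filter, mem_Icc]

lemma one_mem_Dset {h R : ℕ} (hR : 1 ≤ R) : 1 ∈ Dset h R := by
  rw [mem_Dset]
  exact ⟨⟨le_refl _, hR⟩, squarefree_one, Nat.coprime_one_left h⟩

lemma phi_pos {d : ℕ} (hd : 1 ≤ d) : (0 : ℝ) < (Nat.totient d : ℝ) := by
  exact_mod_cast Nat.totient_pos.mpr hd

lemma one_le_Gs {h R : ℕ} (hR : 1 ≤ R) : 1 ≤ Gs h R := by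
  unfold Gs
  have := Finset.single_le_sum (f := fun d : ℕ => (1 : ℝ) / (Nat.totient d : ℝ))
    (s := Dset h R) (fun d _ => by positivity) (one_mem_Dset hR)
  simpa using this

lemma lam_one {h R : ℕ} (hR : 1 ≤ R) : lam h R 1 = 1 := by
  have hG : Gs h R ≠ 0 := by
    have := one_le_Gs (h := h) hR
    positivity
  unfold lam
  rw [if_pos (one_mem_Dset hR)]
  have hf : (Dset h R).filter (fun m => Nat.Coprime m 1 ∧ m * 1 ≤ R) = Dset h R := by
    apply Finset.filter_true_of_mem
    intro m hm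
    rw [mem_Dset] at hm
    refine ⟨Nat.coprime_one_right m, ?_⟩
    rw [mul_one]
    exact hm.1.2
  rw [hf]
  have : (∑ m ∈ Dset h R, (1 : ℝ) / (Nat.totient m : ℝ)) = Gs h R := rfl
  rw [this]
  simp [hG]

lemma totient_mul_div {d l : ℕ} (hd : Squarefree d) (hl : l ∣ d) :
    Nat.totient l * Nat.totient (d / l) = Nat.totient d := by
  obtain ⟨m, rfl⟩ := hl
  have hl0 : 0 < l := Nat.pos_of_ne_zero (fun h0 => by
    subst h0; simp at hd)
  rw [Nat.mul_div_cancel_left m hl0]
  exact (Nat.totient_mul (Nat.coprime_of_squarefree_mul hd)).symm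

lemma sum_inv_totient {d : ℕ} (hd : Squarefree d) :
    ∑ l ∈ d.divisors, (1 : ℝ) / (Nat.totient l : ℝ) = (d : ℝ) / (Nat.totient d : ℝ) := by
  have hd0 : d ≠ 0 := hd.ne_zero
  have h1 : ∀ l ∈ d.divisors, (1 : ℝ) / (Nat.totient l : ℝ) =
      (Nat.totient (d / l) : ℝ) / (Nat.totient d : ℝ) := by
    intro l hl
    have hl' := Nat.dvd_of_mem_divisors hl
    have hmul := totient_mul_div hd hl'
    have hl1 : 1 ≤ l := Nat.pos_of_mem_divisors hl
    have p1 := phi_pos hl1
    have p2 := phi_pos (Nat.one_le_iff_ne_zero.mpr hd0)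
    rw [div_eq_div_iff p1.ne' p2.ne']
    rw [one_mul, ← hmul]
    push_cast
    ring
  rw [Finset.sum_congr rfl h1, ← Finset.sum_div]
  congr 1
  have h2 : ∑ l ∈ d.divisors, (Nat.totient (d / l)) = d := by
    rw [Nat.sum_div_divisors d Nat.totient]
    exact Nat.sum_totient d
  exact_mod_cast h2

/-- A general splitting inequality. -/
lemma split_le {d h R : ℕ} (hd : Squarefree d) (hdh : Nat.Coprime d h) :
    (d : ℝ) / (Nat.totient d : ℝ) *
      (∑ m ∈ (Dset h R).filter (fun m => Nat.Coprime m d ∧ m * d ≤ R),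
        (1 : ℝ) / (Nat.totient m : ℝ)) ≤ Gs h R := by
  rw [← sum_inv_totient hd, Finset.sum_mul_sum, ← Finset.sum_product']
  have h1 : ∀ x ∈ d.divisors ×ˢ (Dset h R).filter (fun m => Nat.Coprime m d ∧ m * d ≤ R),
      (1 : ℝ) / (Nat.totient x.1 : ℝ) * ((1 : ℝ) / (Nat.totient x.2 : ℝ)) =
        (1 : ℝ) / (Nat.totient (x.1 * x.2) : ℝ) := by
    rintro ⟨l, m⟩ hx
    simp only [Finset.mem_product, Nat.mem_divisors, Finset.mem_filter] at hx
    have hc : Nat.Coprime l m := (Nat.Coprime.coprime_dvd_right hx.1.1 hx.2.2.1).symm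
    rw [Nat.totient_mul hc]
    push_cast
    rw [div_mul_div_comm, one_mul]
  rw [Finset.sum_congr rfl h1]
  have hinj : Set.InjOn (fun x : ℕ × ℕ => x.1 * x.2)
      ↑(d.divisors ×ˢ (Dset h R).filter (fun m => Nat.Coprime m d ∧ m * d ≤ R)) := by
    rintro ⟨l, m⟩ hx ⟨l', m'⟩ hx' heq
    simp only [Finset.coe_product, Set.mem_prod, Finset.mem_coe, Nat.mem_divisors,
      Finset.mem_filter] at hx hx' heq
    have g1 : Nat.gcd (l * m) d = l := by
      rw [Nat.Coprime.gcd_mul_right_cancel l hx.2.2.1]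
      exact Nat.gcd_eq_left hx.1.1
    have g2 : Nat.gcd (l' * m') d = l' := by
      rw [Nat.Coprime.gcd_mul_right_cancel l' hx'.2.2.1]
      exact Nat.gcd_eq_left hx'.1.1
    have hl : l = l' := by rw [← g1, ← g2, heq]
    subst hl
    have hl0 : 0 < l := Nat.pos_of_dvd_of_pos hx.1.1 (Nat.pos_of_ne_zero hx.1.2)
    have hm : m = m' := Nat.eq_of_mul_eq_mul_left hl0 heq
    rw [hm]
  have himg := Finset.sum_image (f := fun n : ℕ => (1 : ℝ) / (Nat.totient n : ℝ)) hinj
  rw [← himg]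
  unfold Gs
  apply Finset.sum_le_sum_of_subset_of_nonneg
  · intro n hn
    simp only [Finset.mem_image, Finset.mem_product, Nat.mem_divisors, Finset.mem_filter,
      Prod.exists, mem_Dset] at hn
    obtain ⟨l, m, ⟨⟨hl, hd0⟩, ⟨⟨⟨hm1, hm2⟩, hmsq, hmh⟩, hmd, hmR⟩⟩, rfl⟩ := hn
    have hl0 : 0 < l := Nat.pos_of_dvd_of_pos hl (Nat.pos_of_ne_zero hd0)
    rw [mem_Dset]
    refine ⟨⟨Nat.mul_pos hl0 hm1, ?_⟩, ?_, ?_⟩
    · calc l * m ≤ d * m := Nat.mul_le_mul_right m (Nat.le_of_dvd (Nat.pos_of_ne_zero hd0) hl)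
        _ = m * d := mul_comm _ _
        _ ≤ R := hmR
    · have hc : Nat.Coprime l m := (Nat.Coprime.coprime_dvd_right hl hmd).symm
      exact (Nat.squarefree_mul hc).mpr ⟨hd.squarefree_of_dvd hl, hmsq⟩
    · exact Nat.Coprime.mul_left (Nat.Coprime.coprime_dvd_left hl hdh) hmh
  · intro n _ _
    positivity

lemma abs_lam_le {h R : ℕ} (hR : 1 ≤ R) (d : ℕ) : |lam h R d| ≤ 1 := by
  unfold lam
  split_ifs with hd
  · rw [mem_Dset] at hd
    have hG := one_le_Gs (h := h) hR
    have hG0 : 0 < Gs h R := by linarith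
    have hs := split_le (h := h) (R := R) hd.2.1 hd.2.2
    have hmu : |(ArithmeticFunction.moebius d : ℝ)| ≤ 1 := by
      have := ArithmeticFunction.abs_moebius_le_one (n := d)
      exact_mod_cast this
    rw [abs_div, abs_of_pos hG0, div_le_one hG0, mul_assoc, abs_mul]
    have hnn : 0 ≤ (d : ℝ) / (Nat.totient d : ℝ) *
      (∑ m ∈ (Dset h R).filter (fun m => Nat.Coprime m d ∧ m * d ≤ R),
        (1 : ℝ) / (Nat.totient m : ℝ)) := by
      apply mul_nonneg
      · positivity
      · exact Finset.sum_nonneg (fun _ _ => by positivity)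
    rw [abs_of_nonneg hnn]
    calc |(ArithmeticFunction.moebius d : ℝ)| * _ ≤ 1 * _ :=
          mul_le_mul_of_nonneg_right hmu hnn
      _ ≤ Gs h R := by rw [one_mul]; exact hs
  · simp


/-- product of the primes dividing n -/
def rad (n : ℕ) : ℕ := ∏ p ∈ n.primeFactors, p

lemma rad_squarefree (n : ℕ) : Squarefree (rad n) := by
  have h := UniqueFactorizationMonoid.squarefree_radical (a := n)
  rwa [Nat.radical_eq_prod_primeFactors] at h

lemma rad_dvd (n : ℕ) : rad n ∣ n := Nat.prod_primeFactors_dvd n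

lemma primeFactors_rad (n : ℕ) : (rad n).primeFactors = n.primeFactors :=
  Nat.primeFactors_prod_primeFactors n

lemma rad_of_squarefree {n : ℕ} (h : Squarefree n) : rad n = n :=
  Nat.prod_primeFactors_of_squarefree h

/-- the homomorphism n ↦ 1 / n -/
noncomputable def invHom : ℕ →* ℝ :=
  (invMonoidWithZeroHom : ℝ →*₀ ℝ).toMonoidHom.comp (Nat.castRingHom ℝ).toMonoidHom

lemma invHom_apply (n : ℕ) : invHom n = (n : ℝ)⁻¹ := rfl

lemma totient_div (d : ℕ) (hd : 1 ≤ d) :
    (Nat.totient d : ℝ) / (d : ℝ) = ∏ p ∈ d.primeFactors, (1 - (p : ℝ)⁻¹) := by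
  have h := Nat.totient_eq_mul_prod_factors d
  have h' : (Nat.totient d : ℝ) = (d : ℝ) * ∏ p ∈ d.primeFactors, (1 - (p : ℝ)⁻¹) := by
    have h2 := congrArg (Rat.cast : ℚ → ℝ) h
    push_cast at h2
    exact h2
  rw [h']
  have : (d : ℝ) ≠ 0 := by positivity
  field_simp

lemma fiber_le {d : ℕ} (hd : Squarefree d) (S : Finset ℕ)
    (hS : ∀ n ∈ S, n ≠ 0 ∧ n.primeFactors = d.primeFactors) :
    ∑ n ∈ S, (1 : ℝ) / (n : ℝ) ≤ 1 / (Nat.totient d : ℝ) := by
  have hd0 : d ≠ 0 := hd.ne_zero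
  have hd1 : 1 ≤ d := Nat.one_le_iff_ne_zero.mpr hd0
  have hdvd : ∀ n ∈ S, d ∣ n := by
    intro n hn
    have h1 : rad n = d := by
      rw [← rad_of_squarefree hd]
      unfold rad
      rw [(hS n hn).2]
    rw [← h1]
    exact rad_dvd n
  have hinj : Set.InjOn (fun n : ℕ => n / d) ↑S := by
    intro a ha b hb hab
    simp only at hab
    have := hdvd a ha
    have h2 := hdvd b hb
    rw [← Nat.div_mul_cancel this, ← Nat.div_mul_cancel h2, hab]
  have hlt : ∀ {p : ℕ}, p.Prime → ‖invHom p‖ < 1 := by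
    intro p hp
    rw [invHom_apply, norm_inv, Real.norm_natCast]
    have : (1 : ℝ) < p := by exact_mod_cast hp.one_lt
    exact inv_lt_one_of_one_lt₀ this
  have hsum := (EulerProduct.summable_and_hasSum_factoredNumbers_prod_filter_prime_geometric
    (f := invHom) hlt d.primeFactors).2
  have hfilter : d.primeFactors.filter Nat.Prime = d.primeFactors := by
    apply Finset.filter_true_of_mem
    intro p hp
    exact Nat.prime_of_mem_primeFactors hp
  have hT : ∀ m ∈ S.image (fun n : ℕ => n / d), m ∈ Nat.factoredNumbers d.primeFactors := by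
    intro m hm
    rw [Finset.mem_image] at hm
    obtain ⟨n, hn, rfl⟩ := hm
    have hn0 := (hS n hn).1
    have hdn := hdvd n hn
    have hnd : n / d ≠ 0 := by
      intro h0
      apply hn0
      rw [← Nat.div_mul_cancel hdn, h0, zero_mul]
    rw [Nat.mem_factoredNumbers_iff_primeFactors_subset]
    refine ⟨hnd, ?_⟩
    rw [← (hS n hn).2]
    exact Nat.primeFactors_mono (Nat.div_dvd_of_dvd hdn) hn0
  have hle : ∑ m ∈ S.image (fun n : ℕ => n / d), invHom m ≤
      ∏ p ∈ d.primeFactors, (1 - invHom p)⁻¹ := by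
    have h1 := sum_le_hasSum ((S.image (fun n : ℕ => n / d)).subtype
      (fun m => m ∈ Nat.factoredNumbers d.primeFactors)) (fun i _ => by
        rw [invHom_apply]; positivity) hsum
    rw [Finset.sum_subtype_of_mem (fun m => invHom m) hT, hfilter] at h1
    exact h1
  rw [Finset.sum_image hinj] at hle
  have hterm : ∀ n ∈ S, (1 : ℝ) / (n : ℝ) = (1 / (d : ℝ)) * invHom (n / d) := by
    intro n hn
    rw [invHom_apply, Nat.cast_div (hdvd n hn) (by exact_mod_cast hd0)]
    have : (n : ℝ) ≠ 0 := by exact_mod_cast (hS n hn).1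
    have : (d : ℝ) ≠ 0 := by exact_mod_cast hd0
    field_simp
  rw [Finset.sum_congr rfl hterm, ← Finset.mul_sum]
  have hprod : ∏ p ∈ d.primeFactors, (1 - invHom p)⁻¹ = (d : ℝ) / (Nat.totient d : ℝ) := by
    rw [Finset.prod_inv_distrib]
    have := totient_div d hd1
    simp only [invHom_apply]
    rw [← this, inv_div]
  rw [hprod] at hle
  have hdpos : (0 : ℝ) < d := by exact_mod_cast hd1
  calc (1 / (d : ℝ)) * ∑ n ∈ S, invHom (n / d) ≤ (1 / (d : ℝ)) * ((d : ℝ) / (Nat.totient d : ℝ)) :=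
        mul_le_mul_of_nonneg_left hle (by positivity)
    _ = 1 / (Nat.totient d : ℝ) := by
        have := phi_pos hd1
        field_simp

lemma harmonic_le_Gs_one (R : ℕ) : ∑ n ∈ Icc 1 R, (1 : ℝ) / (n : ℝ) ≤ Gs 1 R := by
  have hmaps : ∀ n ∈ Icc 1 R, rad n ∈ Dset 1 R := by
    intro n hn
    rw [mem_Icc] at hn
    rw [mem_Dset]
    have hn0 : 0 < n := hn.1
    refine ⟨⟨?_, ?_⟩, rad_squarefree n, Nat.coprime_one_right _⟩
    · exact Nat.pos_of_dvd_of_pos (rad_dvd n) hn0
    · exact (Nat.le_of_dvd hn0 (rad_dvd n)).trans hn.2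
  rw [← Finset.sum_fiberwise_of_maps_to hmaps]
  unfold Gs
  apply Finset.sum_le_sum
  intro d hd
  rw [mem_Dset] at hd
  apply fiber_le hd.2.1
  intro n hn
  rw [mem_filter, mem_Icc] at hn
  refine ⟨by omega, ?_⟩
  rw [← hn.2, primeFactors_rad]

lemma Gs_one_le {h R : ℕ} (hh : 1 ≤ h) :
    Gs 1 R ≤ (h : ℝ) / (Nat.totient h : ℝ) * Gs h R := by
  have hr1 : 1 ≤ rad h := Nat.pos_of_dvd_of_pos (rad_dvd h) hh
  have hrad : (h : ℝ) / (Nat.totient h : ℝ) = (rad h : ℝ) / (Nat.totient (rad h) : ℝ) := by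
    have h1 := totient_div h hh
    have h2 := totient_div (rad h) hr1
    rw [primeFactors_rad, ← h1] at h2
    rw [← inv_div, ← h2, inv_div]
  rw [hrad, ← sum_inv_totient (rad_squarefree h)]
  unfold Gs
  rw [Finset.sum_mul_sum, ← Finset.sum_product']
  have hkey : ∀ d ∈ Dset 1 R, Nat.gcd d h ∣ rad h ∧ d / Nat.gcd d h ∈ Dset h R ∧
      Nat.totient d = Nat.totient (Nat.gcd d h) * Nat.totient (d / Nat.gcd d h) := by
    intro d hd
    rw [mem_Dset] at hd
    have hsq := hd.2.1
    have hgd : Nat.gcd d h ∣ d := Nat.gcd_dvd_left d h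
    have hgh : Nat.gcd d h ∣ h := Nat.gcd_dvd_right d h
    have hgsq : Squarefree (Nat.gcd d h) := hsq.squarefree_of_dvd hgd
    refine ⟨?_, ?_, ?_⟩
    · rw [← rad_of_squarefree hgsq]
      unfold rad
      apply Finset.prod_dvd_prod_of_subset
      exact Nat.primeFactors_mono hgh (by omega)
    · rw [mem_Dset]
      refine ⟨⟨?_, ?_⟩, ?_, ?_⟩
      · exact Nat.div_pos (Nat.le_of_dvd hd.1.1 hgd) (Nat.gcd_pos_of_pos_left _ hd.1.1)
      · exact (Nat.div_le_self _ _).trans hd.1.2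
      · exact hsq.squarefree_of_dvd (Nat.div_dvd_of_dvd hgd)
      · rw [Nat.coprime_iff_gcd_eq_one]
        by_contra hne
        obtain ⟨p, hp, hpd⟩ := Nat.exists_prime_and_dvd hne
        have hp1 : p ∣ d / Nat.gcd d h := hpd.trans (Nat.gcd_dvd_left _ _)
        have hp2 : p ∣ h := hpd.trans (Nat.gcd_dvd_right _ _)
        have hp3 : p ∣ d := hp1.trans (Nat.div_dvd_of_dvd hgd)
        have hp4 : p ∣ Nat.gcd d h := Nat.dvd_gcd hp3 hp2
        have hp5 : p * p ∣ d := by
          rw [← Nat.div_mul_cancel hgd]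
          exact Nat.mul_dvd_mul hp1 hp4
        have := hsq p hp5
        exact hp.one_lt.ne' (Nat.isUnit_iff.mp this)
    · exact (totient_mul_div hsq hgd).symm
  have hinj : Set.InjOn (fun d : ℕ => (Nat.gcd d h, d / Nat.gcd d h)) ↑(Dset 1 R) := by
    intro a ha b hb hab
    simp only [Prod.mk.injEq] at hab
    rw [← Nat.div_mul_cancel (Nat.gcd_dvd_left a h), ← Nat.div_mul_cancel (Nat.gcd_dvd_left b h),
      hab.2, hab.1]
  have hterm : ∀ d ∈ Dset 1 R, (1 : ℝ) / (Nat.totient d : ℝ) =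
      (fun x : ℕ × ℕ => (1 : ℝ) / (Nat.totient x.1 : ℝ) * ((1 : ℝ) / (Nat.totient x.2 : ℝ)))
        ((fun d : ℕ => (Nat.gcd d h, d / Nat.gcd d h)) d) := by
    intro d hd
    simp only
    rw [(hkey d hd).2.2]
    push_cast
    rw [div_mul_div_comm, one_mul]
  rw [Finset.sum_congr rfl hterm, ← Finset.sum_image (f := fun x : ℕ × ℕ =>
    (1 : ℝ) / (Nat.totient x.1 : ℝ) * ((1 : ℝ) / (Nat.totient x.2 : ℝ))) hinj]
  apply Finset.sum_le_sum_of_subset_of_nonneg
  · intro x hx
    rw [Finset.mem_image] at hx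
    obtain ⟨d, hd, rfl⟩ := hx
    rw [Finset.mem_product, Nat.mem_divisors]
    exact ⟨⟨(hkey d hd).1, by omega⟩, (hkey d hd).2.1⟩
  · intro x _ _
    positivity

lemma log_le_Gs {h R : ℕ} (hh : 1 ≤ h) (hR : 1 ≤ R) :
    (Nat.totient h : ℝ) / (h : ℝ) * Real.log R ≤ Gs h R := by
  have h1 : Real.log R ≤ ∑ n ∈ Icc 1 R, (1 : ℝ) / (n : ℝ) := by
    have h2 := log_add_one_le_harmonic R
    rw [harmonic_eq_sum_Icc] at h2
    push_cast at h2
    have h3 : Real.log R ≤ Real.log ((R : ℝ) + 1) :=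
      Real.log_le_log (by exact_mod_cast hR) (by linarith)
    simp only [one_div]
    linarith
  have h4 := (h1.trans (harmonic_le_Gs_one R)).trans (Gs_one_le (R := R) hh)
  have hphi := phi_pos hh
  have hh0 : (0 : ℝ) < h := by exact_mod_cast hh
  calc (Nat.totient h : ℝ) / (h : ℝ) * Real.log R
      ≤ (Nat.totient h : ℝ) / (h : ℝ) * ((h : ℝ) / (Nat.totient h : ℝ) * Gs h R) :=
        mul_le_mul_of_nonneg_left h4 (by positivity)
    _ = Gs h R := by field_simp

lemma Gs_le {h R : ℕ} : Gs h R ≤ (1 + Real.log R) ^ 2 := by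
  have hH : ∑ n ∈ Icc 1 R, (1 : ℝ) / (n : ℝ) ≤ 1 + Real.log R := by
    have h2 := harmonic_le_one_add_log R
    rw [harmonic_eq_sum_Icc] at h2
    push_cast at h2
    simpa only [one_div] using h2
  have hH0 : 0 ≤ ∑ n ∈ Icc 1 R, (1 : ℝ) / (n : ℝ) := Finset.sum_nonneg (fun _ _ => by positivity)
  have hterm : ∀ d ∈ Dset h R, (1 : ℝ) / (Nat.totient d : ℝ) ≤
      ∑ x ∈ d.divisorsAntidiagonal, (1 : ℝ) / (x.1 : ℝ) * ((1 : ℝ) / (x.2 : ℝ)) := by
    intro d hd
    rw [mem_Dset] at hd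
    have hd1 := hd.1.1
    have hphi := phi_pos hd1
    have hd0 : (0 : ℝ) < d := by exact_mod_cast hd1
    have h1 : ∑ x ∈ d.divisorsAntidiagonal, (1 : ℝ) / (x.1 : ℝ) * ((1 : ℝ) / (x.2 : ℝ)) =
        ∑ x ∈ d.divisorsAntidiagonal, (1 : ℝ) / (d : ℝ) := by
      apply Finset.sum_congr rfl
      intro x hx
      rw [Nat.mem_divisorsAntidiagonal] at hx
      rw [← hx.1]
      push_cast
      rw [div_mul_div_comm, one_mul]
    rw [h1, Nat.sum_divisorsAntidiagonal (fun _ _ => (1 : ℝ) / (d : ℝ)), Finset.sum_const,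
      nsmul_eq_mul]
    have h2 : (d : ℝ) / (Nat.totient d : ℝ) ≤ (d.divisors.card : ℝ) := by
      rw [← sum_inv_totient hd.2.1, Finset.card_eq_sum_ones]
      push_cast
      apply Finset.sum_le_sum
      intro l hl
      have hl1 : 1 ≤ l := Nat.pos_of_mem_divisors hl
      have : (1 : ℝ) ≤ (Nat.totient l : ℝ) := by
        exact_mod_cast Nat.totient_pos.mpr hl1
      rw [div_le_one (by linarith)]
      exact this
    calc (1 : ℝ) / (Nat.totient d : ℝ) = ((d : ℝ) / (Nat.totient d : ℝ)) * (1 / (d : ℝ)) := by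
          field_simp
      _ ≤ (d.divisors.card : ℝ) * (1 / (d : ℝ)) :=
          mul_le_mul_of_nonneg_right h2 (by positivity)
  unfold Gs
  refine (Finset.sum_le_sum hterm).trans ?_
  rw [Finset.sum_sigma']
  have hinj : Set.InjOn (fun x : (Σ _ : ℕ, ℕ × ℕ) => x.2)
      ↑((Dset h R).sigma (fun d => d.divisorsAntidiagonal)) := by
    rintro ⟨d, a, b⟩ hx ⟨d', a', b'⟩ hx' heq
    simp only [Finset.mem_coe, Finset.mem_sigma, Nat.mem_divisorsAntidiagonal] at hx hx'
    simp only [Prod.mk.injEq] at heq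
    obtain ⟨rfl, rfl⟩ := heq
    obtain rfl : d = d' := by rw [← hx.2.1, ← hx'.2.1]
    rfl
  rw [← Finset.sum_image (f := fun x : ℕ × ℕ => (1 : ℝ) / (x.1 : ℝ) * ((1 : ℝ) / (x.2 : ℝ))) hinj]
  calc ∑ x ∈ ((Dset h R).sigma (fun d => d.divisorsAntidiagonal)).image
        (fun x : (Σ _ : ℕ, ℕ × ℕ) => x.2), (1 : ℝ) / (x.1 : ℝ) * ((1 : ℝ) / (x.2 : ℝ))
      ≤ ∑ x ∈ Icc 1 R ×ˢ Icc 1 R, (1 : ℝ) / (x.1 : ℝ) * ((1 : ℝ) / (x.2 : ℝ)) := by
        apply Finset.sum_le_sum_of_subset_of_nonneg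
        · intro x hx
          simp only [Finset.mem_image, Finset.mem_sigma, Nat.mem_divisorsAntidiagonal,
            mem_Dset] at hx
          obtain ⟨⟨d, y⟩, ⟨⟨⟨hd1, hdR⟩, _⟩, hy, hd0⟩, rfl⟩ := hx
          simp only at hy hd1 hdR hd0
          have hy0 : 0 < y.1 * y.2 := by rw [hy]; exact hd1
          have hy1 : 0 < y.1 := Nat.pos_of_mul_pos_right hy0
          have hy2 : 0 < y.2 := Nat.pos_of_mul_pos_left hy0
          rw [Finset.mem_product, mem_Icc, mem_Icc]
          simp only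
          refine ⟨⟨hy1, ?_⟩, ⟨hy2, ?_⟩⟩
          · nlinarith
          · nlinarith
        · intro x _ _
          positivity
    _ = (∑ n ∈ Icc 1 R, (1 : ℝ) / (n : ℝ)) * (∑ n ∈ Icc 1 R, (1 : ℝ) / (n : ℝ)) := by
        rw [Finset.sum_mul_sum, Finset.sum_product]
    _ ≤ (1 + Real.log R) ^ 2 := by
        rw [sq]
        exact mul_le_mul hH hH hH0 (hH0.trans hH)

lemma Lam_prime {h R n : ℕ} (hR : 1 ≤ R) (hn : n.Prime) (hRn : R < n) : Lam h R n = 1 := by
  unfold Lam
  have : (Dset h R).filter (fun d => d ∣ n) = {1} := by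
    ext d
    rw [mem_filter, mem_singleton, mem_Dset]
    constructor
    · rintro ⟨⟨⟨hd1, hdR⟩, _⟩, hdn⟩
      rcases (Nat.dvd_prime hn).mp hdn with h1 | h1
      · exact h1
      · omega
    · rintro rfl
      exact ⟨⟨⟨le_refl _, hR⟩, squarefree_one, Nat.coprime_one_left h⟩, one_dvd n⟩
  rw [this, Finset.sum_singleton, lam_one hR]

end C1

/-- C1. -/
theorem claimC1 : ClaimC1 := by
  intro h R hh hR
  exact ⟨C1.lam_one hR, C1.abs_lam_le hR, C1.log_le_Gs hh hR, C1.one_le_Gs hR, C1.Gs_le,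
    fun n hn hRn => C1.Lam_prime hR hn hRn⟩

end D159

end

section

/-!
# MP_d159ed_nt, C2: diagonalisation of the Selberg quadratic form

Squarefree numbers are encoded by their finite sets of primes.
-/

set_option autoImplicit false

namespace D159

open Finset
open scoped BigOperators

namespace C2

/-- the product of a set of primes -/
def nS (S : Finset ℕ) : ℕ := ∏ p ∈ S, p

/-- all elements are primes -/
def Prs (S : Finset ℕ) : Prop := ∀ p ∈ S, p.Prime

/-- the totient of the product -/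
noncomputable def ph (S : Finset ℕ) : ℝ := ∏ p ∈ S, ((p : ℝ) - 1)

/-- the sets of primes of the elements of Dset -/
def Ds (h R : ℕ) : Finset (Finset ℕ) := (Pr h R).powerset.filter (fun S => nS S ≤ R)

theorem Prs.mono {S T : Finset ℕ} (hT : Prs T) (h : S ⊆ T) : Prs S := fun p hp => hT p (h hp)

theorem Prs.union {S T : Finset ℕ} (hS : Prs S) (hT : Prs T) : Prs (S ∪ T) := fun p hp => by
  rcases Finset.mem_union.1 hp with h | h
  · exact hS p h
  · exact hT p h

theorem nS_pos {S : Finset ℕ} (hS : Prs S) : 0 < nS S :=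
  Finset.prod_pos fun p hp => (hS p hp).pos

theorem ph_pos {S : Finset ℕ} (hS : Prs S) : 0 < ph S :=
  Finset.prod_pos fun p hp => by
    have : (2 : ℝ) ≤ (p : ℝ) := by exact_mod_cast (hS p hp).two_le
    linarith

theorem nS_union {S T : Finset ℕ} (h : Disjoint S T) : nS (S ∪ T) = nS S * nS T :=
  Finset.prod_union h

theorem ph_union {S T : Finset ℕ} (h : Disjoint S T) : ph (S ∪ T) = ph S * ph T :=
  Finset.prod_union h

theorem pf {S : Finset ℕ} (hS : Prs S) : (nS S).primeFactors = S := Nat.primeFactors_prod hS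

theorem dvd_iff {S : Finset ℕ} (hS : Prs S) {p : ℕ} (hp : p.Prime) : p ∣ nS S ↔ p ∈ S := by
  rw [nS, Prime.dvd_finsetProd_iff hp.prime]
  constructor
  · rintro ⟨q, hq, hpq⟩
    rwa [(Nat.prime_dvd_prime_iff_eq hp (hS q hq)).1 hpq]
  · intro h
    exact ⟨p, h, dvd_rfl⟩

theorem coprime_iff {S T : Finset ℕ} (hS : Prs S) (hT : Prs T) :
    Nat.Coprime (nS S) (nS T) ↔ Disjoint S T := by
  rw [← Nat.disjoint_primeFactors (nS_pos hS).ne' (nS_pos hT).ne', pf hS, pf hT]

theorem Prs.of_insert {p : ℕ} {S : Finset ℕ} (h : Prs (insert p S)) : p.Prime ∧ Prs S :=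
  ⟨h p (Finset.mem_insert_self p S), h.mono (Finset.subset_insert p S)⟩

theorem coprime_insert {p : ℕ} {S : Finset ℕ} (hp : p.Prime) (hS : Prs S) (h : p ∉ S) :
    Nat.Coprime p (nS S) := by
  rw [Nat.Prime.coprime_iff_not_dvd hp, dvd_iff hS hp]
  exact h

theorem nS_insert {p : ℕ} {S : Finset ℕ} (h : p ∉ S) : nS (insert p S) = p * nS S :=
  Finset.prod_insert h

theorem sqf {S : Finset ℕ} (hS : Prs S) : Squarefree (nS S) := by
  classical
  induction S using Finset.induction_on with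
  | empty => exact squarefree_one
  | insert p S hp ih =>
    obtain ⟨h1, h2⟩ := hS.of_insert
    rw [nS_insert hp, Nat.squarefree_mul (coprime_insert h1 h2 hp)]
    exact ⟨h1.squarefree, ih h2⟩

theorem moebius_nS {S : Finset ℕ} (hS : Prs S) :
    ((ArithmeticFunction.moebius (nS S) : ℤ) : ℝ) = (-1) ^ S.card := by
  classical
  induction S using Finset.induction_on with
  | empty => simp [nS]
  | insert p S hp ih =>
    obtain ⟨h1, h2⟩ := hS.of_insert
    rw [nS_insert hp, ArithmeticFunction.isMultiplicative_moebius.map_mul_of_coprime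
      (coprime_insert h1 h2 hp), ArithmeticFunction.moebius_apply_prime h1,
      Finset.card_insert_of_notMem hp, pow_succ]
    push_cast
    rw [ih h2]
    ring

theorem totient_nS {S : Finset ℕ} (hS : Prs S) : (Nat.totient (nS S) : ℝ) = ph S := by
  classical
  induction S using Finset.induction_on with
  | empty => simp [nS, ph]
  | insert p S hp ih =>
    obtain ⟨h1, h2⟩ := hS.of_insert
    rw [nS_insert hp, Nat.totient_mul (coprime_insert h1 h2 hp), Nat.totient_prime h1, ph,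
      Finset.prod_insert hp, Nat.cast_mul, ih h2, Nat.cast_sub h1.one_le]
    simp [ph]

theorem mem_Dset {h R d : ℕ} : d ∈ Dset h R ↔ (1 ≤ d ∧ d ≤ R) ∧ Squarefree d ∧ Nat.Coprime d h := by
  simp [Dset, Finset.mem_filter, Finset.mem_Icc]

theorem mem_Pr {h R p : ℕ} : p ∈ Pr h R ↔ (1 ≤ p ∧ p ≤ R) ∧ p.Prime ∧ Nat.Coprime p h := by
  simp [Pr, Finset.mem_filter, Finset.mem_Icc]

theorem mem_Ds {h R : ℕ} {S : Finset ℕ} : S ∈ Ds h R ↔ S ⊆ Pr h R ∧ nS S ≤ R := by
  simp [Ds, Finset.mem_filter, Finset.mem_powerset]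

theorem prs_of_Ds {h R : ℕ} {S : Finset ℕ} (hS : S ∈ Ds h R) : Prs S :=
  fun p hp => (mem_Pr.1 ((mem_Ds.1 hS).1 hp)).2.1

theorem nS_mem_iff {h R : ℕ} {S : Finset ℕ} (hS : Prs S) : nS S ∈ Dset h R ↔ S ∈ Ds h R := by
  rw [mem_Dset, mem_Ds]
  constructor
  · rintro ⟨⟨_, h2⟩, _, h4⟩
    refine ⟨fun p hp => mem_Pr.2 ⟨⟨(hS p hp).one_le, ?_⟩, hS p hp, ?_⟩, h2⟩
    · exact le_trans (Nat.le_of_dvd (nS_pos hS) ((dvd_iff hS (hS p hp)).2 hp)) h2
    · exact Nat.Coprime.coprime_dvd_left ((dvd_iff hS (hS p hp)).2 hp) h4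
  · rintro ⟨h1, h2⟩
    refine ⟨⟨nS_pos hS, h2⟩, sqf hS, ?_⟩
    exact Nat.Coprime.prod_left fun p hp => (mem_Pr.1 (h1 hp)).2.2

theorem Ds_mono {h R : ℕ} {S T : Finset ℕ} (hT : T ∈ Ds h R) (hST : S ⊆ T) : S ∈ Ds h R := by
  have hT' := mem_Ds.1 hT
  refine mem_Ds.2 ⟨hST.trans hT'.1, le_trans ?_ hT'.2⟩
  exact Nat.le_of_dvd (nS_pos (prs_of_Ds hT)) (Finset.prod_dvd_prod_of_subset _ _ _ hST)

theorem sum_conv (h R : ℕ) (F : ℕ → ℝ) : ∑ d ∈ Dset h R, F d = ∑ S ∈ Ds h R, F (nS S) := by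
  refine Finset.sum_nbij' (fun d => d.primeFactors) nS ?_ ?_ ?_ ?_ ?_
  · intro d hd
    have hd' := mem_Dset.1 hd
    have hp : Prs d.primeFactors := fun p hp => Nat.prime_of_mem_primeFactors hp
    have h1 : nS d.primeFactors = d := Nat.prod_primeFactors_of_squarefree hd'.2.1
    rw [← nS_mem_iff hp, h1]
    exact hd
  · intro S hS
    exact (nS_mem_iff (prs_of_Ds hS)).2 hS
  · intro d hd
    exact Nat.prod_primeFactors_of_squarefree (mem_Dset.1 hd).2.1
  · intro S hS
    exact pf (prs_of_Ds hS)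
  · intro d hd
    have h1 : nS d.primeFactors = d := Nat.prod_primeFactors_of_squarefree (mem_Dset.1 hd).2.1
    rw [h1]

theorem sum_conv_filter (h R : ℕ) (c : ℕ → Prop) [DecidablePred c] (F : ℕ → ℝ) :
    ∑ d ∈ (Dset h R).filter c, F d = ∑ S ∈ (Ds h R).filter (fun S => c (nS S)), F (nS S) := by
  rw [Finset.sum_filter, sum_conv, ← Finset.sum_filter]

/-- the Selberg weight of a set of primes -/
theorem lam_nS (h R : ℕ) {S : Finset ℕ} (hS : Prs S) :
    lam h R (nS S) = (-1) ^ S.card * (nS S : ℝ) / Gs h R *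
      ∑ K ∈ (Ds h R).filter (fun K => S ⊆ K), 1 / ph K := by
  classical
  by_cases hD : S ∈ Ds h R
  · rw [lam, if_pos ((nS_mem_iff hS).2 hD), moebius_nS hS, totient_nS hS, sum_conv_filter]
    have h1 : ∑ K ∈ (Ds h R).filter (fun K => S ⊆ K), 1 / ph K =
        (1 / ph S) * ∑ M ∈ (Ds h R).filter (fun M => Nat.Coprime (nS M) (nS S) ∧ nS M * nS S ≤ R),
          (1 : ℝ) / (Nat.totient (nS M) : ℝ) := by
      rw [Finset.mul_sum]
      refine Finset.sum_nbij' (fun K => K \ S) (fun M => M ∪ S) ?_ ?_ ?_ ?_ ?_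
      · intro K hK
        simp only [Finset.mem_filter] at hK ⊢
        have hKp := prs_of_Ds hK.1
        have hKS : Prs (K \ S) := hKp.mono Finset.sdiff_subset
        refine ⟨Ds_mono hK.1 Finset.sdiff_subset, ?_, ?_⟩
        · rw [coprime_iff hKS hS]
          exact Finset.sdiff_disjoint
        · rw [← nS_union Finset.sdiff_disjoint, Finset.sdiff_union_of_subset hK.2]
          exact (mem_Ds.1 hK.1).2
      · intro M hM
        simp only [Finset.mem_filter] at hM ⊢
        have hMp := prs_of_Ds hM.1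
        have hdis : Disjoint M S := (coprime_iff hMp hS).1 hM.2.1
        refine ⟨mem_Ds.2 ⟨Finset.union_subset (mem_Ds.1 hM.1).1 (mem_Ds.1 hD).1, ?_⟩,
          Finset.subset_union_right⟩
        rw [nS_union hdis]
        exact hM.2.2
      · intro K hK
        simp only [Finset.mem_filter] at hK
        exact Finset.sdiff_union_of_subset hK.2
      · intro M hM
        simp only [Finset.mem_filter] at hM
        have hMp := prs_of_Ds hM.1
        have hdis : Disjoint M S := (coprime_iff hMp hS).1 hM.2.1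
        exact Finset.union_sdiff_cancel_right hdis
      · intro K hK
        simp only [Finset.mem_filter] at hK
        have hKp := prs_of_Ds hK.1
        rw [totient_nS (hKp.mono Finset.sdiff_subset)]
        have h2 : ph K = ph (K \ S) * ph S := by
          rw [← ph_union Finset.sdiff_disjoint, Finset.sdiff_union_of_subset hK.2]
        rw [h2]
        field_simp
    rw [h1]
    field_simp
  · have h0 : nS S ∉ Dset h R := fun h1 => hD ((nS_mem_iff hS).1 h1)
    rw [lam, if_neg h0]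
    have : (Ds h R).filter (fun K => S ⊆ K) = ∅ := by
      refine Finset.filter_eq_empty_iff.2 fun K hK hSK => hD (Ds_mono hK hSK)
    rw [this]
    simp

/-- the linear forms of the diagonalisation -/
noncomputable def y (h R : ℕ) (P A T : Finset ℕ) : ℝ :=
  ∑ E ∈ (Ds h R).filter (fun E => Disjoint E P ∧ T ⊆ E), lam h R (nS (A ∪ E)) / (nS E : ℝ)

/-- alternating sum over an interval of sets -/
theorem sum_interval (T X : Finset ℕ) :
    ∑ E ∈ X.powerset.filter (fun E => T ⊆ E), (-1 : ℝ) ^ E.card =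
      if X = T then (-1) ^ T.card else 0 := by
  classical
  by_cases hTX : T ⊆ X
  · have h1 : ∑ E ∈ X.powerset.filter (fun E => T ⊆ E), (-1 : ℝ) ^ E.card =
        ∑ F ∈ (X \ T).powerset, (-1 : ℝ) ^ T.card * (-1) ^ F.card := by
      refine Finset.sum_nbij' (fun E => E \ T) (fun F => F ∪ T) ?_ ?_ ?_ ?_ ?_
      · intro E hE
        simp only [Finset.mem_filter, Finset.mem_powerset] at hE ⊢
        exact Finset.sdiff_subset_sdiff hE.1 le_rfl
      · intro F hF
        simp only [Finset.mem_filter, Finset.mem_powerset] at hF ⊢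
        exact ⟨Finset.union_subset (hF.trans Finset.sdiff_subset) hTX, Finset.subset_union_right⟩
      · intro E hE
        simp only [Finset.mem_filter, Finset.mem_powerset] at hE
        exact Finset.sdiff_union_of_subset hE.2
      · intro F hF
        simp only [Finset.mem_powerset] at hF
        exact Finset.union_sdiff_cancel_right
          (Finset.disjoint_of_subset_left hF Finset.sdiff_disjoint)
      · intro E hE
        simp only [Finset.mem_filter, Finset.mem_powerset] at hE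
        rw [← pow_add, add_comm T.card, Finset.card_sdiff_add_card_eq_card hE.2]
    rw [h1, ← Finset.mul_sum]
    have h2 : ∑ F ∈ (X \ T).powerset, (-1 : ℝ) ^ F.card = if X \ T = ∅ then 1 else 0 := by
      have := @Finset.sum_powerset_neg_one_pow_card ℕ _ (X \ T)
      exact_mod_cast this
    rw [h2]
    by_cases hXT : X = T
    · rw [if_pos hXT, if_pos (by rw [hXT, Finset.sdiff_self]), mul_one]
    · rw [if_neg hXT, if_neg, mul_zero]
      intro h3
      exact hXT (Finset.Subset.antisymm (Finset.sdiff_eq_empty_iff_subset.1 h3) hTX)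
  · have h1 : X.powerset.filter (fun E => T ⊆ E) = ∅ := by
      refine Finset.filter_eq_empty_iff.2 fun E hE hTE =>
        hTX (hTE.trans (Finset.mem_powerset.1 hE))
    rw [h1, Finset.sum_empty, if_neg]
    intro h2
    exact hTX (h2 ▸ Finset.Subset.refl _)

theorem y_eq (h R : ℕ) {P A T : Finset ℕ} (hP : Prs P) (hA : A ⊆ P) :
    y h R P A T = (-1) ^ A.card * (-1) ^ T.card * (nS A : ℝ) / Gs h R *
      ∑ K ∈ (Ds h R).filter (fun K => A ⊆ K ∧ K \ P = T), 1 / ph K := by
  classical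
  have hAp : Prs A := hP.mono hA
  have h1 : ∀ E ∈ (Ds h R).filter (fun E => Disjoint E P ∧ T ⊆ E),
      lam h R (nS (A ∪ E)) / (nS E : ℝ) =
        ∑ K ∈ (Ds h R).filter (fun K => A ∪ E ⊆ K),
          (-1) ^ A.card * (nS A : ℝ) / Gs h R * ((1 / ph K) * (-1) ^ E.card) := by
    intro E hE
    simp only [Finset.mem_filter] at hE
    have hEp := prs_of_Ds hE.1
    have hdis : Disjoint A E := (Finset.disjoint_of_subset_right hA hE.2.1).symm
    have hE0 : (nS E : ℝ) ≠ 0 := by exact_mod_cast (nS_pos hEp).ne'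
    rw [lam_nS h R (hAp.union hEp), Finset.card_union_of_disjoint hdis, nS_union hdis,
      Finset.mul_sum, Finset.sum_div]
    refine Finset.sum_congr rfl fun K _ => ?_
    push_cast
    rw [pow_add]
    field_simp
  rw [y, Finset.sum_congr rfl h1]
  -- exchange the sums
  rw [Finset.sum_comm' (t' := Ds h R) (s' := fun K => (Ds h R).filter
    (fun E => (Disjoint E P ∧ T ⊆ E) ∧ A ∪ E ⊆ K))]
  · have h2 : ∀ K ∈ Ds h R,
        ∑ E ∈ (Ds h R).filter (fun E => (Disjoint E P ∧ T ⊆ E) ∧ A ∪ E ⊆ K),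
          (-1) ^ A.card * (nS A : ℝ) / Gs h R * ((1 / ph K) * (-1) ^ E.card) =
        if A ⊆ K ∧ K \ P = T then (-1) ^ A.card * (-1) ^ T.card * (nS A : ℝ) / Gs h R * (1 / ph K)
          else 0 := by
      intro K hK
      by_cases hAK : A ⊆ K
      · have h3 : (Ds h R).filter (fun E => (Disjoint E P ∧ T ⊆ E) ∧ A ∪ E ⊆ K) =
            (K \ P).powerset.filter (fun E => T ⊆ E) := by
          ext E
          simp only [Finset.mem_filter, Finset.mem_powerset]
          constructor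
          · rintro ⟨_, ⟨h5, h6⟩, h7⟩
            refine ⟨?_, h6⟩
            exact Finset.subset_sdiff.2 ⟨(Finset.union_subset_iff.1 h7).2, h5⟩
          · rintro ⟨h5, h6⟩
            have h7 := Finset.subset_sdiff.1 h5
            exact ⟨Ds_mono hK h7.1, ⟨h7.2, h6⟩, Finset.union_subset hAK h7.1⟩
        rw [h3, ← Finset.mul_sum, ← Finset.mul_sum, sum_interval]
        by_cases hKT : K \ P = T
        · rw [if_pos hKT, if_pos ⟨hAK, hKT⟩]
          ring
        · rw [if_neg hKT, if_neg (fun h8 => hKT h8.2)]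
          ring
      · have h3 : (Ds h R).filter (fun E => (Disjoint E P ∧ T ⊆ E) ∧ A ∪ E ⊆ K) = ∅ := by
          refine Finset.filter_eq_empty_iff.2 fun E _ h4 =>
            hAK (Finset.union_subset_iff.1 h4.2).1
        rw [h3, Finset.sum_empty, if_neg (fun h8 => hAK h8.1)]
    rw [Finset.sum_congr rfl h2, ← Finset.sum_filter, Finset.mul_sum]
  · intro E K
    simp only [Finset.mem_filter]
    tauto

theorem Gs_eq (h R : ℕ) : Gs h R = ∑ K ∈ Ds h R, 1 / ph K := by
  rw [Gs, sum_conv]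
  exact Finset.sum_congr rfl fun K hK => by rw [totient_nS (prs_of_Ds hK)]

theorem one_le_Gs (h R : ℕ) (hR : 1 ≤ R) : 1 ≤ Gs h R := by
  have h1 : (1 : ℕ) ∈ Dset h R := mem_Dset.2 ⟨⟨le_rfl, hR⟩, squarefree_one, Nat.coprime_one_left h⟩
  have h2 := Finset.single_le_sum (f := fun d : ℕ => (1 : ℝ) / (Nat.totient d : ℝ))
    (fun d _ => by positivity) h1
  simpa [Gs] using h2

/-- the bound for the linear forms -/
theorem y_le (h R : ℕ) (hR : 1 ≤ R) {P A T : Finset ℕ} (hP : Prs P) (hA : A ⊆ P)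
    (hT : Prs T) :
    |y h R P A T| ≤ 2 ^ P.card / (Gs h R * ph T) := by
  classical
  have hG : 0 < Gs h R := lt_of_lt_of_le one_pos (one_le_Gs h R hR)
  have hAp : Prs A := hP.mono hA
  have hphT := ph_pos hT
  have hnA : (0 : ℝ) < nS A := by exact_mod_cast nS_pos hAp
  rw [y_eq h R hP hA, abs_mul, abs_div, abs_mul, abs_mul, abs_pow, abs_pow, abs_neg, abs_one,
    one_pow, one_pow, one_mul, one_mul, abs_of_pos hG, abs_of_pos hnA]
  have h1 : |∑ K ∈ (Ds h R).filter (fun K => A ⊆ K ∧ K \ P = T), 1 / ph K| ≤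
      ∑ Q ∈ (P \ A).powerset, 1 / (ph T * ph A * ph Q) := by
    rw [abs_of_nonneg (Finset.sum_nonneg fun K hK => by
      have := ph_pos (prs_of_Ds (Finset.mem_filter.1 hK).1)
      positivity)]
    have h2 : ∑ K ∈ (Ds h R).filter (fun K => A ⊆ K ∧ K \ P = T), 1 / ph K =
        ∑ Q ∈ ((Ds h R).filter (fun K => A ⊆ K ∧ K \ P = T)).image (fun K => (K ∩ P) \ A),
          1 / (ph T * ph A * ph Q) := by
      rw [Finset.sum_image]
      · refine Finset.sum_congr rfl fun K hK => ?_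
        simp only [Finset.mem_filter] at hK
        obtain ⟨hKD, hAK, hKT⟩ := hK
        have e1 : K = (K \ P) ∪ (K ∩ P) := (Finset.sdiff_union_inter K P).symm
        have e2 : K ∩ P = A ∪ ((K ∩ P) \ A) := by
          rw [Finset.union_sdiff_of_subset]
          exact Finset.subset_inter hAK hA
        have e3 : ph K = ph T * ph (K ∩ P) := by
          conv_lhs => rw [e1]
          rw [ph_union, hKT]
          exact Finset.disjoint_of_subset_right Finset.inter_subset_right Finset.sdiff_disjoint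
        have e4 : ph (K ∩ P) = ph A * ph ((K ∩ P) \ A) := by
          conv_lhs => rw [e2]
          exact ph_union Finset.disjoint_sdiff
        rw [e3, e4, mul_assoc]
      · intro K hK K' hK' hEq
        simp only [Finset.coe_filter, Set.mem_ofPred_eq] at hK hK'
        simp only at hEq
        obtain ⟨_, hAK, hKT⟩ := hK
        obtain ⟨_, hAK', hKT'⟩ := hK'
        have e1 : K = (K \ P) ∪ (K ∩ P) := (Finset.sdiff_union_inter K P).symm
        have e1' : K' = (K' \ P) ∪ (K' ∩ P) := (Finset.sdiff_union_inter K' P).symm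
        have e2 : K ∩ P = A ∪ ((K ∩ P) \ A) := by
          rw [Finset.union_sdiff_of_subset]
          exact Finset.subset_inter hAK hA
        have e2' : K' ∩ P = A ∪ ((K' ∩ P) \ A) := by
          rw [Finset.union_sdiff_of_subset]
          exact Finset.subset_inter hAK' hA
        rw [e1, e1', hKT, hKT', e2, e2', hEq]
    rw [h2]
    refine Finset.sum_le_sum_of_subset_of_nonneg ?_ ?_
    · intro Q hQ
      simp only [Finset.mem_image, Finset.mem_filter, Finset.mem_powerset] at hQ ⊢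
      obtain ⟨K, _, rfl⟩ := hQ
      exact Finset.sdiff_subset_sdiff Finset.inter_subset_right le_rfl
    · intro Q hQ _
      have hQp : Prs Q := hP.mono ((Finset.mem_powerset.1 hQ).trans Finset.sdiff_subset)
      have := ph_pos hQp
      have := ph_pos hAp
      positivity
  have h3 : ∑ Q ∈ (P \ A).powerset, 1 / (ph T * ph A * ph Q) =
      1 / (ph T * ph A) * ∏ p ∈ P \ A, (1 + 1 / ((p : ℝ) - 1)) := by
    rw [Finset.prod_one_add, Finset.mul_sum]
    refine Finset.sum_congr rfl fun Q _ => ?_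
    rw [ph, ph, ph, Finset.prod_div_distrib, Finset.prod_const_one]
    rw [one_div_mul_one_div]
  have h4 : (nS A : ℝ) / ph A = ∏ p ∈ A, ((p : ℝ) / ((p : ℝ) - 1)) := by
    rw [nS, ph, Finset.prod_div_distrib]
    push_cast
    rfl
  have h5 : ∏ p ∈ P \ A, (1 + 1 / ((p : ℝ) - 1)) ≤ 2 ^ (P \ A).card := by
    rw [← Finset.prod_const]
    refine Finset.prod_le_prod (fun p hp => ?_) (fun p hp => ?_)
    · have h2 : (2 : ℝ) ≤ p := by exact_mod_cast (hP p (Finset.mem_sdiff.1 hp).1).two_le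
      have : 0 < (p : ℝ) - 1 := by linarith
      positivity
    · have h2 : (2 : ℝ) ≤ p := by exact_mod_cast (hP p (Finset.mem_sdiff.1 hp).1).two_le
      have h3 : 1 / ((p : ℝ) - 1) ≤ 1 := by
        rw [div_le_one (by linarith)]
        linarith
      linarith
  have h6 : ∏ p ∈ A, ((p : ℝ) / ((p : ℝ) - 1)) ≤ 2 ^ A.card := by
    rw [← Finset.prod_const]
    refine Finset.prod_le_prod (fun p hp => ?_) (fun p hp => ?_)
    · have h2 : (2 : ℝ) ≤ p := by exact_mod_cast (hAp p hp).two_le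
      have : 0 < (p : ℝ) - 1 := by linarith
      positivity
    · have h2 : (2 : ℝ) ≤ p := by exact_mod_cast (hAp p hp).two_le
      rw [div_le_iff₀ (by linarith)]
      linarith
  have h7 : 0 ≤ ∏ p ∈ P \ A, (1 + 1 / ((p : ℝ) - 1)) := by
    refine Finset.prod_nonneg fun p hp => ?_
    have h2 : (2 : ℝ) ≤ p := by exact_mod_cast (hP p (Finset.mem_sdiff.1 hp).1).two_le
    have : 0 < (p : ℝ) - 1 := by linarith
    positivity
  have hphA := ph_pos hAp
  have hcard : A.card + (P \ A).card = P.card := by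
    rw [add_comm, Finset.card_sdiff_add_card_eq_card hA]
  calc (nS A : ℝ) / Gs h R * |∑ K ∈ (Ds h R).filter (fun K => A ⊆ K ∧ K \ P = T), 1 / ph K|
      ≤ (nS A : ℝ) / Gs h R * (1 / (ph T * ph A) * ∏ p ∈ P \ A, (1 + 1 / ((p : ℝ) - 1))) := by
        refine mul_le_mul_of_nonneg_left ?_ (by positivity)
        rw [← h3]
        exact h1
    _ = 1 / (Gs h R * ph T) * ((nS A : ℝ) / ph A * ∏ p ∈ P \ A, (1 + 1 / ((p : ℝ) - 1))) := by
        field_simp
    _ ≤ 1 / (Gs h R * ph T) * (2 ^ A.card * 2 ^ (P \ A).card) := by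
        refine mul_le_mul_of_nonneg_left ?_ (by positivity)
        rw [h4]
        exact mul_le_mul h6 h5 h7 (by positivity)
    _ = 2 ^ P.card / (Gs h R * ph T) := by
        rw [← pow_add, hcard]
        ring

/-- the quadratic form in terms of the linear forms -/
theorem form_eq (h R : ℕ) {P A B : Finset ℕ} (hP : Prs P) (hA : A ⊆ P) (hB : B ⊆ P) :
    ∑ e ∈ (Dset h R).filter (fun e => ∀ p ∈ P, ¬ p ∣ e),
        ∑ f ∈ (Dset h R).filter (fun f => ∀ p ∈ P, ¬ p ∣ f),
          lam h R (nS A * e) * lam h R (nS B * f) / (Nat.lcm e f : ℝ) =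
      ∑ T ∈ (Ds h R).filter (fun T => Disjoint T P), ph T * y h R P A T * y h R P B T := by
  classical
  have hfil : (Ds h R).filter (fun S => ∀ p ∈ P, ¬ p ∣ nS S) =
      (Ds h R).filter (fun T => Disjoint T P) := by
    refine Finset.filter_congr fun S hS => ?_
    have hSp := prs_of_Ds hS
    rw [Finset.disjoint_right]
    exact ⟨fun h1 p hp hpS => h1 p hp ((dvd_iff hSp (hP p hp)).2 hpS),
      fun h1 p hp hpS => h1 hp ((dvd_iff hSp (hP p hp)).1 hpS)⟩
  rw [sum_conv_filter h R (fun e => ∀ p ∈ P, ¬ p ∣ e)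
    (fun e => ∑ f ∈ (Dset h R).filter (fun f => ∀ p ∈ P, ¬ p ∣ f),
          lam h R (nS A * e) * lam h R (nS B * f) / (Nat.lcm e f : ℝ)), hfil]
  have h1 : ∀ E ∈ (Ds h R).filter (fun T => Disjoint T P),
      ∑ f ∈ (Dset h R).filter (fun f => ∀ p ∈ P, ¬ p ∣ f),
          lam h R (nS A * nS E) * lam h R (nS B * f) / (Nat.lcm (nS E) f : ℝ) =
      ∑ F ∈ (Ds h R).filter (fun T => Disjoint T P),
        ∑ T ∈ (Ds h R).filter (fun T => Disjoint T P ∧ (T ⊆ E ∧ T ⊆ F)),
          ph T * (lam h R (nS (A ∪ E)) / (nS E : ℝ)) * (lam h R (nS (B ∪ F)) / (nS F : ℝ)) := by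
    intro E hE
    rw [sum_conv_filter h R (fun f => ∀ p ∈ P, ¬ p ∣ f)
      (fun f => lam h R (nS A * nS E) * lam h R (nS B * f) / (Nat.lcm (nS E) f : ℝ)), hfil]
    refine Finset.sum_congr rfl fun F hF => ?_
    simp only [Finset.mem_filter] at hE hF
    have hEp := prs_of_Ds hE.1
    have hFp := prs_of_Ds hF.1
    have hE0 : (nS E : ℝ) ≠ 0 := by exact_mod_cast (nS_pos hEp).ne'
    have hF0 : (nS F : ℝ) ≠ 0 := by exact_mod_cast (nS_pos hFp).ne'
    have hAE : nS A * nS E = nS (A ∪ E) :=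
      (nS_union (Finset.disjoint_of_subset_right hA hE.2).symm).symm
    have hBF : nS B * nS F = nS (B ∪ F) :=
      (nS_union (Finset.disjoint_of_subset_right hB hF.2).symm).symm
    rw [hAE, hBF, ← Finset.sum_mul, ← Finset.sum_mul]
    have hT : ∑ T ∈ (Ds h R).filter (fun T => Disjoint T P ∧ (T ⊆ E ∧ T ⊆ F)), ph T =
        (nS (E ∩ F) : ℝ) := by
      have h2 : (Ds h R).filter (fun T => Disjoint T P ∧ (T ⊆ E ∧ T ⊆ F)) =
          (E ∩ F).powerset := by
        ext T
        simp only [Finset.mem_filter, Finset.mem_powerset]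
        constructor
        · rintro ⟨_, _, h3, h4⟩
          exact Finset.subset_inter h3 h4
        · intro h3
          have h4 := h3.trans Finset.inter_subset_left
          have h5 := h3.trans Finset.inter_subset_right
          exact ⟨Ds_mono hE.1 h4, Finset.disjoint_of_subset_left h4 hE.2, h4, h5⟩
      rw [h2]
      have h3 : (nS (E ∩ F) : ℝ) = ∏ p ∈ E ∩ F, (1 + ((p : ℝ) - 1)) := by
        rw [nS]
        push_cast
        exact Finset.prod_congr rfl fun p _ => by ring
      rw [h3, Finset.prod_one_add]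
      rfl
    rw [hT]
    have hgcd : Nat.gcd (nS E) (nS F) = nS (E ∩ F) := by
      have h2 : Squarefree (Nat.gcd (nS E) (nS F)) := (sqf hEp).squarefree_of_dvd (Nat.gcd_dvd_left _ _)
      have h3 : (Nat.gcd (nS E) (nS F)).primeFactors = E ∩ F := by
        rw [Nat.primeFactors_gcd (nS_pos hEp).ne' (nS_pos hFp).ne', pf hEp, pf hFp]
      rw [← Nat.prod_primeFactors_of_squarefree h2, h3]
      rfl
    have hlcm : (nS (E ∩ F) : ℝ) * (Nat.lcm (nS E) (nS F) : ℝ) = (nS E : ℝ) * (nS F : ℝ) := by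
      rw [← hgcd]
      exact_mod_cast Nat.gcd_mul_lcm (nS E) (nS F)
    have hl0 : (Nat.lcm (nS E) (nS F) : ℝ) ≠ 0 := by
      exact_mod_cast Nat.lcm_ne_zero (nS_pos hEp).ne' (nS_pos hFp).ne'
    have hmain : (nS (E ∩ F) : ℝ) / ((nS E : ℝ) * (nS F : ℝ)) =
        1 / (Nat.lcm (nS E) (nS F) : ℝ) := by
      rw [div_eq_div_iff (mul_ne_zero hE0 hF0) hl0, hlcm, one_mul]
    calc lam h R (nS (A ∪ E)) * lam h R (nS (B ∪ F)) / (Nat.lcm (nS E) (nS F) : ℝ)
        = lam h R (nS (A ∪ E)) * lam h R (nS (B ∪ F)) * (1 / (Nat.lcm (nS E) (nS F) : ℝ)) := by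
          ring
      _ = lam h R (nS (A ∪ E)) * lam h R (nS (B ∪ F)) *
          ((nS (E ∩ F) : ℝ) / ((nS E : ℝ) * (nS F : ℝ))) := by rw [hmain]
      _ = _ := by
          field_simp
  rw [Finset.sum_congr rfl h1]
  -- exchange
  have h2 : ∀ T ∈ (Ds h R).filter (fun T => Disjoint T P),
      ph T * y h R P A T * y h R P B T =
      ∑ E ∈ (Ds h R).filter (fun E => Disjoint E P ∧ T ⊆ E),
        ∑ F ∈ (Ds h R).filter (fun F => Disjoint F P ∧ T ⊆ F),
          ph T * (lam h R (nS (A ∪ E)) / (nS E : ℝ)) * (lam h R (nS (B ∪ F)) / (nS F : ℝ)) := by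
    intro T _
    rw [y, y, mul_assoc, Finset.sum_mul_sum, Finset.mul_sum]
    refine Finset.sum_congr rfl fun E _ => ?_
    rw [Finset.mul_sum]
    refine Finset.sum_congr rfl fun F _ => ?_
    ring
  rw [Finset.sum_congr rfl h2]
  rw [Finset.sum_comm' (s := (Ds h R).filter (fun T => Disjoint T P))
    (t := fun T => (Ds h R).filter (fun E => Disjoint E P ∧ T ⊆ E))
    (t' := (Ds h R).filter (fun T => Disjoint T P))
    (s' := fun E => (Ds h R).filter (fun T => Disjoint T P ∧ T ⊆ E))]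
  · refine Finset.sum_congr rfl fun E _ => ?_
    rw [Finset.sum_comm' (s := (Ds h R).filter (fun T => Disjoint T P ∧ T ⊆ E))
      (t := fun T => (Ds h R).filter (fun F => Disjoint F P ∧ T ⊆ F))
      (t' := (Ds h R).filter (fun T => Disjoint T P))
      (s' := fun F => (Ds h R).filter (fun T => Disjoint T P ∧ (T ⊆ E ∧ T ⊆ F)))]
    intro T F
    simp only [Finset.mem_filter]
    tauto
  · intro T E
    simp only [Finset.mem_filter]
    tauto

end C2

theorem claimC2 : ClaimC2 := by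
  classical
  intro h R hh hR P hP a b ha hb
  have hG : 0 < Gs h R := lt_of_lt_of_le one_pos (C2.one_le_Gs h R hR)
  have hsq : Squarefree (∏ p ∈ P, p) := C2.sqf (S := P) hP
  have key : ∀ c : ℕ, c ∣ ∏ p ∈ P, p → ∃ A ⊆ P, c = C2.nS A := by
    intro c hc
    refine ⟨c.primeFactors, ?_, (Nat.prod_primeFactors_of_squarefree
      (hsq.squarefree_of_dvd hc)).symm⟩
    have h1 := Nat.primeFactors_mono hc hsq.ne_zero
    have h2 : (∏ p ∈ P, p).primeFactors = P := C2.pf (S := P) hP
    rwa [h2] at h1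
  obtain ⟨A, hA, rfl⟩ := key a ha
  obtain ⟨B, hB, rfl⟩ := key b hb
  rw [C2.form_eq h R hP hA hB]
  calc |∑ T ∈ (C2.Ds h R).filter (fun T => Disjoint T P),
          C2.ph T * C2.y h R P A T * C2.y h R P B T|
      ≤ ∑ T ∈ (C2.Ds h R).filter (fun T => Disjoint T P),
          |C2.ph T * C2.y h R P A T * C2.y h R P B T| := Finset.abs_sum_le_sum_abs _ _
    _ ≤ ∑ T ∈ (C2.Ds h R).filter (fun T => Disjoint T P),
          4 ^ P.card / Gs h R ^ 2 * (1 / C2.ph T) := by
        refine Finset.sum_le_sum fun T hT => ?_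
        simp only [Finset.mem_filter] at hT
        have hTp := C2.prs_of_Ds hT.1
        have hph := C2.ph_pos hTp
        rw [abs_mul, abs_mul, abs_of_pos hph]
        have h1 := C2.y_le h R hR hP hA hTp
        have h2 := C2.y_le h R hR hP hB hTp
        have h3 : |C2.y h R P A T| * |C2.y h R P B T| ≤
            (2 ^ P.card / (Gs h R * C2.ph T)) * (2 ^ P.card / (Gs h R * C2.ph T)) :=
          mul_le_mul h1 h2 (abs_nonneg _) (by positivity)
        have h4 : (4 : ℝ) ^ P.card = 2 ^ P.card * 2 ^ P.card := by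
          rw [← mul_pow]; norm_num
        calc C2.ph T * |C2.y h R P A T| * |C2.y h R P B T|
            = C2.ph T * (|C2.y h R P A T| * |C2.y h R P B T|) := by ring
          _ ≤ C2.ph T * ((2 ^ P.card / (Gs h R * C2.ph T)) *
              (2 ^ P.card / (Gs h R * C2.ph T))) := mul_le_mul_of_nonneg_left h3 hph.le
          _ = 4 ^ P.card / Gs h R ^ 2 * (1 / C2.ph T) := by
              rw [h4]
              field_simp
    _ = 4 ^ P.card / Gs h R ^ 2 * ∑ T ∈ (C2.Ds h R).filter (fun T => Disjoint T P),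
          1 / C2.ph T := by rw [Finset.mul_sum]
    _ ≤ 4 ^ P.card / Gs h R ^ 2 * Gs h R := by
        refine mul_le_mul_of_nonneg_left ?_ (by positivity)
        rw [C2.Gs_eq]
        refine Finset.sum_le_sum_of_subset_of_nonneg (Finset.filter_subset _ _) ?_
        intro T hT _
        have hph := C2.ph_pos (C2.prs_of_Ds hT)
        positivity
    _ = 4 ^ P.card / Gs h R := by
        field_simp

theorem claimC2' : ClaimC2' := by
  classical
  intro h R hh hR
  have hG : 0 < Gs h R := lt_of_lt_of_le one_pos (C2.one_le_Gs h R hR)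
  have h0 := C2.form_eq h R (P := ∅) (A := ∅) (B := ∅) (by intro p hp; simp at hp)
    (Finset.Subset.refl _) (Finset.Subset.refl _)
  simp only [C2.nS, Finset.prod_empty, one_mul, Finset.notMem_empty, false_imp_iff, implies_true,
    Finset.filter_true, Finset.disjoint_empty_right] at h0
  rw [h0]
  have h1 : ∀ T ∈ C2.Ds h R, C2.ph T * C2.y h R ∅ ∅ T * C2.y h R ∅ ∅ T =
      1 / Gs h R ^ 2 * (1 / C2.ph T) := by
    intro T hT
    have hph := C2.ph_pos (C2.prs_of_Ds hT)
    have h2 : C2.y h R ∅ ∅ T = (-1) ^ T.card / (Gs h R * C2.ph T) := by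
      rw [C2.y_eq h R (by intro p hp; simp at hp) (Finset.Subset.refl _)]
      have h3 : (C2.Ds h R).filter (fun K => (∅ : Finset ℕ) ⊆ K ∧ K \ ∅ = T) = {T} := by
        ext K
        simp only [Finset.mem_filter, Finset.empty_subset, true_and, Finset.sdiff_empty,
          Finset.mem_singleton]
        constructor
        · exact fun h4 => h4.2
        · intro h4
          exact ⟨h4 ▸ hT, h4⟩
      rw [h3, Finset.sum_singleton]
      simp only [Finset.card_empty, pow_zero, C2.nS, Finset.prod_empty, Nat.cast_one]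
      field_simp
    have h5 : ((-1 : ℝ) ^ T.card) * ((-1 : ℝ) ^ T.card) = 1 := by
      rw [← mul_pow]; norm_num
    rw [h2]
    field_simp
    nlinarith [h5]
  rw [Finset.sum_congr rfl h1, ← Finset.mul_sum, ← C2.Gs_eq]
  field_simp

end D159

end

section

/-!
# MP_d159ed_nt, C3: expansion of the model sum around the independent model
-/

set_option autoImplicit false

namespace D159

open Finset
open scoped BigOperators

namespace C3

/-- product over Q of 1/p for the primes dividing d or d' -/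
noncomputable def w (Q : Finset ℕ) (d d' : ℕ) : ℝ :=
  ∏ p ∈ Q, if p ∣ d ∨ p ∣ d' then (1 / (p : ℝ)) else 1

theorem w_prod (Q : Finset ℕ) (s : ℕ) (d d' : Fin s → ℕ) :
    ∏ p ∈ Q, (1 / (p : ℝ)) ^ ((univ : Finset (Fin s)).filter (fun j => p ∣ d j ∨ p ∣ d' j)).card =
      ∏ j, w Q (d j) (d' j) := by
  unfold w
  rw [Finset.prod_comm]
  refine Finset.prod_congr rfl fun p _ => ?_
  rw [Finset.prod_ite, Finset.prod_const, Finset.prod_const_one, mul_one]

theorem mem_Dset {h R d : ℕ} : d ∈ Dset h R ↔ (1 ≤ d ∧ d ≤ R) ∧ Squarefree d ∧ Nat.Coprime d h := by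
  simp [Dset, Finset.mem_filter, Finset.mem_Icc]

theorem mem_Pr {h R p : ℕ} : p ∈ Pr h R ↔ (1 ≤ p ∧ p ≤ R) ∧ p.Prime ∧ Nat.Coprime p h := by
  simp [Pr, Finset.mem_filter, Finset.mem_Icc]

/-- a prime divisor of an element of D is in Pr -/
theorem mem_Pr_of_dvd {h R d p : ℕ} (hd : d ∈ Dset h R) (hp : p.Prime) (hpd : p ∣ d) :
    p ∈ Pr h R := by
  rw [mem_Dset] at hd
  rw [mem_Pr]
  refine ⟨⟨hp.one_le, le_trans (Nat.le_of_dvd (by omega) hpd) hd.1.2⟩, hp, ?_⟩
  exact Nat.Coprime.coprime_dvd_left hpd hd.2.2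

theorem w_lcm (Q : Finset ℕ) (hQ : ∀ p ∈ Q, p.Prime) (e f : ℕ) (he : Squarefree e)
    (hf : Squarefree f) (hQe : ∀ p, p.Prime → p ∣ e → p ∈ Q) (hQf : ∀ p, p.Prime → p ∣ f → p ∈ Q) :
    w Q e f = 1 / (Nat.lcm e f : ℝ) := by
  have he0 : e ≠ 0 := he.ne_zero
  have hf0 : f ≠ 0 := hf.ne_zero
  have hl0 : Nat.lcm e f ≠ 0 := Nat.lcm_ne_zero he0 hf0
  have hsq : Squarefree (Nat.lcm e f) := by
    rw [Nat.squarefree_iff_factorization_le_one hl0]
    intro p
    rw [Nat.factorization_lcm he0 hf0]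
    simp only [Finsupp.sup_apply]
    exact sup_le ((Nat.squarefree_iff_factorization_le_one he0).1 he p)
      ((Nat.squarefree_iff_factorization_le_one hf0).1 hf p)
  have h1 : (Nat.lcm e f : ℝ) = ∏ p ∈ Q.filter (fun p => p ∣ e ∨ p ∣ f), (p : ℝ) := by
    conv_lhs => rw [← Nat.prod_primeFactors_of_squarefree hsq]
    push_cast
    refine Finset.prod_congr ?_ fun _ _ => rfl
    ext p
    simp only [Nat.mem_primeFactors, Finset.mem_filter]
    constructor
    · rintro ⟨hp, hpl, _⟩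
      have : p ∣ e ∨ p ∣ f := by
        have h2 : p ∣ e * f := dvd_trans hpl (Nat.lcm_dvd_mul e f)
        exact (Nat.Prime.dvd_mul hp).1 h2
      refine ⟨?_, this⟩
      rcases this with h3 | h3
      · exact hQe p hp h3
      · exact hQf p hp h3
    · rintro ⟨hp, h3⟩
      refine ⟨hQ p hp, ?_, hl0⟩
      rcases h3 with h3 | h3
      · exact dvd_trans h3 (Nat.dvd_lcm_left e f)
      · exact dvd_trans h3 (Nat.dvd_lcm_right e f)
  rw [h1, w, ← Finset.prod_filter, one_div, ← Finset.prod_inv_distrib]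
  exact Finset.prod_congr rfl fun p _ => by rw [one_div]

/-- Lemma S: extraction of the part of d supported on P. -/
theorem sum_part (h R : ℕ) (P A : Finset ℕ) (hP : ∀ p ∈ P, p.Prime) (hA : A ⊆ P) (Φ : ℕ → ℝ) :
    ∑ d ∈ (Dset h R).filter (fun d => ∀ p ∈ P, (p ∣ d ↔ p ∈ A)), lam h R d * Φ d =
      ∑ e ∈ (Dset h R).filter (fun e => ∀ p ∈ P, ¬ p ∣ e),
        lam h R ((∏ p ∈ A, p) * e) * Φ ((∏ p ∈ A, p) * e) := by
  classical
  set a := ∏ p ∈ A, p with ha
  have hAp : ∀ p ∈ A, p.Prime := fun p hp => hP p (hA hp)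
  have ha0 : a ≠ 0 := Finset.prod_ne_zero_iff.2 fun p hp => (hAp p hp).ne_zero
  have hdiva : ∀ p, p.Prime → (p ∣ a ↔ p ∈ A) := by
    intro p hp
    rw [ha, Prime.dvd_finsetProd_iff hp.prime]
    constructor
    · rintro ⟨q, hq, hpq⟩
      rwa [(Nat.prime_dvd_prime_iff_eq hp (hAp q hq)).1 hpq]
    · intro hpA
      exact ⟨p, hpA, dvd_rfl⟩
  -- restrict the right side to the terms with a * e in D
  have hR : ∑ e ∈ (Dset h R).filter (fun e => ∀ p ∈ P, ¬ p ∣ e),
        lam h R (a * e) * Φ (a * e) =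
      ∑ e ∈ ((Dset h R).filter (fun e => ∀ p ∈ P, ¬ p ∣ e)).filter (fun e => a * e ∈ Dset h R),
        lam h R (a * e) * Φ (a * e) := by
    symm
    refine Finset.sum_filter_of_ne ?_
    intro e _ hne
    by_contra hcon
    apply hne
    rw [lam, if_neg hcon, zero_mul]
  rw [hR]
  refine Finset.sum_nbij' (fun d => d / a) (fun e => a * e) ?_ ?_ ?_ ?_ ?_
  · intro d hd
    simp only [Finset.mem_filter] at hd ⊢
    obtain ⟨hdD, hdA⟩ := hd
    have hdD' := mem_Dset.1 hdD
    have had : a ∣ d := by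
      rw [ha]
      refine Finset.prod_primes_dvd d (fun p hp => (hAp p hp).prime) fun p hp => ?_
      exact (hdA p (hA hp)).2 hp
    obtain ⟨e, he⟩ := had
    have hde : d / a = e := by rw [he, Nat.mul_div_cancel_left _ (Nat.pos_of_ne_zero ha0)]
    rw [hde]
    have hsq : Squarefree (a * e) := he ▸ hdD'.2.1
    have hcop : Nat.Coprime a e := Nat.coprime_of_squarefree_mul hsq
    have he1 : e ∣ d := ⟨a, by rw [he, mul_comm]⟩
    refine ⟨⟨mem_Dset.2 ⟨⟨?_, ?_⟩, ?_, ?_⟩, ?_⟩, he ▸ hdD⟩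
    · rcases Nat.eq_zero_or_pos e with h0 | h0
      · subst h0; simp at he; omega
      · exact h0
    · exact le_trans (Nat.le_of_dvd (by omega) he1) hdD'.1.2
    · exact hsq.squarefree_of_dvd ⟨a, mul_comm _ _⟩
    · exact Nat.Coprime.coprime_dvd_left he1 hdD'.2.2
    · intro p hp hpe
      have hpd : p ∣ d := dvd_trans hpe he1
      have hpA : p ∈ A := (hdA p hp).1 hpd
      have hpa : p ∣ a := (hdiva p (hP p hp)).2 hpA
      exact (hP p hp).one_lt.ne' (Nat.eq_one_of_dvd_coprimes hcop hpa hpe)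
  · intro e he
    simp only [Finset.mem_filter] at he ⊢
    refine ⟨he.2, fun p hp => ?_⟩
    rw [Nat.Prime.dvd_mul (hP p hp), hdiva p (hP p hp)]
    have := he.1.2 p hp
    tauto
  · intro d hd
    simp only [Finset.mem_filter] at hd
    obtain ⟨hdD, hdA⟩ := hd
    have had : a ∣ d := by
      rw [ha]
      refine Finset.prod_primes_dvd d (fun p hp => (hAp p hp).prime) fun p hp => ?_
      exact (hdA p (hA hp)).2 hp
    exact Nat.mul_div_cancel' had
  · intro e _
    exact Nat.mul_div_cancel_left _ (Nat.pos_of_ne_zero ha0)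
  · intro d hd
    simp only [Finset.mem_filter] at hd
    obtain ⟨hdD, hdA⟩ := hd
    have had : a ∣ d := by
      rw [ha]
      refine Finset.prod_primes_dvd d (fun p hp => (hAp p hp).prime) fun p hp => ?_
      exact (hdA p (hA hp)).2 hp
    rw [Nat.mul_div_cancel' had]

/-- the bracket for one index j -/
theorem bracket_eq (h R : ℕ) (P A A' : Finset ℕ) (hP : P ⊆ Pr h R) (hA : A ⊆ P) (hA' : A' ⊆ P) :
    ∑ d ∈ (Dset h R).filter (fun d => ∀ p ∈ P, (p ∣ d ↔ p ∈ A)),
      ∑ d' ∈ (Dset h R).filter (fun d => ∀ p ∈ P, (p ∣ d ↔ p ∈ A')),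
        lam h R d * lam h R d' * w (Pr h R \ P) d d' =
    ∑ e ∈ (Dset h R).filter (fun e => ∀ p ∈ P, ¬ p ∣ e),
      ∑ f ∈ (Dset h R).filter (fun f => ∀ p ∈ P, ¬ p ∣ f),
        lam h R ((∏ p ∈ A, p) * e) * lam h R ((∏ p ∈ A', p) * f) / (Nat.lcm e f : ℝ) := by
  classical
  have hPp : ∀ p ∈ P, p.Prime := fun p hp => (mem_Pr.1 (hP hp)).2.1
  have key : ∀ B ⊆ P, ∀ q ∈ Pr h R \ P, ∀ e : ℕ, (q ∣ (∏ p ∈ B, p) * e ↔ q ∣ e) := by
    intro B hB q hq e
    have hqp : q.Prime := (mem_Pr.1 (Finset.mem_sdiff.1 hq).1).2.1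
    rw [Nat.Prime.dvd_mul hqp]
    constructor
    · rintro (h1 | h1)
      · exfalso
        rw [Prime.dvd_finsetProd_iff hqp.prime] at h1
        obtain ⟨r, hr, hqr⟩ := h1
        have := (Nat.prime_dvd_prime_iff_eq hqp (hPp r (hB hr))).1 hqr
        exact (Finset.mem_sdiff.1 hq).2 (this ▸ hB hr)
      · exact h1
    · exact Or.inr
  have step1 : ∀ d : ℕ, ∑ d' ∈ (Dset h R).filter (fun d => ∀ p ∈ P, (p ∣ d ↔ p ∈ A')),
        lam h R d * lam h R d' * w (Pr h R \ P) d d' =
      lam h R d * ∑ f ∈ (Dset h R).filter (fun f => ∀ p ∈ P, ¬ p ∣ f),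
        lam h R ((∏ p ∈ A', p) * f) * w (Pr h R \ P) d ((∏ p ∈ A', p) * f) := by
    intro d
    rw [← sum_part h R P A' hPp hA' (fun d' => w (Pr h R \ P) d d'), Finset.mul_sum]
    exact Finset.sum_congr rfl fun d' _ => by ring
  rw [Finset.sum_congr rfl fun d _ => step1 d]
  rw [sum_part h R P A hPp hA (fun d => ∑ f ∈ (Dset h R).filter (fun f => ∀ p ∈ P, ¬ p ∣ f),
        lam h R ((∏ p ∈ A', p) * f) * w (Pr h R \ P) d ((∏ p ∈ A', p) * f))]
  refine Finset.sum_congr rfl fun e he => ?_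
  rw [Finset.mul_sum]
  refine Finset.sum_congr rfl fun f hf => ?_
  have hw : w (Pr h R \ P) ((∏ p ∈ A, p) * e) ((∏ p ∈ A', p) * f) = 1 / (Nat.lcm e f : ℝ) := by
    have h1 : w (Pr h R \ P) ((∏ p ∈ A, p) * e) ((∏ p ∈ A', p) * f) = w (Pr h R \ P) e f := by
      unfold w
      refine Finset.prod_congr rfl fun q hq => ?_
      simp only [key A hA q hq e, key A' hA' q hq f]
    rw [h1]
    simp only [Finset.mem_filter] at he hf
    refine w_lcm _ ?_ e f (mem_Dset.1 he.1).2.1 (mem_Dset.1 hf.1).2.1 ?_ ?_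
    · intro p hp
      exact (mem_Pr.1 (Finset.mem_sdiff.1 hp).1).2.1
    · intro p hp hpe
      refine Finset.mem_sdiff.2 ⟨mem_Pr_of_dvd he.1 hp hpe, fun hpP => he.2 p hpP hpe⟩
    · intro p hp hpf
      refine Finset.mem_sdiff.2 ⟨mem_Pr_of_dvd hf.1 hp hpf, fun hpP => hf.2 p hpP hpf⟩
  rw [hw]
  ring

theorem bracket_le (c2 : ClaimC2) (h R : ℕ) (hh : 1 ≤ h) (hR : 1 ≤ R) (P A A' : Finset ℕ)
    (hP : P ⊆ Pr h R) (hA : A ⊆ P) (hA' : A' ⊆ P) :
    |∑ d ∈ (Dset h R).filter (fun d => ∀ p ∈ P, (p ∣ d ↔ p ∈ A)),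
      ∑ d' ∈ (Dset h R).filter (fun d => ∀ p ∈ P, (p ∣ d ↔ p ∈ A')),
        lam h R d * lam h R d' * w (Pr h R \ P) d d'| ≤ 4 ^ P.card / Gs h R := by
  rw [bracket_eq h R P A A' hP hA hA']
  exact c2 h R hh hR P (fun p hp => (mem_Pr.1 (hP hp)).2.1) _ _
    (Finset.prod_dvd_prod_of_subset _ _ _ hA) (Finset.prod_dvd_prod_of_subset _ _ _ hA')

/-- number of pairs with given union -/
theorem sum_union {s : ℕ} (φ : Finset (Fin s) → ℝ) :
    ∑ x : Finset (Fin s) × Finset (Fin s), φ (x.1 ∪ x.2) =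
      ∑ J : Finset (Fin s), 3 ^ J.card * φ J := by
  classical
  rw [← Finset.sum_fiberwise (s := (univ : Finset (Finset (Fin s) × Finset (Fin s))))
    (g := fun x => x.1 ∪ x.2)]
  refine Finset.sum_congr rfl fun J _ => ?_
  have h1 : ∑ x ∈ (univ : Finset (Finset (Fin s) × Finset (Fin s))).filter
      (fun x => x.1 ∪ x.2 = J), φ (x.1 ∪ x.2) =
      ∑ x ∈ (univ : Finset (Finset (Fin s) × Finset (Fin s))).filter
      (fun x => x.1 ∪ x.2 = J), φ J :=
    Finset.sum_congr rfl fun x hx => by rw [(Finset.mem_filter.1 hx).2]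
  rw [h1, Finset.sum_const, nsmul_eq_mul]
  congr 1
  -- the cardinality
  have h2 : (univ : Finset (Finset (Fin s) × Finset (Fin s))).filter (fun x => x.1 ∪ x.2 = J) =
      J.powerset.biUnion (fun α => (α.powerset).image (fun β => (α, (J \ α) ∪ β))) := by
    ext ⟨x, y⟩
    simp only [Finset.mem_filter, Finset.mem_univ, true_and, Finset.mem_biUnion,
      Finset.mem_powerset, Finset.mem_image, Prod.mk.injEq]
    constructor
    · intro hxy
      refine ⟨x, ?_, x ∩ y, Finset.inter_subset_left, rfl, ?_⟩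
      · rw [← hxy]; exact Finset.subset_union_left
      · rw [← hxy]
        ext j
        simp only [Finset.mem_union, Finset.mem_sdiff, Finset.mem_inter]
        tauto
    · rintro ⟨α, hα, β, hβ, rfl, rfl⟩
      ext j
      simp only [Finset.mem_union, Finset.mem_sdiff]
      constructor
      · rintro (h3 | h3 | h3)
        · exact hα h3
        · exact h3.1
        · exact hα (hβ h3)
      · intro h3
        tauto
  rw [h2, Finset.card_biUnion]
  · have h3 : ∀ α ∈ J.powerset,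
        ((α.powerset).image (fun β => (α, (J \ α) ∪ β))).card = 2 ^ α.card := by
      intro α hα
      rw [Finset.card_image_of_injOn, Finset.card_powerset]
      intro β hβ β' hβ' hEq
      simp only [Finset.coe_powerset, Set.mem_preimage, Set.mem_powerset_iff,
        Finset.coe_subset] at hβ hβ'
      simp only [Prod.mk.injEq, true_and] at hEq
      ext j
      constructor
      · intro hj
        have : j ∈ (J \ α) ∪ β' := hEq ▸ Finset.mem_union_right _ hj
        rcases Finset.mem_union.1 this with h4 | h4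
        · exact absurd (hβ hj) (Finset.mem_sdiff.1 h4).2
        · exact h4
      · intro hj
        have : j ∈ (J \ α) ∪ β := hEq ▸ Finset.mem_union_right _ hj
        rcases Finset.mem_union.1 this with h4 | h4
        · exact absurd (hβ' hj) (Finset.mem_sdiff.1 h4).2
        · exact h4
    rw [Finset.sum_congr rfl h3]
    have h4 := Finset.sum_pow_mul_eq_add_pow (2 : ℕ) 1 J
    simp only [one_pow, mul_one] at h4
    rw [h4]
    norm_num
  · intro α _ β _ hne
    rw [Function.onFun, Finset.disjoint_left]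
    rintro ⟨x, y⟩ hx hy
    simp only [Finset.mem_image, Prod.mk.injEq] at hx hy
    obtain ⟨_, _, h5, _⟩ := hx
    obtain ⟨_, _, h6, _⟩ := hy
    exact hne (h5.trans h6.symm)

theorem sum_pi_prod {s : ℕ} (D1 D2 : Fin s → Finset ℕ) (g : ℕ → ℕ → ℝ) :
    ∑ z ∈ Fintype.piFinset D1 ×ˢ Fintype.piFinset D2, ∏ j, g (z.1 j) (z.2 j) =
      ∏ j, ∑ d ∈ D1 j, ∑ d' ∈ D2 j, g d d' := by
  rw [Finset.prod_univ_sum, Finset.sum_product]
  refine Finset.sum_congr rfl fun x _ => ?_
  rw [Finset.prod_univ_sum]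

/-- the term of the expansion attached to P -/
noncomputable def term (h R s : ℕ) (δ : ℕ → Finset (Fin s) → ℝ) (P : Finset ℕ) : ℝ :=
  ∑ z ∈ Fintype.piFinset (fun _ : Fin s => Dset h R) ×ˢ
      Fintype.piFinset (fun _ : Fin s => Dset h R),
    (∏ j, lam h R (z.1 j) * lam h R (z.2 j)) *
      ((∏ p ∈ P, δ p (univ.filter (fun j => p ∣ z.1 j ∨ p ∣ z.2 j))) *
        ∏ p ∈ Pr h R \ P, (1 / (p : ℝ)) ^ (univ.filter (fun j => p ∣ z.1 j ∨ p ∣ z.2 j)).card)

theorem Smod_eq (h R s : ℕ) (τ : ℕ → Finset (Fin s) → ℝ) :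
    Smod h R s τ = ∑ P ∈ (Pr h R).powerset,
      term h R s (fun p J => τ p J - (1 / (p : ℝ)) ^ J.card) P := by
  unfold Smod term
  conv_rhs => rw [Finset.sum_comm]
  rw [← Finset.sum_product' (Fintype.piFinset (fun _ : Fin s => Dset h R))
    (Fintype.piFinset (fun _ : Fin s => Dset h R)) (fun d d' =>
      (∏ j, lam h R (d j) * lam h R (d' j)) *
        ∏ p ∈ Pr h R, τ p (univ.filter (fun j => p ∣ d j ∨ p ∣ d' j)))]
  refine Finset.sum_congr rfl fun z _ => ?_
  rw [← Finset.mul_sum]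
  congr 1
  rw [← Finset.prod_add]
  exact Finset.prod_congr rfl fun p _ => by ring

/-- the set of primes of P prescribed at the index j by the code -/
def Aset {s : ℕ} (P : Finset ℕ) (c : {p // p ∈ P} → Finset (Fin s)) (j : Fin s) : Finset ℕ :=
  (P.attach.filter (fun p => j ∈ c p)).image Subtype.val

theorem mem_Aset {s : ℕ} {P : Finset ℕ} {c : {p // p ∈ P} → Finset (Fin s)} {j : Fin s} {p : ℕ} :
    p ∈ Aset P c j ↔ ∃ hp : p ∈ P, j ∈ c ⟨p, hp⟩ := by
  unfold Aset
  simp only [Finset.mem_image, Finset.mem_filter, Finset.mem_attach, true_and, Subtype.exists,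
    exists_and_right, exists_eq_right]

theorem Aset_subset {s : ℕ} (P : Finset ℕ) (c : {p // p ∈ P} → Finset (Fin s)) (j : Fin s) :
    Aset P c j ⊆ P := fun _ hp => (mem_Aset.1 hp).1

theorem term_le (c2 : ClaimC2) (h R s : ℕ) (hh : 1 ≤ h) (hR : 1 ≤ R) (hG : 0 < Gs h R)
    (δ : ℕ → Finset (Fin s) → ℝ) (P : Finset ℕ) (hP : P ⊆ Pr h R) :
    |term h R s δ P| ≤ (4 ^ P.card / Gs h R) ^ s *
      ∏ p ∈ P, ∑ x : Finset (Fin s) × Finset (Fin s), |δ p (x.1 ∪ x.2)| := by
  classical
  set D := Dset h R with hD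
  -- the code of a pair
  let code : (Fin s → ℕ) × (Fin s → ℕ) → ({p // p ∈ P} → Finset (Fin s) × Finset (Fin s)) :=
    fun z p => (univ.filter (fun j => (p : ℕ) ∣ z.1 j), univ.filter (fun j => (p : ℕ) ∣ z.2 j))
  have hfib : ∀ c : {p // p ∈ P} → Finset (Fin s) × Finset (Fin s),
      (Fintype.piFinset (fun _ : Fin s => D) ×ˢ Fintype.piFinset (fun _ : Fin s => D)).filter
        (fun z => code z = c) =
      Fintype.piFinset (fun j => D.filter (fun d => ∀ p ∈ P,
        (p ∣ d ↔ p ∈ Aset P (fun p => (c p).1) j))) ×ˢ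
      Fintype.piFinset (fun j => D.filter (fun d => ∀ p ∈ P,
        (p ∣ d ↔ p ∈ Aset P (fun p => (c p).2) j))) := by
    intro c
    ext ⟨x, y⟩
    simp only [Finset.mem_filter, Finset.mem_product, Fintype.mem_piFinset]
    constructor
    · rintro ⟨⟨hx, hy⟩, hc⟩
      refine ⟨fun j => ⟨hx j, fun p hp => ?_⟩, fun j => ⟨hy j, fun p hp => ?_⟩⟩
      · rw [mem_Aset, ← hc]
        simp only [code, Finset.mem_filter, Finset.mem_univ, true_and]
        exact ⟨fun h1 => ⟨hp, h1⟩, fun h1 => h1.2⟩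
      · rw [mem_Aset, ← hc]
        simp only [code, Finset.mem_filter, Finset.mem_univ, true_and]
        exact ⟨fun h1 => ⟨hp, h1⟩, fun h1 => h1.2⟩
    · rintro ⟨hx, hy⟩
      refine ⟨⟨fun j => (hx j).1, fun j => (hy j).1⟩, ?_⟩
      funext p
      refine Prod.ext ?_ ?_
      · ext j
        simp only [code, Finset.mem_filter, Finset.mem_univ, true_and]
        rw [(hx j).2 p p.2, mem_Aset]
        exact ⟨fun h1 => h1.2, fun h1 => ⟨p.2, h1⟩⟩
      · ext j
        simp only [code, Finset.mem_filter, Finset.mem_univ, true_and]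
        rw [(hy j).2 p p.2, mem_Aset]
        exact ⟨fun h1 => h1.2, fun h1 => ⟨p.2, h1⟩⟩
  have hterm : term h R s δ P =
      ∑ c : {p // p ∈ P} → Finset (Fin s) × Finset (Fin s),
        (∏ p : {p // p ∈ P}, δ p ((c p).1 ∪ (c p).2)) *
        ∏ j : Fin s, ∑ d ∈ D.filter (fun d => ∀ p ∈ P,
            (p ∣ d ↔ p ∈ Aset P (fun p => (c p).1) j)),
          ∑ d' ∈ D.filter (fun d => ∀ p ∈ P,
            (p ∣ d ↔ p ∈ Aset P (fun p => (c p).2) j)),
            lam h R d * lam h R d' * w (Pr h R \ P) d d' := by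
    unfold term
    rw [← Finset.sum_fiberwise (g := code)]
    refine Finset.sum_congr rfl fun c _ => ?_
    rw [← sum_pi_prod (fun j => D.filter (fun d => ∀ p ∈ P,
            (p ∣ d ↔ p ∈ Aset P (fun p => (c p).1) j)))
          (fun j => D.filter (fun d => ∀ p ∈ P,
            (p ∣ d ↔ p ∈ Aset P (fun p => (c p).2) j)))
          (fun d d' => lam h R d * lam h R d' * w (Pr h R \ P) d d'),
      ← hfib c, Finset.mul_sum]
    refine Finset.sum_congr rfl fun z hz => ?_
    have hc : code z = c := (Finset.mem_filter.1 hz).2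
    have h0 : ∏ j, lam h R (z.1 j) * lam h R (z.2 j) * w (Pr h R \ P) (z.1 j) (z.2 j) =
        (∏ j, lam h R (z.1 j) * lam h R (z.2 j)) * ∏ j, w (Pr h R \ P) (z.1 j) (z.2 j) :=
      Finset.prod_mul_distrib
    rw [w_prod, h0]
    have h1 : ∏ p ∈ P, δ p (univ.filter (fun j => p ∣ z.1 j ∨ p ∣ z.2 j)) =
        ∏ p : {p // p ∈ P}, δ p ((c p).1 ∪ (c p).2) := by
      rw [← Finset.prod_coe_sort P]
      refine Finset.prod_congr rfl fun p _ => ?_
      rw [← hc, Finset.filter_or]
    rw [h1]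
    ring
  rw [hterm]
  have hprod : ∏ p ∈ P, ∑ x : Finset (Fin s) × Finset (Fin s), |δ p (x.1 ∪ x.2)| =
      ∑ c : {p // p ∈ P} → Finset (Fin s) × Finset (Fin s),
        ∏ p : {p // p ∈ P}, |δ p ((c p).1 ∪ (c p).2)| := by
    rw [← Finset.prod_coe_sort P, Finset.prod_univ_sum]
    simp only [Fintype.piFinset_univ]
  rw [hprod, Finset.mul_sum]
  refine (Finset.abs_sum_le_sum_abs _ _).trans (Finset.sum_le_sum fun c _ => ?_)
  rw [abs_mul, Finset.abs_prod, Finset.abs_prod, mul_comm]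
  refine mul_le_mul_of_nonneg_right ?_ (Finset.prod_nonneg fun _ _ => abs_nonneg _)
  calc ∏ j : Fin s, |∑ d ∈ D.filter (fun d => ∀ p ∈ P,
            (p ∣ d ↔ p ∈ Aset P (fun p => (c p).1) j)),
          ∑ d' ∈ D.filter (fun d => ∀ p ∈ P,
            (p ∣ d ↔ p ∈ Aset P (fun p => (c p).2) j)),
            lam h R d * lam h R d' * w (Pr h R \ P) d d'|
      ≤ ∏ _j : Fin s, (4 ^ P.card / Gs h R) :=
        Finset.prod_le_prod (fun _ _ => abs_nonneg _) fun j _ =>
          bracket_le c2 h R hh hR P _ _ hP (Aset_subset _ _ _) (Aset_subset _ _ _)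
    _ = (4 ^ P.card / Gs h R) ^ s := by
        rw [Finset.prod_const, Finset.card_univ, Fintype.card_fin]

theorem term_empty (c2' : ClaimC2') (h R s : ℕ) (hh : 1 ≤ h) (hR : 1 ≤ R)
    (δ : ℕ → Finset (Fin s) → ℝ) :
    term h R s δ ∅ = (1 / Gs h R) ^ s := by
  unfold term
  simp only [Finset.prod_empty, one_mul, Finset.sdiff_empty]
  have h1 : ∀ z ∈ Fintype.piFinset (fun _ : Fin s => Dset h R) ×ˢ
      Fintype.piFinset (fun _ : Fin s => Dset h R),
      (∏ j, lam h R (z.1 j) * lam h R (z.2 j)) *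
        ∏ p ∈ Pr h R, (1 / (p : ℝ)) ^ (univ.filter (fun j => p ∣ z.1 j ∨ p ∣ z.2 j)).card =
      ∏ j, (fun d d' => lam h R d * lam h R d' / (Nat.lcm d d' : ℝ)) (z.1 j) (z.2 j) := by
    intro z hz
    rw [Finset.mem_product, Fintype.mem_piFinset, Fintype.mem_piFinset] at hz
    rw [w_prod, ← Finset.prod_mul_distrib]
    refine Finset.prod_congr rfl fun j _ => ?_
    have hw : w (Pr h R) (z.1 j) (z.2 j) = 1 / (Nat.lcm (z.1 j) (z.2 j) : ℝ) :=
      w_lcm _ (fun p hp => (mem_Pr.1 hp).2.1) _ _ (mem_Dset.1 (hz.1 j)).2.1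
        (mem_Dset.1 (hz.2 j)).2.1 (fun p hp hd => mem_Pr_of_dvd (hz.1 j) hp hd)
        (fun p hp hd => mem_Pr_of_dvd (hz.2 j) hp hd)
    rw [hw]
    simp only
    ring
  rw [Finset.sum_congr rfl h1, sum_pi_prod (fun _ => Dset h R) (fun _ => Dset h R)
    (fun d d' => lam h R d * lam h R d' / (Nat.lcm d d' : ℝ)),
    Finset.prod_const, Finset.card_univ, Fintype.card_fin]
  rw [c2' h R hh hR]

theorem one_le_Gs (h R : ℕ) (hR : 1 ≤ R) : 1 ≤ Gs h R := by
  have h1 : (1 : ℕ) ∈ Dset h R := mem_Dset.2 ⟨⟨le_rfl, hR⟩, squarefree_one, Nat.coprime_one_left h⟩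
  have h2 := Finset.single_le_sum (f := fun d : ℕ => (1 : ℝ) / (Nat.totient d : ℝ))
    (fun d _ => by positivity) h1
  simpa [Gs] using h2

end C3

theorem claimC3 : ClaimC3 := by
  classical
  intro c2 c2' h R s hh hR τ hτ
  have hG1 := C3.one_le_Gs h R hR
  have hG : 0 < Gs h R := lt_of_lt_of_le one_pos hG1
  set δ : ℕ → Finset (Fin s) → ℝ := fun p J => τ p J - (1 / (p : ℝ)) ^ J.card with hδ
  have hδ0 : ∀ p, δ p ∅ = 0 := fun p => by simp [hδ, hτ p]
  set x : ℕ → ℝ := fun p => 4 ^ s * ∑ J ∈ (univ : Finset (Fin s)).powerset.filter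
    (fun J => J ≠ ∅), 3 ^ J.card * |δ p J| with hx
  have hx' : ∀ p, x p = 4 ^ s * ∑ y : Finset (Fin s) × Finset (Fin s), |δ p (y.1 ∪ y.2)| := by
    intro p
    rw [hx, C3.sum_union (fun J => |δ p J|)]
    simp only
    congr 1
    rw [Finset.powerset_univ]
    refine Finset.sum_filter_of_ne ?_
    intro J _ hne hJ
    apply hne
    rw [hJ, hδ0 p]
    simp
  have hS : Gs h R ^ s * Smod h R s τ - 1 =
      ∑ P ∈ (Pr h R).powerset.erase ∅, Gs h R ^ s * C3.term h R s δ P := by
    rw [C3.Smod_eq, ← Finset.add_sum_erase _ _ (Finset.empty_mem_powerset (Pr h R)),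
      C3.term_empty c2' h R s hh hR, mul_add, ← Finset.mul_sum]
    have : Gs h R ^ s * (1 / Gs h R) ^ s = 1 := by
      rw [← mul_pow, mul_one_div_cancel hG.ne', one_pow]
    rw [this]
    ring
  have hprod : (∏ p ∈ Pr h R, (1 + x p)) - 1 = ∑ P ∈ (Pr h R).powerset.erase ∅, ∏ p ∈ P, x p := by
    rw [Finset.prod_one_add, ← Finset.add_sum_erase _ _ (Finset.empty_mem_powerset (Pr h R)),
      Finset.prod_empty]
    ring
  change |Gs h R ^ s * Smod h R s τ - 1| ≤ (∏ p ∈ Pr h R, (1 + x p)) - 1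
  rw [hS, hprod]
  refine (Finset.abs_sum_le_sum_abs _ _).trans (Finset.sum_le_sum fun P hP => ?_)
  have hPP : P ⊆ Pr h R := Finset.mem_powerset.1 (Finset.mem_erase.1 hP).2
  rw [abs_mul, abs_of_nonneg (by positivity : (0 : ℝ) ≤ Gs h R ^ s)]
  have h1 := C3.term_le c2 h R s hh hR hG δ P hPP
  calc Gs h R ^ s * |C3.term h R s δ P|
      ≤ Gs h R ^ s * ((4 ^ P.card / Gs h R) ^ s *
        ∏ p ∈ P, ∑ x : Finset (Fin s) × Finset (Fin s), |δ p (x.1 ∪ x.2)|) :=
        mul_le_mul_of_nonneg_left h1 (by positivity)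
    _ = ∏ p ∈ P, x p := by
        rw [← mul_assoc, ← mul_pow, mul_div_cancel₀ _ hG.ne', ← pow_mul, mul_comm P.card s, pow_mul]
        rw [Finset.prod_congr rfl fun p _ => hx' p, Finset.prod_mul_distrib, Finset.prod_const]

end D159

end

section

/-!
# MP_d159ed_nt, C5: bounds for the local factors
-/

set_option autoImplicit false

namespace D159

open Finset

theorem claimC5 : ClaimC5 := by
  intro h s v p hp hph
  have : Fact p.Prime := ⟨hp⟩
  have hp0 : (0 : ℝ) < p := by exact_mod_cast hp.pos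
  have hp1 : (1 : ℝ) ≤ p := by exact_mod_cast hp.one_lt.le
  have hinv : (1 : ℝ) / p ≤ 1 := by rw [div_le_one hp0]; exact hp1
  have hinv0 : (0 : ℝ) ≤ 1 / p := by positivity
  have hdvd : ∀ k j, p ∣ 1 + h * k * v j ↔ (1 : ZMod p) + h * k * v j = 0 := by
    intro k j
    rw [← ZMod.natCast_eq_zero_iff]
    push_cast
    rfl
  have hh : (h : ZMod p) ≠ 0 := by
    rwa [Ne, ZMod.natCast_eq_zero_iff]
  have hcard1 : ∀ J : Finset (Fin s), J ≠ ∅ →
      ((range p).filter (fun k => ∀ j ∈ J, p ∣ 1 + h * k * v j)).card ≤ 1 := by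
    intro J hJ
    obtain ⟨j, hj⟩ := nonempty_iff_ne_empty.2 hJ
    rw [card_le_one]
    intro k hk k' hk'
    simp only [mem_filter, mem_range] at hk hk'
    have e1 := (hdvd k j).1 (hk.2 j hj)
    have e2 := (hdvd k' j).1 (hk'.2 j hj)
    have hv : (v j : ZMod p) ≠ 0 := by
      intro h0
      rw [h0, mul_zero, add_zero] at e1
      exact one_ne_zero e1
    have e3 : (h : ZMod p) * v j * (k - k') = 0 := by linear_combination e1 - e2
    have e4 : (k : ZMod p) = k' := by
      rcases mul_eq_zero.1 e3 with h5 | h5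
      · exact absurd h5 (mul_ne_zero hh hv)
      · exact sub_eq_zero.1 h5
    have e5 := (ZMod.natCast_eq_natCast_iff' _ _ _).1 e4
    rwa [Nat.mod_eq_of_lt hk.1, Nat.mod_eq_of_lt hk'.1] at e5
  refine ⟨fun J hJ => ?_, fun hv hd J hJ => ?_⟩
  · unfold tauv
    rw [if_neg hJ]
    have h1 : ((((range p).filter (fun k => ∀ j ∈ J, p ∣ 1 + h * k * v j)).card : ℝ) / (p : ℝ)) ≤
        1 / p := by
      apply div_le_div_of_nonneg_right _ hp0.le
      exact_mod_cast hcard1 J hJ
    have h2 : (1 / (p : ℝ)) ^ J.card ≤ 1 / p := by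
      have : J.card ≠ 0 := by rwa [Ne, card_eq_zero]
      exact pow_le_of_le_one hinv0 hinv this
    have h3 : (0 : ℝ) ≤ (((range p).filter (fun k => ∀ j ∈ J, p ∣ 1 + h * k * v j)).card : ℝ) /
        (p : ℝ) := by positivity
    have h4 : (0 : ℝ) ≤ (1 / (p : ℝ)) ^ J.card := by positivity
    rw [abs_le]
    constructor <;> linarith
  · unfold tauv
    rw [if_neg hJ]
    have hJc : J.card ≠ 0 := by rwa [Ne, card_eq_zero]
    by_cases hJ1 : J.card = 1
    · obtain ⟨j, rfl⟩ := card_eq_one.1 hJ1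
      have hvj : (v j : ZMod p) ≠ 0 := by
        rw [Ne, ZMod.natCast_eq_zero_iff]
        exact hv j
      have hmem : (-((h : ZMod p) * v j)⁻¹).val ∈
          (range p).filter (fun k => ∀ i ∈ ({j} : Finset (Fin s)), p ∣ 1 + h * k * v i) := by
        simp only [mem_filter, mem_range, mem_singleton, forall_eq]
        refine ⟨ZMod.val_lt _, ?_⟩
        rw [hdvd, ZMod.natCast_zmod_val]
        field_simp
        ring
      have hc : ((range p).filter (fun k => ∀ i ∈ ({j} : Finset (Fin s)),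
          p ∣ 1 + h * k * v i)).card = 1 :=
        le_antisymm (hcard1 _ hJ) (card_pos.2 ⟨_, hmem⟩)
      rw [hc, hJ1]
      simp
    · obtain ⟨i, hi, j, hj, hij⟩ := one_lt_card.1 (show 1 < J.card by omega)
      have hc : (range p).filter (fun k => ∀ j ∈ J, p ∣ 1 + h * k * v j) = ∅ := by
        rw [filter_eq_empty_iff]
        intro k _ hk
        have e1 := (hdvd k i).1 (hk i hi)
        have e2 := (hdvd k j).1 (hk j hj)
        have hk0 : (k : ZMod p) ≠ 0 := by
          intro h0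
          rw [h0, mul_zero, zero_mul, add_zero] at e1
          exact one_ne_zero e1
        have e3 : (h : ZMod p) * k * (v i - v j) = 0 := by linear_combination e1 - e2
        rcases mul_eq_zero.1 e3 with h5 | h5
        · exact mul_ne_zero hh hk0 h5
        · exact hd i j hij ((ZMod.natCast_eq_natCast_iff _ _ _).1 (sub_eq_zero.1 h5))
      rw [hc, card_empty, Nat.cast_zero, zero_div, zero_sub, abs_neg, abs_of_nonneg (by positivity)]
      rw [← one_div_pow]
      exact pow_le_pow_of_le_one hinv0 hinv (by omega)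

end D159

end

section

/-!
# MP_d159ed_nt, part C6: the key correlation estimate at distinct points
-/

set_option autoImplicit false

namespace D159

open Finset
open scoped BigOperators

/-- a nonzero number at most z^u has at most u prime factors exceeding z -/
theorem c6_card_primes (z u n : ℕ) (hn : n ≠ 0) (hnu : n ≤ z ^ u)
    (P : Finset ℕ) (hP : ∀ p ∈ P, p.Prime ∧ z < p ∧ p ∣ n) : P.card ≤ u := by
  by_contra hcon
  push Not at hcon
  have hdvd : (∏ p ∈ P, p) ∣ n :=
    Finset.prod_primes_dvd n (fun p hp => (hP p hp).1.prime) (fun p hp => (hP p hp).2.2)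
  have h1 : (∏ p ∈ P, p) ≤ n := Nat.le_of_dvd (Nat.pos_of_ne_zero hn) hdvd
  have h2 : (z + 1) ^ P.card ≤ ∏ p ∈ P, p := by
    rw [← Finset.prod_const]
    exact Finset.prod_le_prod' (fun p hp => (hP p hp).2.1)
  have h3 : (z + 1) ^ (u + 1) ≤ (z + 1) ^ P.card := Nat.pow_le_pow_right (by omega) hcon
  have h4 : z ^ u ≤ (z + 1) ^ u := Nat.pow_le_pow_left (by omega) u
  have h6 : 0 < (z + 1) ^ u := by positivity
  by_cases hz0 : z = 0
  · subst hz0
    simp at h1 h2 h3 hnu
    by_cases hu : u = 0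
    · subst hu
      simp at hnu
      have : n = 1 := by omega
      subst this
      have hne : P.Nonempty := by
        rw [← Finset.card_pos]; omega
      obtain ⟨p, hp⟩ := hne
      have := (hP p hp).2.2
      have h7 := (hP p hp).1.one_lt
      have := Nat.le_of_dvd (by norm_num) this
      omega
    · rw [zero_pow hu] at hnu
      omega
  · have h5 : (z + 1) ^ u < (z + 1) ^ (u + 1) := by
      rw [pow_succ]
      nlinarith [Nat.pos_of_ne_zero hz0]
    omega

theorem c6_log (R : ℝ) (hR : 1 ≤ R) : (1 + Real.log R) ^ 2 ≤ 4 * R := by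
  have h0 : 0 ≤ Real.log R := Real.log_nonneg hR
  have h1 : Real.log R = 2 * Real.log (Real.sqrt R) := by
    rw [Real.log_sqrt (by linarith)]; ring
  have hs : 0 < Real.sqrt R := Real.sqrt_pos.mpr (by linarith)
  have h2 : Real.log (Real.sqrt R) ≤ Real.sqrt R - 1 := Real.log_le_sub_one_of_pos hs
  have h3 : 1 + Real.log R ≤ 2 * Real.sqrt R := by linarith
  have h4 : (1 + Real.log R) ^ 2 ≤ (2 * Real.sqrt R) ^ 2 :=
    pow_le_pow_left₀ (by linarith) h3 2
  have h5 : (2 * Real.sqrt R) ^ 2 = 4 * R := by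
    rw [mul_pow, Real.sq_sqrt (by linarith)]; norm_num
  linarith

theorem c6_exp (x C : ℝ) (_hx : 0 ≤ x) (hxC : x ≤ C) : Real.exp x - 1 ≤ x * Real.exp C := by
  have h1 : 1 - x ≤ Real.exp (-x) := by
    have := Real.add_one_le_exp (-x)
    linarith
  have h2 : Real.exp x * Real.exp (-x) = 1 := by rw [← Real.exp_add]; simp
  have h3 : 0 < Real.exp x := Real.exp_pos x
  have h4 : Real.exp x * (1 - x) ≤ 1 := by
    calc Real.exp x * (1 - x) ≤ Real.exp x * Real.exp (-x) :=
          mul_le_mul_of_nonneg_left h1 h3.le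
      _ = 1 := h2
  have h5 : Real.exp x ≤ Real.exp C := Real.exp_le_exp.mpr hxC
  nlinarith

/-- the sum of weights 3^|J| -/
theorem c6_sum_pow (s : ℕ) :
    ∑ J ∈ (univ : Finset (Fin s)).powerset, (3 : ℝ) ^ J.card = 4 ^ s := by
  have := Finset.sum_pow_mul_eq_add_pow (3 : ℝ) 1 (univ : Finset (Fin s))
  simp only [one_pow, mul_one, Finset.card_univ, Fintype.card_fin] at this
  rw [this]
  norm_num

/-- sum over the primes of Pr -/
theorem c6_sum (s u z h R : ℕ) (hz : 1 ≤ z) (hzh : ∀ p, p.Prime → p ≤ z → p ∣ h)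
    (v : Fin s → ℕ) (hv : Function.Injective v) (hvb : ∀ j, 1 ≤ v j ∧ v j ≤ z ^ u)
    (c5 : ClaimC5) :
    ∑ p ∈ Pr h R, (4 ^ s * ∑ J ∈ (univ : Finset (Fin s)).powerset.filter (fun J => J ≠ ∅),
        3 ^ J.card * |tauv h s v p J - (1 / (p : ℝ)) ^ J.card|) ≤
      (16 : ℝ) ^ s * (1 + u * (s + s ^ 2)) / z := by
  classical
  have hzpos : (0 : ℝ) < z := by exact_mod_cast hz
  have hPr : ∀ p ∈ Pr h R, p.Prime ∧ z < p ∧ p ≤ R ∧ ¬ p ∣ h := by
    intro p hp
    simp only [Pr, mem_filter, mem_Icc] at hp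
    have hnd : ¬ p ∣ h := (Nat.Prime.coprime_iff_not_dvd hp.2.1).mp hp.2.2
    refine ⟨hp.2.1, ?_, hp.1.2, hnd⟩
    by_contra hcon
    exact hnd (hzh p hp.2.1 (by omega))
  set badp : ℕ → Prop := fun p => (∃ j, p ∣ v j) ∨ ∃ i j, i ≠ j ∧ v i ≡ v j [MOD p] with hbadp
  -- pointwise bound
  have hpt : ∀ p ∈ Pr h R, (4 ^ s * ∑ J ∈ (univ : Finset (Fin s)).powerset.filter
        (fun J => J ≠ ∅), 3 ^ J.card * |tauv h s v p J - (1 / (p : ℝ)) ^ J.card|) ≤
      (16 : ℝ) ^ s * (((p : ℝ) ^ 2)⁻¹ + if badp p then (z : ℝ)⁻¹ else 0) := by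
    intro p hp
    obtain ⟨hpp, hzp, -, hnd⟩ := hPr p hp
    obtain ⟨h1, h2⟩ := c5 h s v p hpp hnd
    have hppos : (0 : ℝ) < p := by exact_mod_cast hpp.pos
    set δ : ℝ := ((p : ℝ) ^ 2)⁻¹ + if badp p then (z : ℝ)⁻¹ else 0 with hδ
    have hδ0 : 0 ≤ δ := by
      rw [hδ]; split_ifs <;> positivity
    have hJ : ∀ J ∈ (univ : Finset (Fin s)).powerset.filter (fun J => J ≠ ∅),
        3 ^ J.card * |tauv h s v p J - (1 / (p : ℝ)) ^ J.card| ≤ 3 ^ J.card * δ := by
      intro J hJ
      simp only [mem_filter] at hJ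
      refine mul_le_mul_of_nonneg_left ?_ (by positivity)
      by_cases hb : badp p
      · refine (h1 J hJ.2).trans ?_
        rw [hδ, if_pos hb]
        have : 1 / (p : ℝ) ≤ (z : ℝ)⁻¹ := by
          rw [one_div]
          exact inv_anti₀ hzpos (by exact_mod_cast hzp.le)
        have h3 : 0 ≤ ((p : ℝ) ^ 2)⁻¹ := by positivity
        linarith
      · have hb1 : ∀ j, ¬ p ∣ v j := fun j hj => hb (Or.inl ⟨j, hj⟩)
        have hb2 : ∀ i j, i ≠ j → ¬ (v i ≡ v j [MOD p]) :=
          fun i j hij hm => hb (Or.inr ⟨i, j, hij, hm⟩)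
        refine (h2 hb1 hb2 J hJ.2).trans ?_
        rw [hδ, if_neg hb, one_div, add_zero]
    have hsum : ∑ J ∈ (univ : Finset (Fin s)).powerset.filter (fun J => J ≠ ∅),
        3 ^ J.card * |tauv h s v p J - (1 / (p : ℝ)) ^ J.card| ≤ 4 ^ s * δ := by
      refine (Finset.sum_le_sum hJ).trans ?_
      rw [← Finset.sum_mul]
      refine mul_le_mul_of_nonneg_right ?_ hδ0
      rw [← c6_sum_pow s]
      exact Finset.sum_le_sum_of_subset_of_nonneg (Finset.filter_subset _ _)
        (fun _ _ _ => by positivity)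
    calc (4 : ℝ) ^ s * _ ≤ 4 ^ s * (4 ^ s * δ) := mul_le_mul_of_nonneg_left hsum (by positivity)
      _ = 16 ^ s * δ := by rw [← mul_assoc, ← mul_pow]; norm_num
  refine (Finset.sum_le_sum hpt).trans ?_
  rw [← Finset.mul_sum, Finset.sum_add_distrib, mul_div_assoc]
  refine mul_le_mul_of_nonneg_left ?_ (by positivity)
  -- the sum of inverse squares
  have hA : ∑ p ∈ Pr h R, ((p : ℝ) ^ 2)⁻¹ ≤ (z : ℝ)⁻¹ := by
    by_cases hzR : z ≤ R
    · have hsub : Pr h R ⊆ Ioc z R := by
        intro p hp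
        obtain ⟨-, h2, h3, -⟩ := hPr p hp
        exact mem_Ioc.mpr ⟨h2, h3⟩
      refine (Finset.sum_le_sum_of_subset_of_nonneg hsub (fun _ _ _ => by positivity)).trans ?_
      have := sum_Ioc_inv_sq_le_sub (α := ℝ) (k := z) (n := R) (by omega) hzR
      have h3 : (0 : ℝ) ≤ (R : ℝ)⁻¹ := by positivity
      linarith
    · have : Pr h R = ∅ := by
        refine Finset.eq_empty_of_forall_notMem ?_
        intro p hp
        obtain ⟨-, h2, h3, -⟩ := hPr p hp
        omega
      rw [this]; simp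
  -- the number of bad primes
  have hB : (((Pr h R).filter badp).card : ℝ) ≤ u * (s + s ^ 2) := by
    have hsub : (Pr h R).filter badp ⊆
        ((univ : Finset (Fin s)).biUnion fun j => (Pr h R).filter fun p => p ∣ v j) ∪
        ((univ : Finset (Fin s × Fin s)).filter fun q => q.1 ≠ q.2).biUnion
          fun q => (Pr h R).filter fun p => v q.1 ≡ v q.2 [MOD p] := by
      intro p hp
      simp only [mem_filter, hbadp] at hp
      rcases hp with ⟨hp, hj | ⟨i, j, hij, hm⟩⟩
      · obtain ⟨j, hj⟩ := hj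
        refine mem_union_left _ ?_
        simp only [mem_biUnion, mem_univ, true_and, mem_filter]
        exact ⟨j, hp, hj⟩
      · refine mem_union_right _ ?_
        simp only [mem_biUnion, mem_univ, true_and, mem_filter]
        exact ⟨(i, j), hij, hp, hm⟩
    have h1 : ((univ : Finset (Fin s)).biUnion
        fun j => (Pr h R).filter fun p => p ∣ v j).card ≤ s * u := by
      refine (Finset.card_biUnion_le_card_mul _ _ u ?_).trans ?_
      · intro j _
        refine c6_card_primes z u (v j) (by have := (hvb j).1; omega) (hvb j).2 _ ?_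
        intro p hp
        simp only [mem_filter] at hp
        obtain ⟨h1, h2, -, -⟩ := hPr p hp.1
        exact ⟨h1, h2, hp.2⟩
      · simp
    have h2 : (((univ : Finset (Fin s × Fin s)).filter fun q => q.1 ≠ q.2).biUnion
          fun q => (Pr h R).filter fun p => v q.1 ≡ v q.2 [MOD p]).card ≤ s ^ 2 * u := by
      refine (Finset.card_biUnion_le_card_mul _ _ u ?_).trans ?_
      · intro q hq
        simp only [mem_filter, mem_univ, true_and] at hq
        have hne : v q.1 ≠ v q.2 := fun h => hq (hv h)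
        rcases lt_or_gt_of_ne hne with hlt | hlt
        · refine c6_card_primes z u (v q.2 - v q.1) (by omega)
            (by have := (hvb q.2).2; omega) _ ?_
          intro p hp
          simp only [mem_filter] at hp
          obtain ⟨h1, h2, -, -⟩ := hPr p hp.1
          exact ⟨h1, h2, (Nat.modEq_iff_dvd' hlt.le).mp hp.2⟩
        · refine c6_card_primes z u (v q.1 - v q.2) (by omega)
            (by have := (hvb q.1).2; omega) _ ?_
          intro p hp
          simp only [mem_filter] at hp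
          obtain ⟨h1, h2, -, -⟩ := hPr p hp.1
          exact ⟨h1, h2, (Nat.modEq_iff_dvd' hlt.le).mp hp.2.symm⟩
      · refine Nat.mul_le_mul_right u ?_
        refine (Finset.card_filter_le _ _).trans ?_
        simp [sq]
    have h3 : ((Pr h R).filter badp).card ≤ s * u + s ^ 2 * u :=
      (Finset.card_le_card hsub).trans ((Finset.card_union_le _ _).trans (by omega))
    have h4 : (((Pr h R).filter badp).card : ℝ) ≤ ((s * u + s ^ 2 * u : ℕ) : ℝ) := by
      exact_mod_cast h3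
    refine h4.trans (le_of_eq ?_)
    push_cast
    ring
  have hC : ∑ p ∈ Pr h R, (if badp p then (z : ℝ)⁻¹ else 0) ≤ u * (s + s ^ 2) * (z : ℝ)⁻¹ := by
    rw [← Finset.sum_filter, Finset.sum_const, nsmul_eq_mul]
    exact mul_le_mul_of_nonneg_right hB (by positivity)
  calc _ ≤ (z : ℝ)⁻¹ + u * (s + s ^ 2) * (z : ℝ)⁻¹ := add_le_add hA hC
    _ = (1 + u * (s + s ^ 2)) / z := by rw [div_eq_mul_inv]; ring

theorem claimC6 : ClaimC6 := by
  intro c1 mb ma c5 s u
  set C' : ℝ := (16 : ℝ) ^ s * (1 + u * (s + s ^ 2)) with hC'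
  have hC'0 : 0 ≤ C' := by rw [hC']; positivity
  refine ⟨4 ^ s + C' * Real.exp C', ?_⟩
  intro z h R K hz hh hzh hzR hRK hK v hv hvb
  have hR : 1 ≤ R := hz.trans hzR
  obtain ⟨-, -, -, hG1, hG2, -⟩ := c1 h R hh hR
  have hzpos : (0 : ℝ) < z := by exact_mod_cast hz
  have hz1 : (1 : ℝ) ≤ z := by exact_mod_cast hz
  have hKpos : (0 : ℝ) < K := by exact_mod_cast hK
  have hRpos : (0 : ℝ) < R := by exact_mod_cast hR
  have hR1 : (1 : ℝ) ≤ R := by exact_mod_cast hR
  rcases Nat.eq_zero_or_pos s with hs | hs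
  · subst hs
    have : (∑ k ∈ Icc 1 K, ∏ j : Fin 0, (Gs h R * Lam h R (1 + h * k * v j) ^ 2)) / (K : ℝ) - 1
        = 0 := by
      simp [hKpos.ne']
    rw [this, abs_zero]
    positivity
  · have hprod : (∑ k ∈ Icc 1 K, ∏ j, (Gs h R * Lam h R (1 + h * k * v j) ^ 2)) / (K : ℝ) =
        Gs h R ^ s * ((∑ k ∈ Icc 1 K, ∏ j, Lam h R (1 + h * k * v j) ^ 2) / (K : ℝ)) := by
      rw [mul_div_assoc', Finset.mul_sum]
      congr 1
      refine Finset.sum_congr rfl fun k _ => ?_
      rw [Finset.prod_mul_distrib, Finset.prod_const, Finset.card_univ, Fintype.card_fin]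
    rw [hprod]
    set A : ℝ := (∑ k ∈ Icc 1 K, ∏ j, Lam h R (1 + h * k * v j) ^ 2) / (K : ℝ) with hA
    set G : ℝ := Gs h R with hG
    have hma := ma h R s K hh hR hK v
    rw [← hA] at hma
    have hτ : ∀ p, tauv h s v p ∅ = 1 := by
      intro p; simp [tauv]
    have hmb := mb h R s hh hR (tauv h s v) hτ
    rw [← hG] at hmb
    set S : ℝ := Smod h R s (tauv h s v) with hS
    have hGs0 : 0 ≤ G ^ s := by positivity
    have hsplit : |G ^ s * A - 1| ≤ G ^ s * |A - S| + |G ^ s * S - 1| := by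
      have : G ^ s * A - 1 = G ^ s * (A - S) + (G ^ s * S - 1) := by ring
      rw [this]
      refine (abs_add_le _ _).trans ?_
      rw [abs_mul, abs_of_nonneg hGs0]
    have hfirst : G ^ s * |A - S| ≤ 4 ^ s / z := by
      have h1 : G ^ s ≤ (4 * (R : ℝ)) ^ s :=
        pow_le_pow_left₀ (by linarith) (hG2.trans (c6_log R hR1)) s
      have h2 : |A - S| ≤ (R : ℝ) ^ (2 * s) / K := hma
      have h3 : (R : ℝ) ^ (4 * s) ≤ K := by exact_mod_cast hRK
      have h4 : (R : ℝ) ^ (2 * s) / K ≤ (R : ℝ) ^ (2 * s) / (R : ℝ) ^ (4 * s) :=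
        div_le_div_of_nonneg_left (by positivity) (by positivity) h3
      have h5 : (R : ℝ) ^ (2 * s) / (R : ℝ) ^ (4 * s) = 1 / (R : ℝ) ^ (2 * s) := by
        rw [div_eq_div_iff (by positivity) (by positivity), one_mul, ← pow_add]
        congr 1; omega
      calc G ^ s * |A - S| ≤ (4 * (R : ℝ)) ^ s * (1 / (R : ℝ) ^ (2 * s)) :=
            mul_le_mul h1 (h2.trans (h4.trans h5.le)) (abs_nonneg _) (by positivity)
        _ = 4 ^ s / (R : ℝ) ^ s := by
            rw [mul_pow, mul_one_div, div_eq_div_iff (by positivity) (by positivity),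
              mul_assoc, ← pow_add]
            congr 2; omega
        _ ≤ 4 ^ s / z := by
            refine div_le_div_of_nonneg_left (by positivity) hzpos ?_
            calc (z : ℝ) ≤ R := by exact_mod_cast hzR
              _ = (R : ℝ) ^ 1 := (pow_one _).symm
              _ ≤ (R : ℝ) ^ s := pow_le_pow_right₀ hR1 hs
    have hsecond : |G ^ s * S - 1| ≤ C' * Real.exp C' / z := by
      refine hmb.trans ?_
      set x : ℕ → ℝ := fun p => (4 : ℝ) ^ s * ∑ J ∈ (univ : Finset (Fin s)).powerset.filter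
        (fun J => J ≠ ∅), 3 ^ J.card * |tauv h s v p J - (1 / (p : ℝ)) ^ J.card| with hx
      have hx0 : ∀ p, 0 ≤ x p := by
        intro p; rw [hx]; positivity
      have hsumx : ∑ p ∈ Pr h R, x p ≤ C' / z := c6_sum s u z h R hz hzh v hv hvb c5
      have hprodx : ∏ p ∈ Pr h R, (1 + x p) ≤ Real.exp (∑ p ∈ Pr h R, x p) := by
        rw [Real.exp_sum]
        refine Finset.prod_le_prod (fun p _ => by have := hx0 p; linarith) (fun p _ => ?_)
        have := Real.add_one_le_exp (x p)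
        linarith
      have hsum0 : 0 ≤ ∑ p ∈ Pr h R, x p := Finset.sum_nonneg fun p _ => hx0 p
      have hle : ∑ p ∈ Pr h R, x p ≤ C' :=
        hsumx.trans (div_le_self hC'0 hz1)
      have hexp := c6_exp _ C' hsum0 hle
      have : (∑ p ∈ Pr h R, x p) * Real.exp C' ≤ C' / z * Real.exp C' :=
        mul_le_mul_of_nonneg_right hsumx (Real.exp_pos _).le
      calc _ ≤ Real.exp (∑ p ∈ Pr h R, x p) - 1 := by
            have := hprodx
            linarith
        _ ≤ C' / z * Real.exp C' := by linarith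
        _ = C' * Real.exp C' / z := by ring
    calc |G ^ s * A - 1| ≤ 4 ^ s / z + C' * Real.exp C' / z := by linarith
      _ = (4 ^ s + C' * Real.exp C') / z := by ring

end D159

end

section

/-!
# MP_d159ed_nt, C8: collisions of the 80 forms (helper63)
-/

set_option autoImplicit false

namespace D159

open Finset
open scoped BigOperators

section C8

variable {M : ℕ} [NeZero M]

theorem c8_psi_add (j : Fin 5) (x y : Fin 5 → Bool → ZMod M) (ω : Fin 5 → Bool) :
    psi j (pt (x + y) ω) = psi j (pt x ω) + psi j (pt y ω) := by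
  unfold psi pt
  rw [← Finset.sum_add_distrib]
  refine Finset.sum_congr rfl fun i _ => ?_
  simp only [Pi.add_apply]
  ring

theorem c8_psi_smul (j : Fin 5) (t : ZMod M) (y : Fin 5 → Bool → ZMod M) (ω : Fin 5 → Bool) :
    psi j (pt (t • y) ω) = t * psi j (pt y ω) := by
  unfold psi pt
  rw [Finset.mul_sum]
  refine Finset.sum_congr rfl fun i _ => ?_
  simp only [Pi.smul_apply, smul_eq_mul]
  ring

/-- the unit vector -/
def c8_e (M : ℕ) (i : Fin 5) (b : Bool) : Fin 5 → Bool → ZMod M := Pi.single i (Pi.single b 1)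

theorem c8_psi_e (j i : Fin 5) (b : Bool) (ω : Fin 5 → Bool) :
    psi j (pt (c8_e M i b) ω) =
      if ω i = b then (((i : ℕ) : ZMod M) - ((j : ℕ) : ZMod M)) else 0 := by
  unfold psi pt c8_e
  rw [Finset.sum_eq_single i]
  · rw [Pi.single_eq_same]
    by_cases h : ω i = b
    · rw [h, Pi.single_eq_same]; simp
    · rw [Pi.single_eq_of_ne h]; simp [h]
  · intro k _ hk
    rw [Pi.single_eq_of_ne hk]
    simp
  · intro h; exact absurd (Finset.mem_univ _) h

theorem c8_ne (hM : 5 ≤ M) {i j : Fin 5} (h : i ≠ j) :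
    (((i : ℕ) : ZMod M) - ((j : ℕ) : ZMod M)) ≠ 0 := by
  intro h0
  rw [sub_eq_zero, ZMod.natCast_eq_natCast_iff'] at h0
  rw [Nat.mod_eq_of_lt (by omega), Nat.mod_eq_of_lt (by omega)] at h0
  exact h (Fin.ext h0)

theorem c8_equi (hp : M.Prime) {X : Type*} [Fintype X] [AddCommGroup X] [Module (ZMod M) X]
    (Φ : X → ZMod M) (e : X) (c : ZMod M) (hc : c ≠ 0)
    (hΦ : ∀ x t, Φ (x + t • e) = Φ x + t * c) (g : ZMod M → ℝ) :
    (𝔼 x : X, g (Φ x)) = 𝔼 v, g v := by
  haveI : Fact M.Prime := ⟨hp⟩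
  have h1 : ∀ t : ZMod M, (𝔼 x : X, g (Φ (x + t • e))) = 𝔼 x : X, g (Φ x) := fun t =>
    Fintype.expect_equiv (Equiv.addRight (t • e)) _ _ (fun x => rfl)
  have h2 : (𝔼 t : ZMod M, 𝔼 x : X, g (Φ (x + t • e))) = 𝔼 x : X, g (Φ x) := by
    rw [Finset.expect_congr rfl fun t _ => h1 t, Fintype.expect_const]
  rw [← h2, Finset.expect_comm]
  have h3 : ∀ x : X, (𝔼 t : ZMod M, g (Φ (x + t • e))) = 𝔼 v, g v := by
    intro x
    refine Fintype.expect_equiv
      ((Equiv.mulRight₀ c hc).trans (Equiv.addLeft (Φ x))) _ _ (fun t => ?_)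
    rw [hΦ]
    rfl
  rw [Finset.expect_congr rfl fun x _ => h3 x]
  haveI : Nonempty X := ⟨0⟩
  rw [Fintype.expect_const]

theorem c8_ind (w : ZMod M) : (𝔼 v : ZMod M, (if v = w then (1 : ℝ) else 0)) = 1 / (M : ℝ) := by
  rw [Fintype.expect_eq_sum_div_card]
  simp [ZMod.card]

theorem c8_part3 (hp : M.Prime) (hM : 5 ≤ M) (a : Fin 5 × (Fin 5 → Bool)) (g : ZMod M → ℝ) :
    (𝔼 x : Fin 5 → Bool → ZMod M, g (psi a.1 (pt x a.2))) = 𝔼 v, g v := by
  obtain ⟨i, hi⟩ : ∃ i : Fin 5, i ≠ a.1 := exists_ne a.1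
  refine c8_equi hp (fun x => psi a.1 (pt x a.2)) (c8_e M i (a.2 i)) _ (c8_ne hM hi) ?_ g
  intro x t
  show psi a.1 (pt (x + t • c8_e M i (a.2 i)) a.2) = _
  rw [c8_psi_add, c8_psi_smul, c8_psi_e, if_pos rfl]

theorem c8_part1 (hp : M.Prime) (hM : 5 ≤ M) (a b : Fin 5 × (Fin 5 → Bool)) (ha : a ∈ Idx)
    (hb : b ∈ Idx) (hab : a ≠ b) :
    (𝔼 x : Fin 5 → Bool → ZMod M,
        (if psi a.1 (pt x a.2) = psi b.1 (pt x b.2) then (1 : ℝ) else 0)) = 1 / (M : ℝ) := by
  have ha' : a.2 a.1 = false := by simpa [Idx] using ha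
  have hb' : b.2 b.1 = false := by simpa [Idx] using hb
  obtain ⟨i, β, c, hc, h⟩ : ∃ (i : Fin 5) (β : Bool) (c : ZMod M), c ≠ 0 ∧
      psi a.1 (pt (c8_e M i β) a.2) - psi b.1 (pt (c8_e M i β) b.2) = c := by
    by_cases hj : a.1 = b.1
    · have hω : a.2 ≠ b.2 := fun h => hab (Prod.ext hj h)
      obtain ⟨i, hi⟩ := Function.ne_iff.1 hω
      have hij : i ≠ a.1 := by
        rintro rfl
        apply hi
        rw [ha', hj, hb']
      refine ⟨i, a.2 i, _, c8_ne hM hij, ?_⟩
      rw [c8_psi_e, c8_psi_e, if_pos rfl, if_neg (Ne.symm hi), sub_zero]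
    · refine ⟨a.1, b.2 a.1, _, neg_ne_zero.2 (c8_ne hM hj), ?_⟩
      rw [c8_psi_e, c8_psi_e, if_pos rfl]
      simp
  have key := c8_equi hp (fun x => psi a.1 (pt x a.2) - psi b.1 (pt x b.2)) (c8_e M i β) c hc ?_
    (fun v => if v = 0 then (1 : ℝ) else 0)
  · rw [c8_ind] at key
    rw [← key]
    refine Finset.expect_congr rfl fun x _ => ?_
    by_cases hx : psi a.1 (pt x a.2) = psi b.1 (pt x b.2)
    · rw [if_pos hx, if_pos (sub_eq_zero.2 hx)]
    · rw [if_neg hx, if_neg (fun h => hx (sub_eq_zero.1 h))]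
  · intro x t
    show psi a.1 (pt (x + t • c8_e M i β) a.2) - psi b.1 (pt (x + t • c8_e M i β) b.2) = _
    rw [c8_psi_add, c8_psi_smul, c8_psi_add, c8_psi_smul, ← h]
    ring

theorem c8_part2 (hp : M.Prime) (hM : 5 ≤ M) (a b : Fin 5 × (Fin 5 → Bool)) :
    (𝔼 x : Fin 5 → Bool → ZMod M, 𝔼 y : Fin 5 → Bool → ZMod M,
        (if psi a.1 (pt x a.2) = psi b.1 (pt y b.2) then (1 : ℝ) else 0)) = 1 / (M : ℝ) := by
  rw [Finset.expect_comm]
  have h : ∀ y : Fin 5 → Bool → ZMod M, (𝔼 x : Fin 5 → Bool → ZMod M,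
      (if psi a.1 (pt x a.2) = psi b.1 (pt y b.2) then (1 : ℝ) else 0)) = 1 / (M : ℝ) := by
    intro y
    rw [c8_part3 hp hM a (fun v => if v = psi b.1 (pt y b.2) then (1 : ℝ) else 0), c8_ind]
  rw [Finset.expect_congr rfl fun y _ => h y, Fintype.expect_const]

end C8

theorem claimC8 : ClaimC8 := fun _ _ hp hM =>
  ⟨fun a ha b hb hab => c8_part1 hp hM a b ha hb hab, fun a _ b _ => c8_part2 hp hM a b,
    fun a _ g => c8_part3 hp hM a g⟩

end D159

end
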