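import Mathlib
import Pool.Agent.Work.MP_d159ed_nt.Bd.B03
import Pool.Agent.Work.MP_d159ed_nt.Bd.B02
import Pool.Agent.Work.MP_d159ed_nt.Bd.B01
import Pool.Agent.Work.MP_d159ed_nt.Bd.B04

/-! Bundle of small proof modules (one section per former module). -/

section

/-!
# MP_d159ed_nt, part C9: second moment over k of the linear forms averages
-/

set_option autoImplicit false

namespace D159

open Finset
open scoped BigOperators

theorem c9_card_Idx : Idx.card = 80 := by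
  decide +kernel

/-- reindexing a product over a finset by Fin -/
theorem c9_reindex {ι : Type} (J : Finset ι) (F : ι → ℝ) :
    ∏ j ∈ J, F j = ∏ i : Fin J.card, F (J.equivFin.symm i) := by
  rw [← Finset.prod_coe_sort, ← Equiv.prod_comp J.equivFin.symm]

theorem c9_nuk_prod {ι : Type} [Fintype ι] {M : ℕ} (h R Y k : ℕ) (w : ι → ZMod M) :
    ∏ j, nuk h R Y k (w j) =
      ∏ i : Fin ((univ : Finset ι).filter fun j => 1 ≤ (w j).val ∧ (w j).val ≤ Y).card,
        (Gs h R * Lam h R (1 + h * k *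
          (w (((univ : Finset ι).filter fun j => 1 ≤ (w j).val ∧ (w j).val ≤ Y).equivFin.symm
            i)).val) ^ 2) := by
  rw [← c9_reindex ((univ : Finset ι).filter fun j => 1 ≤ (w j).val ∧ (w j).val ≤ Y)
    (fun j => Gs h R * Lam h R (1 + h * k * (w j).val) ^ 2), Finset.prod_filter]
  rfl

theorem c9_nuk_nonneg {M : ℕ} (h R Y k : ℕ) (hG : 0 ≤ Gs h R) (v : ZMod M) :
    0 ≤ nuk h R Y k v := by
  unfold nuk
  split_ifs <;> positivity

/-- the two correlation bounds for at most 160 values -/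
theorem c9_corr (c1 : ClaimC1) (kc : KeyCorr) (cc : CrudeCorr) :
    ∃ C1 : ℕ, ∃ B : ℝ, 1 ≤ B ∧ ∀ u : ℕ, ∃ C : ℝ, 0 ≤ C ∧
      ∀ (z h R K M : ℕ) [NeZero M], 1 ≤ z → 1 ≤ h →
      (∀ p, p.Prime → p ≤ z → p ∣ h) → z ≤ R → R ^ 640 ≤ K → 1 ≤ K →
      ∀ (ι : Type) [Fintype ι], Fintype.card ι ≤ 160 → ∀ w : ι → ZMod M,
        (∑ k ∈ Icc 1 K, ∏ j, nuk h R (z ^ u) k (w j)) / (K : ℝ) ≤
          B * (1 + Real.log R) ^ C1 ∧
        (Function.Injective w →
          |(∑ k ∈ Icc 1 K, ∏ j, nuk h R (z ^ u) k (w j)) / (K : ℝ) - 1| ≤ C / z) := by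
  choose Ct hCt using cc
  obtain ⟨S, hS⟩ : ∃ S : Finset ℕ, ∀ n, n ≤ 160 → n ∈ S :=
    ⟨range 161, fun n hn => mem_range.mpr (by omega)⟩
  refine ⟨∑ t ∈ S, (Ct t + 2 * t), 1 + ∑ t ∈ S, (Ct t : ℝ), ?_, ?_⟩
  · have : (0 : ℝ) ≤ ∑ t ∈ S, (Ct t : ℝ) := Finset.sum_nonneg fun _ _ => by positivity
    linarith
  intro u
  choose Ck hCk using fun s => kc s u
  refine ⟨∑ s ∈ S, |Ck s|, Finset.sum_nonneg fun _ _ => abs_nonneg _, ?_⟩
  intro z h R K M _ hz hh hzh hzR hRK hK ι _ hι w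
  have hR : 1 ≤ R := hz.trans hzR
  obtain ⟨-, -, -, hG1, hG2, -⟩ := c1 h R hh hR
  have hzpos : (0 : ℝ) < z := by exact_mod_cast hz
  have hKpos : (0 : ℝ) < K := by exact_mod_cast hK
  have hR1 : (1 : ℝ) ≤ R := by exact_mod_cast hR
  have hlog : 0 ≤ Real.log R := Real.log_nonneg hR1
  have hL1 : 1 ≤ 1 + Real.log R := by linarith
  set J : Finset ι := (univ : Finset ι).filter fun j => 1 ≤ (w j).val ∧ (w j).val ≤ z ^ u with hJ
  have hJc : J.card ≤ 160 := (Finset.card_le_univ J).trans hι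
  have hJr : J.card ∈ S := hS _ hJc
  set v : Fin J.card → ℕ := fun i => (w (J.equivFin.symm i)).val with hv
  have hprod : ∀ k, ∏ j, nuk h R (z ^ u) k (w j) =
      ∏ i : Fin J.card, (Gs h R * Lam h R (1 + h * k * v i) ^ 2) := by
    intro k
    exact c9_nuk_prod h R (z ^ u) k w
  constructor
  · -- crude
    have hpow : R ^ (2 * J.card) ≤ K :=
      (Nat.pow_le_pow_right hR (by omega)).trans hRK
    have h1 := hCt J.card h R K hh hR hpow hK v
    have h2 : (∑ k ∈ Icc 1 K, ∏ j, nuk h R (z ^ u) k (w j)) / (K : ℝ) =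
        Gs h R ^ J.card *
          ((∑ k ∈ Icc 1 K, ∏ i : Fin J.card, Lam h R (1 + h * k * v i) ^ 2) / (K : ℝ)) := by
      rw [mul_div_assoc', Finset.mul_sum]
      congr 1
      refine Finset.sum_congr rfl fun k _ => ?_
      rw [hprod, Finset.prod_mul_distrib, Finset.prod_const, Finset.card_univ, Fintype.card_fin]
    rw [h2]
    have h3 : Gs h R ^ J.card ≤ (1 + Real.log R) ^ (2 * J.card) := by
      rw [pow_mul]
      exact pow_le_pow_left₀ (by linarith) hG2 _
    have h4 : (0 : ℝ) ≤ (∑ k ∈ Icc 1 K, ∏ i : Fin J.card, Lam h R (1 + h * k * v i) ^ 2) /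
        (K : ℝ) := by positivity
    have h5 : (Ct J.card : ℝ) ≤ 1 + ∑ t ∈ S, (Ct t : ℝ) := by
      have := Finset.single_le_sum (f := fun t => (Ct t : ℝ)) (s := S)
        (fun _ _ => by positivity) hJr
      linarith
    have h6 : Ct J.card + 2 * J.card ≤ ∑ t ∈ S, (Ct t + 2 * t) :=
      Finset.single_le_sum (f := fun t => Ct t + 2 * t) (s := S)
        (fun _ _ => Nat.zero_le _) hJr
    calc Gs h R ^ J.card * _ ≤ (1 + Real.log R) ^ (2 * J.card) *
          ((Ct J.card : ℝ) * (1 + Real.log R) ^ Ct J.card) :=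
          mul_le_mul h3 h1 h4 (by positivity)
      _ = (Ct J.card : ℝ) * (1 + Real.log R) ^ (Ct J.card + 2 * J.card) := by
          rw [pow_add]; ring
      _ ≤ (1 + ∑ t ∈ S, (Ct t : ℝ)) *
          (1 + Real.log R) ^ (∑ t ∈ S, (Ct t + 2 * t)) :=
          mul_le_mul h5 (pow_le_pow_right₀ hL1 h6) (by positivity) (by positivity)
  · intro hw
    have hpow : R ^ (4 * J.card) ≤ K :=
      (Nat.pow_le_pow_right hR (by omega)).trans hRK
    have hvinj : Function.Injective v := by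
      intro i j hij
      have h1 : w (J.equivFin.symm i) = w (J.equivFin.symm j) :=
        ZMod.val_injective M hij
      have h2 := hw h1
      have h3 : J.equivFin.symm i = J.equivFin.symm j := Subtype.ext h2
      exact J.equivFin.symm.injective h3
    have hvb : ∀ j, 1 ≤ v j ∧ v j ≤ z ^ u := by
      intro j
      exact (Finset.mem_filter.mp (J.equivFin.symm j).2).2
    have h1 := hCk J.card z h R K hz hh hzh hzR hpow hK v hvinj hvb
    have h2 : (∑ k ∈ Icc 1 K, ∏ j, nuk h R (z ^ u) k (w j)) =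
        ∑ k ∈ Icc 1 K, ∏ i : Fin J.card, (Gs h R * Lam h R (1 + h * k * v i) ^ 2) :=
      Finset.sum_congr rfl fun k _ => hprod k
    rw [h2]
    refine h1.trans ?_
    refine div_le_div_of_nonneg_right ?_ hzpos.le
    refine (le_abs_self _).trans ?_
    exact Finset.single_le_sum (f := fun t => |Ck t|) (s := S)
        (fun _ _ => abs_nonneg _) hJr

theorem claimC9 : ClaimC9 := by
  intro c1 kc cc c8
  obtain ⟨C1, B, hB, hcorr⟩ := c9_corr c1 kc cc
  refine ⟨C1, fun u => ?_⟩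
  obtain ⟨C, hC, hcorr⟩ := hcorr u
  refine ⟨3 * C + 19200 * B + 12800, ?_⟩
  intro z h R K M _ hMp hM5 _hMY hz hh hzh hzR hRK hK A hA
  have hR : 1 ≤ R := hz.trans hzR
  obtain ⟨-, -, -, hG1, -, -⟩ := c1 h R hh hR
  have hG0 : 0 ≤ Gs h R := by linarith
  have hzpos : (0 : ℝ) < z := by exact_mod_cast hz
  have hKpos : (0 : ℝ) < K := by exact_mod_cast hK
  have hMpos : (0 : ℝ) < M := by exact_mod_cast hMp.pos
  have hR1 : (1 : ℝ) ≤ R := by exact_mod_cast hR
  have hlog : 0 ≤ Real.log R := Real.log_nonneg hR1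
  have hL1 : 1 ≤ 1 + Real.log R := by linarith
  have hLC : 1 ≤ (1 + Real.log R) ^ C1 := one_le_pow₀ hL1
  have hAc : A.card ≤ 80 := by
    rw [← c9_card_Idx]; exact Finset.card_le_card hA
  obtain ⟨e1, e2, -⟩ := c8 M hMp hM5
  set P : (Fin 5 → Bool → ZMod M) → ℕ → ℝ :=
    fun x k => ∏ a ∈ A, nuk h R (z ^ u) k (psi a.1 (pt x a.2)) with hP
  have hP0 : ∀ x k, 0 ≤ P x k := fun x k =>
    Finset.prod_nonneg fun a _ => c9_nuk_nonneg h R (z ^ u) k hG0 _
  -- rewriting products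
  have hP1 : ∀ x k, P x k = ∏ a : {a // a ∈ A}, nuk h R (z ^ u) k (psi a.1.1 (pt x a.1.2)) := by
    intro x k
    rw [hP]
    exact (Finset.prod_coe_sort A (fun a => nuk h R (z ^ u) k (psi a.1 (pt x a.2)))).symm
  set Q1 : (Fin 5 → Bool → ZMod M) → ℝ := fun x => (∑ k ∈ Icc 1 K, P x k) / (K : ℝ) with hQ1
  set Q2 : (Fin 5 → Bool → ZMod M) → (Fin 5 → Bool → ZMod M) → ℝ :=
    fun x y => (∑ k ∈ Icc 1 K, P x k * P y k) / (K : ℝ) with hQ2
  set ee : (Fin 5 × (Fin 5 → Bool)) → (Fin 5 × (Fin 5 → Bool)) → (Fin 5 → Bool → ZMod M) →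
      (Fin 5 → Bool → ZMod M) → ℝ :=
    fun a b x y => if psi a.1 (pt x a.2) = psi b.1 (pt y b.2) then (1 : ℝ) else 0 with hee
  have hee0 : ∀ a b x y, 0 ≤ ee a b x y := by
    intro a b x y; rw [hee]; dsimp only; split_ifs <;> norm_num
  set col1 : (Fin 5 → Bool → ZMod M) → ℝ := fun x => ∑ q ∈ A.offDiag, ee q.1 q.2 x x with hcol1
  set col2 : (Fin 5 → Bool → ZMod M) → (Fin 5 → Bool → ZMod M) → ℝ :=
    fun x y => ∑ q ∈ A ×ˢ A, ee q.1 q.2 x y with hcol2
  have hcol10 : ∀ x, 0 ≤ col1 x := fun x => Finset.sum_nonneg fun q _ => hee0 _ _ _ _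
  have hcol20 : ∀ x y, 0 ≤ col2 x y := fun x y => Finset.sum_nonneg fun q _ => hee0 _ _ _ _
  -- a collision makes col1 at least one
  have hc1 : ∀ x, ¬ Function.Injective (fun a : {a // a ∈ A} => psi a.1.1 (pt x a.1.2)) →
      1 ≤ col1 x := by
    intro x hx
    simp only [Function.Injective, not_forall] at hx
    obtain ⟨a, b, hab, hne⟩ := hx
    have hmem : (a.1, b.1) ∈ A.offDiag := by
      rw [Finset.mem_offDiag]
      exact ⟨a.2, b.2, fun h => hne (Subtype.ext h)⟩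
    have h1 : ee a.1 b.1 x x = 1 := by
      rw [hee]; dsimp only; rw [if_pos hab]
    rw [← h1]
    exact Finset.single_le_sum (f := fun q : (Fin 5 × (Fin 5 → Bool)) × (Fin 5 × (Fin 5 → Bool)) =>
      ee q.1 q.2 x x) (s := A.offDiag) (fun q _ => hee0 _ _ _ _) hmem
  have hc2 : ∀ x y, ¬ Function.Injective (Sum.elim
      (fun a : {a // a ∈ A} => psi a.1.1 (pt x a.1.2))
      (fun a : {a // a ∈ A} => psi a.1.1 (pt y a.1.2))) →
      1 ≤ col1 x + col1 y + col2 x y := by
    intro x y hxy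
    by_cases hx : Function.Injective (fun a : {a // a ∈ A} => psi a.1.1 (pt x a.1.2))
    · by_cases hy : Function.Injective (fun a : {a // a ∈ A} => psi a.1.1 (pt y a.1.2))
      · have : ∃ a b : {a // a ∈ A}, psi a.1.1 (pt x a.1.2) = psi b.1.1 (pt y b.1.2) := by
          by_contra hcon
          push Not at hcon
          refine hxy (Function.Injective.sumElim hx hy ?_)
          intro a b
          exact hcon a b
        obtain ⟨a, b, hab⟩ := this
        have hmem : (a.1, b.1) ∈ A ×ˢ A := Finset.mk_mem_product a.2 b.2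
        have h1 : ee a.1 b.1 x y = 1 := by
          rw [hee]; dsimp only; rw [if_pos hab]
        have h2 : ee a.1 b.1 x y ≤ col2 x y :=
          Finset.single_le_sum (f := fun q : (Fin 5 × (Fin 5 → Bool)) ×
            (Fin 5 × (Fin 5 → Bool)) => ee q.1 q.2 x y) (s := A ×ˢ A)
            (fun q _ => hee0 _ _ _ _) hmem
        have := hcol10 x
        have := hcol10 y
        linarith
      · have := hc1 y hy
        have := hcol10 x
        have := hcol20 x y
        linarith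
    · have := hc1 x hx
      have := hcol10 y
      have := hcol20 x y
      linarith
  -- bounds for Q1, Q2
  have hcardA : Fintype.card {a // a ∈ A} ≤ 160 := by
    rw [Fintype.card_coe]; omega
  have hcardAA : Fintype.card ({a // a ∈ A} ⊕ {a // a ∈ A}) ≤ 160 := by
    rw [Fintype.card_sum, Fintype.card_coe]; omega
  have hQ1l : ∀ x, 1 - C / z - col1 x ≤ Q1 x := by
    intro x
    have hq : Q1 x = (∑ k ∈ Icc 1 K, ∏ a : {a // a ∈ A},
        nuk h R (z ^ u) k (psi a.1.1 (pt x a.1.2))) / (K : ℝ) := by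
      rw [hQ1]; dsimp only
      congr 1
      exact Finset.sum_congr rfl fun k _ => hP1 x k
    by_cases hx : Function.Injective (fun a : {a // a ∈ A} => psi a.1.1 (pt x a.1.2))
    · have := (hcorr z h R K M hz hh hzh hzR hRK hK _ hcardA
        (fun a : {a // a ∈ A} => psi a.1.1 (pt x a.1.2))).2 hx
      rw [← hq] at this
      have := (abs_le.mp this).1
      have := hcol10 x
      linarith
    · have h1 := hc1 x hx
      have h2 : 0 ≤ Q1 x := by
        rw [hQ1]; dsimp only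
        exact div_nonneg (Finset.sum_nonneg fun k _ => hP0 x k) hKpos.le
      have h3 : 0 ≤ C / z := by positivity
      linarith
  have hQ2u : ∀ x y, Q2 x y ≤ 1 + C / z +
      (B * (1 + Real.log R) ^ C1) * (col1 x + col1 y + col2 x y) := by
    intro x y
    have hq : Q2 x y = (∑ k ∈ Icc 1 K, ∏ a : {a // a ∈ A} ⊕ {a // a ∈ A},
        nuk h R (z ^ u) k (Sum.elim
          (fun a : {a // a ∈ A} => psi a.1.1 (pt x a.1.2))
          (fun a : {a // a ∈ A} => psi a.1.1 (pt y a.1.2)) a)) / (K : ℝ) := by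
      rw [hQ2]; dsimp only
      congr 1
      refine Finset.sum_congr rfl fun k _ => ?_
      rw [Fintype.prod_sum_type, hP1, hP1]
      rfl
    have hcor := hcorr z h R K M hz hh hzh hzR hRK hK _ hcardAA (Sum.elim
          (fun a : {a // a ∈ A} => psi a.1.1 (pt x a.1.2))
          (fun a : {a // a ∈ A} => psi a.1.1 (pt y a.1.2)))
    rw [← hq] at hcor
    have hBL : 0 ≤ B * (1 + Real.log R) ^ C1 := by positivity
    by_cases hxy : Function.Injective (Sum.elim
          (fun a : {a // a ∈ A} => psi a.1.1 (pt x a.1.2))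
          (fun a : {a // a ∈ A} => psi a.1.1 (pt y a.1.2)))
    · have h1 := (abs_le.mp (hcor.2 hxy)).2
      have h2 : 0 ≤ (B * (1 + Real.log R) ^ C1) * (col1 x + col1 y + col2 x y) :=
        mul_nonneg hBL (by have := hcol10 x; have := hcol10 y; have := hcol20 x y; linarith)
      linarith
    · have h1 := hc2 x y hxy
      have h2 := hcor.1
      have h3 : 0 ≤ C / z := by positivity
      have h4 : B * (1 + Real.log R) ^ C1 * 1 ≤
          B * (1 + Real.log R) ^ C1 * (col1 x + col1 y + col2 x y) :=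
        mul_le_mul_of_nonneg_left h1 hBL
      linarith
  -- expectations of the collision counts
  have hE1 : (𝔼 x : Fin 5 → Bool → ZMod M, col1 x) ≤ 6400 / M := by
    rw [hcol1]
    dsimp only
    rw [Finset.expect_sum_comm]
    have : ∀ q ∈ A.offDiag, (𝔼 x : Fin 5 → Bool → ZMod M, ee q.1 q.2 x x) = 1 / (M : ℝ) := by
      intro q hq
      rw [Finset.mem_offDiag] at hq
      exact e1 q.1 (hA hq.1) q.2 (hA hq.2.1) hq.2.2
    rw [Finset.sum_congr rfl this, Finset.sum_const, nsmul_eq_mul, mul_one_div]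
    refine div_le_div_of_nonneg_right ?_ hMpos.le
    have : A.offDiag.card ≤ 6400 := by
      rw [Finset.offDiag_card]
      have := Nat.mul_le_mul hAc hAc
      omega
    exact_mod_cast this
  have hE2 : (𝔼 x : Fin 5 → Bool → ZMod M, 𝔼 y : Fin 5 → Bool → ZMod M, col2 x y) ≤
      6400 / M := by
    rw [hcol2]
    dsimp only
    have h1 : ∀ x : Fin 5 → Bool → ZMod M, (𝔼 y : Fin 5 → Bool → ZMod M,
        ∑ q ∈ A ×ˢ A, ee q.1 q.2 x y) = ∑ q ∈ A ×ˢ A, 𝔼 y : Fin 5 → Bool → ZMod M,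
          ee q.1 q.2 x y := fun x => Finset.expect_sum_comm _ _ _
    simp only [h1]
    rw [Finset.expect_sum_comm]
    have : ∀ q ∈ A ×ˢ A, (𝔼 x : Fin 5 → Bool → ZMod M, 𝔼 y : Fin 5 → Bool → ZMod M,
        ee q.1 q.2 x y) = 1 / (M : ℝ) := by
      intro q hq
      rw [Finset.mem_product] at hq
      exact e2 q.1 (hA hq.1) q.2 (hA hq.2)
    rw [Finset.sum_congr rfl this, Finset.sum_const, nsmul_eq_mul, mul_one_div]
    refine div_le_div_of_nonneg_right ?_ hMpos.le
    have : (A ×ˢ A).card ≤ 6400 := by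
      rw [Finset.card_product]
      have := Nat.mul_le_mul hAc hAc
      omega
    exact_mod_cast this
  -- the expansion
  have hexp : (∑ k ∈ Icc 1 K, ((𝔼 x : Fin 5 → Bool → ZMod M,
        ∏ a ∈ A, nuk h R (z ^ u) k (psi a.1 (pt x a.2))) - 1) ^ 2) / (K : ℝ) =
      (𝔼 x : Fin 5 → Bool → ZMod M, 𝔼 y : Fin 5 → Bool → ZMod M, Q2 x y) -
        2 * (𝔼 x : Fin 5 → Bool → ZMod M, Q1 x) + 1 := by
    have hk : ∀ k, ((𝔼 x : Fin 5 → Bool → ZMod M, P x k) - 1) ^ 2 =
        (𝔼 x : Fin 5 → Bool → ZMod M, 𝔼 y : Fin 5 → Bool → ZMod M, P x k * P y k) -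
          2 * (𝔼 x : Fin 5 → Bool → ZMod M, P x k) + 1 := by
      intro k
      have : (𝔼 x : Fin 5 → Bool → ZMod M, 𝔼 y : Fin 5 → Bool → ZMod M, P x k * P y k) =
          (𝔼 x : Fin 5 → Bool → ZMod M, P x k) * (𝔼 y : Fin 5 → Bool → ZMod M, P y k) := by
        rw [Finset.expect_mul]
        refine Finset.expect_congr rfl fun x _ => ?_
        rw [Finset.mul_expect]
      rw [this]
      ring
    have hq2 : (𝔼 x : Fin 5 → Bool → ZMod M, 𝔼 y : Fin 5 → Bool → ZMod M, Q2 x y) =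
        (∑ k ∈ Icc 1 K, 𝔼 x : Fin 5 → Bool → ZMod M, 𝔼 y : Fin 5 → Bool → ZMod M,
          P x k * P y k) / (K : ℝ) := by
      have h1 : ∀ x, (𝔼 y : Fin 5 → Bool → ZMod M, Q2 x y) =
          (∑ k ∈ Icc 1 K, 𝔼 y : Fin 5 → Bool → ZMod M, P x k * P y k) / (K : ℝ) := by
        intro x
        rw [hQ2]; dsimp only
        rw [← Finset.expect_sum_comm, Finset.expect_div]
      simp only [h1]
      rw [← Finset.expect_sum_comm, Finset.expect_div]
    have hq1 : (𝔼 x : Fin 5 → Bool → ZMod M, Q1 x) =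
        (∑ k ∈ Icc 1 K, 𝔼 x : Fin 5 → Bool → ZMod M, P x k) / (K : ℝ) := by
      rw [hQ1]; dsimp only
      rw [← Finset.expect_sum_comm, Finset.expect_div]
    rw [hq2, hq1, Finset.sum_congr rfl (fun k _ => hk k), Finset.sum_add_distrib,
      Finset.sum_sub_distrib, ← Finset.mul_sum]
    have : (∑ _k ∈ Icc 1 K, (1 : ℝ)) = K := by simp
    rw [this]
    field_simp
  rw [hexp]
  have hb2 : (𝔼 x : Fin 5 → Bool → ZMod M, 𝔼 y : Fin 5 → Bool → ZMod M, Q2 x y) ≤
      1 + C / z + (B * (1 + Real.log R) ^ C1) * (19200 / M) := by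
    have h1 : (𝔼 x : Fin 5 → Bool → ZMod M, 𝔼 y : Fin 5 → Bool → ZMod M, Q2 x y) ≤
        𝔼 x : Fin 5 → Bool → ZMod M, 𝔼 y : Fin 5 → Bool → ZMod M, (1 + C / z +
          (B * (1 + Real.log R) ^ C1) * (col1 x + col1 y + col2 x y)) :=
      Finset.expect_le_expect fun x _ => Finset.expect_le_expect fun y _ => hQ2u x y
    have h2 : (𝔼 x : Fin 5 → Bool → ZMod M, 𝔼 y : Fin 5 → Bool → ZMod M, (1 + C / z +
          (B * (1 + Real.log R) ^ C1) * (col1 x + col1 y + col2 x y))) =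
        1 + C / z + (B * (1 + Real.log R) ^ C1) * ((𝔼 x : Fin 5 → Bool → ZMod M, col1 x) +
          (𝔼 x : Fin 5 → Bool → ZMod M, col1 x) +
          𝔼 x : Fin 5 → Bool → ZMod M, 𝔼 y : Fin 5 → Bool → ZMod M, col2 x y) := by
      simp only [Finset.expect_add_distrib, ← Finset.mul_expect,
        Finset.expect_const Finset.univ_nonempty]
    rw [h2] at h1
    refine h1.trans ?_
    have h3 : (𝔼 x : Fin 5 → Bool → ZMod M, col1 x) +
          (𝔼 x : Fin 5 → Bool → ZMod M, col1 x) +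
          (𝔼 x : Fin 5 → Bool → ZMod M, 𝔼 y : Fin 5 → Bool → ZMod M, col2 x y) ≤
          19200 / M := by
      have : (19200 : ℝ) / M = 6400 / M + 6400 / M + 6400 / M := by ring
      rw [this]
      linarith
    have hBL : 0 ≤ B * (1 + Real.log R) ^ C1 := by positivity
    have := mul_le_mul_of_nonneg_left h3 hBL
    linarith
  have hb1 : 1 - C / z - 6400 / M ≤ (𝔼 x : Fin 5 → Bool → ZMod M, Q1 x) := by
    have h1 : (𝔼 x : Fin 5 → Bool → ZMod M, (1 - C / z - col1 x)) ≤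
        𝔼 x : Fin 5 → Bool → ZMod M, Q1 x :=
      Finset.expect_le_expect fun x _ => hQ1l x
    have h2 : (𝔼 x : Fin 5 → Bool → ZMod M, (1 - C / z - col1 x)) =
        1 - C / z - 𝔼 x : Fin 5 → Bool → ZMod M, col1 x := by
      simp only [Finset.expect_sub_distrib, Finset.expect_const Finset.univ_nonempty]
    rw [h2] at h1
    linarith
  set L : ℝ := (1 + Real.log R) ^ C1 with hL
  have hfin : (B * L) * (19200 / M) = 19200 * B * L / M := by ring
  rw [hfin] at hb2
  have h12800 : (12800 : ℝ) / M ≤ 12800 * L / M := by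
    refine div_le_div_of_nonneg_right ?_ hMpos.le
    nlinarith
  have e3 : (2 : ℝ) * (6400 / M) = 12800 / M := by ring
  have e4 : (3 * C + 19200 * B + 12800) / (z : ℝ) +
      (3 * C + 19200 * B + 12800) * L / M = 3 * (C / z) + (19200 * B + 12800) / z +
        (3 * C * L / M + 19200 * B * L / M + 12800 * L / M) := by ring
  rw [e4]
  have e5 : 0 ≤ (19200 * B + 12800) / (z : ℝ) := by positivity
  have e6 : 0 ≤ 3 * C * L / M := by positivity
  linarith

end D159

end

section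

/-!
# MP_d159ed_nt, claim D7a
-/

set_option autoImplicit false

namespace D159

open Finset
open scoped BigOperators ArithmeticFunction.vonMangoldt

theorem claimD7a : ClaimD7a := by
  intro hD1
  refine ⟨64 * 384 ^ 4 * 512, fun z hz q _ hq χ hχ => ?_⟩
  have hz1 : 1 ≤ z := le_trans (by norm_num) hz
  have hzR : (64 * 384 ^ 4 * 512 : ℝ) ≤ z := by exact_mod_cast hz
  have hz1R : (1 : ℝ) ≤ z := by exact_mod_cast hz1
  set T : ℝ := (z : ℝ) ^ 6 with hT
  have hTz : (z : ℝ) ≤ T := by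
    rw [hT]
    calc (z : ℝ) = (z : ℝ) ^ 1 := (pow_one _).symm
      _ ≤ (z : ℝ) ^ 6 := pow_le_pow_right₀ hz1R (by norm_num)
  have hTbig : (64 * 384 ^ 4 * 512 : ℝ) ≤ T := hzR.trans hTz
  have hT1 : 1 ≤ T := hz1R.trans hTz
  have hT0 : 0 < T := by linarith
  have hη : eta z = 1 / T ^ 10 := by
    rw [eta, hT, ← pow_mul]
  have hη0 : 0 < eta z := by rw [hη]; positivity
  have hη1 : eta z ≤ 1 := by
    rw [hη, div_le_one (by positivity)]
    exact one_le_pow₀ hT1
  set η := eta z with hηdef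
  have hprod := DirichletCharacter.norm_LSeries_product_ge_one χ hη0 0
  rw [Complex.ofReal_zero, mul_zero, mul_zero, add_zero] at hprod
  have hcast : (1 : ℂ) + (η : ℂ) = ((1 + η : ℝ) : ℂ) := by push_cast; ring
  rw [hcast] at hprod
  rw [← ell_zero_eq χ (1 + η) (by linarith), ← ell_zero_eq (χ ^ 2) (1 + η) (by linarith)] at hprod
  have h1e : LSeries (fun n : ℕ => (1 : DirichletCharacter ℂ q) (n : ZMod q)) ((1 + η : ℝ) : ℂ) =
      ell (1 : DirichletCharacter ℂ q) (1 + η) 0 :=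
    (ell_zero_eq (1 : DirichletCharacter ℂ q) (1 + η) (by linarith)).symm
  rw [h1e, norm_mul, norm_mul, norm_pow, norm_pow] at hprod
  have hA := norm_ell_zero_le (1 : DirichletCharacter ℂ q) η hη0
  have hB := hD1 q (χ ^ 2) hχ (1 + η) (by linarith) (by linarith) 0
  rw [zero_add, pow_one] at hB
  have hlog : Real.log q ≤ T := by
    have hq0 : (0 : ℝ) < q := by
      have : 0 < q := NeZero.pos q
      exact_mod_cast this
    have := Real.log_le_log hq0 hq
    rwa [Real.log_exp] at this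
  have hlog0 : 0 ≤ Real.log q := Real.log_natCast_nonneg q
  have hA2 : ‖ell (1 : DirichletCharacter ℂ q) (1 + η) 0‖ ≤ 2 / η := by
    refine hA.trans ?_
    have : 1 ≤ 1 / η := by rw [le_div_iff₀ hη0]; linarith
    have e : 2 / η = 1 / η + 1 / η := by ring
    rw [e]; linarith
  have hB2 : ‖ell (χ ^ 2) (1 + η) 0‖ ≤ 8 * (1 + T) := by
    refine hB.trans ?_
    gcongr
  by_contra hcon
  push Not at hcon
  set A := ‖ell χ (1 + η) 0‖ with hAdef
  have hA0 : 0 ≤ A := norm_nonneg _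
  have h4 : A ^ 4 ≤ (384 * (1 + T) ^ 2 * η) ^ 4 := by gcongr
  have hfin : (1 : ℝ) ≤ (2 / η) ^ 3 * (384 * (1 + T) ^ 2 * η) ^ 4 * (8 * (1 + T)) := by
    refine le_trans hprod ?_
    gcongr
  have e : (2 / η) ^ 3 * (384 * (1 + T) ^ 2 * η) ^ 4 * (8 * (1 + T)) =
      64 * 384 ^ 4 * (1 + T) ^ 9 * η := by
    field_simp
    ring
  rw [e] at hfin
  have h9 : (1 + T) ^ 9 ≤ 512 * T ^ 9 := by
    calc (1 + T) ^ 9 ≤ (2 * T) ^ 9 := by gcongr; linarith
      _ = 512 * T ^ 9 := by ring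
  have hlt : (1 + T) ^ 9 < 512 * T ^ 9 := by
    have hT2 : 1 + T < 2 * T := by
      have : (1 : ℝ) < 64 * 384 ^ 4 * 512 := by norm_num
      linarith
    calc (1 + T) ^ 9 < (2 * T) ^ 9 := by gcongr
      _ = 512 * T ^ 9 := by ring
  have hlast : 64 * 384 ^ 4 * (1 + T) ^ 9 * η < 1 := by
    rw [hη, mul_one_div, div_lt_one (by positivity)]
    calc 64 * 384 ^ 4 * (1 + T) ^ 9 < 64 * 384 ^ 4 * (512 * T ^ 9) := by gcongr
      _ = (64 * 384 ^ 4 * 512) * T ^ 9 := by ring
      _ ≤ T * T ^ 9 := by gcongr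
      _ = T ^ 10 := by ring
  linarith

end D159

end

section

/-!
# MP_d159ed_nt, claim D7b
-/

set_option autoImplicit false

namespace D159

open Finset
open scoped BigOperators ArithmeticFunction.vonMangoldt

namespace D7b

/-- the combination of the four Euler factors -/
lemma comb_nonneg (a : ℝ) (ha0 : 0 ≤ a) (ha1 : a < 1) (u v : ℂ)
    (hu : u = 0 ∨ u = 1 ∨ u = -1) (hv : v = 0 ∨ v = 1 ∨ v = -1) :
    0 ≤ (-Complex.log (1 - 1 * (a : ℂ))).re + (-Complex.log (1 - u * (a : ℂ))).re +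
      (-Complex.log (1 - v * (a : ℂ))).re + (-Complex.log (1 - u * v * (a : ℂ))).re := by
  simp only [Complex.neg_re, Complex.log_re]
  have n1 : ‖(1 : ℂ) - (a : ℂ)‖ = 1 - a := by
    rw [show (1 : ℂ) - (a : ℂ) = ((1 - a : ℝ) : ℂ) by push_cast; ring, Complex.norm_real,
      Real.norm_of_nonneg (by linarith)]
  have n2 : ‖(1 : ℂ) + (a : ℂ)‖ = 1 + a := by
    rw [show (1 : ℂ) + (a : ℂ) = ((1 + a : ℝ) : ℂ) by push_cast; ring, Complex.norm_real,
      Real.norm_of_nonneg (by linarith)]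
  have l1 : Real.log (1 - a) ≤ 0 := Real.log_nonpos (by linarith) (by linarith)
  have l2 : Real.log (1 - a) + Real.log (1 + a) ≤ 0 := by
    rw [← Real.log_mul (by linarith) (by linarith)]
    exact Real.log_nonpos (by nlinarith) (by nlinarith)
  rcases hu with rfl | rfl | rfl <;> rcases hv with rfl | rfl | rfl <;>
    simp only [one_mul, zero_mul, mul_zero, mul_one, sub_zero, neg_mul, sub_neg_eq_add, norm_one,
      Real.log_one, neg_zero, add_zero, mul_neg, neg_neg, n1, n2] <;> linarith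

theorem prod_ge_one {q1 q2 : ℕ} (χ1 : DirichletCharacter ℂ q1)
    (χ2 : DirichletCharacter ℂ q2) (h1 : χ1 ^ 2 = 1) (h2 : χ2 ^ 2 = 1) (σ : ℝ) (hσ : 1 < σ) :
    1 ≤ ‖ell (1 : DirichletCharacter ℂ 1) σ 0‖ * ‖ell χ1 σ 0‖ * ‖ell χ2 σ 0‖ *
      ‖ell (mulCh χ1 χ2) σ 0‖ := by
  have hs : 1 < ((σ : ℂ)).re := by simpa using hσ
  rw [ell_zero_eq _ σ hσ, ell_zero_eq _ σ hσ, ell_zero_eq _ σ hσ, ell_zero_eq _ σ hσ]
  have H0 := DirichletCharacter.summable_neg_log_one_sub_mul_prime_cpow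
    (1 : DirichletCharacter ℂ 1) hs
  have H1 := DirichletCharacter.summable_neg_log_one_sub_mul_prime_cpow χ1 hs
  have H2 := DirichletCharacter.summable_neg_log_one_sub_mul_prime_cpow χ2 hs
  have H3 := DirichletCharacter.summable_neg_log_one_sub_mul_prime_cpow (mulCh χ1 χ2) hs
  have S0 := (Complex.hasSum_re H0.hasSum).summable
  have S1 := (Complex.hasSum_re H1.hasSum).summable
  have S2 := (Complex.hasSum_re H2.hasSum).summable
  have S3 := (Complex.hasSum_re H3.hasSum).summable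
  rw [← DirichletCharacter.LSeries_eulerProduct_exp_log _ hs,
    ← DirichletCharacter.LSeries_eulerProduct_exp_log χ1 hs,
    ← DirichletCharacter.LSeries_eulerProduct_exp_log χ2 hs,
    ← DirichletCharacter.LSeries_eulerProduct_exp_log (mulCh χ1 χ2) hs,
    Complex.norm_exp, Complex.norm_exp, Complex.norm_exp, Complex.norm_exp,
    ← Real.exp_add, ← Real.exp_add, ← Real.exp_add, Real.one_le_exp_iff,
    Complex.re_tsum H0, Complex.re_tsum H1, Complex.re_tsum H2, Complex.re_tsum H3,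
    ← S0.tsum_add S1, ← (S0.add S1).tsum_add S2, ← ((S0.add S1).add S2).tsum_add S3]
  refine tsum_nonneg (fun p => ?_)
  have hp : (1 : ℝ) < ((p : ℕ) : ℝ) := by exact_mod_cast p.prop.one_lt
  have hp0 : (0 : ℝ) ≤ ((p : ℕ) : ℝ) := by linarith
  have hcp : ((p : ℕ) : ℂ) ^ (-(σ : ℂ)) = ((((p : ℕ) : ℝ) ^ (-σ) : ℝ) : ℂ) := by
    rw [Complex.ofReal_cpow hp0]; push_cast; rfl
  have ha1 : ((p : ℕ) : ℝ) ^ (-σ) < 1 := by
    rw [Real.rpow_neg hp0]
    exact inv_lt_one_of_one_lt₀ (Real.one_lt_rpow hp (by linarith))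
  have h := comb_nonneg (((p : ℕ) : ℝ) ^ (-σ)) (by positivity) ha1 (χ1 ((p : ℕ) : ZMod q1))
    (χ2 ((p : ℕ) : ZMod q2)) (char_cases χ1 h1 _) (char_cases χ2 h2 _)
  have hone : (1 : DirichletCharacter ℂ 1) ((p : ℕ) : ZMod 1) = 1 :=
    MulChar.one_apply (isUnit_of_subsingleton _)
  rw [hcp, mulCh_apply, hone]
  exact h

end D7b

theorem claimD7b : ClaimD7b := by
  intro hD1 q1 q2 _ _ χ1 χ2 h1 h2 hne η hη0 hη1
  have h := D7b.prod_ge_one χ1 χ2 h1 h2 (1 + η) (by linarith)
  have hz := norm_ell_zero_le (1 : DirichletCharacter ℂ 1) η hη0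
  have hz2 : ‖ell (1 : DirichletCharacter ℂ 1) (1 + η) 0‖ ≤ 2 / η := by
    refine hz.trans ?_
    have : 1 ≤ 1 / η := by rw [le_div_iff₀ hη0]; linarith
    have e : 2 / η = 1 / η + 1 / η := by ring
    rw [e]; linarith
  have hB := hD1 (q1 * q2) (mulCh χ1 χ2) hne (1 + η) (by linarith) (by linarith) 0
  rw [zero_add, pow_one] at hB
  have hq1 : (0 : ℝ) < q1 := by exact_mod_cast NeZero.pos q1
  have hq2 : (0 : ℝ) < q2 := by exact_mod_cast NeZero.pos q2
  have hl : Real.log ((q1 * q2 : ℕ) : ℝ) = Real.log q1 + Real.log q2 := by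
    push_cast
    rw [Real.log_mul hq1.ne' hq2.ne']
  rw [hl] at hB
  have hl1 := Real.log_natCast_nonneg q1
  have hl2 := Real.log_natCast_nonneg q2
  set A1 := ‖ell χ1 (1 + η) 0‖
  set A2 := ‖ell χ2 (1 + η) 0‖
  have hA1 : 0 ≤ A1 := norm_nonneg _
  have hA2 : 0 ≤ A2 := norm_nonneg _
  rw [div_le_iff₀ (by positivity)]
  have h3 : (1 : ℝ) ≤ 2 / η * A1 * A2 * (8 * (1 + (Real.log q1 + Real.log q2))) := by
    refine h.trans ?_
    gcongr
  have h4 : η * 1 ≤ η * (2 / η * A1 * A2 * (8 * (1 + (Real.log q1 + Real.log q2)))) := by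
    gcongr
  have e : η * (2 / η * A1 * A2 * (8 * (1 + (Real.log q1 + Real.log q2)))) =
      A1 * A2 * (16 * (1 + Real.log q1 + Real.log q2)) := by
    field_simp
    ring
  rw [e, mul_one] at h4
  exact h4

end D159

end

section

/-!
# MP_d159ed_nt, claim D7c
-/

set_option autoImplicit false

namespace D159

open Finset
open scoped BigOperators ArithmeticFunction.vonMangoldt

namespace D7c

/-- product of 1 - 1/p over a finite set of integers at least 2 -/
lemma prod_ge (S : Finset ℕ) : (∀ p ∈ S, 2 ≤ p) →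
    1 / ((S.card : ℝ) + 1) ≤ ∏ p ∈ S, (1 - 1 / (p : ℝ)) := by
  induction S using Finset.induction_on_max with
  | empty => intro _; simp
  | insert a s hmax ih =>
    intro h
    have has : a ∉ s := fun h' => lt_irrefl _ (hmax a h')
    rw [prod_insert has, card_insert_of_notMem has]
    have ih' := ih (fun p hp => h p (mem_insert_of_mem hp))
    have ha2 : 2 ≤ a := h a (mem_insert_self a s)
    have hcard : s.card + 2 ≤ a := by
      have hsub : s ⊆ Finset.Ico 2 a := by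
        intro x hx
        rw [mem_Ico]
        exact ⟨h x (mem_insert_of_mem hx), hmax x hx⟩
      have := card_le_card hsub
      rw [Nat.card_Ico] at this
      omega
    have haR : ((s.card : ℝ) + 2) ≤ a := by exact_mod_cast hcard
    have hc : (0 : ℝ) ≤ s.card := Nat.cast_nonneg _
    have h1 : (1 : ℝ) - 1 / ((s.card : ℝ) + 2) ≤ 1 - 1 / (a : ℝ) := by
      have : 1 / (a : ℝ) ≤ 1 / ((s.card : ℝ) + 2) := by
        apply one_div_le_one_div_of_le <;> linarith
      linarith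
    have e : 1 / (((s.card + 1 : ℕ) : ℝ) + 1) =
        (1 - 1 / ((s.card : ℝ) + 2)) * (1 / ((s.card : ℝ) + 1)) := by
      push_cast
      field_simp
      ring
    rw [e]
    have h2 : (0 : ℝ) ≤ 1 - 1 / ((s.card : ℝ) + 2) := by
      have : 1 / ((s.card : ℝ) + 2) ≤ 1 := by
        rw [div_le_one (by linarith)]; linarith
      linarith
    exact mul_le_mul h1 ih' (by positivity) (h2.trans h1)

lemma card_primeFactors_le (q : ℕ) (hq : 1 ≤ q) :
    ((q.primeFactors.card : ℝ) + 1) ≤ 2 + 2 * Real.log q := by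
  have h1 : 2 ^ q.primeFactors.card ≤ q := by
    refine (Finset.pow_card_le_prod _ (fun p => p) 2 (fun p hp =>
      (Nat.prime_of_mem_primeFactors hp).two_le)).trans ?_
    exact Nat.le_of_dvd hq (Nat.prod_primeFactors_dvd q)
  have hq0 : (0 : ℝ) < q := by exact_mod_cast hq
  have h2 : (q.primeFactors.card : ℝ) * Real.log 2 ≤ Real.log q := by
    rw [← Real.log_pow]
    apply Real.log_le_log (by positivity)
    exact_mod_cast h1
  have h3 := Real.log_two_gt_d9
  have h4 : (0 : ℝ) ≤ q.primeFactors.card := Nat.cast_nonneg _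
  nlinarith

lemma card_primeFactors_le' (q : ℕ) : q.primeFactors.card ≤ q := by
  rcases Nat.eq_zero_or_pos q with rfl | hq
  · simp
  have h1 : 2 ^ q.primeFactors.card ≤ q := by
    refine (Finset.pow_card_le_prod _ (fun p => p) 2 (fun p hp =>
      (Nat.prime_of_mem_primeFactors hp).two_le)).trans ?_
    exact Nat.le_of_dvd hq (Nat.prod_primeFactors_dvd q)
  exact (Nat.lt_two_pow_self).le.trans h1

end D7c

theorem claimD7c : ClaimD7c := by
  intro q1 q2 _ _ χ1 χ2 h1 h2 hmul σ hσ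
  have hq1 : 0 < q1 := NeZero.pos q1
  have hq2 : 0 < q2 := NeZero.pos q2
  have : NeZero (q1 * q2) := ⟨(Nat.mul_pos hq1 hq2).ne'⟩
  have hs : 1 < ((σ : ℂ)).re := by simpa using hσ
  have hlev : DirichletCharacter.changeLevel (Dvd.intro q2 rfl : q1 ∣ q1 * q2) χ1 =
      DirichletCharacter.changeLevel (Dvd.intro_left q1 rfl : q2 ∣ q1 * q2) χ2 := by
    have hsq : (DirichletCharacter.changeLevel (Dvd.intro_left q1 rfl : q2 ∣ q1 * q2) χ2) ^ 2
        = 1 := by
      rw [← map_pow, h2, map_one]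
    have hm : DirichletCharacter.changeLevel (Dvd.intro q2 rfl : q1 ∣ q1 * q2) χ1 *
      DirichletCharacter.changeLevel (Dvd.intro_left q1 rfl : q2 ∣ q1 * q2) χ2 = 1 := hmul
    set A := DirichletCharacter.changeLevel (Dvd.intro q2 rfl : q1 ∣ q1 * q2) χ1
    set B := DirichletCharacter.changeLevel (Dvd.intro_left q1 rfl : q2 ∣ q1 * q2) χ2
    calc A = A * (B ^ 2) := by rw [hsq, mul_one]
      _ = A * B * B := by rw [sq, mul_assoc]
      _ = B := by rw [hm, one_mul]
  have e1 := DirichletCharacter.LSeries_changeLevel (Dvd.intro q2 rfl : q1 ∣ q1 * q2) χ1 hs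
  have e2 := DirichletCharacter.LSeries_changeLevel (Dvd.intro_left q1 rfl : q2 ∣ q1 * q2) χ2 hs
  rw [hlev, e2, ← ell_zero_eq χ1 σ hσ, ← ell_zero_eq χ2 σ hσ] at e1
  have e3 := congrArg norm e1
  rw [norm_mul, norm_mul, norm_prod, norm_prod] at e3
  -- bounds for the factors
  have hfac : ∀ p ∈ (q1 * q2).primeFactors, ‖(p : ℂ) ^ (-(σ : ℂ))‖ ≤ 1 / (p : ℝ) ∧
      (2 : ℝ) ≤ p := by
    intro p hp
    have hp2 : 2 ≤ p := (Nat.prime_of_mem_primeFactors hp).two_le
    have hp2R : (2 : ℝ) ≤ p := by exact_mod_cast hp2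
    refine ⟨?_, hp2R⟩
    have hcp : (p : ℂ) ^ (-(σ : ℂ)) = (((p : ℝ) ^ (-σ) : ℝ) : ℂ) := by
      rw [Complex.ofReal_cpow (by positivity)]; push_cast; rfl
    rw [hcp, Complex.norm_real, Real.norm_of_nonneg (by positivity), one_div,
      ← Real.rpow_neg_one]
    exact Real.rpow_le_rpow_of_exponent_le (by linarith) (by linarith)
  have hP1 : ∏ p ∈ (q1 * q2).primeFactors, ‖1 - χ1 (p : ZMod q1) * (p : ℂ) ^ (-(σ : ℂ))‖ ≤
      2 ^ q2 := by
    have hpf : (q1 * q2).primeFactors = (q1 * q2).primeFactors.filter (fun p => p ∣ q1) ∪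
        (q1 * q2).primeFactors.filter (fun p => ¬ p ∣ q1) := (filter_union_filter_not_eq _ _).symm
    rw [hpf, prod_union (disjoint_filter_filter_not _ _ _)]
    have hA : ∏ p ∈ (q1 * q2).primeFactors.filter (fun p => p ∣ q1),
        ‖1 - χ1 (p : ZMod q1) * (p : ℂ) ^ (-(σ : ℂ))‖ = 1 := by
      apply prod_eq_one
      intro p hp
      rw [mem_filter] at hp
      have hpp := Nat.prime_of_mem_primeFactors hp.1
      rw [char_not_coprime χ1 p (fun hc => by
        have := Nat.Coprime.eq_one_of_dvd hc hp.2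
        exact hpp.one_lt.ne' this)]
      simp
    rw [hA, one_mul]
    have hB : ∏ p ∈ (q1 * q2).primeFactors.filter (fun p => ¬ p ∣ q1),
        ‖1 - χ1 (p : ZMod q1) * (p : ℂ) ^ (-(σ : ℂ))‖ ≤
        ∏ _p ∈ (q1 * q2).primeFactors.filter (fun p => ¬ p ∣ q1), (2 : ℝ) := by
      refine prod_le_prod (fun p _ => norm_nonneg _) (fun p hp => ?_)
      have hp' := mem_of_mem_filter p hp
      obtain ⟨hn, hp2⟩ := hfac p hp'
      refine (norm_sub_le _ _).trans ?_
      rw [norm_one, norm_mul]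
      have h3 : ‖χ1 (p : ZMod q1)‖ ≤ 1 := χ1.norm_le_one _
      have h4 : 1 / (p : ℝ) ≤ 1 := by rw [div_le_one (by linarith)]; linarith
      have h5 : ‖χ1 (p : ZMod q1)‖ * ‖(p : ℂ) ^ (-(σ : ℂ))‖ ≤ 1 * 1 := by
        gcongr
        exact hn.trans h4
      linarith
    refine hB.trans ?_
    rw [prod_const]
    apply pow_le_pow_right₀ (by norm_num)
    refine le_trans (card_le_card ?_) (D7c.card_primeFactors_le' q2)
    intro p hp
    rw [mem_filter, Nat.mem_primeFactors] at hp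
    rw [Nat.mem_primeFactors]
    refine ⟨hp.1.1, ?_, hq2.ne'⟩
    exact ((Nat.Prime.dvd_mul hp.1.1).mp hp.1.2.1).resolve_left hp.2
  have hP2 : 1 / (2 + 2 * Real.log q1) ≤
      ∏ p ∈ (q1 * q2).primeFactors, ‖1 - χ2 (p : ZMod q2) * (p : ℂ) ^ (-(σ : ℂ))‖ := by
    have hpf : (q1 * q2).primeFactors = (q1 * q2).primeFactors.filter (fun p => p ∣ q2) ∪
        (q1 * q2).primeFactors.filter (fun p => ¬ p ∣ q2) := (filter_union_filter_not_eq _ _).symm
    rw [hpf, prod_union (disjoint_filter_filter_not _ _ _)]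
    have hA : ∏ p ∈ (q1 * q2).primeFactors.filter (fun p => p ∣ q2),
        ‖1 - χ2 (p : ZMod q2) * (p : ℂ) ^ (-(σ : ℂ))‖ = 1 := by
      apply prod_eq_one
      intro p hp
      rw [mem_filter] at hp
      have hpp := Nat.prime_of_mem_primeFactors hp.1
      rw [char_not_coprime χ2 p (fun hc => by
        have := Nat.Coprime.eq_one_of_dvd hc hp.2
        exact hpp.one_lt.ne' this)]
      simp
    rw [hA, one_mul]
    set S := (q1 * q2).primeFactors.filter (fun p => ¬ p ∣ q2) with hS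
    have hSq : S ⊆ q1.primeFactors := by
      intro p hp
      rw [hS, mem_filter, Nat.mem_primeFactors] at hp
      rw [Nat.mem_primeFactors]
      refine ⟨hp.1.1, ?_, hq1.ne'⟩
      exact ((Nat.Prime.dvd_mul hp.1.1).mp hp.1.2.1).resolve_right hp.2
    have hB : ∏ p ∈ S, (1 - 1 / (p : ℝ)) ≤
        ∏ p ∈ S, ‖1 - χ2 (p : ZMod q2) * (p : ℂ) ^ (-(σ : ℂ))‖ := by
      refine prod_le_prod (fun p hp => ?_) (fun p hp => ?_)
      · have hp' := mem_of_mem_filter p hp
        obtain ⟨hn, hp2⟩ := hfac p hp'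
        have h4 : 1 / (p : ℝ) ≤ 1 := by rw [div_le_one (by linarith)]; linarith
        linarith
      · have hp' := mem_of_mem_filter p hp
        obtain ⟨hn, hp2⟩ := hfac p hp'
        have h3 : ‖χ2 (p : ZMod q2)‖ ≤ 1 := χ2.norm_le_one _
        have h5 : ‖χ2 (p : ZMod q2) * (p : ℂ) ^ (-(σ : ℂ))‖ ≤ 1 / (p : ℝ) := by
          rw [norm_mul]
          calc _ ≤ 1 * (1 / (p : ℝ)) := by gcongr
            _ = _ := one_mul _
        have h6 := norm_sub_norm_le (1 : ℂ) (χ2 (p : ZMod q2) * (p : ℂ) ^ (-(σ : ℂ)))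
        rw [norm_one] at h6
        linarith
    refine le_trans ?_ hB
    have h7 := D7c.prod_ge S (fun p hp =>
      (Nat.prime_of_mem_primeFactors (mem_of_mem_filter p hp)).two_le)
    refine le_trans ?_ h7
    have h8 : (S.card : ℝ) + 1 ≤ 2 + 2 * Real.log q1 := by
      have h9 := D7c.card_primeFactors_le q1 hq1
      have h10 : (S.card : ℝ) ≤ q1.primeFactors.card := by exact_mod_cast card_le_card hSq
      linarith
    have h12 : (0 : ℝ) < (S.card : ℝ) + 1 := by
      have : (0 : ℝ) ≤ (S.card : ℝ) := Nat.cast_nonneg _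
      linarith
    exact one_div_le_one_div_of_le h12 h8
  have hlog0 : 0 ≤ Real.log q1 := Real.log_natCast_nonneg q1
  have hL : 0 < 2 + 2 * Real.log q1 := by linarith
  set P1 := ∏ p ∈ (q1 * q2).primeFactors, ‖1 - χ1 (p : ZMod q1) * (p : ℂ) ^ (-(σ : ℂ))‖
  set P2 := ∏ p ∈ (q1 * q2).primeFactors, ‖1 - χ2 (p : ZMod q2) * (p : ℂ) ^ (-(σ : ℂ))‖
  set A1 := ‖ell χ1 σ 0‖
  set A2 := ‖ell χ2 σ 0‖
  have hA1 : 0 ≤ A1 := norm_nonneg _
  have hA2 : 0 ≤ A2 := norm_nonneg _
  -- A2 * P2 = A1 * P1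
  have h11 : A2 * (1 / (2 + 2 * Real.log q1)) ≤ A1 * 2 ^ q2 := by
    calc A2 * (1 / (2 + 2 * Real.log q1)) ≤ A2 * P2 := by gcongr
      _ = A1 * P1 := e3
      _ ≤ A1 * 2 ^ q2 := by gcongr
  rw [mul_one_div, div_le_iff₀ hL] at h11
  calc A2 ≤ A1 * 2 ^ q2 * (2 + 2 * Real.log q1) := h11
    _ = _ := by ring

end D159

end

section

/-!
# MP_d159ed_nt, part F: assembly
-/

set_option autoImplicit false

namespace D159

open Finset
open scoped BigOperators

/-- F1: few k have a prime factor congruent to 1 mod h. -/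
def ClaimF1 : Prop :=
  ∀ h K : ℕ, 1 ≤ h → 1 ≤ K →
    (((Icc 1 K).filter (fun k => ∃ q ∈ k.primeFactors, h ∣ q - 1)).card : ℝ) ≤
      (K : ℝ) * (1 + Real.log K) / h

/-- F2: a progression in ZMod M with all representatives in [1,Y], 2Y < M, d nonzero, comes
from a progression of integers. -/
def ClaimF2 : Prop :=
  ∀ (M : ℕ) [NeZero M] (Y : ℕ) (x d : ZMod M), 2 * Y < M → d ≠ 0 →
    (∀ i : Fin 5, 1 ≤ (x + (i : ℕ) * d).val ∧ (x + (i : ℕ) * d).val ≤ Y) →
    ∃ (w e : ℕ), 0 < e ∧ (∀ i : ℕ, i < 5 → ∃ j : Fin 5, w + i * e = (x + (j : ℕ) * d).val)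

/-- F3: for good large z there is a 5-term progression in S with all 1 + k h0 w prime. -/
def PrimeAP : Prop :=
  ∃ u : ℕ, ∃ z1 : ℕ, ∀ z ≥ z1, GoodZ z →
    ∃ k : ℕ, 1 ≤ k ∧ (∀ q : ℕ, q.Prime → q ∣ k → ¬ h0 u z ∣ q - 1) ∧
      ∃ w e : ℕ, 0 < e ∧ ∀ i : ℕ, i < 5 →
        w + i * e ∈ Sset u z ∧ (1 + h0 u z * k * (w + i * e)).Prime

/-- F3. -/
def ClaimF3 : Prop :=
  RelSzem5 → SecondMoment → ClaimC1 → ClaimC8 → PrimesInS → ClaimE1 → ClaimE2 → ClaimF1 →
    ClaimF2 → PrimeAP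

/-- F4: the end. -/
theorem final (h1 : PrimeAP) (h2 : GoodZInfinite) (h3 : ClaimE2) (h4 : NCong) (h5 : ClaimE4) :
    Set.Infinite {p : ℕ × ℕ | 0 < p.2 ∧ ∀ i : ℕ, i < 5 →
      (1 < p.1 + i * p.2 ∧ ¬ (p.1 + i * p.2).Prime ∧
        (p.1 + i * p.2) ∣ 2 ^ (p.1 + i * p.2) - 2)} := by
  obtain ⟨u, z1, hz1⟩ := h1
  obtain ⟨z2, hz2⟩ := h3 u
  obtain ⟨z3, hz3⟩ := h4 u
  intro hfin
  obtain ⟨B, hB⟩ := (hfin.image Prod.fst).bddAbove
  obtain ⟨z, hz, hgood⟩ := h2 (z1 + z2 + z3 + B + 3)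
  obtain ⟨k, hk1, hkq, w, e, he, hap⟩ := hz1 z (by omega) hgood
  obtain ⟨-, hh0, -⟩ := hz2 z (by omega)
  have hN := hz3 z (by omega) k hk1 hkq
  set n := h0 u z * k with hn
  have hz3' : 3 ≤ z := by omega
  have h8 : 8 ∣ n := by
    have : (2 : ℕ) ^ 3 ∣ 2 ^ (2 ^ bz u z * z ^ 2) := by
      apply pow_dvd_pow
      have h2 : 1 ≤ 2 ^ bz u z := Nat.one_le_two_pow
      nlinarith
    have h8' : 8 ∣ h0 u z := by
      unfold h0
      exact Dvd.dvd.mul_right (Dvd.dvd.mul_right (by simpa using this) _) _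
    exact Dvd.dvd.mul_right h8' _
  have hh0pos : 0 < h0 u z := lt_of_lt_of_le (by positivity) hh0
  have hnpos : 1 ≤ n := Nat.mul_pos hh0pos hk1
  have hzh : z ≤ n := by
    have h1 : z ≤ 2 ^ z ^ 2 := by
      have : z < 2 ^ z := Nat.lt_two_pow_self
      have h2 : 2 ^ z ≤ 2 ^ z ^ 2 := Nat.pow_le_pow_right (by norm_num) (by nlinarith)
      omega
    calc z ≤ 2 ^ z ^ 2 := h1
      _ ≤ h0 u z := hh0
      _ ≤ n := Nat.le_mul_of_pos_right _ hk1
  have hterm : ∀ i : ℕ, i < 5 →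
      Ncyc n * (1 + n * w) + i * (Ncyc n * (n * e)) = Ncyc n * (1 + n * (w + i * e)) := by
    intro i _; ring
  have hps : ∀ i : ℕ, i < 5 → 1 < Ncyc n ∧ ¬ (Ncyc n * (1 + n * (w + i * e))).Prime ∧
      (Ncyc n * (1 + n * (w + i * e))) ∣ 2 ^ (Ncyc n * (1 + n * (w + i * e))) - 2 := by
    intro i hi
    obtain ⟨hS, hpr⟩ := hap i hi
    have hodd : Odd (w + i * e) := by
      have := hS
      simp only [Sset, mem_filter] at this
      exact this.2.1
    exact h5 n (w + i * e) h8 hnpos hodd hpr (hN _ hS)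
  have hN1 : 1 < Ncyc n := (hps 0 (by norm_num)).1
  have hw : 1 ≤ w := by
    have := (hap 0 (by norm_num)).1
    simp only [Sset, mem_filter, mem_Icc] at this
    omega
  have hmem : (Ncyc n * (1 + n * w), Ncyc n * (n * e)) ∈ {p : ℕ × ℕ | 0 < p.2 ∧ ∀ i : ℕ, i < 5 →
      (1 < p.1 + i * p.2 ∧ ¬ (p.1 + i * p.2).Prime ∧
        (p.1 + i * p.2) ∣ 2 ^ (p.1 + i * p.2) - 2)} := by
    refine ⟨by positivity, ?_⟩
    intro i hi
    simp only
    rw [hterm i hi]
    refine ⟨?_, (hps i hi).2.1, (hps i hi).2.2⟩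
    calc 1 < Ncyc n := hN1
      _ ≤ Ncyc n * (1 + n * (w + i * e)) := Nat.le_mul_of_pos_right _ (by positivity)
  have hle : Ncyc n * (1 + n * w) ≤ B := hB ⟨_, hmem, rfl⟩
  have : n ≤ Ncyc n * (1 + n * w) := by
    calc n ≤ 1 + n * w := by nlinarith
      _ ≤ Ncyc n * (1 + n * w) := Nat.le_mul_of_pos_left _ (by omega)
  omega

end D159

end

section

/-!
# MP_d159ed_nt, part C, item C4: the average over k is the model sum up to a small error
-/

set_option autoImplicit false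

namespace D159

open Finset
open scoped BigOperators

namespace C4

/-- Counting an arithmetic progression in an initial interval. -/
lemma count_modEq (K m v : ℕ) (hm : 0 < m) :
    |(((Icc 1 K).filter (fun k => k ≡ v [MOD m])).card : ℝ) - (K : ℝ) / (m : ℝ)| ≤ 1 := by
  have h0 : (Icc 1 K) = Ioc 0 K := by
    ext x; simp [mem_Icc, mem_Ioc, Nat.succ_le_iff]
  have h1 := Nat.Ioc_filter_modEq_card 0 K hm v
  rw [h0]
  set c := ((Ioc 0 K).filter (fun k => k ≡ v [MOD m])).card with hc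
  have hmq : (0 : ℚ) < (m : ℚ) := by exact_mod_cast hm
  have hf1 := Int.floor_le (((K : ℕ) - v : ℚ) / (m : ℚ))
  have hf2 := Int.lt_floor_add_one (((K : ℕ) - v : ℚ) / (m : ℚ))
  have hg1 := Int.floor_le ((((0 : ℕ) : ℚ) - v : ℚ) / (m : ℚ))
  have hg2 := Int.lt_floor_add_one ((((0 : ℕ) : ℚ) - v : ℚ) / (m : ℚ))
  have hdiff : (((K : ℕ) - v : ℚ) / (m : ℚ)) - ((((0 : ℕ) : ℚ) - v : ℚ) / (m : ℚ)) = (K : ℚ) / m := by
    field_simp
    push_cast
    ring
  have hK : (0 : ℚ) ≤ (K : ℚ) / m := by positivity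
  have hle : ⌊((((0 : ℕ) : ℚ) - v : ℚ) / (m : ℚ))⌋ ≤ ⌊(((K : ℕ) - v : ℚ) / (m : ℚ))⌋ := by
    apply Int.floor_mono
    linarith
  have hmax : (c : ℤ) = ⌊(((K : ℕ) - v : ℚ) / (m : ℚ))⌋ - ⌊((((0 : ℕ) : ℚ) - v : ℚ) / (m : ℚ))⌋ := by
    rw [hc, h1, max_eq_left]
    linarith
  have hcq : (c : ℚ) = (⌊(((K : ℕ) - v : ℚ) / (m : ℚ))⌋ : ℚ) -
      (⌊((((0 : ℕ) : ℚ) - v : ℚ) / (m : ℚ))⌋ : ℚ) := by
    have := congrArg (Int.cast : ℤ → ℚ) hmax
    push_cast at this
    exact_mod_cast this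
  have hq : |(c : ℚ) - (K : ℚ) / m| ≤ 1 := by
    rw [abs_le]
    constructor <;> linarith
  have := (Rat.cast_le (K := ℝ)).mpr hq
  push_cast at this
  exact this

/-- Conditions modulo distinct primes, each with at most one solution. -/
lemma count_crt (Q : Finset ℕ) (hQ : ∀ p ∈ Q, p.Prime) (c : ℕ → ℕ → Prop)
    [∀ p, DecidablePred (c p)] (hper : ∀ p ∈ Q, ∀ k, c p (k % p) ↔ c p k)
    (hN : ∀ p ∈ Q, ((range p).filter (c p)).card ≤ 1) (K : ℕ) :
    |(((Icc 1 K).filter (fun k => ∀ p ∈ Q, c p k)).card : ℝ) -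
      (K : ℝ) * ∏ p ∈ Q, (((range p).filter (c p)).card : ℝ) / (p : ℝ)| ≤ 1 := by
  by_cases hz : ∃ p ∈ Q, ((range p).filter (c p)).card = 0
  · obtain ⟨p, hp, hp0⟩ := hz
    have h1 : ∏ p ∈ Q, (((range p).filter (c p)).card : ℝ) / (p : ℝ) = 0 := by
      apply Finset.prod_eq_zero hp
      rw [hp0]; simp
    have h2 : (Icc 1 K).filter (fun k => ∀ p ∈ Q, c p k) = ∅ := by
      apply Finset.filter_eq_empty_iff.mpr
      intro k _ hk
      have h3 := hk p hp
      rw [← hper p hp] at h3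
      have h4 : k % p ∈ (range p).filter (c p) := by
        rw [mem_filter, mem_range]
        exact ⟨Nat.mod_lt _ (hQ p hp).pos, h3⟩
      rw [Finset.card_eq_zero] at hp0
      rw [hp0] at h4
      exact Finset.notMem_empty _ h4
    rw [h1, h2]
    simp
  · push Not at hz
    have hone : ∀ p ∈ Q, ((range p).filter (c p)).card = 1 := by
      intro p hp
      have := hz p hp
      have := hN p hp
      omega
    have hex : ∀ p, ∃ a, p ∈ Q → (range p).filter (c p) = {a} := by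
      intro p
      by_cases hp : p ∈ Q
      · obtain ⟨a, ha⟩ := Finset.card_eq_one.mp (hone p hp)
        exact ⟨a, fun _ => ha⟩
      · exact ⟨0, fun h => absurd h hp⟩
    choose a ha using hex
    have hcop : Set.Pairwise (Q : Set ℕ) (Function.onFun Nat.Coprime (fun p : ℕ => p)) := by
      intro p hp q hq hpq
      exact (Nat.coprime_primes (hQ p hp) (hQ q hq)).mpr hpq
    obtain ⟨k0, hk0⟩ := Nat.chineseRemainderOfFinset a (fun p : ℕ => p) Q
      (fun p hp => (hQ p hp).ne_zero) hcop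
    have hiff : ∀ k, (∀ p ∈ Q, c p k) ↔ k ≡ k0 [MOD ∏ p ∈ Q, p] := by
      intro k
      have h1 : (∀ p ∈ Q, c p k) ↔ ∀ p ∈ Q, k ≡ k0 [MOD p] := by
        apply forall₂_congr
        intro p hp
        rw [← hper p hp k]
        have h2 : c p (k % p) ↔ k % p ∈ (range p).filter (c p) := by
          rw [mem_filter, mem_range]
          exact ⟨fun h => ⟨Nat.mod_lt _ (hQ p hp).pos, h⟩, fun h => h.2⟩
        rw [h2, ha p hp, mem_singleton]
        have h3 : a p ∈ (range p).filter (c p) := by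
          rw [ha p hp]; exact mem_singleton_self _
        rw [mem_filter, mem_range] at h3
        have h4 := hk0 p hp
        unfold Nat.ModEq at h4 ⊢
        rw [h4, Nat.mod_eq_of_lt h3.1]
      rw [h1]
      constructor
      · intro h
        rw [Nat.modEq_iff_dvd]
        push_cast
        apply Finset.prod_dvd_of_coprime
        · intro p hp q hq hpq
          exact Nat.isCoprime_iff_coprime.mpr (hcop hp hq hpq)
        · intro p hp
          exact Nat.modEq_iff_dvd.mp (h p hp)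
      · intro h p hp
        exact h.of_dvd (Finset.dvd_prod_of_mem _ hp)
    have h5 : (Icc 1 K).filter (fun k => ∀ p ∈ Q, c p k) =
        (Icc 1 K).filter (fun k => k ≡ k0 [MOD ∏ p ∈ Q, p]) := by
      apply Finset.filter_congr
      intro k _
      exact hiff k
    have h6 : ∏ p ∈ Q, (((range p).filter (c p)).card : ℝ) / (p : ℝ) = 1 / ((∏ p ∈ Q, p : ℕ) : ℝ) := by
      push_cast
      rw [one_div, ← Finset.prod_inv_distrib]
      apply Finset.prod_congr rfl
      intro p hp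
      rw [hone p hp]
      simp
    rw [h5, h6, mul_one_div]
    exact count_modEq K _ k0 (Finset.prod_pos (fun p hp => (hQ p hp).pos))

lemma mem_Pr {h R p : ℕ} : p ∈ Pr h R ↔ (1 ≤ p ∧ p ≤ R) ∧ p.Prime ∧ Nat.Coprime p h := by
  simp [Pr, mem_filter, mem_Icc]

/-- divisibility by an element of Dset through primes -/
lemma dvd_iff {h R d n : ℕ} (hd : d ∈ Dset h R) (hn : n ≠ 0) :
    d ∣ n ↔ ∀ p ∈ Pr h R, p ∣ d → p ∣ n := by
  rw [C1.mem_Dset] at hd
  constructor
  · intro h1 p _ hp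
    exact hp.trans h1
  · intro h1
    rw [← Nat.prod_primeFactors_of_squarefree hd.2.1, Nat.prod_primeFactors_dvd_iff hn]
    intro p hp
    have hpp := Nat.prime_of_mem_primeFactors hp
    have hpd := Nat.dvd_of_mem_primeFactors hp
    rw [Nat.mem_primeFactors]
    refine ⟨hpp, h1 p ?_ hpd, hn⟩
    rw [mem_Pr]
    exact ⟨⟨hpp.one_le, (Nat.le_of_dvd hd.1.1 hpd).trans hd.1.2⟩, hpp,
      Nat.Coprime.coprime_dvd_left hpd hd.2.2⟩

/-- the number of k for a fixed pair of vectors of divisors -/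
lemma count_pair (h R s K : ℕ) (v : Fin s → ℕ) (d d' : Fin s → ℕ)
    (hd : ∀ j, d j ∈ Dset h R) (hd' : ∀ j, d' j ∈ Dset h R) :
    |(((Icc 1 K).filter (fun k => ∀ j, d j ∣ 1 + h * k * v j ∧ d' j ∣ 1 + h * k * v j)).card : ℝ) -
      (K : ℝ) * ∏ p ∈ Pr h R, tauv h s v p (univ.filter (fun j => p ∣ d j ∨ p ∣ d' j))| ≤ 1 := by
  classical
  set J : ℕ → Finset (Fin s) := fun p => univ.filter (fun j => p ∣ d j ∨ p ∣ d' j) with hJ
  set Q := (Pr h R).filter (fun p => J p ≠ ∅) with hQdef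
  set c : ℕ → ℕ → Prop := fun p k => ∀ j ∈ J p, p ∣ 1 + h * k * v j with hc
  have hQ : ∀ p ∈ Q, p.Prime := by
    intro p hp
    rw [hQdef, mem_filter, mem_Pr] at hp
    exact hp.1.2.1
  have hper : ∀ p ∈ Q, ∀ k, c p (k % p) ↔ c p k := by
    intro p _ k
    simp only [hc]
    apply forall₂_congr
    intro j _
    have h1 : 1 + h * (k % p) * v j ≡ 1 + h * k * v j [MOD p] := by
      apply Nat.ModEq.add_left
      apply Nat.ModEq.mul_right
      apply Nat.ModEq.mul_left
      exact Nat.mod_modEq k p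
    exact h1.dvd_iff (dvd_refl p)
  have hN : ∀ p ∈ Q, ((range p).filter (c p)).card ≤ 1 := by
    intro p hp
    rw [hQdef, mem_filter, mem_Pr] at hp
    obtain ⟨⟨_, hpp, hph⟩, hne⟩ := hp
    obtain ⟨j, hj⟩ := Finset.nonempty_iff_ne_empty.mpr hne
    rw [Finset.card_le_one]
    intro a ha b hb
    rw [mem_filter, mem_range] at ha hb
    have h1 := ha.2 j hj
    have h2 := hb.2 j hj
    have hpv : ¬ p ∣ v j := by
      intro hpv
      have h3 : p ∣ h * a * v j := Dvd.dvd.mul_left hpv _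
      have h4 : p ∣ 1 := (Nat.dvd_add_left h3).mp h1
      exact hpp.one_lt.ne' (Nat.dvd_one.mp h4)
    have h5 : 1 + h * a * v j ≡ 1 + h * b * v j [MOD p] := by
      unfold Nat.ModEq
      rw [Nat.mod_eq_zero_of_dvd h1, Nat.mod_eq_zero_of_dvd h2]
    have h6 : h * a * v j ≡ h * b * v j [MOD p] := Nat.ModEq.add_left_cancel' 1 h5
    have h7 : h * a ≡ h * b [MOD p] :=
      Nat.ModEq.cancel_right_of_coprime ((Nat.Prime.coprime_iff_not_dvd hpp).mpr hpv) h6
    have h8 : a ≡ b [MOD p] := Nat.ModEq.cancel_left_of_coprime hph h7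
    exact Nat.ModEq.eq_of_lt_of_lt h8 ha.1 hb.1
  have hmain := count_crt Q hQ c hper hN K
  have hset : (Icc 1 K).filter (fun k => ∀ p ∈ Q, c p k) =
      (Icc 1 K).filter (fun k => ∀ j, d j ∣ 1 + h * k * v j ∧ d' j ∣ 1 + h * k * v j) := by
    apply Finset.filter_congr
    intro k _
    constructor
    · intro hk j
      have hn : 1 + h * k * v j ≠ 0 := by omega
      constructor
      · rw [dvd_iff (hd j) hn]
        intro p hp hpd
        have hjJ : j ∈ J p := by
          rw [hJ, mem_filter]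
          exact ⟨mem_univ _, Or.inl hpd⟩
        exact hk p (by rw [hQdef, mem_filter]; exact ⟨hp, Finset.ne_empty_of_mem hjJ⟩) j hjJ
      · rw [dvd_iff (hd' j) hn]
        intro p hp hpd
        have hjJ : j ∈ J p := by
          rw [hJ, mem_filter]
          exact ⟨mem_univ _, Or.inr hpd⟩
        exact hk p (by rw [hQdef, mem_filter]; exact ⟨hp, Finset.ne_empty_of_mem hjJ⟩) j hjJ
    · intro hk p _ j hj
      rw [hJ, mem_filter] at hj
      rcases hj.2 with h1 | h1
      · exact h1.trans (hk j).1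
      · exact h1.trans (hk j).2
  have hprod : ∏ p ∈ Q, (((range p).filter (c p)).card : ℝ) / (p : ℝ) =
      ∏ p ∈ Pr h R, tauv h s v p (J p) := by
    rw [hQdef, Finset.prod_filter]
    apply Finset.prod_congr rfl
    intro p _
    unfold tauv
    by_cases hJe : J p = ∅
    · rw [if_neg (by simpa using hJe), if_pos hJe]
    · rw [if_pos hJe, if_neg hJe]
  rw [hset, hprod] at hmain
  exact hmain

lemma card_Dset_le (h R : ℕ) : (Dset h R).card ≤ R := by
  unfold Dset
  calc _ ≤ (Icc 1 R).card := Finset.card_filter_le _ _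
    _ = R := by simp

lemma expand (h R s k : ℕ) (v : Fin s → ℕ) :
    ∏ j, Lam h R (1 + h * k * v j) ^ 2 =
      ∑ d ∈ Fintype.piFinset (fun _ : Fin s => Dset h R),
        ∑ d' ∈ Fintype.piFinset (fun _ : Fin s => Dset h R),
          (∏ j, lam h R (d j) * lam h R (d' j)) *
            (if ∀ j, d j ∣ 1 + h * k * v j ∧ d' j ∣ 1 + h * k * v j then 1 else 0) := by
  have h1 : ∏ j, Lam h R (1 + h * k * v j) =
      ∑ d ∈ Fintype.piFinset (fun _ : Fin s => Dset h R),
        ∏ j, (if d j ∣ 1 + h * k * v j then lam h R (d j) else 0) := by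
    unfold Lam
    rw [← Finset.prod_univ_sum (fun _ : Fin s => Dset h R)
      (fun j d => if d ∣ 1 + h * k * v j then lam h R d else 0)]
    apply Finset.prod_congr rfl
    intro j _
    rw [Finset.sum_filter]
  rw [Finset.prod_pow, sq, h1, Finset.sum_mul_sum]
  apply Finset.sum_congr rfl
  intro d _
  apply Finset.sum_congr rfl
  intro d' _
  by_cases hall : ∀ j, d j ∣ 1 + h * k * v j ∧ d' j ∣ 1 + h * k * v j
  · rw [if_pos hall, mul_one, ← Finset.prod_mul_distrib]
    apply Finset.prod_congr rfl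
    intro j _
    rw [if_pos (hall j).1, if_pos (hall j).2]
  · rw [if_neg hall, mul_zero, ← Finset.prod_mul_distrib]
    push Not at hall
    obtain ⟨j, hj⟩ := hall
    apply Finset.prod_eq_zero (mem_univ j)
    by_cases h2 : d j ∣ 1 + h * k * v j
    · rw [if_neg (hj h2), mul_zero]
    · rw [if_neg h2, zero_mul]

end C4

/-- C4. -/
theorem claimC4 : ClaimC4 := by
  intro c1 h R s K hh hR hK v
  have hlam := (c1 h R hh hR).2.1
  have hK0 : (0 : ℝ) < K := by exact_mod_cast hK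
  have h1 : (∑ k ∈ Icc 1 K, ∏ j, Lam h R (1 + h * k * v j) ^ 2) / (K : ℝ) =
      ∑ d ∈ Fintype.piFinset (fun _ : Fin s => Dset h R),
        ∑ d' ∈ Fintype.piFinset (fun _ : Fin s => Dset h R),
          (∏ j, lam h R (d j) * lam h R (d' j)) *
            ((((Icc 1 K).filter (fun k => ∀ j, d j ∣ 1 + h * k * v j ∧
              d' j ∣ 1 + h * k * v j)).card : ℝ) / (K : ℝ)) := by
    rw [Finset.sum_congr rfl (fun k _ => C4.expand h R s k v), Finset.sum_comm, Finset.sum_div]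
    apply Finset.sum_congr rfl
    intro d _
    rw [Finset.sum_comm, Finset.sum_div]
    apply Finset.sum_congr rfl
    intro d' _
    rw [← Finset.mul_sum, mul_div_assoc, Finset.card_filter]
    push_cast
    rfl
  rw [h1]
  unfold Smod
  rw [← Finset.sum_sub_distrib]
  have h2 : ∀ d ∈ Fintype.piFinset (fun _ : Fin s => Dset h R),
      |∑ d' ∈ Fintype.piFinset (fun _ : Fin s => Dset h R),
          (∏ j, lam h R (d j) * lam h R (d' j)) *
            ((((Icc 1 K).filter (fun k => ∀ j, d j ∣ 1 + h * k * v j ∧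
              d' j ∣ 1 + h * k * v j)).card : ℝ) / (K : ℝ)) -
        ∑ d' ∈ Fintype.piFinset (fun _ : Fin s => Dset h R),
          (∏ j, lam h R (d j) * lam h R (d' j)) *
            ∏ p ∈ Pr h R, tauv h s v p (univ.filter (fun j => p ∣ d j ∨ p ∣ d' j))| ≤
      ((Fintype.piFinset (fun _ : Fin s => Dset h R)).card : ℝ) * (1 / (K : ℝ)) := by
    intro d hd
    rw [Fintype.mem_piFinset] at hd
    rw [← Finset.sum_sub_distrib]
    refine (Finset.abs_sum_le_sum_abs _ _).trans ?_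
    rw [← nsmul_eq_mul]
    apply Finset.sum_le_card_nsmul
    intro d' hd'
    rw [Fintype.mem_piFinset] at hd'
    rw [← mul_sub, abs_mul]
    have h3 : |∏ j, lam h R (d j) * lam h R (d' j)| ≤ 1 := by
      rw [Finset.abs_prod]
      apply Finset.prod_le_one
      · intro j _
        exact abs_nonneg _
      · intro j _
        rw [abs_mul]
        exact mul_le_one₀ (hlam _) (abs_nonneg _) (hlam _)
    have h4 := C4.count_pair h R s K v d d' hd hd'
    have h5 : |(((Icc 1 K).filter (fun k => ∀ j, d j ∣ 1 + h * k * v j ∧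
              d' j ∣ 1 + h * k * v j)).card : ℝ) / (K : ℝ) -
            ∏ p ∈ Pr h R, tauv h s v p (univ.filter (fun j => p ∣ d j ∨ p ∣ d' j))| ≤ 1 / (K : ℝ) := by
      have h6 : (((Icc 1 K).filter (fun k => ∀ j, d j ∣ 1 + h * k * v j ∧
              d' j ∣ 1 + h * k * v j)).card : ℝ) / (K : ℝ) -
            ∏ p ∈ Pr h R, tauv h s v p (univ.filter (fun j => p ∣ d j ∨ p ∣ d' j)) =
          ((((Icc 1 K).filter (fun k => ∀ j, d j ∣ 1 + h * k * v j ∧
              d' j ∣ 1 + h * k * v j)).card : ℝ) -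
            (K : ℝ) * ∏ p ∈ Pr h R, tauv h s v p (univ.filter (fun j => p ∣ d j ∨ p ∣ d' j))) /
              (K : ℝ) := by
        field_simp
      rw [h6, abs_div, abs_of_pos hK0]
      exact div_le_div_of_nonneg_right h4 hK0.le
    calc |∏ j, lam h R (d j) * lam h R (d' j)| * _ ≤ 1 * _ :=
          mul_le_mul_of_nonneg_right h3 (abs_nonneg _)
      _ ≤ 1 / (K : ℝ) := by rw [one_mul]; exact h5
  refine (Finset.abs_sum_le_sum_abs _ _).trans ((Finset.sum_le_card_nsmul _ _ _ h2).trans ?_)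
  rw [nsmul_eq_mul]
  have hcard : ((Fintype.piFinset (fun _ : Fin s => Dset h R)).card : ℝ) ≤ (R : ℝ) ^ s := by
    rw [Fintype.card_piFinset]
    simp only [Finset.prod_const, Finset.card_univ, Fintype.card_fin]
    push_cast
    exact pow_le_pow_left₀ (by positivity) (by exact_mod_cast C4.card_Dset_le h R) s
  calc ((Fintype.piFinset (fun _ : Fin s => Dset h R)).card : ℝ) *
        (((Fintype.piFinset (fun _ : Fin s => Dset h R)).card : ℝ) * (1 / (K : ℝ)))
      ≤ (R : ℝ) ^ s * ((R : ℝ) ^ s * (1 / (K : ℝ))) := by gcongr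
    _ = (R : ℝ) ^ (2 * s) / (K : ℝ) := by
        rw [two_mul, pow_add]; ring

end D159

end
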